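import Pool.Agent.Lib.MP_fa98d2_nt.I.Stmts

/-! Density theorem at the real place: the matrix of generators on a spherical vector. -/

open MeasureTheory Filter Topology Matrix
open scoped ENNReal Real ContDiff ComplexConjugate InnerProductSpace

noncomputable section

namespace Pool.Agent.Lib.MP_fa98d2_nt.D

namespace SI

open SW

namespace Alg

section alg

variable {n : ℕ} {M : Type} [AddCommGroup M] [Module ℂ M] {e : Fin n → Fin n → Module.End ℂ M}

lemma pf_add (f g : Polynomial ℂ) (i j : Fin n) : Pf e (f + g) i j = Pf e f i j + Pf e g i j :=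
  Polynomial.sum_add_index f g _ (fun _ => zero_smul _ _) fun _ _ _ => add_smul _ _ _

lemma pf_mono (k : ℕ) (c : ℂ) (i j : Fin n) :
    Pf e (Polynomial.monomial k c) i j = c • epw e k i j :=
  Polynomial.sum_monomial_index c _ (zero_smul _ _)

lemma tau_add (γ : ℕ → ℂ) (f g : Polynomial ℂ) : tau γ (f + g) = tau γ f + tau γ g :=
  Polynomial.sum_add_index f g _ (fun _ => zero_mul _) fun _ _ _ => add_mul _ _ _

lemma tau_mono (γ : ℕ → ℂ) (k : ℕ) (c : ℂ) : tau γ (Polynomial.monomial k c) = c * γ k :=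
  Polynomial.sum_monomial_index c _ (zero_mul _)

lemma pf_C (c : ℂ) (i j : Fin n) :
    Pf e (Polynomial.C c) i j = if i = j then c • (1 : Module.End ℂ M) else 0 := by
  rw [← Polynomial.monomial_zero_left, pf_mono, epw]
  split_ifs <;> simp

lemma pf_C_mul (c : ℂ) (f : Polynomial ℂ) (i j : Fin n) :
    Pf e (Polynomial.C c * f) i j = c • Pf e f i j := by
  induction f using Polynomial.induction_on' with
  | add f g hf hg => rw [mul_add, pf_add, pf_add, hf, hg, smul_add]
  | monomial k a => rw [Polynomial.C_mul_monomial, pf_mono, pf_mono, mul_smul]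

lemma pf_X (f : Polynomial ℂ) (i j : Fin n) :
    Pf e (Polynomial.X * f) i j = ∑ l, e i l * Pf e f l j := by
  induction f using Polynomial.induction_on' with
  | add f g hf hg =>
    simp only [mul_add, pf_add, hf, hg, Finset.sum_add_distrib]
  | monomial k a =>
    rw [Polynomial.X_mul_monomial, pf_mono, epw, Finset.smul_sum]
    simp only [pf_mono, mul_smul_comm]

lemma pf_tr {γ : ℕ → ℂ} (hγ : ∀ m, egel e m = γ m • (1 : Module.End ℂ M)) (f : Polynomial ℂ) :
    ∑ i, Pf e f i i = tau γ f • (1 : Module.End ℂ M) := by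
  induction f using Polynomial.induction_on' with
  | add f g hf hg => simp only [pf_add, Finset.sum_add_distrib, hf, hg, tau_add, add_smul]
  | monomial k a =>
    simp only [pf_mono, tau_mono, ← Finset.smul_sum, mul_smul, ← hγ, egel]

lemma pf_comm (he : Comm 1 e) (a b : Fin n) (f : Polynomial ℂ) (i j : Fin n) :
    e a b * Pf e f i j - Pf e f i j * e a b =
      (if b = i then Pf e f a j else 0) - (if j = a then Pf e f i b else 0) := by
  induction f using Polynomial.induction_on' with
  | add f g hf hg =>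
    simp only [pf_add, mul_add, add_mul]
    rw [add_sub_add_comm, hf, hg]
    split_ifs <;> abel
  | monomial k c =>
    simp only [pf_mono, mul_smul_comm, smul_mul_assoc]
    rw [← smul_sub, Calc.comm_epw he]
    split_ifs <;> simp [smul_sub]

lemma epw_succ' (k : ℕ) : ∀ i j, epw e (k + 1) i j = ∑ l, epw e k i l * e l j := by
  induction k with
  | zero => intro i j; simp [epw]
  | succ k ih =>
    intro i j
    rw [epw]
    simp only [ih, Finset.mul_sum]
    rw [Finset.sum_comm]
    refine Finset.sum_congr rfl fun l _ => ?_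
    rw [← ih, epw, Finset.sum_mul]
    simp only [mul_assoc]

lemma epw_symm (he : Comm 1 e) {φ : M} (hφ : ∀ a b, e a b φ = e b a φ) (k : ℕ) :
    ∀ i j, epw e k i j φ = epw e k j i φ := by
  induction k with
  | zero => intro i j; simp only [epw, @eq_comm _ i j]
  | succ k ih =>
    intro i j
    have h1 : ∀ l, (epw e k j l * e l i) φ = (e i l * epw e k l j) φ -
        ((if l = j then epw e k i l φ else 0) - if l = i then epw e k j l φ else 0) := by
      intro l
      have := LinearMap.congr_fun (Calc.comm_epw he i l k j l) φ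
      simp only [LinearMap.sub_apply, Module.End.mul_apply, apply_ite (fun T : Module.End ℂ M => T φ),
        LinearMap.zero_apply] at this ⊢
      rw [← this, hφ l i, ih l j]
      abel
    rw [epw_succ' k j i, epw, LinearMap.sum_apply, LinearMap.sum_apply]
    simp only [h1, Finset.sum_sub_distrib, Finset.sum_ite_eq', Finset.mem_univ, if_true]
    rw [ih i j, sub_self, sub_zero]

lemma pf_symm (he : Comm 1 e) {φ : M} (hφ : ∀ a b, e a b φ = e b a φ) (f : Polynomial ℂ)
    (i j : Fin n) : Pf e f i j φ = Pf e f j i φ := by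
  induction f using Polynomial.induction_on' with
  | add f g hf hg => simp only [pf_add, LinearMap.add_apply, hf, hg]
  | monomial k c => simp only [pf_mono, LinearMap.smul_apply, epw_symm he hφ k i j]

lemma pf_rot (he : Comm 1 e) {φ : M} (hφ : ∀ a b, e a b φ = e b a φ) (f : Polynomial ℂ)
    (a b i j : Fin n) : e a b (Pf e f i j φ) = e b a (Pf e f i j φ) +
      (((if b = i then Pf e f a j φ else 0) - if j = a then Pf e f i b φ else 0) -
        ((if a = i then Pf e f b j φ else 0) - if j = b then Pf e f i a φ else 0)) := by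
  have h1 := LinearMap.congr_fun (pf_comm he a b f i j) φ
  have h2 := LinearMap.congr_fun (pf_comm he b a f i j) φ
  simp only [LinearMap.sub_apply, Module.End.mul_apply, apply_ite (fun T : Module.End ℂ M => T φ),
    LinearMap.zero_apply] at h1 h2
  rw [← h1, ← h2, hφ a b]
  abel

lemma pf_sum (he : Comm 1 e) {γ : ℕ → ℂ} (hγ : ∀ m, egel e m = γ m • (1 : Module.End ℂ M))
    {φ : M} (hφ : ∀ a b, e a b φ = e b a φ) (h : Polynomial ℂ) (l j : Fin n) :
    ∑ i, e i l (Pf e h i j φ) = Pf e (Polynomial.X * h) l j φ - (n : ℂ) • Pf e h l j φ +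
      if j = l then tau γ h • φ else 0 := by
  have h1 := LinearMap.congr_fun (pf_tr hγ h) φ
  simp only [LinearMap.sum_apply, LinearMap.smul_apply, Module.End.one_apply] at h1
  rw [Finset.sum_congr rfl fun i _ => pf_rot he hφ h i l i j, pf_X, LinearMap.sum_apply]
  simp only [Finset.sum_add_distrib, Finset.sum_sub_distrib, Finset.sum_ite_eq, Finset.mem_univ,
    if_true, Finset.sum_ite_irrel, Finset.sum_const_zero, h1, Module.End.mul_apply,
    Finset.sum_const, Finset.card_univ, Fintype.card_fin]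
  rw [pf_symm he hφ h j l, Nat.cast_smul_eq_nsmul]
  abel

variable {H : Type} [NormedAddCommGroup H] [InnerProductSpace ℂ H]

/-- the sesquilinear form on polynomials -/
def Bf (e : Fin n → Fin n → Module.End ℂ M) (K : M →ₗ[ℂ] H) (φ : M) (f h : Polynomial ℂ) : ℂ :=
  ∑ i, ∑ j, ⟪K (Pf e h i j φ), K (Pf e f i j φ)⟫_ℂ

variable {K : M →ₗ[ℂ] H} {φ : M} {γ : ℕ → ℂ}

lemma bf_C (hγ : ∀ m, egel e m = γ m • (1 : Module.End ℂ M)) (f : Polynomial ℂ) (c : ℂ) :
    Bf e K φ f (Polynomial.C c) = conj c * tau γ f * ⟪K φ, K φ⟫_ℂ := by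
  have h1 := LinearMap.congr_fun (pf_tr hγ f) φ
  simp only [LinearMap.sum_apply, LinearMap.smul_apply, Module.End.one_apply] at h1
  have h2 : ∀ i j, ⟪K (Pf e (Polynomial.C c) i j φ), K (Pf e f i j φ)⟫_ℂ =
      if i = j then conj c * ⟪K φ, K (Pf e f i j φ)⟫_ℂ else 0 := by
    intro i j
    rw [pf_C]
    split_ifs <;> simp [mul_comm]
  simp only [Bf, h2, Finset.sum_ite_eq, Finset.mem_univ, if_true]
  rw [← Finset.mul_sum, ← inner_sum, ← map_sum, h1, map_smul, inner_smul_right, mul_assoc]

lemma bf_conj (f h : Polynomial ℂ) : conj (Bf e K φ f h) = Bf e K φ h f := by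
  simp only [Bf, map_sum, inner_conj_symm]

lemma bf_add (f h h' : Polynomial ℂ) :
    Bf e K φ f (h + h') = Bf e K φ f h + Bf e K φ f h' := by
  simp only [Bf, pf_add, LinearMap.add_apply, map_add, inner_add_left, Finset.sum_add_distrib]

lemma bf_C_mul (f h : Polynomial ℂ) (c : ℂ) :
    Bf e K φ f (Polynomial.C c * h) = conj c * Bf e K φ f h := by
  simp only [Bf, pf_C_mul, LinearMap.smul_apply, map_smul, inner_smul_left, Finset.mul_sum]

lemma bf_X (he : Comm 1 e) (hγ : ∀ m, egel e m = γ m • (1 : Module.End ℂ M))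
    (hφ : ∀ a b, e a b φ = e b a φ)
    (hK : ∀ a b f g, ⟪K g, K (e a b f)⟫_ℂ + ⟪K (e a b g), K f⟫_ℂ = 0) (f h : Polynomial ℂ) :
    Bf e K φ (Polynomial.X * f) h + Bf e K φ f (Polynomial.X * h) =
      n * Bf e K φ f h - conj (tau γ h) * tau γ f * ⟪K φ, K φ⟫_ℂ := by
  have h1 := LinearMap.congr_fun (pf_tr hγ f) φ
  simp only [LinearMap.sum_apply, LinearMap.smul_apply, Module.End.one_apply] at h1
  have h2 : Bf e K φ (Polynomial.X * f) h =
      -∑ l, ∑ j, ⟪K (∑ i, e i l (Pf e h i j φ)), K (Pf e f l j φ)⟫_ℂ := by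
    simp only [Bf, pf_X, LinearMap.sum_apply, Module.End.mul_apply, map_sum, inner_sum, sum_inner,
      eq_neg_of_add_eq_zero_left (hK _ _ _ _), Finset.sum_neg_distrib]
    congr 1
    rw [Finset.sum_comm]
    refine Eq.trans ?_ Finset.sum_comm
    exact Finset.sum_congr rfl fun j _ => Finset.sum_comm
  have h3 : ∀ l j, ⟪K (if j = l then tau γ h • φ else 0), K (Pf e f l j φ)⟫_ℂ =
      if j = l then conj (tau γ h) * ⟪K φ, K (Pf e f l j φ)⟫_ℂ else 0 := by
    intro l j
    split_ifs <;> simp [mul_comm]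
  rw [h2]
  simp only [pf_sum he hγ hφ, map_add, map_sub, map_smul, inner_add_left, inner_sub_left,
    inner_smul_left, h3, Finset.sum_add_distrib, Finset.sum_sub_distrib, Finset.sum_ite_eq',
    Finset.mem_univ, if_true, ← Finset.mul_sum, Complex.conj_natCast]
  rw [← inner_sum, ← map_sum, h1, map_smul, inner_smul_right]
  simp only [Bf]
  ring

lemma ch (he : Comm 1 e) (hγ : ∀ m, egel e m = γ m • (1 : Module.End ℂ M))
    (hφ : ∀ a b, e a b φ = e b a φ)
    (hK : ∀ a b f g, ⟪K g, K (e a b f)⟫_ℂ + ⟪K (e a b g), K f⟫_ℂ = 0) {A : Polynomial ℂ}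
    (hA : ∀ g, tau γ (A * g) = 0) (i j : Fin n) : K (Pf e A i j φ) = 0 := by
  have h1 : ∀ h g, Bf e K φ (A * g) h = 0 := by
    intro h
    induction h using Polynomial.induction_on with
    | C a => intro g; rw [bf_C hγ, hA, mul_zero, zero_mul]
    | add f h hf hh => intro g; rw [bf_add, hf, hh, add_zero]
    | monomial k a ih =>
      intro g
      have := bf_X he hγ hφ hK (A * g) (Polynomial.C a * Polynomial.X ^ k)
      rw [mul_left_comm Polynomial.X A, ih, ih, hA] at this
      rw [pow_succ', mul_left_comm]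
      simpa using this
  have h2 := congrArg Complex.re (h1 A 1)
  rw [mul_one, Bf] at h2
  simp only [Complex.re_sum, Complex.zero_re] at h2
  have h3 : ∀ i j, 0 ≤ (⟪K (Pf e A i j φ), K (Pf e A i j φ)⟫_ℂ).re :=
    fun i j => inner_self_nonneg (𝕜 := ℂ)
  have h4 := (Finset.sum_eq_zero_iff_of_nonneg fun i _ =>
    Finset.sum_nonneg fun j _ => h3 i j).1 h2 i (Finset.mem_univ _)
  have h5 := (Finset.sum_eq_zero_iff_of_nonneg fun j _ => h3 i j).1 h4 j (Finset.mem_univ _)
  exact (re_inner_self_nonpos (𝕜 := ℂ)).1 h5.le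

lemma eval_AA (μ : Fin n → ℂ) (u : ℂ) : (AA μ).eval u = ∏ i, (u - (μ i + ((n : ℂ) - 1) / 2)) := by
  simp [AA, Polynomial.eval_prod]

lemma X_QQ (μ : Fin n → ℂ) (u : ℂ) : Polynomial.X * QQ μ u =
    Polynomial.C u * QQ μ u + (AA μ + Polynomial.C (-(AA μ).eval u)) := by
  have := Polynomial.modByMonic_add_div (AA μ) (Polynomial.X - Polynomial.C u)
  rw [Polynomial.modByMonic_X_sub_C_eq_C_eval] at this
  rw [QQ, map_neg]
  linear_combination this

lemma key (he : Comm 1 e) (hγ : ∀ m, egel e m = γ m • (1 : Module.End ℂ M))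
    (hφ : ∀ a b, e a b φ = e b a φ)
    (hK : ∀ a b f g, ⟪K g, K (e a b f)⟫_ℂ + ⟪K (e a b g), K f⟫_ℂ = 0) {μ : Fin n → ℂ}
    (hP : PPf γ μ) (h0 : K φ ≠ 0) (z : ℂ) :
    (∏ k, (z - μ k)) * ∏ k, (-(z + 1) - conj (μ k)) =
      (∏ k, (z + 1 - μ k)) * ∏ k, (-z - conj (μ k)) := by
  have hz : ∀ f, Bf e K φ f (AA μ) = 0 := fun f => by
    simp only [Bf, ch he hγ hφ hK hP.ann, inner_zero_left, Finset.sum_const_zero]
  have hq : ∀ f u, Bf e K φ f (Polynomial.X * QQ μ u) = conj u * Bf e K φ f (QQ μ u) -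
      conj ((AA μ).eval u) * tau γ f * ⟪K φ, K φ⟫_ℂ := fun f u => by
    rw [X_QQ, bf_add, bf_add, bf_C_mul, hz, bf_C hγ, map_neg]; ring
  have hκ : ⟪K φ, K φ⟫_ℂ ≠ 0 := inner_self_ne_zero.2 h0
  have h1 : ∀ u v : ℂ, u + conj v = n → (AA μ).eval u ≠ 0 → (AA μ).eval v ≠ 0 →
      (AA μ).eval (u - 1) * conj ((AA μ).eval (v - 1)) =
        (AA μ).eval u * conj ((AA μ).eval v) := by
    intro u v huv hu hv
    have a1 := bf_X he hγ hφ hK (QQ μ u) (QQ μ v)
    rw [← bf_conj (QQ μ v) (Polynomial.X * QQ μ u), hq, hq, ← huv] at a1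
    simp only [map_sub, map_mul, Complex.conj_conj, bf_conj, inner_conj_symm, hP.val u hu,
      hP.val v hv] at a1
    apply mul_right_cancel₀ hκ
    linear_combination a1
  have hS : (Set.range (fun k => μ k - 1) ∪ Set.range fun k => -conj (μ k)).Countable :=
    ((Set.finite_range _).union (Set.finite_range _)).countable
  refine congrFun (Continuous.ext_on (f := fun z : ℂ =>
    (∏ k, (z - μ k)) * ∏ k, (-(z + 1) - conj (μ k))) (g := fun z : ℂ =>
    (∏ k, (z + 1 - μ k)) * ∏ k, (-z - conj (μ k))) (hS.dense_compl ℂ) (by fun_prop) (by fun_prop)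
    fun z hz => ?_) z
  simp only [Set.mem_compl_iff, Set.mem_union, Set.mem_range, not_or, not_exists] at hz
  have e1 : (AA μ).eval (z + 1 + ((n : ℂ) - 1) / 2) = ∏ k, (z + 1 - μ k) := by
    rw [eval_AA]; exact Finset.prod_congr rfl fun k _ => by ring
  have e2 : (AA μ).eval (z + 1 + ((n : ℂ) - 1) / 2 - 1) = ∏ k, (z - μ k) := by
    rw [eval_AA]; exact Finset.prod_congr rfl fun k _ => by ring
  have e3 : ∀ w : ℂ, conj ((AA μ).eval (-conj w + ((n : ℂ) - 1) / 2)) =
      ∏ k, (-w - conj (μ k)) := fun w => by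
    rw [eval_AA, map_prod]
    refine Finset.prod_congr rfl fun k _ => ?_
    rw [add_sub_add_right_eq_sub, map_sub, map_neg, Complex.conj_conj]
  have e4 : -conj z + ((n : ℂ) - 1) / 2 - 1 = -conj (z + 1) + ((n : ℂ) - 1) / 2 := by
    rw [map_add, map_one]; ring
  have := h1 (z + 1 + ((n : ℂ) - 1) / 2) (-conj z + ((n : ℂ) - 1) / 2) (by
      simp only [map_add, map_neg, map_div₀, map_sub, map_one, Complex.conj_conj,
        Complex.conj_natCast, Complex.conj_ofNat]
      ring)
    (by
      rw [e1]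
      exact Finset.prod_ne_zero_iff.2 fun k _ h => hz.1 k (by linear_combination -h))
    (by
      rw [← map_ne_zero (starRingEnd ℂ), e3]
      exact Finset.prod_ne_zero_iff.2 fun k _ h => hz.2 k (by linear_combination h))
  rwa [e1, e2, e4, e3, e3] at this

end alg

lemma par {N : ℕ} {μ : Fin (N + 1) → ℂ}
    (h : ∀ z : ℂ, (∏ k, (z - μ k)) * ∏ k, (-(z + 1) - conj (μ k)) =
      (∏ k, (z + 1 - μ k)) * ∏ k, (-z - conj (μ k))) :
    ∃ i k, (μ i).re = -thetaInf μ ∧ μ k = -conj (μ i) := by
  obtain ⟨i, hi⟩ := exists_eq_ciSup_of_finite (f := fun i => |(μ i).re|)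
  have hle : ∀ k, |(μ k).re| ≤ |(μ i).re| := fun k =>
    hi ▸ le_ciSup (f := fun i => |(μ i).re|) (Set.finite_range _).bddAbove k
  have hθ : thetaInf μ = |(μ i).re| := hi.symm
  rw [hθ]
  rcases le_total 0 (μ i).re with h0 | h0
  · rw [abs_of_nonneg h0] at hle ⊢
    have h1 := h (μ i)
    rw [Finset.prod_eq_zero (Finset.mem_univ i) (sub_self _), zero_mul, eq_comm, mul_eq_zero,
      Finset.prod_eq_zero_iff, Finset.prod_eq_zero_iff] at h1
    rcases h1 with ⟨k, -, hk⟩ | ⟨k, -, hk⟩
    · have h2 := congrArg Complex.re hk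
      have h3 := (abs_le.1 (hle k)).2
      simp only [Complex.sub_re, Complex.add_re, Complex.one_re, Complex.zero_re] at h2
      linarith
    · have h2 := congrArg Complex.re hk
      simp only [Complex.sub_re, Complex.neg_re, Complex.conj_re, Complex.zero_re] at h2
      exact ⟨k, i, by linarith, by linear_combination -hk⟩
  · rw [abs_of_nonpos h0] at hle ⊢
    have h1 := h (μ i - 1)
    rw [sub_add_cancel, Finset.prod_eq_zero (f := fun k => μ i - μ k) (Finset.mem_univ i)
      (sub_self (μ i)), zero_mul,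
      mul_eq_zero, Finset.prod_eq_zero_iff, Finset.prod_eq_zero_iff] at h1
    rcases h1 with ⟨k, -, hk⟩ | ⟨k, -, hk⟩
    · have h2 := congrArg Complex.re hk
      have h3 := (abs_le.1 (hle k)).1
      simp only [Complex.sub_re, Complex.one_re, Complex.zero_re] at h2
      linarith
    · refine ⟨i, k, by ring, ?_⟩
      have h2 := congrArg conj hk
      simp only [map_sub, map_neg, Complex.conj_conj, map_zero] at h2
      linear_combination -h2

end Alg

open Alg

theorem algS : AlgS where
  ch N d φ μ hφ hP i j :=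
    d.K_inj (ch d.e_comm d.egel_eq hφ (kir.skew N d) hP.ann i j)
  par N d φ μ h0 hφ hP _ :=
    Alg.par (key d.e_comm d.egel_eq hφ (kir.skew N d) hP fun h => h0 (d.K_inj h))
  col N d φ hφ f b := by
    have h1 := LinearMap.congr_fun (pf_tr d.egel_eq f) φ
    simp only [LinearMap.sum_apply, LinearMap.smul_apply, Module.End.one_apply] at h1
    have h2 : ∀ l, d.e b l (Pf d.e f l (Fin.last N) φ) =
        (if b ≤ l then d.e b l else d.e l b) (Pf d.e f l (Fin.last N) φ) +
          (if l < b then Pf d.e f b (Fin.last N) φ else 0) -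
          if b = Fin.last N then
            (Pf d.e f l l φ - if l = Fin.last N then Pf d.e f l l φ else 0) else 0 := by
      intro l
      rcases le_or_gt b l with h | h
      · rw [if_pos h, if_neg (not_lt.2 h), add_zero]
        by_cases hb : b = Fin.last N
        · have hl : l = Fin.last N := le_antisymm (Fin.le_last l) (hb ▸ h)
          rw [if_pos hb, if_pos hl, sub_self, sub_zero]
        · rw [if_neg hb, sub_zero]
      · have hl : l ≠ Fin.last N := (h.trans_le (Fin.le_last b)).ne
        rw [pf_rot d.e_comm hφ f b l l (Fin.last N), if_neg (not_le.2 h), if_pos h, if_pos rfl,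
          if_neg h.ne', if_neg hl, if_neg hl.symm]
        simp only [@eq_comm _ (Fin.last N) b, sub_zero]
        abel
    rw [pf_X, LinearMap.sum_apply]
    simp only [Module.End.mul_apply]
    rw [Finset.sum_congr rfl fun l _ => h2 l]
    simp only [Finset.sum_add_distrib, Finset.sum_sub_distrib, Finset.sum_ite_irrel,
      Finset.sum_const_zero, Finset.sum_ite_eq', Finset.mem_univ, if_true, h1]
    rw [← Finset.sum_filter, Finset.sum_const, Finset.filter_gt_eq_Iio, Fin.card_Iio,
      Nat.cast_smul_eq_nsmul]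

end SI

end Pool.Agent.Lib.MP_fa98d2_nt.D
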