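import Pool.Agent.Lib.MP_fa98d2_nt.I.Stmts

/-! Density theorem at the real place: the Bessel inequality in a box. -/

open MeasureTheory Filter Topology Matrix
open scoped ENNReal Real ContDiff ComplexConjugate InnerProductSpace

noncomputable section

namespace Pool.Agent.Lib.MP_fa98d2_nt.D

namespace SI

open SW

namespace Bes

variable {N k : ℕ}

lemma orth {o : G k} {a : Fin k → ℝ} (ho : IsO o) (ha : ∀ i, 0 < a i) :
    (dg a * o).val * (dg a * o).valᵀ = diagonal fun i => a i ^ 2 := by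
  have h1 : o.val * o.valᵀ = 1 := (Matrix.mem_orthogonalGroup_iff _ _).1 ho
  rw [Units.val_mul, val_dg fun i => (ha i).ne', Matrix.transpose_mul, Matrix.diagonal_transpose,
    Matrix.mul_assoc, ← Matrix.mul_assoc o.val, h1, Matrix.one_mul, Matrix.diagonal_mul_diagonal]
  simp only [sq]

lemma vec_le {o : G k} {a : Fin k → ℝ} (ha : ∀ i, 0 < a i)
    (h : o.val * o.valᵀ = diagonal fun i => a i ^ 2) (η : Fin k → ℝ) (i : Fin k) :
    |η i| * a i ≤ k * ‖η ᵥ* o.val‖ := by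
  rcases eq_or_ne (η i) 0 with h0 | h0
  · rw [h0, abs_zero, zero_mul]
    positivity
  · have hp : 0 < |η i| := abs_pos.2 h0
    have h1 := CD.vec_lower ha h (η := |η i|⁻¹ • η) (i := i) (by
      rw [Pi.smul_apply, smul_eq_mul, abs_mul, abs_inv, abs_abs, inv_mul_cancel₀ hp.ne'])
    rw [Matrix.smul_vecMul, norm_smul, norm_inv, Real.norm_eq_abs, abs_abs, mul_left_comm,
      le_inv_mul_iff₀ hp] at h1
    exact h1

/-- the box -/
def Bx (x0 : RR N) (a : Fin (N + 1) → ℝ) : Prop :=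
  ∀ i, Real.exp (x0 i) ≤ a i ∧ a i ≤ Real.exp (x0 i + 2)

/-- the support of the weight lies in the box -/
def Sup (x0 : RR N) (w : G (N + 1) → ℝ≥0∞) : Prop :=
  ∀ g, w g ≤ 1 ∧ (w g ≠ 0 → ∃ (u o : G (N + 1)) (a : Fin (N + 1) → ℝ), IsU u ∧ IsO o ∧
    (∀ i, 0 < a i) ∧ g = u * (dg a * o) ∧ Bx x0 a)

lemma exists_w (hIa : IaS) (x0 : RR N) : ∃ w : G (N + 1) → ℝ≥0∞, Measurable w ∧ UInv w ∧
    OInv w ∧ (∀ x ∈ Set.Icc x0 fun i => x0 i + 2, 1 ≤ w (ex x)) ∧ Sup x0 w := by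
  classical
  obtain ⟨ia, hm, h⟩ := hIa.ia (N + 1)
  refine ⟨fun g => if Bx x0 (ia g) then 1 else 0, ?_, fun u hu g => ?_, fun b hb g => ?_,
    fun x hx => ?_, fun g => ⟨?_, fun h0 => ?_⟩⟩
  · refine Measurable.ite ?_ measurable_const measurable_const
    have : {g : G (N + 1) | Bx x0 (ia g)} = ⋂ i, ({g | Real.exp (x0 i) ≤ ia g i} ∩
        {g | ia g i ≤ Real.exp (x0 i + 2)}) := by
      ext g
      simp [Bx]
    rw [this]
    exact MeasurableSet.iInter fun i =>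
      (measurableSet_le measurable_const ((measurable_pi_apply i).comp hm)).inter
        (measurableSet_le ((measurable_pi_apply i).comp hm) measurable_const)
  · obtain ⟨v, o, a, hv, ho, ha, rfl⟩ := hIa.dec _ g
    dsimp only
    rw [h v o a hv ho ha, ← mul_assoc, ← mul_assoc, h _ o a (hu.mul hv) ho ha]
  · obtain ⟨v, o, a, hv, ho, ha, rfl⟩ := hIa.dec _ g
    dsimp only
    rw [h v o a hv ho ha, mul_assoc _ o b, h v (o * b) a hv (Submonoid.mul_mem _ ho hb) ha]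
  · have e := h 1 1 (fun i => Real.exp (x i)) isU_one (Submonoid.one_mem _) fun i => Real.exp_pos _
    rw [one_mul, mul_one] at e
    have hb : Bx x0 (ia (ex x)) := by
      rw [ex, e]
      exact fun i => ⟨Real.exp_le_exp.2 (hx.1 i), Real.exp_le_exp.2 (hx.2 i)⟩
    exact (if_pos hb).ge
  · dsimp only
    split_ifs
    · exact le_rfl
    · exact zero_le
  · obtain ⟨v, o, a, hv, ho, ha, rfl⟩ := hIa.dec _ g
    refine ⟨v, o, a, hv, ho, ha, mul_assoc _ _ _, ?_⟩
    by_contra hb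
    exact h0 (by dsimp only; rw [h v o a hv ho ha]; exact if_neg hb)

/-- the saturation by the full integral group -/
def Zs (w : G (N + 1) → ℝ≥0∞) (g : G (N + 1)) : ℝ≥0∞ := ⨆ γ : GZ (N + 1), w (iz γ * g)

lemma measurable_Zs {w : G (N + 1) → ℝ≥0∞} (h : Measurable w) : Measurable (Zs w) :=
  Measurable.iSup fun _ => h.comp (measurable_const_mul _)

lemma zinv_Zs (w : G (N + 1) → ℝ≥0∞) : ZInv (Zs w) := fun δ g => by
  simp only [Zs, ← mul_assoc, ← map_mul]
  exact (Equiv.mulRight δ).iSup_comp (g := fun γ : GZ (N + 1) => w (iz γ * g))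

lemma exists_ne {w : G (N + 1) → ℝ≥0∞} {g : G (N + 1)} (h : Zs w g ≠ 0) :
    ∃ γ : GZ (N + 1), w (iz γ * g) ≠ 0 := by
  by_contra h0
  push Not at h0
  exact h (by simp [Zs, h0])

/-- the radii -/
def rad (x0 : RR N) (i : Fin (N + 1)) : ℝ :=
  (N + 1) * Real.exp 2 * Real.exp (x0 (Fin.last N) - x0 i)

variable {x0 : RR N} {w : G (N + 1) → ℝ≥0∞}

lemma sat_le (ξ : Prim N) (g : G (N + 1)) : sat w (iz (pz ξ) * g) ≤ Zs w g :=
  iSup_le fun h => iSup_le fun z => by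
    rw [← mul_assoc, ← map_mul]
    exact le_iSup (fun γ : GZ (N + 1) => w (iz γ * g)) _

lemma row_le (hw : Sup x0 w) {ξ : Prim N} {g : G (N + 1)} (h : sat w (iz (pz ξ) * g) ≠ 0) :
    ‖zv ξ.1 ᵥ* g.val‖ ≤ Real.exp (x0 (Fin.last N) + 2) := by
  obtain ⟨δ, z, h1⟩ : ∃ (δ : GZ N) (z : Fin N → ℤ), w (iz (pb δ z) * (iz (pz ξ) * g)) ≠ 0 := by
    by_contra h0
    push Not at h0
    exact h (by simp only [sat, h0, iSup_const])
  obtain ⟨u, o, a, hu, ho, ha, e, hb⟩ := (hw _).2 h1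
  have e1 := congrArg lr e
  rw [iz_pb, lr_pb_mul, lr_pz_mul, hu.lr_mul] at e1
  rw [e1]
  exact (pi_norm_le_iff_of_nonneg (Real.exp_pos _).le).2 fun l =>
    (CD.entry_le ha (orth ho ha) _ l).trans (hb _).2

lemma count (hIa : IaS) (hw : Sup x0 w) (g : G (N + 1)) :
    ∑' ξ : Prim N, sat w (iz (pz ξ) * g) ≤
      ENNReal.ofReal (∏ i, (1 + 2 * rad x0 i)) * Zs w g := by
  classical
  by_cases h0 : Zs w g = 0
  · have : ∀ ξ : Prim N, sat w (iz (pz ξ) * g) = 0 := fun ξ =>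
      le_antisymm ((sat_le ξ g).trans h0.le) zero_le
    simp [this]
  obtain ⟨γ, h1⟩ := exists_ne h0
  obtain ⟨u, o, a, hu, ho, ha, e, hb⟩ := (hw _).2 h1
  have hc := hIa.cnt (N + 1) u hu (rad x0) fun i => by unfold rad; positivity
  refine le_trans ?_ (mul_le_mul_left hc _)
  rw [← ENNReal.tsum_mul_right]
  refine le_trans (ENNReal.tsum_le_tsum fun ξ => ?_) (ENNReal.tsum_comp_le_tsum_of_injective
    (f := fun ξ : Prim N => ξ.1 ᵥ* (γ⁻¹).val) (fun ξ ξ' e => Subtype.ext (by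
      have := congrArg (fun x => x ᵥ* γ.val) e
      simpa only [Matrix.vecMul_vecMul, ← Units.val_mul, inv_mul_cancel, Units.val_one,
        Matrix.vecMul_one] using this)) _)
  by_cases h2 : sat w (iz (pz ξ) * g) = 0
  · rw [h2]
    exact zero_le
  have h3 := row_le hw h2
  have e1 : zv ξ.1 ᵥ* g.val = (zv (ξ.1 ᵥ* (γ⁻¹).val) ᵥ* u.val) ᵥ* (dg a * o).val := by
    rw [Matrix.vecMul_vecMul, ← Units.val_mul, ← e, ← zv_vecMul, Matrix.vecMul_vecMul,
      ← Units.val_mul, map_inv, inv_mul_cancel_left]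
  rw [if_pos fun i => ?_, one_mul]
  · exact sat_le ξ g
  · have h4 := vec_le ha (orth ho ha) (zv (ξ.1 ᵥ* (γ⁻¹).val) ᵥ* u.val) i
    rw [← e1] at h4
    have h5 : rad x0 i * Real.exp (x0 i) = (N + 1) * Real.exp (x0 (Fin.last N) + 2) := by
      rw [rad, mul_assoc, mul_assoc, ← Real.exp_add, ← Real.exp_add]
      congr 2
      ring
    refine le_of_mul_le_mul_right ?_ (Real.exp_pos (x0 i))
    rw [h5]
    refine (mul_le_mul_of_nonneg_left (hb i).1 (abs_nonneg _)).trans (h4.trans ?_)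
    push_cast
    gcongr

lemma int_Zs (hw : Sup x0 w) (g : G (N + 1)) :
    ∫⁻ t in Set.Ioi (0 : ℝ), ENNReal.ofReal t⁻¹ * Zs w (sc t * g) ≤
      ENNReal.ofReal (Real.exp 2) := by
  have hg := dt_pos g
  have hA : 0 < ∏ i, Real.exp (x0 i) := Finset.prod_pos fun i _ => Real.exp_pos _
  obtain ⟨s, hs, es⟩ : ∃ s : ℝ, 0 < s ∧ s ^ (N + 1) * dt g = ∏ i, Real.exp (x0 i) := by
    refine ⟨((∏ i, Real.exp (x0 i)) / dt g) ^ (((N + 1 : ℕ) : ℝ)⁻¹), by positivity, ?_⟩
    rw [Real.rpow_inv_natCast_pow (by positivity) (Nat.succ_ne_zero N), div_mul_cancel₀ _ hg.ne']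
  have he := Real.exp_pos 2
  calc ∫⁻ t in Set.Ioi (0 : ℝ), ENNReal.ofReal t⁻¹ * Zs w (sc t * g)
      ≤ ∫⁻ t in Set.Ioi (0 : ℝ),
          (Set.Icc s (Real.exp 2 * s)).indicator (fun _ => ENNReal.ofReal s⁻¹) t := by
        refine setLIntegral_mono' measurableSet_Ioi fun t ht => ?_
        have ht' : 0 < t := ht
        by_cases h0 : Zs w (sc t * g) = 0
        · rw [h0, mul_zero]
          exact zero_le
        obtain ⟨γ, h1⟩ := exists_ne h0
        obtain ⟨u, o, a, hu, ho, ha, e, hb⟩ := (hw _).2 h1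
        have e1 := congrArg dt e
        rw [dt_mul, dt_iz, one_mul, dt_mul, dt_sc ht'.ne', abs_of_pos ht', dt_mul, hu.dt, one_mul,
          CD.dt_orth ha (orth ho ha)] at e1
        have k1 : s ^ (N + 1) * dt g ≤ t ^ (N + 1) * dt g := by
          rw [es, e1]
          exact Finset.prod_le_prod (fun i _ => (Real.exp_pos _).le) fun i _ => (hb i).1
        have k2 : t ^ (N + 1) * dt g ≤ (Real.exp 2 * s) ^ (N + 1) * dt g := by
          rw [mul_pow, mul_assoc, es, e1]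
          refine (Finset.prod_le_prod (fun i _ => (ha i).le) fun i _ => (hb i).2).trans_eq ?_
          simp only [Real.exp_add, Finset.prod_mul_distrib, Finset.prod_const, Finset.card_univ,
            Fintype.card_fin]
          exact mul_comm _ _
        have h2 : s ≤ t := (pow_le_pow_iff_left₀ hs.le ht'.le (Nat.succ_ne_zero N)).1
          (le_of_mul_le_mul_right k1 hg)
        have h3 : t ≤ Real.exp 2 * s :=
          (pow_le_pow_iff_left₀ ht'.le (by positivity) (Nat.succ_ne_zero N)).1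
            (le_of_mul_le_mul_right k2 hg)
        rw [Set.indicator_of_mem (show t ∈ Set.Icc s (Real.exp 2 * s) from ⟨h2, h3⟩)]
        exact (mul_le_of_le_one_right' (iSup_le fun γ => (hw _).1)).trans
          (ENNReal.ofReal_le_ofReal (inv_anti₀ hs h2))
    _ ≤ ∫⁻ t, (Set.Icc s (Real.exp 2 * s)).indicator (fun _ => ENNReal.ofReal s⁻¹) t :=
        setLIntegral_le_lintegral _ _
    _ ≤ _ := by
        rw [lintegral_indicator_const measurableSet_Icc, Real.volume_Icc,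
          ← ENNReal.ofReal_mul (inv_pos.2 hs).le]
        refine ENNReal.ofReal_le_ofReal ?_
        rw [inv_mul_le_iff₀ hs]
        nlinarith

lemma omg_le (x0 : RR N) : omg x0 * ∏ i, (1 + 2 * rad x0 i) ≤
    (1 + 2 * ((N + 1) * Real.exp 2)) ^ (N + 1) := by
  rw [omg, ← Finset.prod_mul_distrib]
  refine (Finset.prod_le_prod (g := fun _ => 1 + 2 * ((N + 1) * Real.exp 2))
    (fun i _ => by unfold rad; positivity) fun i _ => ?_).trans_eq (by simp)
  have h1 : Real.exp (x0 i - x0 (Fin.last N)) * Real.exp (x0 (Fin.last N) - x0 i) = 1 := by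
    rw [← Real.exp_add]
    simp
  have h2 : min 1 (Real.exp (x0 i - x0 (Fin.last N))) * Real.exp (x0 (Fin.last N) - x0 i) ≤ 1 :=
    (mul_le_mul_of_nonneg_right (min_le_right _ _) (Real.exp_pos _).le).trans h1.le
  have h3 := min_le_left 1 (Real.exp (x0 i - x0 (Fin.last N)))
  have h4 : 0 ≤ ((N : ℝ) + 1) * Real.exp 2 := by positivity
  have h5 := mul_le_mul_of_nonneg_left h2 h4
  rw [rad]
  nlinarith

end Bes

open Bes in
theorem besS (hIa : IaS) : BesS := by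
  intro N
  refine ⟨ENNReal.ofReal ((1 + 2 * ((N + 1) * Real.exp 2)) ^ (N + 1)) *
    (ENNReal.ofReal ((N + 1) / Real.log 2) * ENNReal.ofReal (Real.exp 2)),
    ENNReal.mul_ne_top ENNReal.ofReal_ne_top
      (ENNReal.mul_ne_top ENNReal.ofReal_ne_top ENNReal.ofReal_ne_top), fun x0 => ?_⟩
  obtain ⟨w, hm, hu, ho, h1, hw⟩ := exists_w hIa x0
  refine ⟨w, hm, hu, ho, h1, fun F hF => ?_⟩
  have mF : Measurable fun g => ‖F g‖ₑ ^ 2 := hF.cont.measurable.enorm.pow_const 2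
  have mZ := measurable_Zs hm
  have k1 := hPar.bes N (fun _ => 1) (fun _ => one_ne_zero) F hF.cont (fun h z g => hF.zinv _ g) w
    hm hu
  rw [← hQ.unf N (fun g => sat w g * ‖F g‖ₑ ^ 2) ((CD.measurable_sat hm).mul mF)
    (fun h z g => by dsimp only; rw [CD.pinv_sat, hF.zinv])] at k1
  have k2 : QI (N + 1) (fun g => ∑' ξ : Prim N, sat w (iz (pz ξ) * g) *
      ‖F (iz (pz ξ) * g)‖ₑ ^ 2) ≤ ENNReal.ofReal (∏ i, (1 + 2 * rad x0 i)) *
      QI (N + 1) fun g => Zs w g * ‖F g‖ₑ ^ 2 := by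
    rw [QI, QI, ← lintegral_const_mul' _ _ ENNReal.ofReal_ne_top]
    refine lintegral_mono fun g => ?_
    rw [mul_left_comm]
    refine mul_le_mul_right ?_ _
    simp only [hF.zinv _ g]
    rw [ENNReal.tsum_mul_right, ← mul_assoc]
    exact mul_le_mul_left (count hIa hw g) _
  have k3 : QI (N + 1) (fun g => Zs w g * ‖F g‖ₑ ^ 2) ≤
      ENNReal.ofReal ((N + 1) / Real.log 2) * ENNReal.ofReal (Real.exp 2) * N2 F := by
    rw [hQ.cen N (fun g => Zs w g * ‖F g‖ₑ ^ 2) (mZ.mul mF)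
      (fun γ g => by dsimp only; rw [zinv_Zs, hF.zinv]), mul_assoc]
    refine mul_le_mul_right ?_ _
    rw [N2, ← lintegral_const_mul _ mF]
    refine lintegral_mono fun g => ?_
    calc ∫⁻ t in Set.Ioi (0 : ℝ), ENNReal.ofReal t⁻¹ * (Zs w (sc t * g) * ‖F (sc t * g)‖ₑ ^ 2)
        = ∫⁻ t in Set.Ioi (0 : ℝ), ENNReal.ofReal t⁻¹ * Zs w (sc t * g) * ‖F g‖ₑ ^ 2 :=
          setLIntegral_congr_fun measurableSet_Ioi fun t ht => by
            rw [hF.sinv t (ne_of_gt ht), mul_assoc]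
      _ = (∫⁻ t in Set.Ioi (0 : ℝ), ENNReal.ofReal t⁻¹ * Zs w (sc t * g)) * ‖F g‖ₑ ^ 2 :=
          lintegral_mul_const' _ _ (ENNReal.pow_ne_top enorm_ne_top)
      _ ≤ _ := mul_le_mul_left (int_Zs hw g) _
  have k4 : 0 ≤ omg x0 := Finset.prod_nonneg fun i _ => by positivity
  refine (mul_le_mul_right (k1.trans (k2.trans (mul_le_mul_right k3 _))) _).trans ?_
  rw [← mul_assoc, ← ENNReal.ofReal_mul k4, mul_assoc (ENNReal.ofReal (_ ^ _))]
  exact mul_le_mul_left (ENNReal.ofReal_le_ofReal (omg_le x0)) _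

end SI

end Pool.Agent.Lib.MP_fa98d2_nt.D
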