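import Pool.Agent.Lib.MP_fa98d2_nt.I.Stmts

/-! Density theorem at the real place: the class of functions on the torus. -/

open MeasureTheory Filter Topology Matrix
open scoped ENNReal Real ContDiff ComplexConjugate InnerProductSpace

noncomputable section

namespace Pool.Agent.Lib.MP_fa98d2_nt.D

namespace SI

open SW

namespace ClsA

variable {N : ℕ}

theorem pd_add (b : Fin (N + 1)) {f g : RR N → ℂ} (hf : ContDiff ℝ ∞ f) (hg : ContDiff ℝ ∞ g) :
    pd b (f + g) = pd b f + pd b g := by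
  funext x
  simp only [pd, Pi.add_apply]
  rw [fderiv_add (hf.differentiable (by simp) x) (hg.differentiable (by simp) x)]
  rfl

theorem pd_smul (b : Fin (N + 1)) (c : ℂ) {f : RR N → ℂ} (hf : ContDiff ℝ ∞ f) :
    pd b (c • f) = c • pd b f := by
  funext x
  simp only [pd, Pi.smul_apply]
  rw [fderiv_const_smul (hf.differentiable (by simp) x)]
  rfl

theorem pd_zero (b : Fin (N + 1)) : pd b (0 : RR N → ℂ) = 0 := by
  funext x
  simp [pd]

theorem pd_conj (b : Fin (N + 1)) (f : RR N → ℂ) :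
    pd b (fun x => conj (f x)) = fun x => conj (pd b f x) := by
  funext x
  have h := Complex.conjCLE.comp_fderiv (f := f) (x := x)
  have e : (fun x => conj (f x)) = Complex.conjCLE ∘ f := by
    funext y
    simp
  simp only [pd]
  rw [e, h]
  simp

theorem pd_comm (a b : Fin (N + 1)) {f : RR N → ℂ} (hf : ContDiff ℝ ∞ f) :
    pd a (pd b f) = pd b (pd a f) := by
  funext x
  have h2 : ContDiffAt ℝ 2 f x := (hf.of_le (WithTop.coe_le_coe.2 (le_top : ((2 : ℕ) : ℕ∞) ≤ ⊤))).contDiffAt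
  have hs : IsSymmSndFDerivAt ℝ f x := h2.isSymmSndFDerivAt (by simp)
  have hd : DifferentiableAt ℝ (fderiv ℝ f) x :=
    (h2.fderiv_right (m := 1) (by norm_num)).differentiableAt (by simp)
  have key : ∀ v w : RR N, fderiv ℝ (fun y => fderiv ℝ f y w) x v =
      fderiv ℝ (fderiv ℝ f) x v w := by
    intro v w
    rw [fderiv_clm_apply hd (differentiableAt_const w)]
    simp
  have e : ∀ c : Fin (N + 1), pd c f = fun y => fderiv ℝ f y (Pi.single c 1) := fun c => rfl
  show fderiv ℝ (pd b f) x (Pi.single a 1) = fderiv ℝ (pd a f) x (Pi.single b 1)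
  rw [e b, e a, key, key]
  exact hs.eq _ _

theorem exp_has (c : ℝ) (L : RR N →L[ℝ] ℝ) (x : RR N) :
    ∃ D : RR N →L[ℝ] ℂ, HasFDerivAt (fun y => ((c * Real.exp (L y) : ℝ) : ℂ)) D x ∧
      ∀ v, D v = ((L v : ℝ) : ℂ) * ((c * Real.exp (L x) : ℝ) : ℂ) := by
  have h1 := ((L.hasFDerivAt (x := x)).exp).const_mul c
  have h2 := Complex.ofRealCLM.hasFDerivAt.comp x h1
  refine ⟨_, h2, fun v => ?_⟩
  simp
  ring

theorem qf_has (b : Fin (N + 1)) (x : RR N) :
    ∃ D : RR N →L[ℝ] ℂ, HasFDerivAt (fun y => ((qf b y : ℝ) : ℂ)) D x ∧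
      ∀ a : Fin (N + 1), D (Pi.single a 1) =
        ((if a.val = b.val then 2 else 0) - (if a.val = b.val + 1 then 2 else 0) : ℂ) *
          (qf b x : ℂ) := by
  induction b using Fin.lastCases with
  | last =>
    obtain ⟨D, h, hv⟩ := exp_has (2 * π)
      ((2 : ℝ) • ContinuousLinearMap.proj (R := ℝ) (φ := fun _ => ℝ) (Fin.last N)) x
    refine ⟨D, ?_, fun a => ?_⟩
    · simpa [qf] using h
    · rw [hv]
      have h1 : a.val ≠ N + 1 := by omega
      by_cases h0 : a = Fin.last N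
      · subst h0
        simp [qf]
      · have h3 : a.val ≠ N := fun e => h0 (Fin.ext e)
        simp [qf, h1, h3, Ne.symm h0]
  | cast i =>
    obtain ⟨D, h, hv⟩ := exp_has (4 * π ^ 2)
      ((2 : ℝ) • (ContinuousLinearMap.proj (R := ℝ) (φ := fun _ => ℝ) i.castSucc -
        ContinuousLinearMap.proj (R := ℝ) (φ := fun _ => ℝ) i.succ)) x
    refine ⟨D, ?_, fun a => ?_⟩
    · simpa [qf] using h
    · rw [hv]
      have e1 : (i.castSucc = a) ↔ a.val = i.val := by
        rw [Fin.ext_iff, Fin.val_castSucc]; exact eq_comm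
      have e2 : (i.succ = a) ↔ a.val = i.val + 1 := by
        rw [Fin.ext_iff, Fin.val_succ]; exact eq_comm
      simp only [qf, Fin.lastCases_castSucc, _root_.smul_apply,
        _root_.sub_apply, ContinuousLinearMap.proj_apply, Pi.single_apply, e1, e2,
        Fin.val_castSucc, smul_eq_mul]
      congr 1
      split_ifs <;> simp

theorem pd_qf (a b : Fin (N + 1)) {f : RR N → ℂ} (hf : ContDiff ℝ ∞ f) (x : RR N) :
    pd a (fun y => (qf b y : ℂ) * f y) x = (qf b x : ℂ) * pd a f x +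
      ((if a.val = b.val then 2 else 0) - (if a.val = b.val + 1 then 2 else 0) : ℂ) *
        ((qf b x : ℂ) * f x) := by
  obtain ⟨D, h, hv⟩ := qf_has b x
  have h2 := h.mul (hf.differentiable (by simp) x).hasFDerivAt
  have e : (fun y => (qf b y : ℂ) * f y) = (fun y => (qf b y : ℂ)) * f := rfl
  simp only [pd]
  rw [e, h2.fderiv]
  simp only [_root_.add_apply, _root_.smul_apply, smul_eq_mul, hv]
  ring

theorem sq_add (a b : ℂ) : ‖a + b‖ₑ ^ 2 ≤ 2 * ‖a‖ₑ ^ 2 + 2 * ‖b‖ₑ ^ 2 := by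
  have h : ‖a + b‖₊ ^ 2 ≤ 2 * ‖a‖₊ ^ 2 + 2 * ‖b‖₊ ^ 2 := by
    have h1 := norm_add_le a b
    have h2 := norm_nonneg (a + b)
    have : ‖a + b‖ ^ 2 ≤ 2 * ‖a‖ ^ 2 + 2 * ‖b‖ ^ 2 := by
      nlinarith [sq_nonneg (‖a‖ - ‖b‖), norm_nonneg a, norm_nonneg b]
    exact_mod_cast this
  simp only [enorm_eq_nnnorm]
  exact_mod_cast h

theorem ks_add {f g : RR N → ℂ} (hf : Continuous f) (s : ℝ) :
    KS s (f + g) ≤ 2 * KS s f + 2 * KS s g := by
  have hw : Measurable fun x : RR N => ENNReal.ofReal (Real.exp (s * sX x) * Gs x) := by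
    refine Measurable.ennreal_ofReal (Continuous.measurable ?_)
    unfold sX Gs
    fun_prop
  have hm : Measurable fun x : RR N =>
      2 * (ENNReal.ofReal (Real.exp (s * sX x) * Gs x) * ‖f x‖ₑ ^ 2) :=
    (hw.mul (hf.measurable.enorm.pow_const 2)).const_mul 2
  unfold KS
  rw [← lintegral_const_mul' 2 _ (by simp), ← lintegral_const_mul' 2 _ (by simp),
    ← lintegral_add_left hm]
  refine lintegral_mono fun x => ?_
  calc _ ≤ ENNReal.ofReal (Real.exp (s * sX x) * Gs x) * (2 * ‖f x‖ₑ ^ 2 + 2 * ‖g x‖ₑ ^ 2) :=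
        mul_le_mul_right (sq_add (f x) (g x)) _
    _ = _ := by ring

theorem ks_smul (c : ℂ) (f : RR N → ℂ) (s : ℝ) : KS s (c • f) = ‖c‖ₑ ^ 2 * KS s f := by
  unfold KS
  rw [← lintegral_const_mul' _ _ (by simp)]
  refine lintegral_congr fun x => ?_
  simp only [Pi.smul_apply, smul_eq_mul, enorm_mul]
  ring

theorem ks_conj (f : RR N → ℂ) (s : ℝ) : KS s (fun x => conj (f x)) = KS s f := by
  unfold KS
  refine lintegral_congr fun x => ?_
  simp [enorm_eq_nnnorm]

/-- the closure property -/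
def Cl (S : Submodule ℂ (RR N → ℂ)) : Prop :=
  ∀ f ∈ S, ContDiff ℝ ∞ f ∧ KS 1 f ≠ ⊤ ∧
    (∀ b, pd b f ∈ S) ∧ ∀ b, (fun x => (qf b x : ℂ) * f x) ∈ S

/-- the largest space with the closure property -/
def FF (N : ℕ) : Submodule ℂ (RR N → ℂ) := sSup {S | Cl S}

theorem le_FF {S : Submodule ℂ (RR N → ℂ)} (h : Cl S) : S ≤ FF N := le_sSup h

/-- functions whose images lie in a given space -/
def pre (S : Submodule ℂ (RR N → ℂ)) : Submodule ℂ (RR N → ℂ) where
  carrier := {f | ContDiff ℝ ∞ f ∧ KS 1 f ≠ ⊤ ∧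
    (∀ b, pd b f ∈ S) ∧ ∀ b, (fun x => (qf b x : ℂ) * f x) ∈ S}
  add_mem' := by
    rintro f g ⟨f1, f2, f3, f4⟩ ⟨g1, g2, g3, g4⟩
    refine ⟨f1.add g1, ne_top_of_le_ne_top ?_ (ks_add f1.continuous 1), fun b => ?_, fun b => ?_⟩
    · exact ENNReal.add_ne_top.2 ⟨ENNReal.mul_ne_top (by simp) f2, ENNReal.mul_ne_top (by simp) g2⟩
    · rw [pd_add b f1 g1]
      exact S.add_mem (f3 b) (g3 b)
    · have e : (fun x => (qf b x : ℂ) * (f + g) x) =
          (fun x => (qf b x : ℂ) * f x) + fun x => (qf b x : ℂ) * g x := by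
        funext x
        simp [mul_add]
      rw [e]
      exact S.add_mem (f4 b) (g4 b)
  zero_mem' := by
    refine ⟨contDiff_const, by simp [KS], fun b => ?_, fun b => ?_⟩
    · rw [pd_zero]
      exact S.zero_mem
    · have e : (fun x => (qf b x : ℂ) * (0 : RR N → ℂ) x) = 0 := by
        funext x
        simp
      rw [e]
      exact S.zero_mem
  smul_mem' := by
    rintro c f ⟨f1, f2, f3, f4⟩
    refine ⟨f1.const_smul c, ?_, fun b => ?_, fun b => ?_⟩
    · rw [ks_smul]
      exact ENNReal.mul_ne_top (by simp) f2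
    · rw [pd_smul b c f1]
      exact S.smul_mem c (f3 b)
    · have e : (fun x => (qf b x : ℂ) * (c • f) x) = c • fun x => (qf b x : ℂ) * f x := by
        funext x
        simp only [Pi.smul_apply, smul_eq_mul]
        ring
      rw [e]
      exact S.smul_mem c (f4 b)

theorem cl_FF : Cl (FF N) := by
  have h : FF N ≤ pre (FF N) := by
    refine sSup_le fun S hS f hf => ?_
    obtain ⟨f1, f2, f3, f4⟩ := hS f hf
    exact ⟨f1, f2, fun b => le_FF hS (f3 b), fun b => le_FF hS (f4 b)⟩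
  exact fun f hf => h hf

/-- the conjugate space -/
def cj (S : Submodule ℂ (RR N → ℂ)) : Submodule ℂ (RR N → ℂ) where
  carrier := {f | (fun x => conj (f x)) ∈ S}
  add_mem' := by
    intro f g hf hg
    have e : (fun x => conj ((f + g) x)) = (fun x => conj (f x)) + fun x => conj (g x) := by
      funext x
      simp
    show _ ∈ S
    rw [e]
    exact S.add_mem hf hg
  zero_mem' := by
    have e : (fun x => conj ((0 : RR N → ℂ) x)) = 0 := by
      funext x
      simp
    show _ ∈ S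
    rw [e]
    exact S.zero_mem
  smul_mem' := by
    intro c f hf
    have e : (fun x => conj ((c • f) x)) = conj c • fun x => conj (f x) := by
      funext x
      simp
    show _ ∈ S
    rw [e]
    exact S.smul_mem _ hf

theorem cl_cj {S : Submodule ℂ (RR N → ℂ)} (h : Cl S) : Cl (cj S) := by
  intro f hf
  obtain ⟨f1, f2, f3, f4⟩ := h _ hf
  refine ⟨?_, by rwa [ks_conj] at f2, fun b => ?_, fun b => ?_⟩
  · have h2 := Complex.conjCLE.contDiff.comp f1
    have e : Complex.conjCLE ∘ (fun x => conj (f x)) = f := by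
      funext x
      simp
    rwa [e] at h2
  · show _ ∈ S
    rw [← pd_conj]
    exact f3 b
  · show _ ∈ S
    have e : (fun x => conj ((qf b x : ℂ) * f x)) = fun x => (qf b x : ℂ) * conj (f x) := by
      funext x
      simp
    rw [e]
    exact f4 b

theorem conj_mem {f : RR N → ℂ} (hf : f ∈ FF N) : (fun x => conj (f x)) ∈ FF N := by
  refine le_FF (cl_cj cl_FF) ?_
  show _ ∈ FF N
  simpa using hf

/-- the derivative as an operator -/
def pL (b : Fin (N + 1)) : Module.End ℂ (FF N) where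
  toFun f := ⟨pd b f, (cl_FF _ f.2).2.2.1 b⟩
  map_add' f g := Subtype.ext (pd_add b (cl_FF _ f.2).1 (cl_FF _ g.2).1)
  map_smul' c f := Subtype.ext (pd_smul b c (cl_FF _ f.2).1)

/-- the potential as an operator -/
def qL (b : Fin (N + 1)) : Module.End ℂ (FF N) where
  toFun f := ⟨fun x => (qf b x : ℂ) * (f : RR N → ℂ) x, (cl_FF _ f.2).2.2.2 b⟩
  map_add' f g := Subtype.ext (by funext x; simp [mul_add])
  map_smul' c f := Subtype.ext (by
    funext x
    simp only [Submodule.coe_smul, Pi.smul_apply, smul_eq_mul, RingHom.id_apply]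
    ring)

/-- extension by zero -/
def ext0 (r : Fin (N + 1) → Module.End ℂ (FF N)) (a : ℕ) : Module.End ℂ (FF N) :=
  if h : a < N + 1 then r ⟨a, h⟩ else 0

theorem ext0_val (r : Fin (N + 1) → Module.End ℂ (FF N)) (b : Fin (N + 1)) :
    ext0 r b = r b := dif_pos b.isLt

theorem ext0_comm {r : Fin (N + 1) → Module.End ℂ (FF N)} (h : ∀ a b, r a * r b = r b * r a)
    (a b : ℕ) : ext0 r a * ext0 r b = ext0 r b * ext0 r a := by
  unfold ext0
  split_ifs
  · exact h _ _
  · simp
  · simp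
  · simp

theorem tod : Tod N (ext0 (N := N) pL) (ext0 qL) where
  pp := ext0_comm fun a b => LinearMap.ext fun f => Subtype.ext (pd_comm a b (cl_FF _ f.2).1)
  qq := ext0_comm fun a b => LinearMap.ext fun f => Subtype.ext (by
    funext x
    exact mul_left_comm _ _ _)
  pq := by
    intro a b ha hb
    have ea := ext0_val (N := N) pL ⟨a, by omega⟩
    have eb := ext0_val (N := N) qL ⟨b, by omega⟩
    simp only at ea eb
    rw [ea, eb]
    refine LinearMap.ext fun f => Subtype.ext ?_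
    funext x
    exact pd_qf ⟨a, by omega⟩ ⟨b, by omega⟩ (cl_FF _ f.2).1 x

end ClsA

theorem clsAS : ClsAS := by
  intro N
  exact ⟨{
    F := ClsA.FF N
    p := ClsA.ext0 ClsA.pL
    q := ClsA.ext0 ClsA.qL
    J := fun f => ⟨fun x => conj ((f : RR N → ℂ) x), ClsA.conj_mem f.2⟩
    sm := fun f hf => (ClsA.cl_FF f hf).1
    fin1 := fun f hf => (ClsA.cl_FF f hf).2.1
    p_val := fun b f => by rw [ClsA.ext0_val]; rfl
    q_val := fun b f x => by rw [ClsA.ext0_val]; rfl
    J_val := fun f x => rfl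
    tod := ClsA.tod
    mem := fun S hS => ClsA.le_FF hS }⟩

end SI

end Pool.Agent.Lib.MP_fa98d2_nt.D
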