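import Pool.Agent.Lib.MP_fa98d2_nt.I.Stmts

/-! Density theorem at the real place: the pairing on the torus. -/

open MeasureTheory Filter Topology Matrix
open scoped ENNReal Real ContDiff ComplexConjugate InnerProductSpace

noncomputable section

namespace Pool.Agent.Lib.MP_fa98d2_nt.D

namespace SI

open SW

namespace ClsB

set_option maxHeartbeats 400000

variable {N : ℕ}

/-- multiplication by `h` preserves the space -/
def Mu (M : TF N) (h : RR N → ℝ) : Prop := ∀ f ∈ M.F, (fun x => (h x : ℂ) * f x) ∈ M.F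

theorem mu_one (M : TF N) : Mu M fun _ => 1 := fun f hf => by simpa using hf

theorem Mu.mul {M : TF N} {h k : RR N → ℝ} (a : Mu M h) (b : Mu M k) :
    Mu M fun x => h x * k x := fun f hf => by
  simpa only [Complex.ofReal_mul, mul_assoc] using a _ (b f hf)

theorem mu_const (M : TF N) (c : ℝ) : Mu M fun _ => c := fun _ hf => M.F.smul_mem (c : ℂ) hf

theorem mu_q (M : TF N) (b : Fin (N + 1)) : Mu M (qf b) := fun f hf => by
  have h := (M.q b ⟨f, hf⟩).2
  have e : (M.q b ⟨f, hf⟩ : RR N → ℂ) = fun x => (qf b x : ℂ) * f x := funext (M.q_val b ⟨f, hf⟩)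
  rwa [e] at h

theorem mu_coord (M : TF N) (b : Fin (N + 1)) : Mu M fun x => Real.exp (2 * x b) := by
  have hp := Real.pi_pos
  induction b using Fin.reverseInduction with
  | last =>
    have e : (fun x : RR N => Real.exp (2 * x (Fin.last N))) =
        fun x => (2 * π)⁻¹ * qf (Fin.last N) x := by
      funext x
      rw [qf, Fin.lastCases_last]
      field_simp
    rw [e]
    exact (mu_const M _).mul (mu_q M _)
  | cast i ih =>
    have e : (fun x : RR N => Real.exp (2 * x i.castSucc)) =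
        fun x => (4 * π ^ 2)⁻¹ * qf i.castSucc x * Real.exp (2 * x i.succ) := by
      funext x
      rw [qf, Fin.lastCases_castSucc, ← mul_assoc, inv_mul_cancel₀ (by positivity), one_mul,
        ← Real.exp_add]
      congr 1
      ring
    rw [e]
    exact ((mu_const M _).mul (mu_q M _)).mul ih

theorem mu_det (M : TF N) : Mu M fun x => Real.exp (2 * sX x) := by
  have key : ∀ s : Finset (Fin (N + 1)), Mu M fun x => Real.exp (2 * ∑ i ∈ s, x i) := by
    intro s
    induction s using Finset.induction_on with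
    | empty => simpa using mu_one M
    | insert a s ha ih =>
      simpa only [Finset.sum_insert ha, mul_add, Real.exp_add] using (mu_coord M a).mul ih
  exact key Finset.univ

theorem mu_pow (M : TF N) (m : ℕ) : Mu M fun x => Real.exp (2 * m * sX x) := by
  induction m with
  | zero => simpa using mu_one M
  | succ m ih =>
    have e : (fun x : RR N => Real.exp (2 * (m + 1 : ℕ) * sX x)) =
        fun x => Real.exp (2 * sX x) * Real.exp (2 * m * sX x) := by
      funext x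
      rw [← Real.exp_add]
      congr 1
      push_cast
      ring
    rw [e]
    exact (mu_det M).mul ih

theorem cont_sX : Continuous (sX : RR N → ℝ) := by
  unfold sX
  fun_prop

theorem cont_Gs : Continuous (Gs : RR N → ℝ) := by
  unfold Gs
  fun_prop

theorem Gs_pos (x : RR N) : 0 < Gs x := Real.exp_pos _

theorem int_sq (M : TF N) {f : RR N → ℂ} (hf : f ∈ M.F) :
    Integrable fun x : RR N => Real.exp (sX x) * Gs x * ‖f x‖ ^ 2 := by
  have c := (M.sm f hf).continuous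
  have c1 := cont_sX (N := N)
  have c2 := cont_Gs (N := N)
  refine ⟨Continuous.aestronglyMeasurable (by fun_prop), ?_⟩
  rw [hasFiniteIntegral_iff_ofReal (ae_of_all _ fun x => by have := Gs_pos x; positivity)]
  refine lt_of_eq_of_lt (lintegral_congr fun x => ?_) (M.fin1 f hf).lt_top
  have := Gs_pos x
  rw [ENNReal.ofReal_mul (by positivity), one_mul, ENNReal.ofReal_pow (norm_nonneg _),
    ofReal_norm]

theorem int_of_le (M : TF N) {Θ : ℝ → ℂ} (hΘ : Continuous Θ) {C : ℝ} {m : ℕ} (hC : 0 ≤ C)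
    (hb : ∀ t, ‖Θ t‖ ≤ C * (Real.exp t * (1 + Real.exp (2 * m * t)))) {f g : RR N → ℂ}
    (hf : f ∈ M.F) (hg : g ∈ M.F) :
    Integrable fun x : RR N => Θ (sX x) * (Gs x : ℂ) * f x * g x := by
  have cf := (M.sm f hf).continuous
  have cg := (M.sm g hg).continuous
  have c1 := cont_sX (N := N)
  have c2 := cont_Gs (N := N)
  have i1 := int_sq M hf
  have i2 := int_sq M hg
  have i3 := int_sq M (mu_pow M m f hf)
  refine Integrable.mono' (((i1.add i2).add (i3.add i2)).const_mul C)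
    (Continuous.aestronglyMeasurable (by fun_prop)) (ae_of_all _ fun x => ?_)
  have hG := Gs_pos x
  have hE := Real.exp_pos (sX x)
  have hE' := Real.exp_pos (2 * m * sX x)
  simp only [Pi.add_apply, norm_mul, Complex.norm_real, Real.norm_of_nonneg hG.le,
    Real.norm_of_nonneg hE'.le]
  have a1 := hb (sX x)
  generalize ‖Θ (sX x)‖ = θ at a1
  generalize Real.exp (2 * m * sX x) = w at *
  generalize Real.exp (sX x) = e at *
  generalize Gs x = γ at *
  have hu := norm_nonneg (f x)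
  have hv := norm_nonneg (g x)
  generalize ‖f x‖ = u at *
  generalize ‖g x‖ = v at *
  have a2 : (1 + w) * (u * v) ≤ u ^ 2 + v ^ 2 + ((w * u) ^ 2 + v ^ 2) := by
    nlinarith [sq_nonneg (u - v), sq_nonneg (w * u - v), mul_nonneg hu hv,
      mul_nonneg hE'.le (mul_nonneg hu hv)]
  calc θ * γ * u * v = θ * (γ * (u * v)) := by ring
    _ ≤ C * (e * (1 + w)) * (γ * (u * v)) := by gcongr
    _ = C * (e * γ * ((1 + w) * (u * v))) := by ring
    _ ≤ C * (e * γ * (u ^ 2 + v ^ 2 + ((w * u) ^ 2 + v ^ 2))) := by gcongr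
    _ = _ := by ring

/-- admissible test functions -/
def Ok (M : TF N) (Θ : ℝ → ℂ) : Prop :=
  Differentiable ℝ Θ ∧ ∀ f ∈ M.F, ∀ g ∈ M.F,
    Integrable fun x : RR N => Θ (sX x) * (Gs x : ℂ) * f x * g x

/-- functions all of whose derivatives are admissible -/
def TT (M : TF N) : Submodule ℂ (ℝ → ℂ) where
  carrier := {Θ | ∃ S : Set (ℝ → ℂ), Θ ∈ S ∧ ∀ h ∈ S, Ok M h ∧ deriv h ∈ S}
  zero_mem' := ⟨{0}, rfl, fun h hh => by
    obtain rfl : h = 0 := hh
    exact ⟨⟨differentiable_const _, fun f _ g _ => by simp⟩, by simp⟩⟩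
  add_mem' := by
    rintro a b ⟨S, ha, hS⟩ ⟨S', hb, hS'⟩
    refine ⟨{h | ∃ u ∈ S, ∃ v ∈ S', h = u + v}, ⟨a, ha, b, hb, rfl⟩, ?_⟩
    rintro _ ⟨u, hu, v, hv, rfl⟩
    obtain ⟨⟨u1, u2⟩, u3⟩ := hS u hu
    obtain ⟨⟨v1, v2⟩, v3⟩ := hS' v hv
    refine ⟨⟨u1.add v1, fun f hf g hg => ?_⟩, _, u3, _, v3,
      funext fun t => deriv_add (u1 t) (v1 t)⟩
    simp only [Pi.add_apply, add_mul]
    exact (u2 f hf g hg).add (v2 f hf g hg)
  smul_mem' := by
    rintro c a ⟨S, ha, hS⟩
    refine ⟨{h | ∃ u ∈ S, h = c • u}, ⟨a, ha, rfl⟩, ?_⟩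
    rintro _ ⟨u, hu, rfl⟩
    obtain ⟨⟨u1, u2⟩, u3⟩ := hS u hu
    refine ⟨⟨u1.const_smul c, fun f hf g hg => ?_⟩, _, u3,
      funext fun t => deriv_const_smul c (u1 t)⟩
    simpa only [Pi.smul_apply, smul_eq_mul, mul_assoc] using (u2 f hf g hg).const_mul c

theorem TT_ok {M : TF N} (Θ : TT M) : Ok M Θ := by
  obtain ⟨S, h1, h2⟩ := Θ.2
  exact (h2 _ h1).1

/-- the derivative -/
def Dv (M : TF N) : Module.End ℂ (TT M) where
  toFun Θ := ⟨deriv (Θ : ℝ → ℂ), by
    obtain ⟨S, h1, h2⟩ := Θ.2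
    exact ⟨S, (h2 _ h1).2, h2⟩⟩
  map_add' a b := Subtype.ext (funext fun t => deriv_add ((TT_ok a).1 t) ((TT_ok b).1 t))
  map_smul' c a := Subtype.ext (funext fun t => deriv_const_smul c ((TT_ok a).1 t))

theorem int (M : TF N) (f g : M.F) (Θ : TT M) : Integrable fun x : RR N =>
    (Θ : ℝ → ℂ) (sX x) * (Gs x : ℂ) * (f : RR N → ℂ) x * (g : RR N → ℂ) x :=
  (TT_ok Θ).2 _ f.2 _ g.2

/-- the pairing for fixed functions -/
def B0 (M : TF N) (f g : M.F) : Module.Dual ℂ (TT M) where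
  toFun Θ := ∫ x : RR N, (Θ : ℝ → ℂ) (sX x) * (Gs x : ℂ) * (f : RR N → ℂ) x * (g : RR N → ℂ) x
  map_add' a b := by
    rw [← integral_add (int M f g a) (int M f g b)]
    simp only [Submodule.coe_add, Pi.add_apply, add_mul]
  map_smul' c a := by
    rw [RingHom.id_apply, smul_eq_mul, ← integral_const_mul]
    simp only [Submodule.coe_smul, Pi.smul_apply, smul_eq_mul, mul_assoc]

theorem B0_val (M : TF N) (f g : M.F) (Θ : TT M) : B0 M f g Θ =
    ∫ x : RR N, (Θ : ℝ → ℂ) (sX x) * (Gs x : ℂ) * (f : RR N → ℂ) x * (g : RR N → ℂ) x := rfl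

theorem B0_symm (M : TF N) (f g : M.F) : B0 M f g = B0 M g f := by
  ext Θ
  simp only [B0_val, mul_right_comm _ ((f : RR N → ℂ) _)]

theorem B0_add (M : TF N) (f f' g : M.F) : B0 M (f + f') g = B0 M f g + B0 M f' g := by
  ext Θ
  rw [LinearMap.add_apply, B0_val, B0_val, B0_val, ← integral_add (int M f g Θ) (int M f' g Θ)]
  simp only [Submodule.coe_add, Pi.add_apply, add_mul, mul_add]

theorem B0_smul (M : TF N) (c : ℂ) (f g : M.F) : B0 M (c • f) g = c • B0 M f g := by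
  ext Θ
  rw [LinearMap.smul_apply, B0_val, B0_val, smul_eq_mul, ← integral_const_mul]
  refine integral_congr_ae (ae_of_all _ fun x => ?_)
  simp only [Submodule.coe_smul, Pi.smul_apply, smul_eq_mul]
  ring

/-- the pairing -/
def BB (M : TF N) : M.F →ₗ[ℂ] M.F →ₗ[ℂ] Module.Dual ℂ (TT M) :=
  LinearMap.mk₂ ℂ (B0 M) (B0_add M) (B0_smul M)
    (fun f g g' => by rw [B0_symm, B0_add, B0_symm M g, B0_symm M g'])
    (fun c f g => by rw [B0_symm, B0_smul, B0_symm])

theorem cpt (M : TF N) (Θ : ℝ → ℂ) (h1 : ContDiff ℝ ∞ Θ) (h2 : HasCompactSupport Θ) :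
    Θ ∈ TT M := by
  refine ⟨{h | ContDiff ℝ ∞ h ∧ HasCompactSupport h}, ⟨h1, h2⟩, ?_⟩
  rintro h ⟨k1, k2⟩
  refine ⟨⟨k1.differentiable (by simp), fun f hf g hg => ?_⟩,
    (contDiff_infty_iff_deriv.1 k1).2, k2.deriv⟩
  have c : Continuous fun t : ℝ => h t * ((Real.exp (-t) : ℝ) : ℂ) :=
    k1.continuous.mul (by fun_prop)
  obtain ⟨C, hC⟩ := c.bounded_above_of_compact_support k2.mul_right
  refine int_of_le M k1.continuous (C := C) (m := 0) ((norm_nonneg _).trans (hC 0))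
    (fun t => ?_) hf hg
  have a := hC t
  have hE := Real.exp_pos t
  have hE' := Real.exp_pos (2 * (0 : ℕ) * t)
  rw [norm_mul, Complex.norm_real, Real.norm_of_nonneg (Real.exp_pos _).le, Real.exp_neg,
    mul_inv_le_iff₀ hE] at a
  have h0 : 0 ≤ C := (norm_nonneg _).trans (hC 0)
  nlinarith [mul_nonneg h0 (mul_pos hE hE').le]

theorem expo (M : TF N) (s : ℝ) (hs : 1 ≤ s) :
    (fun t : ℝ => ((Real.exp (s * t) : ℝ) : ℂ)) ∈ TT M := by
  refine ⟨{h | ∃ c : ℂ, h = fun t : ℝ => c * ((Real.exp (s * t) : ℝ) : ℂ)}, ⟨1, by simp⟩, ?_⟩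
  rintro _ ⟨c, rfl⟩
  have hd : ∀ t, HasDerivAt (fun t : ℝ => c * ((Real.exp (s * t) : ℝ) : ℂ))
      (c * s * ((Real.exp (s * t) : ℝ) : ℂ)) t := by
    intro t
    have h := (((hasDerivAt_id t).const_mul s).exp.ofReal_comp).const_mul c
    refine h.congr_deriv ?_
    simp only [id, mul_one, Complex.ofReal_mul]
    ring
  have hD : Differentiable ℝ fun t : ℝ => c * ((Real.exp (s * t) : ℝ) : ℂ) :=
    fun t => (hd t).differentiableAt
  refine ⟨⟨hD, fun f hf g hg => ?_⟩, c * s, funext fun t => (hd t).deriv⟩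
  obtain ⟨m, hm⟩ := exists_nat_ge s
  refine int_of_le M hD.continuous (C := ‖c‖) (m := m) (norm_nonneg _) (fun t => ?_) hf hg
  rw [norm_mul, Complex.norm_real, Real.norm_of_nonneg (Real.exp_pos _).le]
  refine mul_le_mul_of_nonneg_left ?_ (norm_nonneg _)
  rw [mul_add, mul_one, ← Real.exp_add]
  rcases le_total t 0 with ht | ht
  · have : Real.exp (s * t) ≤ Real.exp t := Real.exp_le_exp.2 (by nlinarith)
    linarith [Real.exp_pos (t + 2 * m * t)]
  · have : Real.exp (s * t) ≤ Real.exp (t + 2 * m * t) := Real.exp_le_exp.2 (by nlinarith)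
    linarith [Real.exp_pos t]

theorem der_Gs (b : Fin (N + 1)) (x : RR N) :
    HasDerivAt (fun t : ℝ => ((Gs (x + t • (Pi.single b 1 : RR N)) : ℝ) : ℂ))
      (if b = Fin.last N then -((qf (Fin.last N) x : ℝ) : ℂ) * (Gs x : ℂ) else 0) 0 := by
  split_ifs with h
  · subst h
    have e : (fun t : ℝ => ((Gs (x + t • (Pi.single (Fin.last N) 1 : RR N)) : ℝ) : ℂ)) =
        fun t => ((Real.exp (-π * Real.exp (2 * (x (Fin.last N) + t))) : ℝ) : ℂ) := by
      funext t
      simp [Gs]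
    rw [e]
    have h := ((((hasDerivAt_id (0 : ℝ)).const_add (x (Fin.last N))).const_mul 2).exp.const_mul
      (-π)).exp.ofReal_comp
    refine h.congr_deriv ?_
    rw [qf, Fin.lastCases_last, Gs]
    simp only [id, add_zero, mul_one]
    push_cast
    ring
  · have e : (fun t : ℝ => ((Gs (x + t • (Pi.single b 1 : RR N)) : ℝ) : ℂ)) =
        fun _ => ((Gs x : ℝ) : ℂ) := by
      funext t
      simp [Gs, Pi.single_eq_of_ne (Ne.symm h)]
    rw [e]
    exact hasDerivAt_const _ _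

theorem der_Th {Θ : ℝ → ℂ} (h : Differentiable ℝ Θ) (b : Fin (N + 1)) (x : RR N) :
    HasDerivAt (fun t : ℝ => Θ (sX (x + t • (Pi.single b 1 : RR N)))) (deriv Θ (sX x)) 0 := by
  have e : (fun t : ℝ => Θ (sX (x + t • (Pi.single b 1 : RR N)))) = fun t => Θ (sX x + t) := by
    funext t
    congr 1
    simp [sX, Finset.sum_add_distrib, ← Finset.mul_sum]
  rw [e]
  exact HasDerivAt.comp_const_add _ _ (by rw [add_zero]; exact (h _).hasDerivAt)

theorem ibp (M : TF N) (b : Fin (N + 1)) (f g : M.F) (Θ : TT M) :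
    B0 M (M.p b f) g Θ + B0 M f (M.p b g) Θ = -B0 M f g (Dv M Θ) +
      if b = Fin.last N then B0 M (M.q (Fin.last N) f) g Θ else 0 := by
  have df : ∀ (u : M.F) (x : RR N),
      HasLineDerivAt ℝ (u : RR N → ℂ) ((M.p b u : RR N → ℂ) x) x (Pi.single b 1) := by
    intro u x
    rw [M.p_val]
    exact ((M.sm _ u.2).differentiable (by simp) x).hasFDerivAt.hasLineDerivAt _
  have i1 := int M (M.p b f) g Θ
  have i2 := int M f g (Dv M Θ)
  have i3 := int M (M.q (Fin.last N) f) g Θ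
  let c : ℂ := if b = Fin.last N then 1 else 0
  let Φ' : RR N → ℂ := fun x =>
    (Θ : ℝ → ℂ) (sX x) * (Gs x : ℂ) * (M.p b f : RR N → ℂ) x +
      ((Dv M Θ : ℝ → ℂ) (sX x) * (Gs x : ℂ) * (f : RR N → ℂ) x -
      c * ((Θ : ℝ → ℂ) (sX x) * (Gs x : ℂ) * (M.q (Fin.last N) f : RR N → ℂ) x))
  have e : ∀ x, Φ' x * (g : RR N → ℂ) x =
      (Θ : ℝ → ℂ) (sX x) * (Gs x : ℂ) * (M.p b f : RR N → ℂ) x * (g : RR N → ℂ) x +
      ((Dv M Θ : ℝ → ℂ) (sX x) * (Gs x : ℂ) * (f : RR N → ℂ) x * (g : RR N → ℂ) x -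
      c * ((Θ : ℝ → ℂ) (sX x) * (Gs x : ℂ) * (M.q (Fin.last N) f : RR N → ℂ) x *
        (g : RR N → ℂ) x)) := fun x => by
    simp only [Φ']
    ring
  have i4 : Integrable fun x : RR N =>
      (Dv M Θ : ℝ → ℂ) (sX x) * (Gs x : ℂ) * (f : RR N → ℂ) x * (g : RR N → ℂ) x -
      c * ((Θ : ℝ → ℂ) (sX x) * (Gs x : ℂ) * (M.q (Fin.last N) f : RR N → ℂ) x *
        (g : RR N → ℂ) x) := i2.sub (i3.const_mul c)
  have h := integral_bilinear_hasLineDerivAt_right_eq_neg_left_of_integrable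
    (μ := (volume : Measure (RR N))) (B := ContinuousLinearMap.mul ℝ ℂ)
    (f := fun x => (Θ : ℝ → ℂ) (sX x) * (Gs x : ℂ) * (f : RR N → ℂ) x) (f' := Φ')
    (g := (g : RR N → ℂ)) (g' := (M.p b g : RR N → ℂ)) (v := Pi.single b 1)
    (by simp only [ContinuousLinearMap.mul_apply', e]; exact i1.add i4)
    (int M f (M.p b g) Θ) (int M f g Θ) ?_ (fun x _ => df g x)
  · simp only [ContinuousLinearMap.mul_apply', e] at h
    rw [integral_add i1 i4, integral_sub i2 (i3.const_mul c), integral_const_mul] at h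
    rw [B0_val, B0_val, B0_val, B0_val, h]
    simp only [c]
    split_ifs <;> ring
  · intro x _
    have k := ((der_Th (TT_ok Θ).1 b x).mul (der_Gs b x)).mul (df f x)
    refine HasDerivAt.congr_deriv k ?_
    have e1 : (Dv M Θ : ℝ → ℂ) = deriv (Θ : ℝ → ℂ) := rfl
    simp only [Φ', c, Pi.mul_apply, zero_smul, add_zero, M.q_val, e1]
    split_ifs <;> ring

end ClsB

open ClsB in
theorem clsBS : ClsBS := by
  intro N M
  refine ⟨{ M with
    T := TT M, Dv := Dv M, B := BB M, D_val := fun _ => rfl, T_cpt := cpt M, T_exp := expo M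
    int := int M, B_val := fun _ _ _ => rfl, grn := ⟨B0_symm M, ?_, ?_⟩ }⟩
  · intro b hb f g
    ext Θ
    have h := ibp M ⟨b, Nat.lt_succ_of_le hb⟩ f g Θ
    have e : ((⟨b, Nat.lt_succ_of_le hb⟩ : Fin (N + 1)) = Fin.last N) = (b = N) := by
      rw [Fin.ext_iff]
      rfl
    simp only [e] at h
    by_cases hN : b = N
    · rw [if_pos hN] at h ⊢
      exact h
    · rw [if_neg hN] at h ⊢
      exact h
  · intro b hb f g
    ext Θ
    change B0 M _ _ Θ = B0 M _ _ Θ
    rw [B0_val, B0_val]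
    refine integral_congr_ae (ae_of_all _ fun x => ?_)
    have e1 := M.q_val ⟨b, Nat.lt_succ_of_le hb⟩ f x
    have e2 := M.q_val ⟨b, Nat.lt_succ_of_le hb⟩ g x
    simp only at e1 e2 ⊢
    rw [e1, e2]
    ring

end SI

end Pool.Agent.Lib.MP_fa98d2_nt.D
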