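import Pool.Agent.Lib.MP_fa98d2_nt.I.Stmts

/-! Density theorem at the real place: the passage to classical forms. -/

open MeasureTheory Filter Topology Matrix
open scoped ENNReal Real ContDiff ComplexConjugate InnerProductSpace

noncomputable section

namespace Pool.Agent.Lib.MP_fa98d2_nt.D

namespace SI

open SW

namespace Fin0

lemma theta_nonneg {n : ℕ} (μ : Fin n → ℂ) : 0 ≤ thetaInf μ :=
  Real.iSup_nonneg fun _ => abs_nonneg _

lemma cast_d (N : ℕ) : ((DD N : ℕ) : ℝ) + N = (((N + 1 : ℕ) : ℝ) - 1) * ((N + 1 : ℕ) + 2) / 2 := by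
  rw [DD, Nat.cast_choose_two]; push_cast; ring

end Fin0

open Fin0 in
theorem finI (hP : PPS) (hS : SphS) (hM : MainS) : FinS := by
  intro n hn ε hε
  obtain ⟨N, rfl⟩ : ∃ N, n = N + 1 := ⟨n - 1, by omega⟩
  have hN : 1 ≤ N := by omega
  obtain ⟨C0, hB⟩ := hBr (N + 1)
  obtain ⟨C, T0, hT0, hM⟩ := hM N hN C0 ε hε
  set r : ℝ := (DD N : ℝ) + N - 1 + ε with hr
  have hr0 : 0 ≤ r := by
    have h1 : (1 : ℝ) ≤ N := by exact_mod_cast hN
    have h2 : (0 : ℝ) ≤ DD N := Nat.cast_nonneg _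
    linarith
  refine ⟨max C 0 * T0 ^ r, fun T hT ι _ φ μ α hφ hnp hμ hθ => ?_⟩
  have hT0' : 0 < T := by linarith
  have hTT : T ≤ T0 * T := le_mul_of_one_le_left hT0'.le hT0
  have hT1 : 1 ≤ T0 * T := hT.trans hTT
  have hμ' : ∀ j l, ‖μ j l‖ ≤ T0 * T := fun j l => (hμ j l).trans hTT
  have h := fun j => hB (φ j) (μ j) (α j) (hφ j) (T0 * T) hT1 (hμ' j)
  choose γ hγ using fun j => (h j).2.2.2
  have hinv : ∀ j, InV (α j) fun g : G (N + 1) => φ j g.val :=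
    fun j => hS.inv N hN (α j) _ (h j).2.2.1 (h j).1
  choose R hR using fun j => hIso N hN (α j) (h j).2.2.1 ⟨_, (h j).1.ne, hinv j⟩
  let d : ι → Dat N := fun j => ⟨α j, γ j, R j, hR j⟩
  let w : ∀ j, (d j).V := fun j => ⟨fun g : G (N + 1) => φ j g.val, (d j).mem.2 ⟨hinv j, (hγ j).2⟩⟩
  have key := hM (T0 * T) (le_mul_of_one_le_right (by linarith) hT) ι d w μ
    (fun j h0 => (h j).1.ne (congrArg Subtype.val h0)) (fun j => (h j).1.sph)
    (fun j => (h j).2.2.1) (fun j => (hγ j).1)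
    (fun j => hP (N + 1) (φ j) (μ j) (α j) (hφ j) (γ j) (hγ j).2) hμ' hθ (fun i j hij => by
      by_contra hcon
      push Not at hcon
      have hF : Form (α i) fun g : G (N + 1) => φ j g.val :=
        ⟨(h j).1.aut, (h j).1.cusp, fun q hq r hr g => by
          rw [hcon q hq _ (Nat.sub_le _ _)]; exact (h j).1.hk q hq r hr g,
          (h j).1.l2, (h j).1.ne, (h j).1.sph⟩
      obtain ⟨c, hc⟩ := hMu N hN (α i) _ _ (h i).2.2.1 (h i).1 hF
      refine hnp i j hij ⟨c, fun g hg => ?_⟩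
      have := congrFun hc (mkG g)
      simpa [val_mkG hg] using this)
  have e1 : (((N + 1 : ℕ) : ℝ) - 1) * ((N + 1 : ℕ) + 2) / 2 - 1 + ε = r := by
    rw [hr, cast_d]
  have e2 : ((N + 1 : ℕ) : ℝ) - 2 = (N : ℝ) - 1 := by push_cast; ring
  rw [e1, e2]
  have h1 : (0 : ℝ) ≤ (N : ℝ) - 1 := by
    have : (1 : ℝ) ≤ N := by exact_mod_cast hN
    linarith
  calc ∑ j, T ^ (2 * ((N : ℝ) - 1) * thetaInf (μ j))
      ≤ ∑ j, (T0 * T) ^ (2 * ((N : ℝ) - 1) * thetaInf (μ j)) :=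
        Finset.sum_le_sum fun j _ => Real.rpow_le_rpow hT0'.le hTT
          (mul_nonneg (mul_nonneg zero_le_two h1) (theta_nonneg _))
    _ ≤ C * (T0 * T) ^ r := key
    _ ≤ max C 0 * (T0 * T) ^ r :=
        mul_le_mul_of_nonneg_right (le_max_left _ _) (Real.rpow_nonneg (by linarith) _)
    _ = _ := by rw [Real.mul_rpow (by linarith) hT0'.le, mul_assoc]

end SI

end Pool.Agent.Lib.MP_fa98d2_nt.D
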