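import Pool.Agent.Lib.MP_fa98d2_nt.I.Stmts

/-! Density theorem at the real place: cut off exponentials. -/

open MeasureTheory Filter Topology Matrix
open scoped ENNReal Real ContDiff ComplexConjugate InnerProductSpace

noncomputable section

namespace Pool.Agent.Lib.MP_fa98d2_nt.D

namespace SI

open SW

namespace Gen

theorem DP_cons (c : ℂ) (w : List ℂ) (h : ℝ → ℂ) :
    DP (c :: w) h = deriv (DP w h) + c • DP w h := rfl

theorem sm_deriv {h : ℝ → ℂ} (hh : ContDiff ℝ ∞ h) : ContDiff ℝ ∞ (deriv h) :=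
  (contDiff_infty_iff_deriv.1 hh).2

theorem sm_diff {h : ℝ → ℂ} (hh : ContDiff ℝ ∞ h) : Differentiable ℝ h :=
  (contDiff_infty_iff_deriv.1 hh).1

theorem DP_sm (w : List ℂ) {h : ℝ → ℂ} (hh : ContDiff ℝ ∞ h) : ContDiff ℝ ∞ (DP w h) := by
  induction w with
  | nil => exact hh
  | cons c w ih => exact (sm_deriv ih).add (ih.const_smul c)

theorem DP_comb (w : List ℂ) {f g : ℝ → ℂ} (hf : ContDiff ℝ ∞ f) (hg : ContDiff ℝ ∞ g) (a : ℂ) :
    DP w (fun t => f t - a * g t) = fun t => DP w f t - a * DP w g t := by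
  induction w with
  | nil => rfl
  | cons c w ih =>
    ext t
    have h1 := (sm_diff (DP_sm w hf) t).hasDerivAt.sub
      ((sm_diff (DP_sm w hg) t).hasDerivAt.const_mul a)
    have h2 : deriv (fun t => DP w f t - a * DP w g t) t = _ := h1.deriv
    simp only [DP_cons, ih, Pi.add_apply, Pi.smul_apply, smul_eq_mul, h2]
    ring

theorem DP_shift (w : List ℂ) (h : ℝ → ℂ) (a : ℝ) :
    DP w (fun t => h (t - a)) = fun t => DP w h (t - a) := by
  induction w with
  | nil => rfl
  | cons c w ih =>
    ext t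
    simp only [DP_cons, ih, Pi.add_apply, Pi.smul_apply, deriv_comp_sub_const]

theorem DP_exp (w : List ℂ) {h : ℝ → ℂ} (hh : ContDiff ℝ ∞ h) (s : ℝ) :
    DP w (fun t => ((Real.exp (s * t) : ℝ) : ℂ) * h t) =
      fun t => ((Real.exp (s * t) : ℝ) : ℂ) * DP (w.map fun c => (s : ℂ) + c) h t := by
  induction w with
  | nil => rfl
  | cons c w ih =>
    ext t
    have h0 : HasDerivAt (fun t : ℝ => Real.exp (s * t)) (Real.exp (s * t) * (s * 1)) t :=
      ((hasDerivAt_id t).const_mul s).exp
    have h1 := h0.ofReal_comp.mul (sm_diff (DP_sm (w.map fun c => (s : ℂ) + c) hh) t).hasDerivAt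
    have h2 : deriv (fun t => ((Real.exp (s * t) : ℝ) : ℂ) *
      DP (w.map fun c => (s : ℂ) + c) h t) t = _ := h1.deriv
    simp only [List.map_cons, DP_cons, ih, Pi.add_apply, Pi.smul_apply, smul_eq_mul, h2]
    push_cast
    ring

theorem DP_deriv (w : List ℂ) {h : ℝ → ℂ} (hh : ContDiff ℝ ∞ h) :
    deriv (DP w h) = DP w (deriv h) := by
  induction w with
  | nil => rfl
  | cons c w ih =>
    ext t
    have h1 := (sm_diff (sm_deriv (DP_sm w hh)) t).hasDerivAt.add
      ((sm_diff (DP_sm w hh) t).hasDerivAt.const_smul c)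
    have h2 : deriv (deriv (DP w h) + c • DP w h) t = _ := h1.deriv
    rw [DP_cons, DP_cons, h2, ← ih]
    rfl

theorem DP_const (w : List ℂ) {h : ℝ → ℂ} {t : ℝ} {c : ℂ} (hc : h =ᶠ[𝓝 t] fun _ => c) :
    DP w h =ᶠ[𝓝 t] fun _ => w.prod * c := by
  induction w with
  | nil => simpa [DP] using hc
  | cons a w ih =>
    filter_upwards [ih, ih.deriv] with u h1 h2
    rw [DP_cons, Pi.add_apply, Pi.smul_apply, h1, h2]
    simp [mul_assoc]

theorem DP_bound (w : List ℂ) {H : ℝ} : ∀ h : ℝ → ℂ, ContDiff ℝ ∞ h →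
    (∀ j, j ≤ w.length → ∀ t, ‖deriv^[j] h t‖ ≤ H) →
    ∀ t, ‖DP w h t‖ ≤ H * (w.map fun c => 1 + ‖c‖).prod := by
  induction w with
  | nil =>
    intro h _ hb t
    simpa [DP] using hb 0 le_rfl t
  | cons c w ih =>
    intro h hh hb t
    have h1 := ih (deriv h) (sm_deriv hh)
      (fun j hj t => hb (j + 1) (by simpa using hj) t) t
    have h2 := ih h hh (fun j hj t => hb j (hj.trans (by simp)) t) t
    rw [DP_cons, Pi.add_apply, Pi.smul_apply, DP_deriv w hh, List.map_cons, List.prod_cons]
    refine (norm_add_le _ _).trans ?_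
    rw [norm_smul]
    have h3 := mul_le_mul_of_nonneg_left h2 (norm_nonneg c)
    linarith

theorem DP_rep (j : ℕ) (h : ℝ → ℂ) : DP (List.replicate j 0) h = deriv^[j] h := by
  induction j with
  | zero => rfl
  | succ j ih => rw [List.replicate_succ, DP_cons, ih, Function.iterate_succ_apply']; simp

/-- the smooth step -/
def St (t : ℝ) : ℂ := (Real.smoothTransition t : ℝ)

theorem St_sm : ContDiff ℝ ∞ St :=
  Complex.ofRealCLM.contDiff.comp (Real.smoothTransition.contDiff (n := ⊤))

theorem g_neg (w : List ℂ) {t : ℝ} (ht : t < 0) : DP w St t = 0 := by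
  have h1 : St =ᶠ[𝓝 t] fun _ => 0 := by
    filter_upwards [Iio_mem_nhds ht] with u hu
    rw [St, Real.smoothTransition.zero_of_nonpos (le_of_lt hu), Complex.ofReal_zero]
  simpa using (DP_const w h1).self_of_nhds

theorem g_big (w : List ℂ) {t : ℝ} (ht : 1 < t) : DP w St t = w.prod := by
  have h1 : St =ᶠ[𝓝 t] fun _ => 1 := by
    filter_upwards [Ioi_mem_nhds ht] with u hu
    rw [St, Real.smoothTransition.one_of_one_le (le_of_lt hu), Complex.ofReal_one]
  simpa using (DP_const w h1).self_of_nhds

theorem exists_H (L : ℕ) : ∃ H : ℝ, 0 < H ∧ ∀ j, j ≤ L → ∀ t, ‖deriv^[j] St t‖ ≤ H := by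
  have h1 : ∀ j : ℕ, ∃ B : ℝ, 0 < B ∧ ∀ t, ‖deriv^[j] St t‖ ≤ B := by
    intro j
    rw [← DP_rep]
    obtain ⟨B, hB⟩ := (isCompact_Icc (a := (0 : ℝ)) (b := 1)).exists_bound_of_continuousOn
      (DP_sm (List.replicate j 0) St_sm).continuous.continuousOn
    refine ⟨max B 1, by positivity, fun t => ?_⟩
    rcases lt_or_ge t 0 with h | h
    · rw [g_neg _ h, norm_zero]
      positivity
    rcases le_or_gt t 1 with h' | h'
    · exact (hB t ⟨h, h'⟩).trans (le_max_left _ _)
    · rw [g_big _ h', List.prod_replicate, norm_pow, norm_zero]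
      exact (pow_le_one₀ le_rfl zero_le_one).trans (le_max_right _ _)
  choose B hB0 hB using h1
  refine ⟨∑ j ∈ Finset.range (L + 1), B j, Finset.sum_pos (fun j _ => hB0 j) (by simp),
    fun j hj t => (hB j t).trans ?_⟩
  exact Finset.single_le_sum (fun i _ => (hB0 i).le) (Finset.mem_range.2 (by omega))

/-- the cut off exponential -/
def ce (s a b t : ℝ) : ℂ := ((Real.exp (s * t) : ℝ) : ℂ) * (St (t - a) - 1 * St (t - b))

theorem St_shift (a : ℝ) : ContDiff ℝ ∞ fun t => St (t - a) :=
  St_sm.comp (contDiff_id.sub contDiff_const)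

theorem ce_sm (s a b : ℝ) : ContDiff ℝ ∞ (ce s a b) :=
  (Complex.ofRealCLM.contDiff.comp (contDiff_const.mul contDiff_id).exp).mul
    ((St_shift a).sub (contDiff_const.mul (St_shift b)))

theorem DP_ce (w : List ℂ) (s a b t : ℝ) : DP w (ce s a b) t = ((Real.exp (s * t) : ℝ) : ℂ) *
    (DP (w.map fun c => (s : ℂ) + c) St (t - a) - DP (w.map fun c => (s : ℂ) + c) St (t - b)) := by
  have h1 := DP_exp w ((St_shift a).sub ((contDiff_const (c := (1 : ℂ))).mul (St_shift b))) s
  have h2 : DP w (ce s a b) t = _ := congrFun h1 t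
  rw [h2, DP_comb _ (St_shift a) (St_shift b), DP_shift, DP_shift]
  simp only [one_mul]

end Gen

open Gen in
theorem genS : GenS := by
  intro L
  obtain ⟨H, hH0, hH⟩ := exists_H L
  refine ⟨H, hH0, ?_⟩
  intro Ω _ m Xf hX z hz hpos s1 s0 X0 X1 hs1 hs10 hX01 hP1 hint
  have hs0 : 0 ≤ s0 := hs1.trans hs10
  have hg : ∀ (s t : ℝ), ‖DP (z.map fun c => (s : ℂ) + c) St t‖ ≤ H * ell z s := by
    intro s t
    have := DP_bound (z.map fun c => (s : ℂ) + c) St St_sm
      (fun j hj t => hH j (by simpa [hz] using hj) t) t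
    rwa [List.map_map] at this
  have hl1 : 0 ≤ H * ell z s1 := (norm_nonneg _).trans (hg s1 0)
  have hl0 : 0 ≤ H * ell z s0 := (norm_nonneg _).trans (hg s0 0)
  set lam : ℝ := Real.exp ((s1 - s0) * (X1 + 1)) with hlam
  have hlam0 : 0 < lam := Real.exp_pos _
  set P0 : ℂ := (z.map fun c => (s0 : ℂ) + c).prod with hP0
  set S1 : Set Ω := {o | X0 - 1 ≤ Xf o ∧ Xf o ≤ X0} with hS1
  set S2 : Set Ω := {o | X1 ≤ Xf o} with hS2
  set S3 : Set Ω := {o | Xf o ≤ X0 + 1} with hS3
  have m1 : MeasurableSet S1 :=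
    (measurableSet_le measurable_const hX).inter (measurableSet_le hX measurable_const)
  have m2 : MeasurableSet S2 := measurableSet_le measurable_const hX
  have m3 : MeasurableSet S3 := measurableSet_le hX measurable_const
  set Ef : Ω → ℝ := fun o => Real.exp (s0 * Xf o) with hEf
  have hE0 : ∀ o, 0 < Ef o := fun o => Real.exp_pos _
  have i1 : Integrable (S1.indicator fun _ => (1 : ℝ)) m := by
    refine (hint.const_mul (Real.exp (-(s0 * (X0 - 1))))).mono'
      (measurable_const.indicator m1).aestronglyMeasurable (Eventually.of_forall fun o => ?_)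
    by_cases ho : o ∈ S1
    · rw [Set.indicator_of_mem ho, norm_one, ← Real.exp_add]
      refine Real.one_le_exp ?_
      nlinarith [ho.1]
    · rw [Set.indicator_of_notMem ho, norm_zero]
      positivity
  have i2 : Integrable (S2.indicator Ef) m := hint.indicator m2
  have i3 : Integrable (S3.indicator Ef) m := hint.indicator m3
  set A : ℝ → ℂ := DP z (ce s1 (X0 - 1) (X1 + 1)) with hA
  set Bf : ℝ → ℂ := DP z (ce s0 X0 X1) with hB
  set Uf : Ω → ℝ := fun o => H * ell z s1 *
    (Real.exp (s1 * X0) * S1.indicator (fun _ => (1 : ℝ)) o + lam * S2.indicator Ef o) with hU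
  set Vf : Ω → ℝ := fun o => P0.re * Ef o -
    (‖P0‖ + 2 * H * ell z s0) * (S3.indicator Ef o + S2.indicator Ef o) with hV
  have iU : Integrable Uf m := ((i1.const_mul _).add (i2.const_mul _)).const_mul _
  have iV : Integrable Vf m := (hint.const_mul _).sub ((i3.add i2).const_mul _)
  have hAU : ∀ o, ‖A (Xf o)‖ ≤ Uf o := by
    intro o
    have a1 : Real.exp (s1 * Xf o) * ‖DP (z.map fun c => (s1 : ℂ) + c) St (Xf o - (X0 - 1))‖ ≤
        H * ell z s1 * (Real.exp (s1 * X0) * S1.indicator (fun _ => (1 : ℝ)) o) := by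
      by_cases ho : o ∈ S1
      · rw [Set.indicator_of_mem ho, mul_one, mul_comm]
        gcongr
        · exact hg _ _
        · exact ho.2
      · rw [Set.indicator_of_notMem ho, mul_zero, mul_zero]
        rcases not_and_or.1 ho with h | h
        · rw [g_neg _ (by linarith [not_le.1 h]), norm_zero, mul_zero]
        · rw [g_big _ (by linarith [not_le.1 h]), hP1, norm_zero, mul_zero]
    have a2 : Real.exp (s1 * Xf o) * ‖DP (z.map fun c => (s1 : ℂ) + c) St (Xf o - (X1 + 1))‖ ≤
        H * ell z s1 * (lam * S2.indicator Ef o) := by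
      rcases lt_or_ge (Xf o) (X1 + 1) with h | h
      · rw [g_neg _ (by linarith), norm_zero, mul_zero]
        exact mul_nonneg hl1 (mul_nonneg hlam0.le
          (Set.indicator_nonneg (fun o _ => (hE0 o).le) o))
      · have ho : o ∈ S2 := show X1 ≤ Xf o by linarith
        rw [Set.indicator_of_mem ho, mul_comm, hlam, hEf, ← Real.exp_add]
        gcongr
        · exact hg _ _
        · nlinarith
    rw [hA, DP_ce, norm_mul, Complex.norm_real, Real.norm_of_nonneg (Real.exp_pos _).le]
    refine (mul_le_mul_of_nonneg_left (norm_sub_le _ _) (Real.exp_pos _).le).trans ?_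
    simp only [hU]
    linarith
  have hBn : ∀ o, ‖Bf (Xf o)‖ ≤ 2 * (H * ell z s0) * Ef o := by
    intro o
    rw [hB, DP_ce, norm_mul, Complex.norm_real, Real.norm_of_nonneg (Real.exp_pos _).le, mul_comm]
    gcongr
    linarith [norm_sub_le (DP (z.map fun c => (s0 : ℂ) + c) St (Xf o - X0))
      (DP (z.map fun c => (s0 : ℂ) + c) St (Xf o - X1)), hg s0 (Xf o - X0), hg s0 (Xf o - X1)]
  have hBV : ∀ o, Vf o ≤ (Bf (Xf o)).re := by
    intro o
    by_cases ho : o ∈ S3 ∨ o ∈ S2
    · have b1 : Ef o ≤ S3.indicator Ef o + S2.indicator Ef o := by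
        have c3 : 0 ≤ S3.indicator Ef o := Set.indicator_nonneg (fun o _ => (hE0 o).le) o
        have c2 : 0 ≤ S2.indicator Ef o := Set.indicator_nonneg (fun o _ => (hE0 o).le) o
        rcases ho with h | h
        · rw [Set.indicator_of_mem h]
          linarith
        · rw [Set.indicator_of_mem h]
          linarith
      have b2 : -‖Bf (Xf o)‖ ≤ (Bf (Xf o)).re := (abs_le.1 (Complex.abs_re_le_norm _)).1
      have b3 : P0.re * Ef o ≤ ‖P0‖ * Ef o :=
        mul_le_mul_of_nonneg_right (Complex.re_le_norm _) (hE0 o).le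
      have b4 : (‖P0‖ + 2 * H * ell z s0) * Ef o ≤
          (‖P0‖ + 2 * H * ell z s0) * (S3.indicator Ef o + S2.indicator Ef o) :=
        mul_le_mul_of_nonneg_left b1 (by nlinarith [norm_nonneg P0])
      have b5 := hBn o
      simp only [hV]
      nlinarith
    · obtain ⟨h3, h2⟩ := not_or.1 ho
      have h3' : X0 + 1 < Xf o := not_le.1 h3
      have h2' : Xf o < X1 := not_le.1 h2
      simp only [hV]
      rw [Set.indicator_of_notMem h3, Set.indicator_of_notMem h2, hB, DP_ce,
        g_big _ (by linarith), g_neg _ (by linarith), sub_zero, Complex.re_ofReal_mul]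
      simp only [hEf]
      linarith
  have mA : AEStronglyMeasurable (fun o => A (Xf o)) m :=
    ((DP_sm z (ce_sm _ _ _)).continuous.measurable.comp hX).aestronglyMeasurable
  have mB : AEStronglyMeasurable (fun o => Bf (Xf o)) m :=
    ((DP_sm z (ce_sm _ _ _)).continuous.measurable.comp hX).aestronglyMeasurable
  have iA : Integrable (fun o => A (Xf o)) m := iU.mono' mA (Eventually.of_forall hAU)
  have iB : Integrable (fun o => Bf (Xf o)) m :=
    (hint.const_mul _).mono' mB (Eventually.of_forall hBn)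
  set Θ : ℝ → ℝ := fun t => Real.exp (s1 * t) *
      (Real.smoothTransition (t - (X0 - 1)) - Real.smoothTransition (t - (X1 + 1))) -
    lam * (Real.exp (s0 * t) *
      (Real.smoothTransition (t - X0) - Real.smoothTransition (t - X1))) with hΘ
  have hst : ∀ a : ℝ, ContDiff ℝ ∞ fun t => Real.smoothTransition (t - a) := fun a =>
    (Real.smoothTransition.contDiff (n := ⊤)).comp (contDiff_id.sub contDiff_const)
  have hΘs : ContDiff ℝ ∞ Θ :=
    ((contDiff_const.mul contDiff_id).exp.mul ((hst _).sub (hst _))).sub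
      (contDiff_const.mul ((contDiff_const.mul contDiff_id).exp.mul ((hst _).sub (hst _))))
  have hΘc : HasCompactSupport Θ := by
    refine HasCompactSupport.intro (isCompact_Icc (a := X0 - 1) (b := X1 + 2)) fun t ht => ?_
    simp only [hΘ]
    rcases not_and_or.1 ht with h | h
    · have h' := not_le.1 h
      rw [Real.smoothTransition.zero_of_nonpos (x := t - (X0 - 1)) (by linarith),
        Real.smoothTransition.zero_of_nonpos (x := t - (X1 + 1)) (by linarith),
        Real.smoothTransition.zero_of_nonpos (x := t - X0) (by linarith),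
        Real.smoothTransition.zero_of_nonpos (x := t - X1) (by linarith)]
      ring
    · have h' := not_le.1 h
      rw [Real.smoothTransition.one_of_one_le (x := t - (X0 - 1)) (by linarith),
        Real.smoothTransition.one_of_one_le (x := t - (X1 + 1)) (by linarith),
        Real.smoothTransition.one_of_one_le (x := t - X0) (by linarith),
        Real.smoothTransition.one_of_one_le (x := t - X1) (by linarith)]
      ring
  have hΘ0 : ∀ t, 0 ≤ Θ t := by
    intro t
    have c1 : Real.smoothTransition (t - X0) ≤ Real.smoothTransition (t - (X0 - 1)) :=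
      Real.smoothTransition.monotone (by linarith)
    have c2 : Real.smoothTransition (t - (X1 + 1)) ≤ Real.smoothTransition (t - X1) :=
      Real.smoothTransition.monotone (by linarith)
    have c3 : Real.smoothTransition (t - X1) ≤ Real.smoothTransition (t - X0) :=
      Real.smoothTransition.monotone (by linarith)
    simp only [hΘ]
    rcases le_total t (X1 + 1) with h | h
    · have c4 : lam * Real.exp (s0 * t) ≤ Real.exp (s1 * t) := by
        rw [hlam, ← Real.exp_add, Real.exp_le_exp]
        nlinarith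
      rw [sub_nonneg, ← mul_assoc]
      exact mul_le_mul c4 (by linarith) (by linarith) (Real.exp_pos _).le
    · rw [Real.smoothTransition.one_of_one_le (x := t - X0) (by linarith),
        Real.smoothTransition.one_of_one_le (x := t - X1) (by linarith), sub_self, mul_zero,
        mul_zero, sub_zero]
      exact mul_nonneg (Real.exp_pos _).le (by linarith)
  have h1 := hpos Θ hΘs hΘc hΘ0
  have h2 : (fun t => (Θ t : ℂ)) =
      fun t => ce s1 (X0 - 1) (X1 + 1) t - (lam : ℂ) * ce s0 X0 X1 t := by
    ext t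
    simp only [hΘ, ce, St, Complex.ofReal_sub, Complex.ofReal_mul, one_mul]
  rw [h2, DP_comb z (ce_sm _ _ _) (ce_sm _ _ _)] at h1
  have h3 : (∫ o, (A (Xf o) - (lam : ℂ) * Bf (Xf o)) ∂m).re ≤ ∫ o, (Uf o - lam * Vf o) ∂m := by
    have j1 : Integrable (fun o => A (Xf o) - (lam : ℂ) * Bf (Xf o)) m := iA.sub (iB.const_mul _)
    have j2 := integral_re j1
    simp only [RCLike.re_to_complex] at j2
    rw [← j2]
    refine integral_mono j1.re (iU.sub (iV.const_mul _)) fun o => ?_
    have k1 := (Complex.re_le_norm _).trans (hAU o)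
    have k2 := mul_le_mul_of_nonneg_left (hBV o) hlam0.le
    simp only [Complex.sub_re, Complex.re_ofReal_mul]
    linarith
  have h4 : ∫ o, Uf o ∂m = H * ell z s1 *
      (Real.exp (s1 * X0) * m.real S1 + lam * ∫ o in S2, Ef o ∂m) := by
    simp only [hU]
    rw [integral_const_mul, integral_add (i1.const_mul _) (i2.const_mul _), integral_const_mul,
      integral_const_mul, integral_indicator_const _ m1, integral_indicator m2, smul_eq_mul,
      mul_one]
  have h5 : ∫ o, Vf o ∂m = P0.re * (∫ o, Ef o ∂m) - (‖P0‖ + 2 * H * ell z s0) *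
      ((∫ o in S3, Ef o ∂m) + ∫ o in S2, Ef o ∂m) := by
    have j1 : Integrable (fun o => S3.indicator Ef o + S2.indicator Ef o) m := i3.add i2
    simp only [hV]
    rw [integral_sub (hint.const_mul _) (j1.const_mul _), integral_const_mul, integral_const_mul,
      integral_add i3 i2, integral_indicator m3, integral_indicator m2]
  rw [integral_sub iU (iV.const_mul _), h4, integral_const_mul, h5] at h3
  linarith [h1.trans h3]

end SI

end Pool.Agent.Lib.MP_fa98d2_nt.D
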