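import Pool.Agent.Lib.MP_fa98d2_nt.I.Stmts

/-! Density theorem at the real place: geometry of the good region. -/

open MeasureTheory Filter Topology Matrix
open scoped ENNReal Real ContDiff ComplexConjugate InnerProductSpace

noncomputable section

namespace Pool.Agent.Lib.MP_fa98d2_nt.D

namespace SI

open SW

namespace Geo

variable {N : ℕ}

theorem step {T Z : ℝ} (hT : 1 ≤ T) (hZ : 1 ≤ Z) {x : RR N} (hx : x ∈ Good N T Z) (b : Fin N) :
    x b.castSucc - x b.succ ≤ Real.log T + Real.log Z := by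
  rw [← Real.log_mul (by linarith) (by linarith)]
  exact (Real.le_log_iff_exp_le (by positivity)).2 (hx.1 b)

theorem lastle {T Z : ℝ} (hZ : 1 ≤ Z) {x : RR N} (hx : x ∈ Good N T Z) :
    x (Fin.last N) ≤ Real.log Z :=
  (Real.le_log_iff_exp_le (by positivity)).2 hx.2

theorem chain {L : ℝ} {x : RR N} (h : ∀ b : Fin N, x b.castSucc - x b.succ ≤ L) (d : ℕ) :
    ∀ i k : Fin (N + 1), k.val = i.val + d → x i - x k ≤ d * L := by
  induction d with
  | zero =>
    intro i k e
    have : k = i := Fin.ext e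
    rw [this]; simp
  | succ d ih =>
    intro i k e
    have hk := k.isLt
    have h1 := ih i ⟨i.val + d, by omega⟩ rfl
    have h2 := h ⟨i.val + d, by omega⟩
    have e1 : (⟨i.val + d, by omega⟩ : Fin N).succ = k := Fin.ext (by simp [e]; omega)
    have e2 : (⟨i.val + d, by omega⟩ : Fin N).castSucc = ⟨i.val + d, by omega⟩ := rfl
    rw [e1, e2] at h2
    push_cast
    linarith

theorem chain' {L : ℝ} {x : RR N} (h : ∀ b : Fin N, x b.castSucc - x b.succ ≤ L)
    {i k : Fin (N + 1)} (hik : i.val ≤ k.val) : x i - x k ≤ ((k.val : ℝ) - i.val) * L := by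
  have := chain h (k.val - i.val) i k (by omega)
  rwa [Nat.cast_sub hik] at this

theorem sum_id (N : ℕ) : ∑ j : Fin N, ((j.val : ℕ) : ℝ) = N * (N - 1) / 2 := by
  induction N with
  | zero => simp
  | succ n ih =>
    rw [Fin.sum_univ_castSucc]
    simp only [Fin.val_castSucc, Fin.val_last, ih]
    push_cast
    ring

theorem sum_w (N : ℕ) (L : ℝ) :
    ∑ j : Fin N, ((N : ℝ) - 1 - j.val) * L = (N.choose 2 : ℝ) * L := by
  rw [← Finset.sum_mul, Finset.sum_sub_distrib, sum_id, Nat.cast_choose_two]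
  simp only [Finset.sum_const, Finset.card_univ, Fintype.card_fin, nsmul_eq_mul]
  ring

theorem sX_eq (x : RR N) :
    sX x = (N + 1) * x (Fin.last N) + ∑ b, (x b - x (Fin.last N)) := by
  rw [Finset.sum_sub_distrib, sX]
  simp

theorem DD_cast (N : ℕ) : (DD N : ℝ) = (N.choose 2 : ℝ) + N := by
  rw [DD, Nat.cast_choose_two, Nat.cast_choose_two]
  push_cast
  ring

theorem pow_eq {T : ℝ} (hT : 1 ≤ T) (k : ℕ) : T ^ k = Real.exp (k * Real.log T) := by
  rw [Real.exp_nat_mul, Real.exp_log (by linarith)]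

theorem omg_eq (x : RR N) : omg x = Real.exp (∑ b, min 0 (x b - x (Fin.last N))) := by
  rw [Real.exp_sum, omg]
  refine Finset.prod_congr rfl fun b _ => ?_
  rw [Real.exp_monotone.map_min, Real.exp_zero]

theorem low (N : ℕ) (T Z : ℝ) (hT : 1 ≤ T) (hZ : 1 ≤ Z) (x : RR N) (hx : x ∈ Good N T Z) :
    min 1 (Real.exp (sX x) / T ^ N.choose 2) ≤ Z ^ (DD N + 1) * omg x := by
  have lt := Real.log_nonneg hT
  have lz := Real.log_nonneg hZ
  have hs := step hT hZ hx
  by_cases hk : ∀ b, x (Fin.last N) ≤ x b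
  · have : omg x = 1 := by
      rw [omg_eq, Finset.sum_eq_zero fun b _ => min_eq_left (sub_nonneg.2 (hk b)), Real.exp_zero]
    rw [this, mul_one]
    exact (min_le_left _ _).trans (one_le_pow₀ hZ)
  · push Not at hk
    obtain ⟨k, hk⟩ := hk
    have hkN : k.val < N := by
      have h1 := k.isLt
      by_contra hc
      have : k = Fin.last N := Fin.ext (by simp; omega)
      rw [this] at hk
      exact lt_irrefl _ hk
    have h1 : ∑ b, max 0 (x b - x (Fin.last N)) ≤
        (N.choose 2 : ℝ) * (Real.log T + Real.log Z) := by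
      rw [Fin.sum_univ_succAbove _ k, max_eq_left (by linarith), zero_add, ← sum_w]
      refine Finset.sum_le_sum fun j _ => max_le ?_ ?_
      · have : ((j.val + 1 : ℕ) : ℝ) ≤ N := by exact_mod_cast j.isLt
        push_cast at this
        exact mul_nonneg (by linarith) (by linarith)
      · by_cases hj : j.castSucc < k
        · rw [Fin.succAbove_of_castSucc_lt _ _ hj]
          have h2 := chain' hs (i := j.castSucc) (k := k) (le_of_lt hj)
          have h3 : ((k.val + 1 : ℕ) : ℝ) ≤ N := by exact_mod_cast hkN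
          push_cast at h3
          rw [Fin.val_castSucc] at h2
          have h4 : ((k.val : ℝ) - j.val) * (Real.log T + Real.log Z) ≤
              ((N : ℝ) - 1 - j.val) * (Real.log T + Real.log Z) :=
            mul_le_mul_of_nonneg_right (by linarith) (by linarith)
          linarith
        · rw [Fin.succAbove_of_le_castSucc _ _ (not_lt.1 hj)]
          have h2 := chain' hs (i := j.succ) (k := Fin.last N) (Fin.le_last _)
          rw [Fin.val_succ, Fin.val_last] at h2
          push_cast at h2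
          linarith
    have h2 : ∑ b, (x b - x (Fin.last N)) =
        ∑ b, min 0 (x b - x (Fin.last N)) + ∑ b, max 0 (x b - x (Fin.last N)) := by
      rw [← Finset.sum_add_distrib]
      exact Finset.sum_congr rfl fun b _ => by rw [min_add_max, zero_add]
    refine (min_le_right _ _).trans ?_
    rw [omg_eq, pow_eq hT, pow_eq hZ, ← Real.exp_sub, ← Real.exp_add, Real.exp_le_exp, sX_eq, h2]
    push_cast
    rw [DD_cast]
    have h3 : ((N : ℝ) + 1) * x (Fin.last N) ≤ (N + 1) * Real.log Z :=
      mul_le_mul_of_nonneg_left (lastle hZ hx) (by positivity)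
    linarith

theorem top (N : ℕ) (T Z : ℝ) (hT : 1 ≤ T) (hZ : 1 ≤ Z) (x : RR N) (hx : x ∈ Good N T Z) :
    Real.exp (sX x) ≤ Real.exp (x 0 - x (Fin.last N)) * T ^ N.choose 2 * Z ^ (DD N + 1) := by
  have hs := step hT hZ hx
  have h1 : ∑ j : Fin N, (x j.succ - x (Fin.last N)) ≤
      (N.choose 2 : ℝ) * (Real.log T + Real.log Z) := by
    rw [← sum_w]
    refine Finset.sum_le_sum fun j _ => ?_
    have h2 := chain' hs (i := j.succ) (k := Fin.last N) (Fin.le_last _)
    rw [Fin.val_succ, Fin.val_last] at h2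
    push_cast at h2
    linarith
  rw [pow_eq hT, pow_eq hZ, ← Real.exp_add, ← Real.exp_add, Real.exp_le_exp, sX_eq,
    Fin.sum_univ_succ]
  push_cast
  rw [DD_cast]
  have h3 : ((N : ℝ) + 1) * x (Fin.last N) ≤ (N + 1) * Real.log Z :=
    mul_le_mul_of_nonneg_left (lastle hZ hx) (by positivity)
  linarith

theorem meas (N : ℕ) (T Z : ℝ) : MeasurableSet (Good N T Z) := by
  have : IsClosed (Good N T Z) := by
    have e : Good N T Z = (⋂ b : Fin N, {x : RR N | Real.exp (x b.castSucc - x b.succ) ≤ T * Z}) ∩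
        {x : RR N | Real.exp (x (Fin.last N)) ≤ Z} := by
      ext x; simp [Good]
    rw [e]
    exact (isClosed_iInter fun b => isClosed_le (by fun_prop) continuous_const).inter
      (isClosed_le (by fun_prop) continuous_const)
  exact this.measurableSet

theorem box {η : ℝ} (hη : 0 < η) (a : RR N) {S : Set (RR N)} (hm : MeasurableSet S)
    (hS : ∀ x ∈ S, ∀ b, x b ≤ a b) :
    ∫⁻ x in S, ENNReal.ofReal (Real.exp (η * sX x)) ≤
      ENNReal.ofReal ((η⁻¹) ^ (N + 1) * Real.exp (η * sX a)) := by
  let f : Fin (N + 1) → ℝ → ℝ := fun b => (Set.Iic (a b)).indicator fun t => Real.exp (η * t)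
  have fi : ∀ b, Integrable (f b) := fun b =>
    (integrable_indicator_iff measurableSet_Iic).2 (integrableOn_exp_mul_Iic hη _)
  have f0 : ∀ b t, 0 ≤ f b t := fun b t => Set.indicator_nonneg (fun _ _ => (Real.exp_pos _).le) t
  have pi : Integrable fun x : RR N => ∏ b, f b (x b) := Integrable.fintype_prod fi
  have e : ∫ x : RR N, ∏ b, f b (x b) = (η⁻¹) ^ (N + 1) * Real.exp (η * sX a) := by
    rw [integral_fintype_prod_volume_eq_prod]
    have : ∀ b, ∫ t, f b t = η⁻¹ * Real.exp (η * a b) := fun b => by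
      rw [integral_indicator measurableSet_Iic, integral_exp_mul_Iic hη, div_eq_inv_mul]
    simp only [this]
    rw [Finset.prod_mul_distrib, ← Real.exp_sum, ← Finset.mul_sum, sX]
    simp
  rw [← e, ofReal_integral_eq_lintegral_ofReal pi
    (Eventually.of_forall fun x => Finset.prod_nonneg fun b _ => f0 b _)]
  refine le_trans (setLIntegral_mono' hm fun x hx => le_of_eq ?_) (setLIntegral_le_lintegral _ _)
  congr 1
  rw [sX, Finset.mul_sum, Real.exp_sum]
  exact Finset.prod_congr rfl fun b _ =>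
    (Set.indicator_of_mem (Set.mem_Iic.2 (hS x hx b)) fun t => Real.exp (η * t)).symm

theorem vol (N : ℕ) (η : ℝ) (hη : 0 < η) : ∃ C : ℝ, 0 < C ∧ ∀ T Z : ℝ, 1 ≤ T → 1 ≤ Z →
    ∫⁻ x in Good N T Z, ENNReal.ofReal (Real.exp (η * sX x)) ≤
      ENNReal.ofReal (C * (T * Z) ^ ((DD N + N + 1 : ℝ) * η)) := by
  refine ⟨(η⁻¹) ^ (N + 1), by positivity, fun T Z hT hZ => ?_⟩
  have lt := Real.log_nonneg hT
  have lz := Real.log_nonneg hZ
  refine (box hη (fun b => ((N : ℝ) + 1 - b.val) * (Real.log T + Real.log Z)) (meas N T Z)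
    fun x hx b => ?_).trans (ENNReal.ofReal_le_ofReal ?_)
  · have h2 := chain' (step hT hZ hx) (i := b) (k := Fin.last N) (Fin.le_last _)
    rw [Fin.val_last] at h2
    have h3 := lastle hZ hx
    linarith
  · refine mul_le_mul_of_nonneg_left ?_ (by positivity)
    rw [Real.rpow_def_of_pos (by positivity), Real.log_mul (by linarith) (by linarith),
      Real.exp_le_exp, sX, ← Finset.sum_mul, Finset.sum_sub_distrib, sum_id, DD_cast,
      Nat.cast_choose_two]
    simp only [Finset.sum_const, Finset.card_univ, Fintype.card_fin, nsmul_eq_mul]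
    push_cast
    exact le_of_eq (by ring)

end Geo

theorem geoS : GeoS := by
  exact ⟨Geo.meas, Geo.low, fun N _ => Geo.top N, Geo.vol⟩

end SI

end Pool.Agent.Lib.MP_fa98d2_nt.D
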