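import Pool.Agent.Lib.MP_fa98d2_nt.I.Stmts

/-! Density theorem at the real place: the Green identity of the Toda chain. -/

open MeasureTheory Filter Topology Matrix
open scoped ENNReal Real ContDiff ComplexConjugate InnerProductSpace

noncomputable section

namespace Pool.Agent.Lib.MP_fa98d2_nt.D

namespace SI

open SW

section grn
variable {F Z : Type} [AddCommGroup F] [Module ℂ F] [AddCommGroup Z] [Module ℂ Z]

/-- multiplication by the variable on coefficient sequences -/
def gSh (F : Type) [AddCommGroup F] [Module ℂ F] : Module.End ℂ (ℕ →₀ F) :=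
  Finsupp.lmapDomain F ℂ Nat.succ

/-- evaluation of a coefficient sequence -/
def gEv (σ : Module.End ℂ Z) (β : F →ₗ[ℂ] Z) : (ℕ →₀ F) →ₗ[ℂ] Z :=
  Finsupp.lsum ℂ fun j => (σ ^ j) ∘ₗ β

theorem gEv_single (σ : Module.End ℂ Z) (β : F →ₗ[ℂ] Z) (j : ℕ) (g : F) :
    gEv σ β (Finsupp.single j g) = (σ ^ j) (β g) := by
  simp [gEv]

theorem gEv_sh (σ : Module.End ℂ Z) (β : F →ₗ[ℂ] Z) (x : ℕ →₀ F) :
    gEv σ β (gSh F x) = σ (gEv σ β x) := by
  have e : gEv σ β ∘ₗ gSh F = σ ∘ₗ gEv σ β := by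
    refine Finsupp.lhom_ext fun j g => ?_
    simp only [LinearMap.comp_apply, gSh, Finsupp.lmapDomain_apply, Finsupp.mapDomain_single,
      gEv_single, Nat.succ_eq_add_one, pow_succ', Module.End.mul_apply]
  exact LinearMap.congr_fun e x

theorem gEv_prod (σ : Module.End ℂ Z) (β : F →ₗ[ℂ] Z) (l : List ℂ) (x : ℕ →₀ F) :
    gEv σ β ((l.map fun c => gSh F + c • (1 : Module.End ℂ (ℕ →₀ F))).prod x) =
      (l.map fun c => σ + c • (1 : Module.End ℂ Z)).prod (gEv σ β x) := by
  induction l with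
  | nil => simp
  | cons c l ih =>
    simp only [List.map_cons, List.prod_cons, Module.End.mul_apply, LinearMap.add_apply,
      LinearMap.smul_apply, Module.End.one_apply, map_add, map_smul, gEv_sh, ih]

theorem gEv_scal (t : ℂ) (l : List ℂ) (g : F) :
    (l.map fun c => t • (1 : Module.End ℂ F) + c • (1 : Module.End ℂ F)).prod g =
      (l.map fun c => t + c).prod • g := by
  induction l with
  | nil => simp
  | cons c l ih =>
    simp only [List.map_cons, List.prod_cons, Module.End.mul_apply, LinearMap.add_apply,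
      LinearMap.smul_apply, Module.End.one_apply, ih, smul_smul, add_mul, add_smul]

theorem gEv_inj {x : ℕ →₀ F}
    (h : ∀ t : ℂ, gEv (t • (1 : Module.End ℂ F)) LinearMap.id x = 0) : x = 0 := by
  ext j
  refine (Module.forall_dual_apply_eq_zero_iff ℂ (x j)).1 fun φ => ?_
  have e : (∑ k ∈ x.support, Polynomial.monomial k (φ (x k))) = 0 := by
    refine Polynomial.funext fun t => ?_
    have h1 := congrArg φ (h t)
    simp only [gEv, Finsupp.lsum_apply, Finsupp.sum, map_sum, LinearMap.comp_apply, smul_pow,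
      one_pow, LinearMap.smul_apply, Module.End.one_apply, LinearMap.id_apply, map_smul,
      smul_eq_mul, map_zero] at h1
    rw [Polynomial.eval_finsetSum, Polynomial.eval_zero, ← h1]
    exact Finset.sum_congr rfl fun k _ => by rw [Polynomial.eval_monomial, mul_comm]
  have h2 := congrArg (fun P => Polynomial.coeff P j) e
  simp only [Polynomial.finsetSum_coeff, Polynomial.coeff_monomial, Finset.sum_ite_eq',
    Polynomial.coeff_zero] at h2
  by_cases hj : j ∈ x.support
  · rwa [if_pos hj] at h2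
  · rw [Finsupp.notMem_support_iff.1 hj, map_zero]

/-- the transposed recurrence -/
def gA (p q : ℕ → Module.End ℂ F) : ℕ → (F →ₗ[ℂ] ℕ →₀ F) × (F →ₗ[ℂ] ℕ →₀ F)
  | 0 => (Finsupp.lsingle 0, 0)
  | b + 1 => (gSh F ∘ₗ (gA p q b).1 + (gA p q b).1 ∘ₗ p b + (gA p q b).2, (gA p q b).1 ∘ₗ q b)

variable {N : ℕ} {p q : ℕ → Module.End ℂ F}

theorem gcomm (x : Module.End ℂ F) (u : ℂ) : ∀ b : ℕ, (∀ a < b, Commute x (p a)) →
    (∀ a, a + 1 < b → Commute x (q a)) →
    Commute x (tA p q u b).1 ∧ ((∀ a < b, Commute x (q a)) → Commute x (tA p q u b).2)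
  | 0, _, _ => ⟨Commute.one_right x, fun _ => Commute.zero_right x⟩
  | b + 1, hp, hq => by
    obtain ⟨h1, h2⟩ := gcomm x u b (fun a ha => hp a (by omega)) fun a ha => hq a (by omega)
    exact ⟨((((Commute.one_right x).smul_right u).sub_right (hp b (by omega))).mul_right
      h1).add_right (h2 fun a ha => hq a (by omega)), fun h3 => (h3 b (by omega)).mul_right h1⟩

theorem gcomm_p (h : Tod N p q) (u : ℂ) {b : ℕ} (hb : b ≤ N) : Commute (p b) (tA p q u b).1 := by
  refine (gcomm (p b) u b (fun a _ => h.pp b a) fun a ha => ?_).1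
  have h1 := h.pq b a hb (by omega)
  rw [if_neg (by omega), if_neg (by omega), sub_zero, zero_smul, add_zero] at h1
  exact h1

theorem gcomm_q (h : Tod N p q) (u : ℂ) {b : ℕ} (hb : b ≤ N) : Commute (q b) (tA p q u b).1 := by
  refine (gcomm (q b) u b (fun a ha => ?_) fun a _ => h.qq b a).1
  have h1 := h.pq a b (by omega) hb
  rw [if_neg (by omega), if_neg (by omega), sub_zero, zero_smul, add_zero] at h1
  exact h1.symm

theorem gA_scal (h : Tod N p q) (t : ℂ) : ∀ b : ℕ, b ≤ N + 1 → ∀ g,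
    gEv (t • (1 : Module.End ℂ F)) LinearMap.id ((gA p q b).1 g) =
      (-1 : ℂ) ^ b • (tA p q (-t) b).1 g ∧
    gEv (t • (1 : Module.End ℂ F)) LinearMap.id ((gA p q b).2 g) =
      (-1 : ℂ) ^ (b + 1) • (tA p q (-t) b).2 g
  | 0, _, g => by simp [gA, tA, gEv_single]
  | b + 1, hb, g => by
    have ih := gA_scal h t b (by omega)
    have e1 : (tA p q (-t) b).1 (p b g) = p b ((tA p q (-t) b).1 g) :=
      (LinearMap.congr_fun (gcomm_p h (-t) (by omega : b ≤ N)).eq g).symm
    have e2 : (tA p q (-t) b).1 (q b g) = q b ((tA p q (-t) b).1 g) :=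
      (LinearMap.congr_fun (gcomm_q h (-t) (by omega : b ≤ N)).eq g).symm
    simp only [gA, tA, LinearMap.add_apply, LinearMap.comp_apply, map_add, gEv_sh, (ih _).1,
      (ih _).2, e1, e2, Module.End.mul_apply, LinearMap.sub_apply, LinearMap.smul_apply,
      Module.End.one_apply, pow_succ]
    constructor <;> module

theorem gA_eig (hT : TodaS) (h : Tod N p q) {μ : Fin (N + 1) → ℂ} {g : F} (hg : Eig N p q μ g) :
    (gA p q (N + 1)).1 g = ((List.ofFn μ).map fun c =>
      gSh F + c • (1 : Module.End ℂ (ℕ →₀ F))).prod (Finsupp.single 0 g) := by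
  refine sub_eq_zero.1 (gEv_inj fun t => ?_)
  rw [map_sub, (gA_scal h t (N + 1) le_rfl g).1, gEv_prod, gEv_single, pow_zero,
    Module.End.one_apply, LinearMap.id_apply, gEv_scal, hT.all N F p q μ g hg, smul_smul,
    List.map_ofFn, List.prod_ofFn, sub_eq_zero]
  congr 1
  have e : (-1 : ℂ) ^ (N + 1) = ∏ _k : Fin (N + 1), (-1 : ℂ) := by simp
  rw [e, ← Finset.prod_mul_distrib]
  exact Finset.prod_congr rfl fun k _ => by simp only [Function.comp_apply]; ring

variable {S : Module.End ℂ Z} {B : F →ₗ[ℂ] F →ₗ[ℂ] Z}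

theorem gA_step (hG : Grn N p q S B) (u : ℂ) (f : F) {b : ℕ} (hb : b ≤ N)
    (ih : ∀ g, B ((tA p q u b).1 f) g = gEv (S + u • 1) (B f) ((gA p q b).1 g) ∧
      B ((tA p q u b).2 f) g = gEv (S + u • 1) (B f) ((gA p q b).2 g)) (g : F) :
    B ((tA p q u (b + 1)).1 f) g + (if b = N then B ((tA p q u (b + 1)).2 f) g else 0) =
      gEv (S + u • 1) (B f) ((gA p q (b + 1)).1 g) ∧
    B ((tA p q u (b + 1)).2 f) g = gEv (S + u • 1) (B f) ((gA p q (b + 1)).2 g) := by
  have e1 := eq_sub_of_add_eq (hG.ibp b hb ((tA p q u b).1 f) g)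
  simp only [gA, tA, LinearMap.add_apply, LinearMap.comp_apply, map_add, gEv_sh, ← (ih _).1,
    ← (ih _).2, Module.End.mul_apply, LinearMap.sub_apply, LinearMap.smul_apply,
    Module.End.one_apply, map_sub, map_smul, e1]
  refine ⟨?_, hG.mul b hb _ _⟩
  by_cases hbN : b = N
  · subst hbN
    simp only [if_true]
    abel
  · simp only [if_neg hbN]
    abel

theorem gA_pair (hG : Grn N p q S B) (u : ℂ) (f : F) : ∀ b : ℕ, b ≤ N → ∀ g,
    B ((tA p q u b).1 f) g = gEv (S + u • 1) (B f) ((gA p q b).1 g) ∧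
      B ((tA p q u b).2 f) g = gEv (S + u • 1) (B f) ((gA p q b).2 g)
  | 0, _, g => by simp [gA, tA, gEv_single]
  | b + 1, hb, g => by
    have h1 := gA_step hG u f (by omega : b ≤ N) (gA_pair hG u f b (by omega)) g
    rwa [if_neg (by omega), add_zero] at h1

theorem grn_one (hT : TodaS) (h : Tod N p q) (hG : Grn N p q S B) {μ' : Fin (N + 1) → ℂ} {g : F}
    (hg : Eig N p q μ' g) (u : ℂ) (f : F) :
    B ((tA p q u (N + 1)).1 f) g + B ((tA p q u (N + 1)).2 f) g =
      (List.ofFn fun k => S + (u + μ' k) • (1 : Module.End ℂ Z)).prod (B f g) := by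
  have h1 := (gA_step hG u f le_rfl (gA_pair hG u f N le_rfl) g).1
  rw [if_pos rfl, gA_eig hT h hg, gEv_prod, gEv_single, pow_zero, Module.End.one_apply,
    List.map_ofFn] at h1
  rw [h1]
  simp only [Function.comp_def, add_smul, add_assoc]

theorem grn_half (hT : TodaS) (h : Tod N p q) (hG : Grn N p q S B) {μ μ' : Fin (N + 1) → ℂ}
    {f g : F} (hf : Eig N p q μ f) (hg : Eig N p q μ' g) (i : Fin (N + 1)) :
    B ((tA p q (μ i) (N + 1)).2 f) g =
      (List.ofFn fun k => S + (μ i + μ' k) • (1 : Module.End ℂ Z)).prod (B f g) := by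
  have h1 := grn_one hT h hG hg (μ i) f
  rwa [hT.all N F p q μ f hf, Finset.prod_eq_zero (Finset.mem_univ i) (sub_self _), zero_smul,
    map_zero, LinearMap.zero_apply, zero_add] at h1

end grn

theorem grnS (hT : TodaS) : GrnS := by
  refine ⟨fun N F Z _ _ _ _ p q S B h hG μ' g hg u f => grn_one hT h hG hg u f,
    fun N F Z _ _ _ _ p q S B h hG μ μ' f g hf hg i => ?_⟩
  rw [grn_half hT h hG hf (hT.shift N F p q h μ' g hg i) i, hG.symm f,
    grn_half hT h hG hg hf i, hG.symm g, zs, List.map_append, List.prod_append,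
    Module.End.mul_apply, List.map_ofFn, List.map_ofFn]
  simp only [Function.comp_def, add_assoc]

end SI

end Pool.Agent.Lib.MP_fa98d2_nt.D
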