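import Pool.Agent.Lib.MP_fa98d2_nt.I.Stmts

/-! Density theorem at the real place: Iwasawa coordinates. -/

open MeasureTheory Filter Topology Matrix
open scoped ENNReal Real ContDiff ComplexConjugate InnerProductSpace

noncomputable section

namespace Pool.Agent.Lib.MP_fa98d2_nt.D

namespace SI

open SW

namespace Ia

variable {k : ℕ}

lemma dec (g : G k) : ∃ (u o : G k) (a : Fin k → ℝ), IsU u ∧ IsO o ∧ (∀ i, 0 < a i) ∧
    g = u * dg a * o := by
  obtain ⟨u, o, a, hu, rfl, ha, h⟩ := CD.iwa g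
  have h0 : ∀ i, a i ≠ 0 := fun i => (ha i).ne'
  refine ⟨u, (dg a)⁻¹ * o, a, hu, ?_, ha, by group⟩
  rw [IsO, Matrix.mem_orthogonalGroup_iff, dg_inv h0, Units.val_mul,
    val_dg fun i => inv_ne_zero (h0 i), Matrix.transpose_mul, Matrix.diagonal_transpose,
    Matrix.mul_assoc, ← Matrix.mul_assoc o.val, h, Matrix.diagonal_mul_diagonal,
    Matrix.diagonal_mul_diagonal, ← Matrix.diagonal_one]
  congr 1
  ext i
  have := h0 i
  field_simp

lemma row_sq {o : G k} (ho : IsO o) (M : Mat k) (i : Fin k) :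
    ∑ l, (M * o.val) i l ^ 2 = ∑ l, M i l ^ 2 := by
  have h1 : o.val * o.valᵀ = 1 := (Matrix.mem_orthogonalGroup_iff _ _).1 ho
  have h2 : (M * o.val) * (M * o.val)ᵀ = M * Mᵀ := by
    rw [Matrix.transpose_mul, Matrix.mul_assoc, ← Matrix.mul_assoc o.val, h1, Matrix.one_mul]
  have h3 : ∀ A : Mat k, (A * Aᵀ) i i = ∑ l, A i l ^ 2 := fun A => by
    rw [Matrix.mul_apply]
    exact Finset.sum_congr rfl fun l _ => by rw [Matrix.transpose_apply, sq]
  rw [← h3, ← h3, h2]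

/-- length of a row -/
def rw2 (i : Fin k) (g : G k) : ℝ≥0∞ := ENNReal.ofReal √(∑ l, g.val i l ^ 2)

lemma cont_rw2 (i : Fin k) : Continuous (rw2 i) :=
  ENNReal.continuous_ofReal.comp
    (continuous_finsetSum _ fun l _ => (continuous_G.1 continuous_id i l).pow 2).sqrt

lemma rw2_eq {w o : G k} (ho : IsO o) {a : Fin k → ℝ} (ha : ∀ i, 0 < a i) (i : Fin k) :
    rw2 i (w * dg a * o) = ENNReal.ofReal √(∑ l, (w.val i l * a l) ^ 2) := by
  rw [rw2, Units.val_mul, row_sq ho, Units.val_mul, val_dg fun i => (ha i).ne']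
  simp only [Matrix.mul_diagonal]

lemma ia : ∃ ia : G k → Fin k → ℝ, Measurable ia ∧ ∀ (u o : G k) (a : Fin k → ℝ), IsU u →
    IsO o → (∀ i, 0 < a i) → ia (u * dg a * o) = a := by
  refine ⟨fun g i => (⨅ v : {v : G k // IsU v}, rw2 i (v.1 * g)).toReal,
    measurable_pi_lambda _ fun i => Measurable.ennreal_toReal
      (upperSemicontinuous_iInf fun v : {v : G k // IsU v} =>
        ((cont_rw2 i).comp (continuous_const_mul v.1)).upperSemicontinuous).measurable, ?_⟩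
  intro u o a hu ho ha
  funext i
  have key : (⨅ v : {v : G k // IsU v}, rw2 i (v.1 * (u * dg a * o))) = ENNReal.ofReal (a i) := by
    apply le_antisymm
    · refine (iInf_le _ ⟨u⁻¹, hu.inv⟩).trans (le_of_eq ?_)
      have e : u⁻¹ * (u * dg a * o) = 1 * dg a * o := by group
      change rw2 i (u⁻¹ * (u * dg a * o)) = _
      rw [e, rw2_eq ho ha, Finset.sum_eq_single i]
      · simp [Real.sqrt_sq (ha i).le]
      · intro l _ hl
        simp [Matrix.one_apply_ne hl.symm]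
      · simp
    · refine le_iInf fun v => ?_
      have e : v.1 * (u * dg a * o) = (v.1 * u) * dg a * o := by group
      rw [e, rw2_eq ho ha]
      refine ENNReal.ofReal_le_ofReal (Real.le_sqrt_of_sq_le ?_)
      have h1 := Finset.single_le_sum (f := fun l => ((v.1 * u).val i l * a l) ^ 2)
        (fun l _ => sq_nonneg _) (Finset.mem_univ i)
      have h2 : (v.1 * u).val i i = 1 := by rw [(v.2.mul hu) i i le_rfl, if_pos rfl]
      rwa [h2, one_mul] at h1
  change (⨅ v : {v : G k // IsU v}, rw2 i (v.1 * (u * dg a * o))).toReal = a i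
  rw [key, ENNReal.toReal_ofReal (ha i).le]

lemma cnt1 (c R : ℝ) (hR : 0 ≤ R) :
    ∑' z : ℤ, (if |c + z| ≤ R then (1 : ℝ≥0∞) else 0) ≤ ENNReal.ofReal (1 + 2 * R) := by
  rw [tsum_eq_sum (s := Finset.Icc ⌈-R - c⌉ ⌊R - c⌋)]
  · refine (Finset.sum_le_card_nsmul _ _ 1 fun z _ => by split_ifs <;> simp).trans ?_
    rw [nsmul_one, Int.card_Icc, ← ENNReal.ofReal_natCast]
    refine ENNReal.ofReal_le_ofReal ?_
    have h1 := Int.floor_le (R - c)
    have h2 := Int.le_ceil (-R - c)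
    rcases le_total (⌊R - c⌋ + 1 - ⌈-R - c⌉) 0 with h | h
    · rw [Int.toNat_of_nonpos h, Nat.cast_zero]
      linarith
    · have h3 : (((⌊R - c⌋ + 1 - ⌈-R - c⌉).toNat : ℤ) : ℝ) = ((⌊R - c⌋ + 1 - ⌈-R - c⌉ : ℤ) : ℝ) := by
        rw [Int.toNat_of_nonneg h]
      rw [Int.cast_natCast] at h3
      rw [h3]
      push_cast
      linarith
  · intro z hz
    refine if_neg fun h => hz ?_
    rw [abs_le] at h
    exact Finset.mem_Icc.2 ⟨Int.ceil_le.2 (by linarith [h.1]), Int.le_floor.2 (by linarith [h.2])⟩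

open Classical in
lemma cnt (u : G k) (hu : IsU u) (R : Fin k → ℝ) (hR : ∀ i, 0 ≤ R i) :
    ∑' ξ : Fin k → ℤ, (if ∀ i, |(zv ξ ᵥ* u.val) i| ≤ R i then (1 : ℝ≥0∞) else 0) ≤
      ENNReal.ofReal (∏ i, (1 + 2 * R i)) := by
  induction k with
  | zero => simp
  | succ k ih =>
    obtain ⟨u', b, hu', rfl⟩ := hu.exists_pb
    have h1 : ∀ (z : ℤ) (ξ : Fin k → ℤ) (i : Fin k),
        (zv (Fin.snoc (α := fun _ => ℤ) ξ z) ᵥ* (pb u' b).val) i.castSucc = (zv ξ ᵥ* u'.val) i := by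
      intro z ξ i
      simp [Matrix.vecMul, dotProduct, Fin.sum_univ_castSucc, zv]
    have h2 : ∀ (z : ℤ) (ξ : Fin k → ℤ),
        (zv (Fin.snoc (α := fun _ => ℤ) ξ z) ᵥ* (pb u' b).val) (Fin.last k) = zv ξ ⬝ᵥ b + z := by
      intro z ξ
      simp [Matrix.vecMul, dotProduct, Fin.sum_univ_castSucc, zv]
    rw [← (Fin.snocEquiv fun _ : Fin (k + 1) => ℤ).tsum_eq, ENNReal.tsum_prod', ENNReal.tsum_comm,
      Fin.prod_univ_castSucc, ENNReal.ofReal_mul (Finset.prod_nonneg fun i _ => by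
        have := hR i.castSucc
        positivity)]
    refine le_trans ?_ (mul_le_mul_left (ih u' hu' (fun i => R i.castSucc) fun i => hR _) _)
    rw [← ENNReal.tsum_mul_right]
    refine ENNReal.tsum_le_tsum fun ξ => ?_
    refine le_trans ?_ (mul_le_mul_right (cnt1 (zv ξ ⬝ᵥ b) (R (Fin.last k)) (hR _)) _)
    rw [← ENNReal.tsum_mul_left]
    refine ENNReal.tsum_le_tsum fun z => ?_
    by_cases h : ∀ i, |(zv (Fin.snoc (α := fun _ => ℤ) ξ z) ᵥ* (pb u' b).val) i| ≤ R i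
    · have h3 : ∀ i, |(zv ξ ᵥ* u'.val) i| ≤ R i.castSucc := fun i => h1 z ξ i ▸ h i.castSucc
      have h4 : |zv ξ ⬝ᵥ b + z| ≤ R (Fin.last k) := h2 z ξ ▸ h (Fin.last k)
      rw [if_pos h3, if_pos h4, mul_one]
      split_ifs <;> simp
    · refine le_of_eq_of_le (if_neg h) zero_le

end Ia

theorem iaS : IaS :=
  ⟨fun _ => Ia.dec, fun _ => Ia.ia, fun _ => Ia.cnt⟩

end SI

end Pool.Agent.Lib.MP_fa98d2_nt.D
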