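import Pool.Agent.Lib.MP_fa98d2_nt.I.Stmts

/-! Density theorem at the real place: the Iwasawa integration formula. -/

open MeasureTheory Filter Topology Matrix
open scoped ENNReal Real ContDiff ComplexConjugate InnerProductSpace

noncomputable section

namespace Pool.Agent.Lib.MP_fa98d2_nt.D

namespace SI

open SW

namespace Iwa

variable {k : ℕ}

/-- the last diagonal entry -/
def DL (k : ℕ) (ρ : ℝ) : G (k + 1) := dg (Fin.snoc (fun _ : Fin k => (1 : ℝ)) ρ)

/-- Euclidean length -/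
def nr (r : Fin (k + 1) → ℝ) : ℝ := ‖(WithLp.toLp 2 r : EuclideanSpace ℝ (Fin (k + 1)))‖

lemma snoc_ne {a : Fin k → ℝ} (ha : ∀ i, a i ≠ 0) {ρ : ℝ} (hρ : ρ ≠ 0) (i : Fin (k + 1)) :
    (Fin.snoc a ρ : Fin (k + 1) → ℝ) i ≠ 0 := by
  refine Fin.lastCases ?_ (fun i => ?_) i <;> simp [ha, hρ]

lemma up_DL {a : Fin k → ℝ} (ha : ∀ i, a i ≠ 0) {ρ : ℝ} (hρ : ρ ≠ 0) :
    up (dg a) * DL k ρ = dg (Fin.snoc a ρ) := by
  rw [up_dg ha, DL, dg_mul (snoc_ne ha one_ne_zero) (snoc_ne (fun _ => one_ne_zero) hρ)]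
  refine congrArg dg (funext fun i => ?_)
  refine Fin.lastCases ?_ (fun i => ?_) i <;> simp

lemma up_comm (a : G k) {ρ : ℝ} (hρ : ρ ≠ 0) : up a * DL k ρ = DL k ρ * up a := by
  apply Units.ext
  rw [Units.val_mul, Units.val_mul, DL, val_dg (snoc_ne (fun _ => one_ne_zero) hρ)]
  ext i j
  rw [Matrix.mul_diagonal, Matrix.diagonal_mul]
  refine Fin.lastCases ?_ (fun i => ?_) i <;> refine Fin.lastCases ?_ (fun j => ?_) j <;>
    simp [up]

lemma isO_up {a : G k} (ha : IsO a) : IsO (up a) := by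
  rw [IsO, Matrix.mem_orthogonalGroup_iff] at ha ⊢
  have e : (up a).valᵀ = blk a.valᵀ 0 := by
    ext i j
    refine Fin.lastCases ?_ (fun i => ?_) i <;> refine Fin.lastCases ?_ (fun j => ?_) j <;>
      simp [up]
  rw [e, up, val_pb, blk_mul, ha]
  simp

lemma dt_O {a : G k} (ha : IsO a) : dt a = 1 := by
  rw [IsO, Matrix.mem_orthogonalGroup_iff] at ha
  have h := congrArg Matrix.det ha
  rw [Matrix.det_mul, Matrix.det_transpose, Matrix.det_one] at h
  rw [dt]
  rcases mul_self_eq_one_iff.1 h with h | h <;> simp [h]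

lemma measurable_DL : Measurable (DL k) :=
  measurable_mkG' fun i j => by
    by_cases h : i = j
    · subst h
      refine Fin.lastCases ?_ (fun i => ?_) i <;> simp [measurable_id']
    · simp [h]

/-- the function on the smaller group -/
def Hr (H : G (k + 1) → ℝ≥0∞) (ρ : ℝ) (h : G k) : ℝ≥0∞ :=
  ENNReal.ofReal (dt h)⁻¹ * H (up h * DL k ρ)

variable {H : G (k + 1) → ℝ≥0∞}

lemma Hr_meas (hm : Measurable H) (ρ : ℝ) : Measurable (Hr H ρ) :=
  measurable_dt.inv.ennreal_ofReal.mul (hm.comp (continuous_up.mul continuous_const).measurable)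

lemma Hr_U (hU : UInv H) (ρ : ℝ) : UInv (Hr H ρ) := fun u hu g => by
  rw [Hr, Hr, dt_mul, hu.dt, one_mul, up_mul, mul_assoc, hU _ hu.up]

lemma Hr_O (hO : OInv H) {ρ : ℝ} (hρ : ρ ≠ 0) : OInv (Hr H ρ) := fun a ha g => by
  rw [Hr, Hr, dt_mul, dt_O ha, mul_one, up_mul, mul_assoc, up_comm a hρ, ← mul_assoc,
    hO _ (isO_up ha)]

lemma II_meas (hm : Measurable H) : Measurable fun ρ => II k (Hr H ρ) := by
  have h1 : Measurable fun p : ℝ × X k => sg k p.2 := (measurable_sg k).comp measurable_snd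
  have h2 : Measurable fun p : ℝ × X k => Hr H p.1 (sg k p.2) :=
    (measurable_dt.comp h1).inv.ennreal_ofReal.mul (hm.comp
      ((continuous_up.measurable.comp h1).mul (measurable_DL.comp measurable_fst)))
  exact h2.lintegral_prod_right'

lemma nr_eq {r : Fin (k + 1) → ℝ} {ρ : ℝ} (hρ : 0 < ρ) {o : G (k + 1)} (ho : IsO o)
    (h : ∀ j, r j = ρ * o.val (Fin.last k) j) : nr r = ρ := by
  rw [IsO, Matrix.mem_orthogonalGroup_iff] at ho
  have h1 := congrFun (congrFun ho (Fin.last k)) (Fin.last k)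
  rw [Matrix.mul_apply, Matrix.one_apply_eq] at h1
  rw [nr, EuclideanSpace.norm_eq, Real.sqrt_eq_iff_mul_self_eq (by positivity) hρ.le]
  simp only [h, Real.norm_eq_abs, sq_abs, mul_pow, ← Finset.mul_sum]
  simp only [Matrix.transpose_apply, ← sq] at h1
  rw [h1]
  ring

lemma step (hIa : IaS) (hm : Measurable H) (hU : UInv H) (hO : OInv H) {r : Fin (k + 1) → ℝ}
    (hr : r (Fin.last k) ≠ 0) :
    ENNReal.ofReal |r (Fin.last k)|⁻¹ *
      II k (fun h => ENNReal.ofReal (dt h)⁻¹ * H (up h * sr r)) =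
      ENNReal.ofReal (nr r)⁻¹ * II k (Hr H (nr r)) := by
  obtain ⟨u, o, a, hu, ho, ha, e⟩ := hIa.dec _ (sr r)
  have ha' : ∀ i, a i ≠ 0 := fun i => (ha i).ne'
  have hρ : nr r = a (Fin.last k) := by
    refine nr_eq (ha _) ho fun j => ?_
    have h1 := lr_sr hr
    rw [e, mul_assoc, hu.lr_mul, lr, Units.val_mul, val_dg ha'] at h1
    rw [← h1, Matrix.diagonal_mul]
  obtain ⟨u', b, hu', rfl⟩ := hu.exists_pb
  have e1 : dg a = up (dg (Fin.init a)) * DL k (a (Fin.last k)) := by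
    rw [up_DL (a := Fin.init a) (fun i => ha' _) (ha' _), Fin.snoc_init_self]
  set g : G k := u' * dg (Fin.init a) with hg
  have e2 : ∀ h : G k, H (up h * sr r) = H (up (h * g) * DL k (a (Fin.last k))) := fun h => by
    rw [e, ← mul_assoc, hO _ ho, ← nb_mul_up, e1, ← mul_assoc, ← mul_assoc, ← mul_assoc, up_mul_nb,
      mul_assoc, mul_assoc, mul_assoc, hU _ (isU_nb _), hg, up_mul, up_mul]
    simp only [mul_assoc]
  have e3 : |r (Fin.last k)| = dt g * a (Fin.last k) := by
    rw [← dt_sr hr, e, dt_mul, dt_mul, dt_O ho, dt_pb, hg, dt_mul, dt_dg ha',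
      dt_dg (a := Fin.init a) (fun i => ha' _), Fin.prod_univ_castSucc, abs_mul,
      abs_of_pos (ha (Fin.last k))]
    simp only [Fin.init]
    ring
  have hg0 := dt_pos g
  have e4 : (fun h => ENNReal.ofReal (dt h)⁻¹ * H (up h * sr r)) =
      fun h => ENNReal.ofReal (dt g) * rt g (Hr H (a (Fin.last k))) h := by
    funext h
    have hh := dt_pos h
    rw [e2, rt, Hr, ← mul_assoc (ENNReal.ofReal _), ← ENNReal.ofReal_mul hg0.le, dt_mul h g]
    refine congrArg (fun t => ENNReal.ofReal t * _) ?_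
    field_simp
  have hm2 : Measurable (rt g (Hr H (a (Fin.last k)))) :=
    (Hr_meas hm _).comp (continuous_id.mul continuous_const).measurable
  have hl := ha (Fin.last k)
  rw [e4, RS.II_const_mul _ hm2, hH.iir _ _ (Hr_meas hm _) (Hr_U hU _), hρ, ← mul_assoc,
    ← ENNReal.ofReal_mul (by positivity), e3]
  refine congrArg (fun t => ENNReal.ofReal t * _) ?_
  field_simp

lemma polar (k : ℕ) : ∃ C : ℝ≥0∞, C ≠ 0 ∧ C ≠ ⊤ ∧ ∀ f : ℝ → ℝ≥0∞, Measurable f →
    ∫⁻ r : Fin (k + 1) → ℝ, f (nr r) =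
      C * ∫⁻ t : ℝ, ENNReal.ofReal (Real.exp t ^ (k + 1)) * f (Real.exp t) := by
  let μ : Measure (EuclideanSpace ℝ (Fin (k + 1))) := volume
  refine ⟨μ.toSphere Set.univ, ?_, measure_ne_top _ _, fun f hf => ?_⟩
  · rw [Ne, Measure.measure_univ_eq_zero]
    exact Measure.toSphere_ne_zero μ
  have h1 : ∫⁻ r : Fin (k + 1) → ℝ, f (nr r) = ∫⁻ x, f ‖x‖ ∂μ :=
    (PiLp.volume_preserving_toLp (Fin (k + 1))).lintegral_comp (hf.comp measurable_norm)
  have h2 : ∫⁻ x, f ‖x‖ ∂μ = ∫⁻ x : ({(0)}ᶜ : Set (EuclideanSpace ℝ (Fin (k + 1)))), f ‖x.1‖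
      ∂(μ.comap Subtype.val) := by
    rw [lintegral_subtype_comap (measurableSet_singleton _).compl fun x => f ‖x‖,
      restrict_compl_singleton]
  have hf2 : Measurable fun y : Set.Ioi (0 : ℝ) => f y.1 := hf.comp measurable_subtype_coe
  have h3 := μ.measurePreserving_homeomorphUnitSphereProd.lintegral_comp (hf2.comp measurable_snd)
  simp only [Function.comp_apply, homeomorphUnitSphereProd_apply_snd_coe,
    finrank_euclideanSpace_fin, Nat.add_sub_cancel] at h3
  rw [h1, h2, h3, lintegral_prod (fun b : Metric.sphere (0 : EuclideanSpace ℝ (Fin (k + 1))) 1 ×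
    Set.Ioi (0 : ℝ) => f b.2.1) (hf2.comp measurable_snd).aemeasurable]
  simp only [lintegral_const]
  rw [mul_comm, Measure.volumeIoiPow, lintegral_withDensity_eq_lintegral_mul _
    (measurable_subtype_coe.pow_const _).ennreal_ofReal hf2]
  refine congrArg _ ?_
  have h4 := lintegral_image_eq_lintegral_abs_deriv_mul (s := Set.univ) MeasurableSet.univ
    (fun x _ => (Real.hasDerivAt_exp x).hasDerivWithinAt) Real.exp_injective.injOn
    fun y => ENNReal.ofReal (y ^ k) * f y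
  rw [Set.image_univ, Real.range_exp, Measure.restrict_univ] at h4
  refine (lintegral_subtype_comap measurableSet_Ioi
    fun y => ENNReal.ofReal (y ^ k) * f y).trans (h4.trans (lintegral_congr fun t => ?_))
  rw [← mul_assoc, ← ENNReal.ofReal_mul (abs_nonneg _), abs_of_pos (Real.exp_pos t), pow_succ']

lemma measurable_ex : Measurable (ex (k := k)) :=
  measurable_mkG' fun i j => by
    by_cases h : i = j
    · subst h
      simp only [Matrix.diagonal_apply_eq]
      fun_prop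
    · simp [h]

lemma measurable_dl : Measurable fun x : Fin k → ℝ => dl fun i => Real.exp (x i) := by
  unfold dl
  fun_prop

lemma ex_snoc (x : Fin k → ℝ) (t : ℝ) : up (ex x) * DL k (Real.exp t) = ex (Fin.snoc x t) := by
  rw [ex, up_DL (fun i => (Real.exp_pos _).ne') (Real.exp_pos t).ne', ex]
  refine congrArg dg (funext fun i => ?_)
  refine Fin.lastCases ?_ (fun i => ?_) i <;> simp

lemma dl_ex (x : Fin k → ℝ) (t : ℝ) :
    (dl fun i => Real.exp ((Fin.snoc x t : Fin (k + 1) → ℝ) i))⁻¹ =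
      Real.exp t ^ k * ((dl fun i => Real.exp (x i))⁻¹ * (dt (ex x))⁻¹) := by
  have h1 : 0 < ∏ i, Real.exp (x i) := Finset.prod_pos fun i _ => Real.exp_pos _
  have h2 := Real.exp_pos t
  have h3 := Haar.dl_pos fun i => Real.exp_pos (x i)
  rw [Haar.dl_succ, ex, dt_dg fun i => (Real.exp_pos _).ne', abs_of_pos h1]
  simp only [Fin.snoc_castSucc, Fin.snoc_last, Finset.prod_div_distrib, Finset.prod_const,
    Finset.card_univ, Fintype.card_fin]
  field_simp

end Iwa

open Iwa in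
theorem iwaS (hIa : IaS) : IwaS := by
  intro k
  induction k with
  | zero =>
    refine ⟨1, one_ne_zero, ENNReal.one_ne_top, fun H _ _ _ => ?_⟩
    have e : ∀ x : Fin 0 → ℝ, ex x = 1 := fun x => Subsingleton.elim _ _
    simp [II_zero, e, dl, volume_pi]
  | succ k ih =>
    obtain ⟨c, c0, c1, hc⟩ := ih
    obtain ⟨C, C0, C1, hC⟩ := polar k
    refine ⟨C * c, mul_ne_zero C0 c0, ENNReal.mul_ne_top C1 c1, fun H hm hU hO => ?_⟩
    have hF : Measurable fun x : Fin (k + 1) → ℝ =>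
        ENNReal.ofReal (dl fun i => Real.exp (x i))⁻¹ * H (ex x) :=
      measurable_dl.inv.ennreal_ofReal.mul (hm.comp measurable_ex)
    have h1 : II (k + 1) H = ∫⁻ r : Fin (k + 1) → ℝ,
        ENNReal.ofReal (nr r)⁻¹ * II k (Hr H (nr r)) := by
      rw [II_succ hm, mR, lintegral_withDensity_eq_lintegral_mul_non_measurable _
        (measurable_pi_apply _).abs.inv.ennreal_ofReal (ae_of_all _ fun _ => ENNReal.ofReal_lt_top)]
      refine lintegral_congr_ae ?_
      filter_upwards [Measure.ae_eval_ne (fun _ : Fin (k + 1) => (volume : Measure ℝ))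
        (Fin.last k) 0] with r hr
      exact step hIa hm hU hO hr
    rw [h1, hC (fun ρ => ENNReal.ofReal ρ⁻¹ * II k (Hr H ρ))
      (measurable_inv.ennreal_ofReal.mul (II_meas hm)), mul_assoc,
      ← (Haar.mp_snoc ℝ k).lintegral_comp hF, Measure.volume_eq_prod,
      lintegral_prod (fun p : ℝ × (Fin k → ℝ) => ENNReal.ofReal
        (dl fun i => Real.exp ((Fin.snoc p.2 p.1 : Fin (k + 1) → ℝ) i))⁻¹ *
          H (ex (Fin.snoc p.2 p.1))) (hF.comp (Haar.mp_snoc ℝ k).measurable).aemeasurable,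
      ← lintegral_const_mul' c _ c1]
    refine congrArg _ (lintegral_congr fun t => ?_)
    have ht := Real.exp_pos t
    rw [hc _ (Hr_meas hm _) (Hr_U hU _) (Hr_O hO ht.ne'), ← mul_assoc,
      ← ENNReal.ofReal_mul (by positivity), pow_succ, mul_inv_cancel_right₀ ht.ne', mul_left_comm,
      ← lintegral_const_mul' _ _ ENNReal.ofReal_ne_top]
    refine congrArg _ (lintegral_congr fun x => ?_)
    have h3 := Haar.dl_pos fun i => Real.exp_pos (x i)
    rw [Hr, ex_snoc, dl_ex, ENNReal.ofReal_mul (by positivity), ENNReal.ofReal_mul (by positivity)]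
    simp only [mul_assoc]

end SI

end Pool.Agent.Lib.MP_fa98d2_nt.D
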