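import Pool.Agent.Lib.MP_fa98d2_nt.I.Stmts

/-! Density theorem at the real place: the Toda equations for the Whittaker function. -/

open MeasureTheory Filter Topology Matrix
open scoped ENNReal Real ContDiff ComplexConjugate InnerProductSpace

noncomputable section

namespace Pool.Agent.Lib.MP_fa98d2_nt.D

namespace SI

open SW

namespace Link

variable {N : ℕ}

/-- the normalised Whittaker function on the torus, as a linear map -/
def La (d : Dat N) : d.V →ₗ[ℂ] (RR N → ℂ) where
  toFun w := tW (d.W w)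
  map_add' w w' := by
    ext x
    simp only [tW, d.W_add, Pi.add_apply, mul_add]
  map_smul' c w := by
    ext x
    simp only [tW, d.W_smul, Pi.smul_apply, smul_eq_mul, RingHom.id_apply]
    ring

lemma La_val (d : Dat N) (w : d.V) : La d w = tW (d.W w) := rfl

/-- entries of a polynomial in the matrix of generators, as a linear map -/
def PL (d : Dat N) (i j : Fin (N + 1)) : Polynomial ℂ →ₗ[ℂ] Module.End ℂ d.V :=
  Polynomial.lsum fun k => LinearMap.toSpanSingleton ℂ _ (epw d.e k i j)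

lemma PL_val (d : Dat N) (i j : Fin (N + 1)) (f : Polynomial ℂ) : PL d i j f = Pf d.e f i j := rfl

/-- coordinates with a natural index -/
def xx (x : RR N) (b : ℕ) : ℝ := if h : b < N + 1 then x ⟨b, h⟩ else 0

lemma xx_fin (x : RR N) (b : Fin (N + 1)) : xx x b.val = x b := by
  simp only [xx, b.isLt, dif_pos]

/-- the last column, on the torus -/
def VV (d : Dat N) (φ : d.V) (b : ℕ) : Polynomial ℂ →ₗ[ℂ] (RR N → ℂ) :=
  if h : b < N + 1 then
    La d ∘ₗ (LinearMap.applyₗ φ : Module.End ℂ d.V →ₗ[ℂ] d.V) ∘ₗ PL d ⟨b, h⟩ (Fin.last N) else 0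

lemma VV_fin (d : Dat N) (φ : d.V) (b : Fin (N + 1)) (f : Polynomial ℂ) :
    VV d φ b.val f = La d (Pf d.e f b (Fin.last N) φ) := by
  simp only [VV, b.isLt, dif_pos]
  rfl

lemma VV_top (d : Dat N) (φ : d.V) (f : Polynomial ℂ) : VV d φ (N + 1) f = 0 := by
  simp [VV]

/-- the constant of the additive character -/
def cc : ℂ := 2 * π * Complex.I

lemma cc_ne : cc ≠ 0 := by
  simp [cc, Real.pi_ne_zero]

lemma cc_sq : cc ^ 2 = -(4 * (π : ℂ) ^ 2) := by
  unfold cc
  linear_combination (4 * (π : ℂ) ^ 2) * Complex.I_sq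

/-- exponential of a difference of coordinates -/
def EE (a b : ℕ) (x : RR N) : ℂ := ((Real.exp (xx x a - xx x b) : ℝ) : ℂ)

lemma EE_ne (a b : ℕ) (x : RR N) : EE a b x ≠ 0 :=
  Complex.ofReal_ne_zero.2 (Real.exp_pos _).ne'

lemma EE_mul (a b c : ℕ) (x : RR N) : EE a b x * EE b c x = EE a c x := by
  unfold EE
  rw [← Complex.ofReal_mul, ← Real.exp_add]
  congr 2
  ring

lemma EE_self (a : ℕ) (x : RR N) : EE a a x = 1 := by
  simp [EE]

/-- the lower neighbour in the three term recurrence -/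
def UU (d : Dat N) (φ : d.V) (f : Polynomial ℂ) : ℕ → RR N → ℂ
  | 0 => 0
  | b + 1 => fun x => cc * EE b (b + 1) x * VV d φ b f x

lemma sum_up (d : Dat N) (φ : d.V) (f : Polynomial ℂ) (b : ℕ) (x : RR N) :
    ∑ l : Fin (N + 1), (if l.val = b + 1 then cc * EE b l.val x * VV d φ l.val f x else 0) =
      cc * EE b (b + 1) x * VV d φ (b + 1) f x := by
  by_cases h : b + 1 < N + 1
  · rw [Finset.sum_eq_single (⟨b + 1, h⟩ : Fin (N + 1))]
    · simp
    · intro l _ hl
      rw [if_neg fun e => hl (Fin.ext e)]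
    · simp
  · rw [Finset.sum_eq_zero fun l _ => if_neg (by have := l.isLt; omega)]
    simp [VV, h]

lemma sum_down (d : Dat N) (φ : d.V) (f : Polynomial ℂ) (b : ℕ) (hb : b < N + 1) (x : RR N) :
    ∑ l : Fin (N + 1), (if b = l.val + 1 then cc * EE l.val b x * VV d φ l.val f x else 0) =
      UU d φ f b x := by
  rcases b with _ | b
  · simp [UU]
  · rw [Finset.sum_eq_single (⟨b, by omega⟩ : Fin (N + 1))]
    · simp [UU]
    · intro l _ hl
      rw [if_neg fun e => hl (Fin.ext (by simp only; omega))]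
    · simp

lemma row (hA : AlgS) (hTw : TwS) (d : Dat N) {φ : d.V} (hφ : LSph d φ) (f : Polynomial ℂ)
    (b : Fin (N + 1)) (x : RR N) :
    VV d φ b.val (Polynomial.X * f) x = pd b (VV d φ b.val f) x + (N : ℂ) / 2 * VV d φ b.val f x +
      cc * EE b.val (b.val + 1) x * VV d φ (b.val + 1) f x + UU d φ f b.val x -
      if b.val = N then tau d.γ f * La d φ x - VV d φ N f x else 0 := by
  have key : ∀ l : Fin (N + 1), La d ((if b ≤ l then d.e b l else d.e l b)
      (Pf d.e f l (Fin.last N) φ)) x =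
      (if l = b then pd b (VV d φ b.val f) x + (rho N b : ℂ) * VV d φ b.val f x else 0) +
      (if l.val = b.val + 1 then cc * EE b.val l.val x * VV d φ l.val f x else 0) +
      (if b.val = l.val + 1 then cc * EE l.val b.val x * VV d φ l.val f x else 0) := by
    intro l
    rw [VV_fin d φ l, VV_fin d φ b]
    rcases lt_trichotomy b l with h | h | h
    · have h' : b.val < l.val := h
      rw [if_pos h.le, if_neg h.ne', if_neg (by omega : ¬ b.val = l.val + 1), La_val, d.W_e,
        hTw.off N _ (d.W_sm _) (d.W_eqv _) b l h, La_val]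
      simp only [EE, xx_fin, cc]
      split_ifs <;> ring
    · subst h
      rw [if_pos le_rfl, if_pos rfl, if_neg (by omega), La_val, d.W_e,
        hTw.diag N _ (d.W_sm _), La_val]
      ring
    · have h' : l.val < b.val := h
      rw [if_neg (not_le.2 h), if_neg h.ne, if_neg (by omega : ¬ l.val = b.val + 1), La_val, d.W_e,
        hTw.off N _ (d.W_sm _) (d.W_eqv _) l b h, La_val]
      simp only [EE, xx_fin, cc]
      split_ifs <;> ring
  have hl : VV d φ N f = La d (Pf d.e f (Fin.last N) (Fin.last N) φ) := VV_fin d φ (Fin.last N) f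
  have hr : (rho N b : ℂ) = (N : ℂ) / 2 - b.val := by
    unfold rho
    push_cast
    ring
  rw [VV_fin d φ b (Polynomial.X * f), hA.col N d φ hφ f b, map_sub, map_add, map_sum, map_smul,
    ← VV_fin d φ b f, Pi.sub_apply, Pi.add_apply, Finset.sum_apply, Finset.sum_congr rfl
      fun l _ => key l, Finset.sum_add_distrib, Finset.sum_add_distrib, sum_up,
    sum_down d φ f b.val b.isLt, Finset.sum_ite_eq' Finset.univ b, if_pos (Finset.mem_univ _), hr]
  by_cases hb : b = Fin.last N
  · rw [if_pos hb, if_pos (by rw [hb]; rfl), map_sub, map_smul, ← hl]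
    simp only [Pi.sub_apply, Pi.smul_apply, smul_eq_mul]
    ring
  · rw [if_neg hb, if_neg (show ¬ b.val = N from fun e => hb (Fin.ext e)), map_zero]
    simp only [Pi.zero_apply, Pi.smul_apply, smul_eq_mul]
    ring

lemma VV_one (d : Dat N) (φ : d.V) (b : ℕ) (hb : b < N + 1) :
    VV d φ b 1 = if b = N then La d φ else 0 := by
  have h := VV_fin d φ ⟨b, hb⟩ 1
  have e : Pf d.e 1 ⟨b, hb⟩ (Fin.last N) = epw d.e 0 ⟨b, hb⟩ (Fin.last N) := by
    unfold Pf
    rw [← Polynomial.C_1, Polynomial.sum_C_index (by simp), one_smul]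
  rw [e] at h
  rw [h]
  by_cases hN : b = N
  · have : (⟨b, hb⟩ : Fin (N + 1)) = Fin.last N := Fin.ext hN
    rw [this, if_pos hN]
    simp [epw]
  · have : (⟨b, hb⟩ : Fin (N + 1)) ≠ Fin.last N := fun e => hN (congrArg Fin.val e)
    simp [epw, hN, this]

lemma pd_zero (b : Fin (N + 1)) (x : RR N) : pd b (0 : RR N → ℂ) x = 0 := by
  simp [pd]

lemma mono (hA : AlgS) (hTw : TwS) (d : Dat N) {φ : d.V} (hφ : LSph d φ) (k : ℕ) :
    ∀ b : ℕ, k + b ≤ N → ∀ x, VV d φ b (Polynomial.X ^ k) x =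
      if k + b = N then cc ^ k * EE b N x * La d φ x else 0 := by
  induction k with
  | zero =>
    intro b hb x
    rw [pow_zero, VV_one d φ b (by omega), zero_add]
    split_ifs with h
    · rw [h, EE_self]; simp
    · rfl
  | succ k ih =>
    intro b hb x
    have h0 : ∀ a, a ≤ b → VV d φ a (Polynomial.X ^ k) = 0 := fun a ha =>
      funext fun y => by rw [ih a (by omega) y, if_neg (by omega)]; rfl
    have hU : UU d φ (Polynomial.X ^ k) b x = 0 := by
      rcases b with _ | b
      · rfl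
      · simp [UU, h0 b (by omega)]
    have h := row hA hTw d hφ (Polynomial.X ^ k) ⟨b, by omega⟩ x
    simp only at h
    rw [h0 b le_rfl, hU, pd_zero, if_neg (by omega), ih (b + 1) (by omega) x] at h
    rw [pow_succ', h]
    by_cases e : k + 1 + b = N
    · rw [if_pos e, if_pos (by omega), ← EE_mul b (b + 1) N]
      simp only [Pi.zero_apply]
      ring
    · rw [if_neg e, if_neg (by omega)]
      simp

lemma AA_monic (μ : Fin (N + 1) → ℂ) : (AA μ).Monic :=
  Polynomial.monic_prod_of_monic _ _ fun _ _ => Polynomial.monic_X_sub_C _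

lemma AA_deg (μ : Fin (N + 1) → ℂ) : (AA μ).natDegree = N + 1 := by
  unfold AA
  rw [Polynomial.natDegree_prod_of_monic _ _ fun _ _ => Polynomial.monic_X_sub_C _]
  simp only [Polynomial.natDegree_X_sub_C]
  simp

lemma QQ_deg (μ : Fin (N + 1) → ℂ) (u : ℂ) : (QQ μ u).natDegree = N := by
  unfold QQ
  rw [Polynomial.natDegree_divByMonic _ (Polynomial.monic_X_sub_C u), AA_deg,
    Polynomial.natDegree_X_sub_C]
  rfl

lemma QQ_monic (μ : Fin (N + 1) → ℂ) (u : ℂ) : (QQ μ u).Monic := by
  unfold QQ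
  rw [Polynomial.Monic, Polynomial.leadingCoeff_divByMonic_of_monic (Polynomial.monic_X_sub_C u)]
  · exact AA_monic μ
  · rw [Polynomial.degree_X_sub_C, Polynomial.degree_eq_natDegree (AA_monic μ).ne_zero, AA_deg]
    exact_mod_cast Nat.le_add_left 1 N

lemma X_QQ (μ : Fin (N + 1) → ℂ) (u : ℂ) :
    Polynomial.X * QQ μ u = u • QQ μ u + AA μ - (AA μ).eval u • (1 : Polynomial ℂ) := by
  have h := Polynomial.modByMonic_add_div (AA μ) (Polynomial.X - Polynomial.C u)
  rw [Polynomial.modByMonic_X_sub_C_eq_C_eval] at h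
  rw [Polynomial.smul_eq_C_mul, Polynomial.smul_eq_C_mul]
  unfold QQ
  linear_combination h

lemma VV_zero (hA : AlgS) (hTw : TwS) (d : Dat N) {φ : d.V} (hφ : LSph d φ)
    (μ : Fin (N + 1) → ℂ) (u : ℂ) (x : RR N) :
    VV d φ 0 (QQ μ u) x = cc ^ N * EE 0 N x * La d φ x := by
  have h := (QQ_monic μ u).as_sum
  rw [QQ_deg] at h
  rw [h, map_add, map_sum, Pi.add_apply, Finset.sum_apply, mono hA hTw d hφ N 0 le_rfl,
    if_pos (add_zero N), Finset.sum_eq_zero, add_zero]
  intro k hk
  have hk' := Finset.mem_range.1 hk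
  rw [← Polynomial.smul_eq_C_mul, map_smul, Pi.smul_apply, mono hA hTw d hφ k 0 (by omega),
    if_neg (by omega), smul_zero]

lemma pd_mul (b : Fin (N + 1)) (hb : b.val ≠ N) (a : ℂ) {g : RR N → ℂ} (hg : Differentiable ℝ g)
    (x : RR N) : pd b (fun y => a * EE b.val N y * g y) x =
      a * EE b.val N x * (g x + pd b g x) := by
  have e : ∀ y : RR N, EE b.val N y = ((Real.exp (y b - y (Fin.last N)) : ℝ) : ℂ) := fun y => by
    unfold EE
    rw [xx_fin, show xx y N = y (Fin.last N) from xx_fin y (Fin.last N)]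
  have hne : Fin.last N ≠ b := fun h => hb (by rw [← h]; rfl)
  have h1 : HasFDerivAt (fun y : RR N => y b - y (Fin.last N))
      (ContinuousLinearMap.proj b - ContinuousLinearMap.proj (Fin.last N) : RR N →L[ℝ] ℝ) x :=
    (hasFDerivAt_apply b x).sub (hasFDerivAt_apply (Fin.last N) x)
  have h2 := Complex.ofRealCLM.hasFDerivAt.comp x h1.exp
  have h3 := (h2.const_mul a).mul (hg x).hasFDerivAt
  simp only [e]
  unfold pd
  rw [show (fun y : RR N => a * ((Real.exp (y b - y (Fin.last N)) : ℝ) : ℂ) * g y) =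
    (fun y => a * (Complex.ofRealCLM ∘ fun y : RR N => Real.exp (y b - y (Fin.last N))) y) * g
    from rfl, h3.fderiv]
  simp [Pi.single_eq_of_ne hne]
  ring

lemma qf_lt (b : ℕ) (hb : b < N) (x : RR N) :
    (qf (⟨b, by omega⟩ : Fin (N + 1)) x : ℂ) = 4 * (π : ℂ) ^ 2 * EE b (b + 1) x ^ 2 := by
  have e : (⟨b, by omega⟩ : Fin (N + 1)) = (⟨b, hb⟩ : Fin N).castSucc := rfl
  have e1 : xx x b = x (⟨b, hb⟩ : Fin N).castSucc := xx_fin x (⟨b, hb⟩ : Fin N).castSucc
  have e2 : xx x (b + 1) = x (⟨b, hb⟩ : Fin N).succ := xx_fin x (⟨b, hb⟩ : Fin N).succ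
  rw [e, qf, Fin.lastCases_castSucc, EE, e1, e2, two_mul, Real.exp_add]
  push_cast
  ring

end Link

open Link in
theorem linkS (hA : AlgS) (hTw : TwS) : LinkS := by
  classical
  intro N M d φ μ hφ hP h
  refine ⟨Finset.univ.image fun k => μ k - 1, fun lam hlam => ?_⟩
  set u : ℂ := lam + 1 + (N : ℂ) / 2 with hu
  have hev : ∀ t : ℂ, (AA μ).eval (t + (N : ℂ) / 2) = ∏ k, (t - μ k) := fun t => by
    unfold AA
    rw [Polynomial.eval_prod]
    refine Finset.prod_congr rfl fun k _ => ?_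
    rw [Polynomial.eval_sub, Polynomial.eval_X, Polynomial.eval_C]
    push_cast
    ring
  have hne : (AA μ).eval u ≠ 0 := by
    rw [hu, hev]
    refine Finset.prod_ne_zero_iff.2 fun k _ e => hlam (Finset.mem_image.2 ⟨k, Finset.mem_univ _, ?_⟩)
    linear_combination -e
  have htau : (AA μ).eval u - tau d.γ (QQ μ u) = ∏ k, (lam - μ k) := by
    have e1 : u - 1 = lam + (N : ℂ) / 2 := by rw [hu]; ring
    rw [hP.val u hne, e1, hev lam]
    ring
  set Ψ : M.F := ⟨tW (d.W φ), h⟩ with hΨ
  have hΨv : (Ψ : RR N → ℂ) = La d φ := rfl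
  have hrow : ∀ (b : Fin (N + 1)) (x : RR N), VV d φ b.val (Polynomial.X * QQ μ u) x =
      u * VV d φ b.val (QQ μ u) x - if b.val = N then (AA μ).eval u * La d φ x else 0 := by
    intro b x
    rw [X_QQ, map_sub, map_add, map_smul, map_smul, VV_fin d φ b (AA μ),
      hA.ch N d φ μ hφ hP, map_zero, add_zero, VV_one d φ b.val b.isLt]
    split_ifs <;> simp
  have hstep : ∀ (b : Fin (N + 1)) (x : RR N),
      (((tA M.p M.q lam (b.val + 1)).1 Ψ : M.F) : RR N → ℂ) x =
        lam * (((tA M.p M.q lam b.val).1 Ψ : M.F) : RR N → ℂ) x -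
        pd b (((tA M.p M.q lam b.val).1 Ψ : M.F) : RR N → ℂ) x +
        (((tA M.p M.q lam b.val).2 Ψ : M.F) : RR N → ℂ) x := by
    intro b x
    rw [← M.p_val b]
    simp [tA]
  have hq : ∀ (b : Fin (N + 1)) (x : RR N),
      (((tA M.p M.q lam (b.val + 1)).2 Ψ : M.F) : RR N → ℂ) x =
        (qf b x : ℂ) * (((tA M.p M.q lam b.val).1 Ψ : M.F) : RR N → ℂ) x := by
    intro b x
    rw [← M.q_val b]
    rfl
  have main : ∀ b m : ℕ, b + m = N →
      (∀ x, VV d φ b (QQ μ u) x =
        cc ^ m * EE b N x * (((tA M.p M.q lam b).1 Ψ : M.F) : RR N → ℂ) x) ∧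
      ∀ x, UU d φ (QQ μ u) b x =
        -(cc ^ m * EE b N x * (((tA M.p M.q lam b).2 Ψ : M.F) : RR N → ℂ) x) := by
    intro b
    induction b with
    | zero =>
      intro m hm
      obtain rfl : m = N := by omega
      exact ⟨fun x => VV_zero hA hTw d hφ μ u x, fun x => by simp [UU, tA]⟩
    | succ b ih =>
      intro m hm
      obtain ⟨h1, h2⟩ := ih (m + 1) (by omega)
      have hb : b < N := by omega
      refine ⟨fun x => ?_, fun x => ?_⟩
      · have hr := row hA hTw d hφ (QQ μ u) ⟨b, by omega⟩ x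
        have hd := pd_mul (⟨b, by omega⟩ : Fin (N + 1)) hb.ne (cc ^ (m + 1))
          ((M.sm _ ((tA M.p M.q lam b).1 Ψ).2).differentiable (by simp)) x
        have hs := hstep ⟨b, by omega⟩ x
        rw [hrow ⟨b, by omega⟩ x] at hr
        simp only at hr hd hs
        rw [if_neg hb.ne, if_neg hb.ne, funext h1, hd, h2] at hr
        refine mul_left_cancel₀ (mul_ne_zero cc_ne (EE_ne b (b + 1) x)) ?_
        rw [hs]
        beta_reduce at hr
        rw [← EE_mul b (b + 1) N, hu] at hr
        rw [hu]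
        linear_combination -hr
      · have hs := hq ⟨b, by omega⟩ x
        simp only at hs
        rw [hs, qf_lt b hb]
        simp only [UU]
        rw [h1, ← EE_mul b (b + 1) N]
        linear_combination (cc ^ m * EE b (b + 1) x ^ 2 * EE (b + 1) N x *
          (((tA M.p M.q lam b).1 Ψ : M.F) : RR N → ℂ) x) * cc_sq
  obtain ⟨h1, h2⟩ := main N 0 rfl
  simp only [pow_zero, EE_self, one_mul] at h1 h2
  apply Subtype.ext
  ext x
  have hr := row hA hTw d hφ (QQ μ u) (Fin.last N) x
  have hs := hstep (Fin.last N) x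
  rw [hrow (Fin.last N) x] at hr
  simp only [Fin.val_last, if_true] at hr hs
  rw [VV_top, funext h1, h2] at hr
  rw [hs, Submodule.coe_smul, Pi.smul_apply, smul_eq_mul, hΨv, ← htau]
  simp only [Pi.zero_apply] at hr
  linear_combination hr

end SI

end Pool.Agent.Lib.MP_fa98d2_nt.D
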