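import Pool.Agent.Lib.MP_fa98d2_nt.I.Stmts

/-! Density theorem at the real place: the local lower bound. -/

open MeasureTheory Filter Topology Matrix
open scoped ENNReal Real ContDiff ComplexConjugate InnerProductSpace

noncomputable section

namespace Pool.Agent.Lib.MP_fa98d2_nt.D

namespace SI

open SW

namespace Loc

variable {N : ℕ}

lemma meas_sX : Measurable (sX : RR N → ℝ) := by
  unfold sX
  fun_prop

lemma meas_Gs : Measurable (Gs : RR N → ℝ) := by
  unfold Gs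
  fun_prop

lemma Gs_pos (x : RR N) : 0 < Gs x := Real.exp_pos _

lemma Gs_le (x : RR N) : Gs x ≤ 1 := by
  unfold Gs
  rw [Real.exp_le_one_iff]
  have h1 := Real.exp_pos (2 * x (Fin.last N))
  have h2 := Real.pi_pos
  nlinarith

lemma lint_set {f : RR N → ℂ} (hf : Measurable f) {g : RR N → ℝ} (hg : Measurable g)
    (h0 : ∀ x, 0 ≤ g x) {S : Set (RR N)} (hS : MeasurableSet S) :
    ∫⁻ x in S, ENNReal.ofReal (g x) ∂(mP f) =
      ∫⁻ x in S, ENNReal.ofReal (g x * Gs x) * ‖f x‖ₑ ^ 2 := by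
  unfold mP
  rw [restrict_withDensity hS, lintegral_withDensity_eq_lintegral_mul _
    (meas_Gs.ennreal_ofReal.fun_mul (hf.enorm.pow_const 2)) hg.ennreal_ofReal]
  refine lintegral_congr fun x => ?_
  rw [Pi.mul_apply, ENNReal.ofReal_mul (h0 x)]
  ring

lemma lint {f : RR N → ℂ} (hf : Measurable f) {g : RR N → ℝ} (hg : Measurable g)
    (h0 : ∀ x, 0 ≤ g x) :
    ∫⁻ x, ENNReal.ofReal (g x) ∂(mP f) = ∫⁻ x, ENNReal.ofReal (g x * Gs x) * ‖f x‖ₑ ^ 2 := by
  have := lint_set hf hg h0 MeasurableSet.univ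
  rwa [Measure.restrict_univ, Measure.restrict_univ] at this

lemma KS_eq {f : RR N → ℂ} (hf : Measurable f) (s : ℝ) :
    ∫⁻ x, ENNReal.ofReal (Real.exp (s * sX x)) ∂(mP f) = KS s f :=
  lint hf (meas_sX.const_mul s).exp fun _ => (Real.exp_pos _).le

lemma enorm_sq {a : ℝ} (ha : 0 ≤ a) (z : ℂ) :
    ‖(a : ℂ) * z‖ₑ ^ 2 = ENNReal.ofReal (a ^ 2) * ‖z‖ₑ ^ 2 := by
  rw [enorm_mul, mul_pow, ← ofReal_norm (a : ℂ), Complex.norm_real,
    Real.norm_of_nonneg ha, ENNReal.ofReal_pow ha]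

lemma tail (hGeo : GeoS) (hN : 1 ≤ N) {T Z s X1 : ℝ} (hT : 1 ≤ T) (hZ : 1 ≤ Z)
    (hX : Z * T ^ (N - 1) * T ^ N.choose 2 * Z ^ (DD N + 1) ≤ Real.exp X1) {f : RR N → ℂ}
    (hf : Measurable f) :
    ∫⁻ x in {x | X1 ≤ sX x}, ENNReal.ofReal (Real.exp (s * sX x)) ∂(mP f) ≤
      ENNReal.ofReal (((Z * T ^ (N - 1)) ^ 2)⁻¹) *
        KS s (fun x => ((Real.exp (x 0 - x (Fin.last N)) : ℝ) : ℂ) * f x) + KB s T Z f := by
  have hS : MeasurableSet {x : RR N | X1 ≤ sX x} := measurableSet_le measurable_const meas_sX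
  rw [lint_set hf (meas_sX.const_mul s).exp (fun _ => (Real.exp_pos _).le) hS]
  have hsub : {x : RR N | X1 ≤ sX x} ⊆ ({x | X1 ≤ sX x} ∩ Good N T Z) ∪ (Good N T Z)ᶜ := by
    intro x hx
    by_cases h : x ∈ Good N T Z
    · exact Or.inl ⟨hx, h⟩
    · exact Or.inr h
  refine ((lintegral_mono_set hsub).trans (lintegral_union_le _ _ _)).trans
    (add_le_add ?_ le_rfl)
  unfold KS
  rw [← lintegral_const_mul' _ _ ENNReal.ofReal_ne_top]
  refine le_trans (setLIntegral_mono' (hS.inter (hGeo.meas N T Z)) fun x hx => ?_)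
    (setLIntegral_le_lintegral _ _)
  have hR : 0 < Z * T ^ (N - 1) := by positivity
  have h1 : Z * T ^ (N - 1) ≤ Real.exp (x 0 - x (Fin.last N)) := by
    have h2 := (hX.trans (Real.exp_le_exp.2 hx.1)).trans (hGeo.top N hN T Z hT hZ x hx.2)
    have h3 := le_of_mul_le_mul_right h2 (by positivity)
    exact le_of_mul_le_mul_right h3 (by positivity)
  have h4 : 1 ≤ ENNReal.ofReal (((Z * T ^ (N - 1)) ^ 2)⁻¹) *
      ENNReal.ofReal (Real.exp (x 0 - x (Fin.last N)) ^ 2) := by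
    rw [← ENNReal.ofReal_mul (by positivity), ENNReal.one_le_ofReal, ← div_eq_inv_mul,
      one_le_div (by positivity)]
    exact pow_le_pow_left₀ hR.le h1 2
  rw [enorm_sq (Real.exp_pos _).le, mul_left_comm, ← mul_assoc (ENNReal.ofReal _⁻¹)]
  exact mul_le_mul_right (le_mul_of_one_le_left' h4) _

lemma upper (hGeo : GeoS) {T Z η X0 : ℝ} (hT : 1 ≤ T) (hZ : 1 ≤ Z) (hX0 : 0 ≤ X0)
    (hX : T ^ N.choose 2 ≤ Real.exp X0) {f : RR N → ℂ} (hf : Measurable f) :
    ∫⁻ x, ENNReal.ofReal (Real.exp (η * sX x) * min 1 (Real.exp (sX x - X0))) ∂(mP f) ≤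
      ENNReal.ofReal (Z ^ (DD N + 1)) * MM η T Z f + KB (1 + η) T Z f := by
  rw [lint hf (g := fun x => Real.exp (η * sX x) * min 1 (Real.exp (sX x - X0)))
    ((meas_sX.const_mul η).exp.fun_mul (measurable_const.min (meas_sX.sub_const X0).exp))
    (fun x => by positivity), ← lintegral_add_compl _ (hGeo.meas N T Z)]
  refine add_le_add ?_ ?_
  · unfold MM
    rw [← lintegral_const_mul' _ _ ENNReal.ofReal_ne_top]
    refine setLIntegral_mono' (hGeo.meas N T Z) fun x hx => ?_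
    rw [← mul_assoc, ← ENNReal.ofReal_mul (by positivity)]
    refine mul_le_mul_left (ENNReal.ofReal_le_ofReal ?_) _
    have h1 : min 1 (Real.exp (sX x - X0)) ≤ Z ^ (DD N + 1) * omg x := by
      refine le_trans (min_le_min le_rfl ?_) (hGeo.low N T Z hT hZ x hx)
      rw [Real.exp_sub]
      exact div_le_div_of_nonneg_left (Real.exp_pos _).le (by positivity) hX
    have h2 : Real.exp (η * sX x) * min 1 (Real.exp (sX x - X0)) * Gs x ≤
        Real.exp (η * sX x) * min 1 (Real.exp (sX x - X0)) :=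
      mul_le_of_le_one_right (by positivity) (Gs_le x)
    have h3 := mul_le_mul_of_nonneg_left h1 (Real.exp_pos (η * sX x)).le
    linarith
  · unfold KB
    refine lintegral_mono fun x => mul_le_mul_left (ENNReal.ofReal_le_ofReal ?_) _
    refine mul_le_mul_of_nonneg_right ?_ (Gs_pos x).le
    refine (mul_le_mul_of_nonneg_left (min_le_right _ _) (Real.exp_pos _).le).trans ?_
    rw [← Real.exp_add, Real.exp_le_exp]
    linarith

lemma chi {μ : Fin (N + 1) → ℂ} {i k : Fin (N + 1)} (hik : i ≠ k) {u : ℂ} {R : ℝ}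
    (h1 : ‖u - μ i‖ ≤ 4) (h2 : ‖u - μ k‖ ≤ 4) (h3 : ∀ l, ‖u - μ l‖ ≤ R) :
    ‖∏ l, (u - μ l)‖ ≤ 16 * R ^ (N - 1) := by
  have hk : k ∈ Finset.univ.erase i := Finset.mem_erase.2 ⟨hik.symm, Finset.mem_univ _⟩
  rw [norm_prod, ← Finset.mul_prod_erase _ _ (Finset.mem_univ i), ← Finset.mul_prod_erase _ _ hk]
  have h4 : ∏ l ∈ (Finset.univ.erase i).erase k, ‖u - μ l‖ ≤ R ^ (N - 1) := by
    have h5 : ((Finset.univ.erase i).erase k).card = N - 1 := by
      rw [Finset.card_erase_of_mem hk, Finset.card_erase_of_mem (Finset.mem_univ i),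
        Finset.card_univ, Fintype.card_fin]
      omega
    rw [← h5, ← Finset.prod_const]
    exact Finset.prod_le_prod (fun _ _ => norm_nonneg _) fun l _ => h3 l
  have h6 : 0 ≤ ∏ l ∈ (Finset.univ.erase i).erase k, ‖u - μ l‖ :=
    Finset.prod_nonneg fun _ _ => norm_nonneg _
  have h7 := mul_le_mul h1 (mul_le_mul h2 h4 h6 (by norm_num)) (by positivity) (by norm_num)
  linarith

lemma chi' {μ : Fin (N + 1) → ℂ} {T s : ℝ} (hT : 1 ≤ T) (hμ : ∀ l, ‖μ l‖ ≤ T) {θ : ℝ}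
    (h0 : 0 < θ) (h1 : θ ≤ 1 / 2) {i k : Fin (N + 1)} (hi : (μ i).re = -θ)
    (hk : μ k = -conj (μ i)) (hs1 : 1 ≤ s) (hs2 : s ≤ 2) :
    ∃ u : ℂ, u.re = -2 - s / 2 ∧ ‖∏ l, (u - μ l)‖ ≤ 16 * (5 * T) ^ (N - 1) := by
  have hre : (μ k).re = θ := by rw [hk]; simp [hi]
  have him : (μ k).im = (μ i).im := by rw [hk]; simp
  have hik : i ≠ k := fun e => by
    rw [← e, hi] at hre
    linarith
  have hn : ∀ z : ℂ, z.im = 0 → |z.re| ≤ 4 → ‖z‖ ≤ 4 := fun z h h' => by
    have := Complex.norm_le_abs_re_add_abs_im z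
    rw [h, abs_zero, add_zero] at this
    exact this.trans h'
  refine ⟨⟨-2 - s / 2, (μ i).im⟩, rfl, chi hik (hn _ (by simp) ?_) (hn _ (by simp [him]) ?_)
    fun l => ?_⟩
  · rw [Complex.sub_re, hi, abs_le]
    constructor <;> simp only <;> linarith
  · rw [Complex.sub_re, hre, abs_le]
    constructor <;> simp only <;> linarith
  · refine (norm_sub_le _ _).trans ?_
    have a1 := Complex.norm_le_abs_re_add_abs_im ⟨-2 - s / 2, (μ i).im⟩
    have a2 : |(-2 - s / 2 : ℝ)| ≤ 3 := by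
      rw [abs_le]
      constructor <;> linarith
    have a3 := (Complex.abs_im_le_norm (μ i)).trans (hμ i)
    have a4 := hμ l
    simp only at a1
    linarith

lemma absorb {K M : ℝ≥0∞} (hK : K ≠ ⊤) {a b z c : ℝ} (hz : 0 < z) (hb : 0 ≤ b)
    (h : ENNReal.ofReal a * K ≤ ENNReal.ofReal z * M + ENNReal.ofReal b * K)
    (hc0 : 0 ≤ c) (hc : z * c + b ≤ a) : ENNReal.ofReal c * K ≤ M := by
  have h1 : ENNReal.ofReal z * (ENNReal.ofReal c * K) + ENNReal.ofReal b * K ≤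
      ENNReal.ofReal z * M + ENNReal.ofReal b * K := by
    refine le_trans ?_ h
    rw [← mul_assoc, ← add_mul, ← ENNReal.ofReal_mul hz.le,
      ← ENNReal.ofReal_add (by positivity) hb]
    exact mul_le_mul_left (ENNReal.ofReal_le_ofReal hc) _
  have h2 := (ENNReal.add_le_add_iff_right (ENNReal.mul_ne_top ENNReal.ofReal_ne_top hK)).1 h1
  exact (ENNReal.mul_le_mul_iff_right (ENNReal.ofReal_pos.2 hz).ne' ENNReal.ofReal_ne_top).1 h2

lemma third : (1 / 3 : ℝ) ≤ Real.exp (-1) := by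
  rw [Real.exp_neg, one_div]
  exact inv_anti₀ (Real.exp_pos 1) (Real.exp_one_lt_d9.le.trans (by norm_num))

/-- the exponents -/
lemma expo {θ η e L n C D c : ℝ} (hθ0 : 0 < θ) (hθ1 : θ ≤ 1 / 2) (hη0 : 0 < η) (hη1 : η ≤ 1)
    (he0 : 0 < e) (he1 : e ≤ 1) (hL : 0 ≤ L) (hn : 1 ≤ n) (hC : 0 ≤ C) (hD : D = C + n)
    (hc : 0 < c) (hcL : 6 / c ≤ Real.exp L) :
    Real.exp (L * (e * (D + 1))) *
        (c / 6 * Real.exp (L * (2 * (n - 1) * θ - (D - 1) - (3 * D + 5) * (η + e)))) +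
      Real.exp (L * -(4 * D + 3)) ≤
      c * Real.exp (-2 * θ * (1 + C * L) + (2 * θ - 1 - η) * (((D + 2) * e + (D - 1)) * L)) := by
  set w : ℝ := 2 * (n - 1) * θ - (D - 1) - η * (D - 1) - 2 * (D + 2) * e with hw
  have hD1 : 1 ≤ D := by linarith
  have h1 : Real.exp (L * w) / 3 ≤
      Real.exp (-2 * θ * (1 + C * L) + (2 * θ - 1 - η) * (((D + 2) * e + (D - 1)) * L)) := by
    have a1 : Real.exp (-1) * Real.exp (L * w) ≤
        Real.exp (-2 * θ * (1 + C * L) + (2 * θ - 1 - η) * (((D + 2) * e + (D - 1)) * L)) := by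
      rw [← Real.exp_add, Real.exp_le_exp]
      have a2 : 0 ≤ (1 + 2 * θ - η) * ((D + 2) * e * L) :=
        mul_nonneg (by linarith) (by positivity)
      have a3 : -2 * θ * (1 + C * L) + (2 * θ - 1 - η) * (((D + 2) * e + (D - 1)) * L) =
          -2 * θ + L * w + (1 + 2 * θ - η) * ((D + 2) * e * L) := by
        rw [hw, hD]
        ring
      linarith
    have a4 := mul_le_mul_of_nonneg_right third (Real.exp_pos (L * w)).le
    linarith
  have h2 : Real.exp (L * (e * (D + 1))) *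
      Real.exp (L * (2 * (n - 1) * θ - (D - 1) - (3 * D + 5) * (η + e))) ≤ Real.exp (L * w) := by
    rw [← Real.exp_add, Real.exp_le_exp, ← mul_add]
    refine mul_le_mul_of_nonneg_left ?_ hL
    have : 0 ≤ η * (2 * D + 6) := by positivity
    rw [hw]
    nlinarith
  have h3 : Real.exp (L * -(4 * D + 3)) ≤ c / 6 * Real.exp (L * w) := by
    have a1 : Real.exp L * Real.exp (L * -(4 * D + 3)) ≤ Real.exp (L * w) := by
      rw [← Real.exp_add, Real.exp_le_exp]
      have a2 : -(4 * D + 2) ≤ w := by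
        have b1 : 0 ≤ (n - 1) * θ := mul_nonneg (by linarith) hθ0.le
        have b2 : η * (D - 1) ≤ D - 1 := mul_le_of_le_one_left (by linarith) hη1
        have b3 : (D + 2) * e ≤ D + 2 := mul_le_of_le_one_right (by linarith) he1
        rw [hw]
        linarith
      have a3 := mul_le_mul_of_nonneg_left a2 hL
      linarith
    have a4 := (mul_le_mul_of_nonneg_right hcL (Real.exp_pos (L * -(4 * D + 3))).le).trans a1
    have a5 := mul_le_mul_of_nonneg_left a4 (by positivity : 0 ≤ c / 6)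
    have a6 : c / 6 * (6 / c * Real.exp (L * -(4 * D + 3))) = Real.exp (L * -(4 * D + 3)) := by
      field_simp
    linarith
  have h4 := mul_le_mul_of_nonneg_left h1 hc.le
  have h5 := mul_le_mul_of_nonneg_left h2 (by positivity : 0 ≤ c / 6)
  nlinarith

end Loc

open Loc in
theorem locS (hT : TodaS) (hP : PosS) (hOn : OneS) (hGeo : GeoS) : LocS := by
  intro N hN
  refine ⟨3 * DD N + 5, by positivity, fun η e1 hη0 hη1 he0 he1 => ?_⟩
  obtain ⟨τ, c, hτ, hc, hlow⟩ := hOn.low N η hη0 hη1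
  have hev : ∀ᶠ T : ℝ in atTop, (1 ≤ T ∧ 2 / τ ≤ T ∧ 6 / c ≤ T) ∧
      Real.exp 1 ≤ T ^ e1 ∧ 512 * (5 ^ (N - 1)) ^ 2 / τ ≤ T ^ e1 :=
    ((eventually_ge_atTop _).and ((eventually_ge_atTop _).and (eventually_ge_atTop _))).and
      (((tendsto_rpow_atTop he0).eventually (eventually_ge_atTop _)).and
        ((tendsto_rpow_atTop he0).eventually (eventually_ge_atTop _)))
  obtain ⟨T1, hT1⟩ := eventually_atTop.1 hev
  refine ⟨4 * DD N + 3, c / 6, max 1 T1, by positivity, le_max_left _ _, ?_⟩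
  intro T hT0 M f μ hE hμ hθ i k hi hk hKB
  obtain ⟨⟨hT, hTτ, hTc⟩, hZe, hZτ⟩ := hT1 T ((le_max_right _ _).trans hT0)
  have hTpos : 0 < T := by linarith
  have hf : Measurable (f : RR N → ℂ) := (M.sm _ f.2).continuous.measurable
  have hfin : KS (1 + η) (f : RR N → ℂ) ≠ ⊤ := hP.fin N M f _ (by linarith)
  by_cases hK0 : KS (1 + η) (f : RR N → ℂ) = 0
  · rw [hK0, mul_zero]
    exact zero_le
  have hm : mP (f : RR N → ℂ) ≠ 0 := fun e => hK0 (by rw [← KS_eq hf, e, lintegral_zero_measure])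
  have hpos := hP.pos N M f μ hE i
  have hhalf : thetaInf μ ≤ 1 / 2 := hOn.half N _ _ sX meas_sX μ i hi hpos
    (fun s hs => by rw [KS_eq hf]; exact hP.fin N M f s hs) hm
  have hD : DD N = N.choose 2 + N := by
    change (N + 1).choose (1 + 1) = _
    rw [Nat.choose_succ_succ, Nat.choose_one_right, add_comm]
  have hDr : (DD N : ℝ) = (N.choose 2 : ℝ) + N := by rw [hD, Nat.cast_add]
  have hNr : (1 : ℝ) ≤ N := Nat.one_le_cast.2 hN
  have hCr : (0 : ℝ) ≤ (N.choose 2 : ℝ) := Nat.cast_nonneg _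
  obtain ⟨L, hL⟩ : ∃ L, L = Real.log T := ⟨_, rfl⟩
  have hL0 : 0 ≤ L := hL ▸ Real.log_nonneg hT
  have hTL : T = Real.exp L := by rw [hL, Real.exp_log hTpos]
  have hrp : ∀ a : ℝ, T ^ a = Real.exp (L * a) := fun a => by
    rw [Real.rpow_def_of_pos hTpos, hL]
  have hnp : ∀ a : ℕ, T ^ a = Real.exp (L * a) := fun a => by rw [← hrp, Real.rpow_natCast]
  have hZ : 1 ≤ T ^ e1 := Real.one_le_rpow hT he0.le
  have hZp : ∀ a : ℕ, (T ^ e1) ^ a = Real.exp (L * (e1 * a)) := fun a => by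
    rw [← hrp, Real.rpow_mul hTpos.le, Real.rpow_natCast]
  have hLe : 1 ≤ L * e1 := by rwa [hrp, Real.exp_le_exp] at hZe
  have hX01 : 1 + (N.choose 2 : ℝ) * L + 1 ≤ (((DD N : ℝ) + 2) * e1 + (DD N - 1)) * L := by
    have a1 : 0 ≤ ((N : ℝ) - 1) * L := mul_nonneg (by linarith) hL0
    have a2 : 0 ≤ (DD N : ℝ) * (L * e1) := by positivity
    have a3 : (((DD N : ℝ) + 2) * e1 + (DD N - 1)) * L =
        (DD N : ℝ) * (L * e1) + 2 * (L * e1) + (N.choose 2 : ℝ) * L + ((N : ℝ) - 1) * L := by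
      rw [hDr]
      ring
    linarith
  obtain ⟨u, hu, hχ⟩ := chi' (s := 1 + η) hT hμ hθ hhalf hi hk (by linarith) (by linarith)
  have hres := hP.res N hN M f μ hE (1 + η) (by linarith) u hu
  have htail := tail hGeo hN (s := 1 + η) (X1 := (((DD N : ℝ) + 2) * e1 + (DD N - 1)) * L)
    hT hZ (by
      rw [hZp, hnp, hnp, hrp, ← Real.exp_add, ← Real.exp_add, ← Real.exp_add, Nat.cast_sub hN]
      refine le_of_eq (congrArg Real.exp ?_)
      push_cast
      rw [hDr]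
      ring) hf
  have hA : T ^ (-(4 * (DD N : ℝ) + 3)) ≤ τ / 2 := by
    have a1 : T ^ (-(4 * (DD N : ℝ) + 3)) ≤ T ^ (-1 : ℝ) :=
      Real.rpow_le_rpow_of_exponent_le hT (by have : (0 : ℝ) ≤ DD N := Nat.cast_nonneg _; linarith)
    rw [Real.rpow_neg_one] at a1
    refine a1.trans ?_
    rw [← inv_div]
    exact inv_anti₀ (by positivity) hTτ
  have hB : ((T ^ e1 * T ^ (N - 1)) ^ 2)⁻¹ * ‖∏ l, (u - μ l)‖ ^ 2 ≤ τ / 2 := by
    rw [← div_eq_inv_mul, div_le_iff₀ (by positivity)]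
    refine (pow_le_pow_left₀ (norm_nonneg _) hχ 2).trans ?_
    rw [div_le_iff₀ hτ] at hZτ
    have a1 : T ^ e1 ≤ (T ^ e1) ^ 2 := le_self_pow₀ hZ two_ne_zero
    have a2 := mul_le_mul_of_nonneg_right a1 hτ.le
    have a3 := mul_le_mul_of_nonneg_right (hZτ.trans a2) (by positivity : 0 ≤ (T ^ (N - 1)) ^ 2)
    rw [mul_pow 5 T]
    linarith
  have hmain := hlow _ _ sX meas_sX μ i hi hhalf hpos (by rw [KS_eq hf]; exact hfin)
    (1 + (N.choose 2 : ℝ) * L) ((((DD N : ℝ) + 2) * e1 + (DD N - 1)) * L)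
    (le_add_of_nonneg_right (by positivity)) hX01 (by
      rw [KS_eq hf]
      refine htail.trans ((add_le_add (mul_le_mul_right hres _) hKB).trans ?_)
      rw [← mul_assoc, ← add_mul, ← ENNReal.ofReal_mul (by positivity),
        ← ENNReal.ofReal_add (by positivity) (by positivity)]
      exact mul_le_mul_left (ENNReal.ofReal_le_ofReal (by linarith)) _)
  rw [KS_eq hf] at hmain
  have hup := upper hGeo (η := η) (X0 := 1 + (N.choose 2 : ℝ) * L) hT hZ (by positivity)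
    (by rw [hnp, Real.exp_le_exp]; linarith) hf
  refine absorb hfin (by positivity) (by positivity)
    (hmain.trans (hup.trans (add_le_add le_rfl hKB))) (by positivity) ?_
  rw [hZp, hrp, hrp]
  push_cast
  exact expo hθ hhalf hη0 hη1 he0 he1 hL0 hNr hCr hDr hc (hTL ▸ hTc)

end SI

end Pool.Agent.Lib.MP_fa98d2_nt.D
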