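import Pool.Agent.Lib.MP_fa98d2_nt.I.Stmts

/-! Density theorem at the real place: the duality argument. -/

open MeasureTheory Filter Topology Matrix
open scoped ENNReal Real ContDiff ComplexConjugate InnerProductSpace

noncomputable section

namespace Pool.Agent.Lib.MP_fa98d2_nt.D

namespace SI

open SW

namespace Main0

variable {N : ℕ}

lemma cont_sX : Continuous (sX (N := N)) := continuous_finsetSum _ fun i _ => continuous_apply i

lemma cont_omg : Continuous (omg (N := N)) :=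
  continuous_finsetProd _ fun i _ => continuous_const.min
    (Real.continuous_exp.comp ((continuous_apply i).sub (continuous_apply _)))

lemma omg_nonneg (x : RR N) : 0 ≤ omg x :=
  Finset.prod_nonneg fun _ _ => le_min zero_le_one (Real.exp_pos _).le

/-- the sum of the masses from the pointwise bound -/
lemma sum_MM {ι : Type} [Fintype ι] (f : ι → RR N → ℂ) (hf : ∀ j, Continuous (f j)) (n : ι → ℝ)
    (hn : ∀ j, 0 < n j) {η T Z K : ℝ} (h : ∀ x, omg x * ∑ j, ‖f j x‖ ^ 2 / n j ≤ K) :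
    ∑ j, ENNReal.ofReal (n j)⁻¹ * MM η T Z (f j) ≤
      ENNReal.ofReal K * ∫⁻ x in Good N T Z, ENNReal.ofReal (Real.exp (η * sX x)) := by
  have hm : ∀ j, Measurable fun x : RR N => ENNReal.ofReal (n j)⁻¹ *
      (ENNReal.ofReal (Real.exp (η * sX x) * omg x) * ‖f j x‖ₑ ^ 2) := fun j =>
    ((((Real.continuous_exp.comp (continuous_const.mul cont_sX)).mul
      cont_omg).measurable.ennreal_ofReal).mul ((hf j).measurable.enorm.pow_const 2)).const_mul _
  simp only [MM, ← lintegral_const_mul' _ _ ENNReal.ofReal_ne_top]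
  rw [← lintegral_finsetSum _ fun j _ => hm j]
  refine lintegral_mono fun x => ?_
  have h0 := omg_nonneg x
  have h1 := (Real.exp_pos (η * sX x)).le
  have e : ∀ j, ENNReal.ofReal (n j)⁻¹ *
      (ENNReal.ofReal (Real.exp (η * sX x) * omg x) * ‖f j x‖ₑ ^ 2) =
      ENNReal.ofReal (Real.exp (η * sX x) * (omg x * (‖f j x‖ ^ 2 / n j))) := by
    intro j
    have := (hn j).le
    rw [← ofReal_norm, ← ENNReal.ofReal_pow (norm_nonneg _), ← ENNReal.ofReal_mul (by positivity),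
      ← ENNReal.ofReal_mul (by positivity)]
    congr 1
    ring
  simp only [e]
  rw [← ENNReal.ofReal_sum_of_nonneg fun j _ => by have := (hn j).le; positivity,
    ← Finset.mul_sum, ← Finset.mul_sum, mul_comm (ENNReal.ofReal K), ← ENNReal.ofReal_mul h1]
  exact ENNReal.ofReal_le_ofReal (mul_le_mul_of_nonneg_left (h x) h1)

end Main0

open Main0 in
theorem mainI (hA : AlgS) (hS : SphS) (hCA : ClsAS) (hCB : ClsBS) (hGeo : GeoS) (hLo : LocS)
    (hTw : TwS) (hLi : LinkS) (hM : MomS) (hTa : TailS) (hRs : RsS) (hPw : PwS) : MainS := by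
  intro N hN C0 ε hε
  obtain ⟨κ, hκ, hLo⟩ := hLo N hN
  set Ee : ℝ := DD N + N + 1 with hEe
  have hEe0 : 0 < Ee := by positivity
  set e : ℝ := min 1 (ε / (2 * κ + 1 + 2 * Ee)) with he
  have he0 : 0 < e := lt_min one_pos (by positivity)
  have he1 : e ≤ 1 := min_le_left _ _
  have he2 : e * (2 * κ + 1 + 2 * Ee) ≤ ε := (le_div_iff₀ (by positivity)).1 (min_le_right _ _)
  obtain ⟨A, c, T0, hc, hT0, hLo⟩ := hLo e e he0 he1 he0 he1
  obtain ⟨Cr, B, hCr, hRs⟩ := hRs N hN C0 e e he0 he1 he0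
  obtain ⟨Ct, hCt, hTa⟩ := hTa N hN C0 e (A + B + e + 1) he0
  obtain ⟨Cs, hCs, hsob⟩ := hS.sob N hN N C0
  obtain ⟨Cp, hCp, hPw⟩ := hPw N Cs
  obtain ⟨Cv, hCv, hvol⟩ := hGeo.vol N e he0
  obtain ⟨M0⟩ := hCA N
  obtain ⟨M⟩ := hCB N M0
  refine ⟨Cr * Cp * Cv / c, max T0 (Ct * Cr * Cr), le_max_of_le_left hT0, ?_⟩
  intro T hT ι _ d φ μ h0 hsph hPr hG hPP hμ hθ hne
  have hTa0 : T0 ≤ T := (le_max_left _ _).trans hT
  have hT1 : 1 ≤ T := hT0.trans hTa0
  have hTp : 0 < T := by linarith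
  have hTC : Ct * Cr * Cr ≤ T := (le_max_right _ _).trans hT
  have hZ : 1 ≤ T ^ e := Real.one_le_rpow hT1 he0.le
  have hl : ∀ j, LSph (d j) (φ j) := fun j => hS.lie N _ _ (hsph j)
  set f : ι → RR N → ℂ := fun j => tW ((d j).W (φ j)) with hf
  have hfc : ∀ j, Continuous (f j) := fun j => (hTw.sm N _ ((d j).W_sm (φ j))).continuous
  set n : ι → ℝ := fun j => (N2 (φ j : G (N + 1) → ℂ)).toReal with hn
  have hn2 : ∀ j, N2 (φ j : G (N + 1) → ℂ) ≠ 0 ∧ N2 (φ j : G (N + 1) → ℂ) ≠ ⊤ := fun j =>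
    RB.n2_pos hQ ((d j).inV (φ j)) fun h => h0 j (Subtype.ext h)
  have hn0 : ∀ j, 0 < n j := fun j => ENNReal.toReal_pos (hn2 j).1 (hn2 j).2
  set g : ι → ℝ := fun j => 2 * ((N : ℝ) - 1) * thetaInf (μ j) - (DD N - 1) - κ * (e + e) with hg
  have hone : ∀ j, ENNReal.ofReal (c * T ^ g j) ≤
      ENNReal.ofReal (Cr * T ^ e) * (ENNReal.ofReal (n j)⁻¹ * MM e T (T ^ e) (f j)) := by
    intro j
    obtain ⟨i, k, hi, hk⟩ := hA.par N (d j) (φ j) (μ j) (h0 j) (hl j) (hPP j) (hθ j)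
    obtain ⟨hR1, hR2⟩ := hRs T hT1 (d j) (hPr j) (hG j) (φ j) (h0 j) (hsph j)
    have hmem := hM.mem N M (d j) (φ j) (hsph j)
    have htail : KB (1 + e) T (T ^ e) (f j) ≤ ENNReal.ofReal (T ^ (-A)) * KS (1 + e) (f j) := by
      refine (hTa T hT1 (d j) (hG j) (φ j) (hsph j) (1 + e) (by linarith) (by linarith)).trans ?_
      have hRp := (d j).iso.1
      have a1 : 0 < T ^ (-(A + B + e + 1)) := Real.rpow_pos_of_pos hTp _
      have a2 : 0 < T ^ B := Real.rpow_pos_of_pos hTp _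
      have a3 : 0 < T ^ e := Real.rpow_pos_of_pos hTp _
      have a4 : T ^ (-(A + B + e + 1)) * T ^ B * T ^ e * T = T ^ (-A) := by
        rw [← Real.rpow_add hTp, ← Real.rpow_add hTp, ← Real.rpow_add_one hTp.ne']
        congr 1
        ring
      calc ENNReal.ofReal (Ct * T ^ (-(A + B + e + 1)) * ‖(d j).K (φ j)‖ ^ 2)
          ≤ ENNReal.ofReal ((Ct * T ^ (-(A + B + e + 1)) * (Cr * T ^ B)) *
              ((d j).R * ‖(d j).K (φ j)‖ ^ 2)) := by
            refine ENNReal.ofReal_le_ofReal ?_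
            calc _ = Ct * T ^ (-(A + B + e + 1)) * ‖(d j).K (φ j)‖ ^ 2 * 1 := (mul_one _).symm
              _ ≤ Ct * T ^ (-(A + B + e + 1)) * ‖(d j).K (φ j)‖ ^ 2 * (Cr * T ^ B * (d j).R) :=
                mul_le_mul_of_nonneg_left hR1 (by positivity)
              _ = _ := by ring
        _ = ENNReal.ofReal (Ct * T ^ (-(A + B + e + 1)) * (Cr * T ^ B)) *
              N2 (φ j : G (N + 1) → ℂ) := by
            rw [ENNReal.ofReal_mul (by positivity), (d j).n2_eq]
        _ ≤ ENNReal.ofReal (Ct * T ^ (-(A + B + e + 1)) * (Cr * T ^ B)) *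
              (ENNReal.ofReal (Cr * T ^ e) * KS (1 + e) (f j)) := mul_le_mul_right hR2 _
        _ ≤ _ := by
            rw [← mul_assoc, ← ENNReal.ofReal_mul (by positivity)]
            refine mul_le_mul_left (ENNReal.ofReal_le_ofReal ?_) _
            rw [← a4]
            calc _ = T ^ (-(A + B + e + 1)) * T ^ B * T ^ e * (Ct * Cr * Cr) := by ring
              _ ≤ _ := mul_le_mul_of_nonneg_left hTC (by positivity)
    have h1 := hLo T hTa0 M ⟨f j, hmem⟩ (μ j) (hLi N M (d j) (φ j) (μ j) (hl j) (hPP j) hmem)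
      (hμ j) (hθ j) i k hi hk htail
    have h2 : ENNReal.ofReal (c * T ^ g j) * N2 (φ j : G (N + 1) → ℂ) ≤
        ENNReal.ofReal (Cr * T ^ e) * MM e T (T ^ e) (f j) := by
      refine (mul_le_mul_right hR2 _).trans ?_
      rw [mul_left_comm]
      exact mul_le_mul_right h1 _
    have h3 : ENNReal.ofReal (n j)⁻¹ * N2 (φ j : G (N + 1) → ℂ) = 1 := by
      rw [← ENNReal.ofReal_toReal (hn2 j).2, ← ENNReal.ofReal_mul (inv_nonneg.2 (hn0 j).le),
        inv_mul_cancel₀ (hn0 j).ne', ENNReal.ofReal_one]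
    calc ENNReal.ofReal (c * T ^ g j)
        = ENNReal.ofReal (n j)⁻¹ * (ENNReal.ofReal (c * T ^ g j) * N2 (φ j : G (N + 1) → ℂ)) := by
          rw [mul_left_comm, h3, mul_one]
      _ ≤ ENNReal.ofReal (n j)⁻¹ * (ENNReal.ofReal (Cr * T ^ e) * MM e T (T ^ e) (f j)) :=
          mul_le_mul_right h2 _
      _ = _ := mul_left_comm _ _ _
  have hsum := sum_MM f hfc n hn0 (η := e) (T := T) (Z := T ^ e)
    (hPw T hT1 ι d φ h0 hsph (fun j => hsob T hT1 (d j) (hG j) (φ j) (hl j)) hne)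
  have h4 := (Finset.sum_le_sum fun j (_ : j ∈ Finset.univ) => hone j)
  rw [← Finset.mul_sum] at h4
  have h5 := h4.trans (mul_le_mul_right (hsum.trans (mul_le_mul_right (hvol T _ hT1 hZ) _)) _)
  have b1 : 0 < T ^ e := Real.rpow_pos_of_pos hTp _
  rw [← ENNReal.ofReal_sum_of_nonneg fun j _ => by positivity,
    ← ENNReal.ofReal_mul (by positivity), ← ENNReal.ofReal_mul (by positivity),
    ENNReal.ofReal_le_ofReal_iff (by positivity), ← Finset.mul_sum] at h5
  have h6 : ∀ j, T ^ (2 * ((N : ℝ) - 1) * thetaInf (μ j)) =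
      T ^ ((DD N - 1) + κ * (e + e)) * T ^ g j := by
    intro j
    rw [← Real.rpow_add hTp]
    congr 1
    rw [hg]
    ring
  have h7 : (T * T ^ e) ^ (Ee * e) = T ^ ((e + 1) * (Ee * e)) := by
    rw [mul_comm T, ← Real.rpow_add_one hTp.ne', ← Real.rpow_mul hTp.le]
  simp only [h6]
  rw [← Finset.mul_sum, div_mul_eq_mul_div, le_div_iff₀ hc]
  have b2 : 0 < T ^ ((DD N - 1 : ℝ) + κ * (e + e)) := Real.rpow_pos_of_pos hTp _
  calc T ^ ((DD N - 1 : ℝ) + κ * (e + e)) * (∑ j, T ^ g j) * c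
      = T ^ ((DD N - 1 : ℝ) + κ * (e + e)) * (c * ∑ j, T ^ g j) := by ring
    _ ≤ T ^ ((DD N - 1 : ℝ) + κ * (e + e)) *
        (Cr * T ^ e * (Cp * T ^ N * (Cv * (T * T ^ e) ^ (Ee * e)))) :=
        mul_le_mul_of_nonneg_left h5 b2.le
    _ = Cr * Cp * Cv * T ^ ((DD N - 1 : ℝ) + κ * (e + e) + e + N + (e + 1) * (Ee * e)) := by
        rw [h7, Real.rpow_add hTp _ ((e + 1) * (Ee * e)), Real.rpow_add hTp _ (N : ℝ),
          Real.rpow_add hTp _ e, Real.rpow_natCast]
        ring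
    _ ≤ _ := by
        refine mul_le_mul_of_nonneg_left (Real.rpow_le_rpow_of_exponent_le hT1 ?_) (by positivity)
        have : (e + 1) * (Ee * e) ≤ 2 * (Ee * e) :=
          mul_le_mul_of_nonneg_right (by linarith) (by positivity)
        nlinarith

end SI

end Pool.Agent.Lib.MP_fa98d2_nt.D
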