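import Pool.Agent.Lib.MP_fa98d2_nt.I.Stmts

/-! Density theorem at the real place: moments. -/

open MeasureTheory Filter Topology Matrix
open scoped ENNReal Real ContDiff ComplexConjugate InnerProductSpace

noncomputable section

namespace Pool.Agent.Lib.MP_fa98d2_nt.D

namespace SI

open SW

namespace Mom

variable {N : ℕ}

/-- the weight on the last row -/
def Ph (j : ℕ) (r : Fin (N + 1) → ℝ) : ℝ≥0∞ :=
  ENNReal.ofReal ((r ⬝ᵥ r) ^ j * Real.exp (-π * (r ⬝ᵥ r)))

lemma cont_dot : Continuous fun r : Fin (N + 1) → ℝ => r ⬝ᵥ r :=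
  continuous_id.dotProduct continuous_id

lemma meas_Ph (j : ℕ) : Measurable (Ph (N := N) j) :=
  ((cont_dot.pow j).mul
    (Real.continuous_exp.comp (continuous_const.mul cont_dot))).measurable.ennreal_ofReal

lemma Ph_fin (N j : ℕ) : ∫⁻ r : Fin (N + 1) → ℝ, Ph j r ≠ ⊤ := by
  have hi : Integrable (fun r : Fin (N + 1) → ℝ =>
      (j.factorial : ℝ) * ∏ i, Real.exp (-1 * r i ^ 2)) volume :=
    (Integrable.fintype_prod (f := fun (_ : Fin (N + 1)) (t : ℝ) => Real.exp (-1 * t ^ 2))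
      fun _ => integrable_exp_neg_mul_sq one_pos).const_mul _
  refine ne_top_of_le_ne_top hi.lintegral_lt_top.ne (lintegral_mono fun r => ?_)
  refine ENNReal.ofReal_le_ofReal ?_
  have h0 : 0 ≤ r ⬝ᵥ r := Finset.sum_nonneg fun i _ => mul_self_nonneg _
  have h1 : ∏ i, Real.exp (-1 * r i ^ 2) = Real.exp (-(r ⬝ᵥ r)) := by
    rw [← Real.exp_sum, dotProduct, ← Finset.sum_neg_distrib]
    exact congrArg _ (Finset.sum_congr rfl fun i _ => by ring)
  have h2 := Real.pow_div_factorial_le_exp (r ⬝ᵥ r) h0 j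
  have hf : (0 : ℝ) < j.factorial := by exact_mod_cast j.factorial_pos
  rw [div_le_iff₀ hf] at h2
  have h3 : Real.exp (r ⬝ᵥ r) * Real.exp (-π * (r ⬝ᵥ r)) ≤ Real.exp (-(r ⬝ᵥ r)) := by
    rw [← Real.exp_add]
    exact Real.exp_le_exp.2 (by nlinarith [Real.pi_gt_three])
  rw [h1]
  calc (r ⬝ᵥ r) ^ j * Real.exp (-π * (r ⬝ᵥ r))
      ≤ Real.exp (r ⬝ᵥ r) * j.factorial * Real.exp (-π * (r ⬝ᵥ r)) :=
        mul_le_mul_of_nonneg_right h2 (Real.exp_pos _).le
    _ = j.factorial * (Real.exp (r ⬝ᵥ r) * Real.exp (-π * (r ⬝ᵥ r))) := by ring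
    _ ≤ _ := mul_le_mul_of_nonneg_left h3 hf.le

/-- the weight on the group -/
def wg (j : ℕ) (g : G (N + 1)) : ℝ≥0∞ := ENNReal.ofReal (dt g ^ (1 : ℝ)) * Ph j (lr g)

lemma meas_wg (j : ℕ) : Measurable (wg (N := N) j) :=
  (measurable_dt.pow_const _).ennreal_ofReal.mul ((meas_Ph j).comp continuous_lr.measurable)

lemma uinv_wg (j : ℕ) : UInv (wg (N := N) j) := fun u hu g => by
  rw [wg, wg, dt_mul, hu.dt, one_mul, hu.lr_mul]

lemma oinv_wg (j : ℕ) : OInv (wg (N := N) j) := fun a ha g => by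
  have h1 : a.val * a.valᵀ = 1 := (Matrix.mem_orthogonalGroup_iff _ _).1 ha
  have h2 : dt a = 1 := by
    have := congrArg Matrix.det h1
    rw [Matrix.det_mul, Matrix.det_transpose, Matrix.det_one] at this
    rcases mul_self_eq_one_iff.1 this with h | h <;> simp [dt, h]
  have h3 : (lr g ᵥ* a.val) ⬝ᵥ (lr g ᵥ* a.val) = lr g ⬝ᵥ lr g := by
    rw [← Matrix.dotProduct_mulVec, ← Matrix.mulVec_transpose, Matrix.mulVec_mulVec, h1,
      Matrix.one_mulVec]
  rw [wg, wg, dt_mul, h2, mul_one, lr_mul, Ph, Ph, h3]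

lemma iv_eq (d : Dat N) (j : ℕ) (v : d.V) :
    Iv 1 (Ph j) (W1 (v : G (N + 1) → ℂ)) =
      (∫⁻ r : Fin (N + 1) → ℝ, Ph j r) * ENNReal.ofReal (‖d.K v‖ ^ 2) := by
  have h := RB.iv_one hW hR hV d.iso (meas_Ph j) (d.inV v)
  rw [d.n2_eq, ENNReal.ofReal_mul d.iso.1.le, mul_left_comm] at h
  exact (ENNReal.mul_right_inj (ENNReal.ofReal_pos.2 d.iso.1).ne' ENNReal.ofReal_ne_top).1 h

lemma wg_ex (hTw : TwS) (j : ℕ) (x : RR N) (z : ℂ) :
    ENNReal.ofReal (Real.exp (1 * sX x) * Gs x) *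
      ‖((Real.exp (j * x (Fin.last N)) : ℝ) : ℂ) * z‖ₑ ^ 2 = wg j (ex x) * ‖z‖ₑ ^ 2 := by
  have h1 : lr (ex x) ⬝ᵥ lr (ex x) = Real.exp (2 * x (Fin.last N)) := by
    rw [hTw.row, single_dotProduct, Pi.single_eq_same, ← Real.exp_add, two_mul]
  have h2 : ‖((Real.exp (j * x (Fin.last N)) : ℝ) : ℂ)‖ₑ ^ 2 =
      ENNReal.ofReal (Real.exp (2 * x (Fin.last N)) ^ j) := by
    rw [← ofReal_norm, Complex.norm_real, Real.norm_of_nonneg (Real.exp_pos _).le,
      ← ENNReal.ofReal_pow (Real.exp_pos _).le, ← Real.exp_nat_mul, ← Real.exp_nat_mul]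
    congr 2
    push_cast
    ring
  rw [enorm_mul, mul_pow, h2, wg, Ph, h1, hTw.det, Real.rpow_one, one_mul, ← mul_assoc, Gs,
    ← ENNReal.ofReal_mul (mul_nonneg (Real.exp_pos _).le (Real.exp_pos _).le),
    ← ENNReal.ofReal_mul (Real.exp_pos _).le]
  congr 2
  ring

lemma mom (hTw : TwS) (hTo : TorS) (N m j : ℕ) : ∃ C : ℝ, 0 < C ∧ ∀ (d : Dat N) (φ : d.V),
    Sph d φ → ∀ a : ℝ, (∀ l : Wd N, l.length = m → ‖d.K (ew d.e l φ)‖ ≤ a) →
    ∀ l : Wd N, l.length = m →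
    KS 1 (fun x => ((Real.exp (j * x (Fin.last N)) : ℝ) : ℂ) * tW (d.W (ew d.e l φ)) x) ≤
      ENNReal.ofReal (C * a ^ 2) := by
  obtain ⟨C, hC, h⟩ := hTo.le N m
  have hfin : C * ∫⁻ r : Fin (N + 1) → ℝ, Ph j r ≠ ⊤ := ENNReal.mul_ne_top hC (Ph_fin N j)
  refine ⟨(C * ∫⁻ r : Fin (N + 1) → ℝ, Ph j r).toReal + 1, by positivity,
    fun d φ hφ a ha l hl => ?_⟩
  have hO : OInv (φ : G (N + 1) → ℂ) := fun b hb g => congrFun (hφ b hb) g
  have h1 := h φ (d.sm φ) (d.aut φ) hO (wg j) (meas_wg j) (uinv_wg j) (oinv_wg j)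
    ((∫⁻ r : Fin (N + 1) → ℝ, Ph j r) * ENNReal.ofReal (a ^ 2)) (fun l' hl' => by
      rw [← d.ew_val]
      refine (iv_eq d j (ew d.e l' φ)).le.trans (mul_le_mul_right ?_ _)
      exact ENNReal.ofReal_le_ofReal (pow_le_pow_left₀ (norm_nonneg _) (ha l' hl') 2)) l hl
  rw [← d.ew_val] at h1
  calc _ = ∫⁻ x : RR N, wg j (ex x) * ‖tW (W1 (ew d.e l φ : G (N + 1) → ℂ)) x‖ₑ ^ 2 :=
        lintegral_congr fun x => wg_ex hTw j x _
    _ ≤ _ := h1
    _ ≤ _ := by
        rw [← mul_assoc, ENNReal.ofReal_mul (by positivity)]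
        refine mul_le_mul_left ?_ _
        rw [ENNReal.ofReal_add ENNReal.toReal_nonneg zero_le_one, ENNReal.ofReal_toReal hfin]
        exact le_self_add

lemma meas_wt : Measurable fun x : RR N => ENNReal.ofReal (Real.exp (1 * sX x) * Gs x) := by
  refine Measurable.ennreal_ofReal (Continuous.measurable ?_)
  unfold sX Gs
  fun_prop

lemma ks_add {f g : RR N → ℂ} (hf : Continuous f) (h1 : KS 1 f ≠ ⊤)
    (h2 : KS 1 g ≠ ⊤) : KS 1 (f + g) ≠ ⊤ := by
  have hm : Measurable fun x : RR N =>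
      ENNReal.ofReal (Real.exp (1 * sX x) * Gs x) * ‖f x‖ₑ ^ 2 :=
    meas_wt.mul (hf.measurable.enorm.pow_const 2)
  have h : KS 1 (f + g) ≤ 2 * (KS 1 f + KS 1 g) := by
    rw [KS, KS, KS, ← lintegral_add_left hm, ← lintegral_const_mul' _ _ (by norm_num)]
    refine lintegral_mono fun x => ?_
    rw [← mul_add, mul_left_comm]
    refine mul_le_mul_right ?_ _
    have e : ∀ z : ℂ, ‖z‖ₑ ^ 2 = ENNReal.ofReal (‖z‖ ^ 2) := fun z => by
      rw [ENNReal.ofReal_pow (norm_nonneg _), ofReal_norm]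
    rw [e, e, e, ← ENNReal.ofReal_add (by positivity) (by positivity), ← ENNReal.ofReal_ofNat 2,
      ← ENNReal.ofReal_mul (by norm_num)]
    refine ENNReal.ofReal_le_ofReal ?_
    have h3 : ‖(f + g) x‖ ≤ ‖f x‖ + ‖g x‖ := norm_add_le _ _
    nlinarith [norm_nonneg ((f + g) x), sq_nonneg (‖f x‖ - ‖g x‖), norm_nonneg (f x),
      norm_nonneg (g x)]
  exact ne_top_of_le_ne_top (ENNReal.mul_ne_top (by norm_num) (ENNReal.add_ne_top.2 ⟨h1, h2⟩)) h

lemma ks_smul (c : ℂ) {f : RR N → ℂ} (h1 : KS 1 f ≠ ⊤) : KS 1 (c • f) ≠ ⊤ := by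
  have h : KS 1 (c • f) = ‖c‖ₑ ^ 2 * KS 1 f := by
    rw [KS, KS, ← lintegral_const_mul' _ _ (ENNReal.pow_ne_top enorm_ne_top)]
    refine lintegral_congr fun x => ?_
    rw [Pi.smul_apply, smul_eq_mul, enorm_mul, mul_pow, mul_left_comm]
  rw [h]
  exact ENNReal.mul_ne_top (ENNReal.pow_ne_top enorm_ne_top) h1

/-- a power of the last coordinate -/
def pw (j : ℕ) (x : RR N) : ℂ := ((Real.exp (j * x (Fin.last N)) : ℝ) : ℂ)

lemma sm_pw (j : ℕ) : ContDiff ℝ ∞ (pw (N := N) j) :=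
  Complex.ofRealCLM.contDiff.comp
    (Real.contDiff_exp.comp (contDiff_const.mul (contDiff_apply ℝ ℝ (Fin.last N))))

lemma pd_pw (j : ℕ) (b : Fin (N + 1)) (x : RR N) :
    pd b (pw j) x = (if b = Fin.last N then (j : ℂ) else 0) * pw j x := by
  have h1 : HasFDerivAt (fun y : RR N => (j : ℝ) * y (Fin.last N))
      ((j : ℝ) • ContinuousLinearMap.proj (R := ℝ) (φ := fun _ : Fin (N + 1) => ℝ) (Fin.last N)) x :=
    (hasFDerivAt_apply (Fin.last N) x).const_mul _
  have h2 := Complex.ofRealCLM.hasFDerivAt.comp x h1.exp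
  have h3 : pw (N := N) j = Complex.ofRealCLM ∘ fun y : RR N =>
    Real.exp ((j : ℝ) * y (Fin.last N)) := rfl
  rw [pd, h3, h2.fderiv]
  by_cases hb : b = Fin.last N
  · subst hb
    simp [mul_comm]
  · simp [hb, Ne.symm hb]

/-- the generators of the invariant space -/
def gn (d : Dat N) (φ : d.V) (j : ℕ) (l : Wd N) (x : RR N) : ℂ :=
  pw j x * tW (d.W (ew d.e l φ)) x

lemma ew_cons (d : Dat N) (φ : d.V) (a b : Fin (N + 1)) (l : Wd N) :
    d.W (ew d.e ((a, b) :: l) φ) = Rd (em a b) (d.W (ew d.e l φ)) := by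
  rw [← d.W_e, ew, List.map_cons, List.prod_cons, Module.End.mul_apply]
  rfl

lemma pd_gn (hTw : TwS) (d : Dat N) (φ : d.V) (j : ℕ) (l : Wd N) (b : Fin (N + 1)) :
    pd b (gn d φ j l) = gn d φ j ((b, b) :: l) +
      ((if b = Fin.last N then (j : ℂ) else 0) - (rho N b : ℂ)) • gn d φ j l := by
  funext x
  have h1 : DifferentiableAt ℝ (pw (N := N) j) x := (sm_pw j).differentiable (by simp) x
  have h2 : DifferentiableAt ℝ (tW (d.W (ew d.e l φ))) x :=
    (hTw.sm N _ (d.W_sm _)).differentiable (by simp) x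
  have h3 : pd b (gn d φ j l) x = pw j x * pd b (tW (d.W (ew d.e l φ))) x +
      tW (d.W (ew d.e l φ)) x * pd b (pw j) x := by
    have h4 : gn d φ j l = fun y => pw j y * tW (d.W (ew d.e l φ)) y := rfl
    rw [pd, h4, fderiv_fun_mul h1 h2]
    rfl
  rw [h3, pd_pw, Pi.add_apply, Pi.smul_apply, gn, gn, ew_cons, hTw.diag N _ (d.W_sm _),
    smul_eq_mul]
  ring

lemma q_last (d : Dat N) (φ : d.V) (j : ℕ) (l : Wd N) :
    (fun x => (qf (Fin.last N) x : ℂ) * gn d φ j l x) = (2 * π : ℂ) • gn d φ (j + 2) l := by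
  funext x
  have h : Real.exp (((j + 2 : ℕ) : ℝ) * x (Fin.last N)) =
      Real.exp (2 * x (Fin.last N)) * Real.exp (j * x (Fin.last N)) := by
    rw [← Real.exp_add]
    congr 1
    push_cast
    ring
  rw [Pi.smul_apply, gn, gn, pw, pw, h, qf, Fin.lastCases_last, smul_eq_mul, Complex.ofReal_mul,
    Complex.ofReal_mul, Complex.ofReal_mul, Complex.ofReal_ofNat]
  ring

lemma q_cast (hTw : TwS) (d : Dat N) (φ : d.V) (j : ℕ) (l : Wd N) (i : Fin N) :
    (fun x => (qf i.castSucc x : ℂ) * gn d φ j l x) =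
      (-1 : ℂ) • gn d φ j ((i.castSucc, i.succ) :: (i.castSucc, i.succ) :: l) := by
  funext x
  have hlt : i.castSucc < i.succ := Fin.castSucc_lt_succ
  have hv : (i.succ : Fin (N + 1)).val = (i.castSucc : Fin (N + 1)).val + 1 := rfl
  have h : Real.exp (2 * (x i.castSucc - x i.succ)) =
      Real.exp (x i.castSucc - x i.succ) * Real.exp (x i.castSucc - x i.succ) := by
    rw [← Real.exp_add, two_mul]
  rw [Pi.smul_apply, gn, gn, ew_cons, hTw.off N _ (d.W_sm _) (d.W_eqv _) _ _ hlt, ew_cons,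
    hTw.off N _ (d.W_sm _) (d.W_eqv _) _ _ hlt, if_pos hv, qf, Fin.lastCases_castSucc, h,
    smul_eq_mul, Complex.ofReal_mul, Complex.ofReal_mul, Complex.ofReal_mul, Complex.ofReal_pow,
    Complex.ofReal_ofNat]
  linear_combination (4 * (π : ℂ) ^ 2 * ((Real.exp (x i.castSucc - x i.succ) : ℝ) : ℂ) ^ 2 *
    pw j x * tW (d.W (ew d.e l φ)) x) * Complex.I_mul_I

lemma gn_fin (hTw : TwS) (hTo : TorS) (d : Dat N) (φ : d.V) (hφ : Sph d φ) (j : ℕ) (l : Wd N) :
    KS 1 (gn d φ j l) ≠ ⊤ := by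
  obtain ⟨C, -, h⟩ := mom hTw hTo N l.length j
  obtain ⟨a, ha⟩ := ((List.finite_length_eq (Fin (N + 1) × Fin (N + 1)) l.length).image
    fun l' : Wd N => ‖d.K (ew d.e l' φ)‖).bddAbove
  exact ne_top_of_le_ne_top ENNReal.ofReal_ne_top
    (h d φ hφ a (fun l' hl' => ha ⟨l', hl', rfl⟩) l rfl)

lemma mem (hTw : TwS) (hTo : TorS) (N : ℕ) (M : TM N) (d : Dat N) (φ : d.V) (hφ : Sph d φ) :
    tW (d.W φ) ∈ M.F := by
  have hg : ∀ j l, gn d φ j l ∈ Submodule.span ℂ {f | ∃ j l, f = gn d φ j l} :=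
    fun j l => Submodule.subset_span ⟨j, l, rfl⟩
  refine M.mem (Submodule.span ℂ {f | ∃ j l, f = gn d φ j l}) (fun f hf => ?_) ?_
  · induction hf using Submodule.span_induction with
    | mem f hf =>
      obtain ⟨j, l, rfl⟩ := hf
      refine ⟨(sm_pw j).mul (hTw.sm N _ (d.W_sm _)), gn_fin hTw hTo d φ hφ j l, fun b => ?_,
        fun b => ?_⟩
      · rw [pd_gn hTw]
        exact add_mem (hg _ _) (Submodule.smul_mem _ _ (hg _ _))
      · induction b using Fin.lastCases with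
        | last =>
          rw [q_last]
          exact Submodule.smul_mem _ _ (hg _ _)
        | cast i =>
          rw [q_cast hTw]
          exact Submodule.smul_mem _ _ (hg _ _)
    | zero =>
      refine ⟨contDiff_const, by simp [KS], fun b => ?_, fun b => ?_⟩
      · have : pd b (0 : RR N → ℂ) = 0 := by
          funext x
          simp [pd]
        rw [this]
        exact zero_mem _
      · have : (fun x => (qf b x : ℂ) * (0 : RR N → ℂ) x) = 0 := by
          funext x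
          simp
        rw [this]
        exact zero_mem _
    | add f g _ _ hf hg' =>
      refine ⟨hf.1.add hg'.1, ks_add hf.1.continuous hf.2.1 hg'.2.1,
        fun b => ?_, fun b => ?_⟩
      · have : pd b (f + g) = pd b f + pd b g := by
          funext x
          rw [Pi.add_apply, pd, pd, pd, fderiv_add (hf.1.differentiable (by simp) x)
            (hg'.1.differentiable (by simp) x)]
          rfl
        rw [this]
        exact add_mem (hf.2.2.1 b) (hg'.2.2.1 b)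
      · have : (fun x => (qf b x : ℂ) * (f + g) x) =
            (fun x => (qf b x : ℂ) * f x) + fun x => (qf b x : ℂ) * g x := by
          funext x
          simp only [Pi.add_apply, mul_add]
        rw [this]
        exact add_mem (hf.2.2.2 b) (hg'.2.2.2 b)
    | smul c f _ hf =>
      refine ⟨hf.1.const_smul c, ks_smul c hf.2.1, fun b => ?_, fun b => ?_⟩
      · have : pd b (c • f) = c • pd b f := by
          funext x
          rw [Pi.smul_apply, pd, pd, fderiv_const_smul (hf.1.differentiable (by simp) x)]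
          rfl
        rw [this]
        exact Submodule.smul_mem _ _ (hf.2.2.1 b)
      · have : (fun x => (qf b x : ℂ) * (c • f) x) = c • fun x => (qf b x : ℂ) * f x := by
          funext x
          simp only [Pi.smul_apply, smul_eq_mul, mul_left_comm]
        rw [this]
        exact Submodule.smul_mem _ _ (hf.2.2.2 b)
  · have : tW (d.W φ) = gn d φ 0 [] := by
      funext x
      simp [gn, pw, ew]
    rw [this]
    exact hg _ _

end Mom

theorem momS (hTw : TwS) (hTo : TorS) : MomS :=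
  ⟨Mom.mom hTw hTo, Mom.mem hTw hTo⟩

end SI

end Pool.Agent.Lib.MP_fa98d2_nt.D
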