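import Pool.Agent.Lib.MP_fa98d2_nt.I.Stmts

/-! Density theorem at the real place: positivity. -/

open MeasureTheory Filter Topology Matrix
open scoped ENNReal Real ContDiff ComplexConjugate InnerProductSpace

noncomputable section

namespace Pool.Agent.Lib.MP_fa98d2_nt.D

namespace SI

open SW

namespace PosL

variable {N : ℕ}

theorem j_add (M : TF N) (f g : M.F) : M.J (f + g) = M.J f + M.J g := by
  apply Subtype.ext
  funext x
  rw [M.J_val, Submodule.coe_add, Submodule.coe_add, Pi.add_apply, Pi.add_apply, M.J_val, M.J_val,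
    map_add]

theorem j_smul (M : TF N) (c : ℂ) (f : M.F) : M.J (c • f) = conj c • M.J f := by
  apply Subtype.ext
  funext x
  rw [M.J_val, Submodule.coe_smul, Submodule.coe_smul, Pi.smul_apply, Pi.smul_apply, M.J_val,
    smul_eq_mul, smul_eq_mul, map_mul]

theorem j_sub (M : TF N) (f g : M.F) : M.J (f - g) = M.J f - M.J g := by
  apply Subtype.ext
  funext x
  rw [M.J_val, Submodule.coe_sub, Submodule.coe_sub, Pi.sub_apply, Pi.sub_apply, M.J_val, M.J_val,
    map_sub]

theorem j_zero (M : TF N) : M.J 0 = 0 := by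
  apply Subtype.ext
  funext x
  rw [M.J_val, Submodule.coe_zero, Pi.zero_apply, map_zero]

theorem j_p (M : TF N) (b : ℕ) (hb : b ≤ N) (f : M.F) : M.J (M.p b f) = M.p b (M.J f) := by
  apply Subtype.ext
  funext x
  have h1 := M.p_val ⟨b, Nat.lt_succ_of_le hb⟩ f
  have h2 := M.p_val ⟨b, Nat.lt_succ_of_le hb⟩ (M.J f)
  have h3 : (M.J f : RR N → ℂ) = fun y => star ((f : RR N → ℂ) y) := funext fun y => M.J_val f y
  rw [M.J_val]
  change conj ((M.p b f : RR N → ℂ) x) = (M.p b (M.J f) : RR N → ℂ) x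
  have h1' : (M.p b f : RR N → ℂ) = pd ⟨b, Nat.lt_succ_of_le hb⟩ f := h1
  have h2' : (M.p b (M.J f) : RR N → ℂ) = pd ⟨b, Nat.lt_succ_of_le hb⟩ (M.J f) := h2
  rw [h1', h2', h3]
  unfold pd
  rw [fderiv_star]
  rfl

theorem j_q (M : TF N) (b : ℕ) (hb : b ≤ N) (f : M.F) : M.J (M.q b f) = M.q b (M.J f) := by
  apply Subtype.ext
  funext x
  have h1 : (M.q b f : RR N → ℂ) x = (qf ⟨b, Nat.lt_succ_of_le hb⟩ x : ℂ) * (f : RR N → ℂ) x :=
    M.q_val ⟨b, Nat.lt_succ_of_le hb⟩ f x
  have h2 : (M.q b (M.J f) : RR N → ℂ) x =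
      (qf ⟨b, Nat.lt_succ_of_le hb⟩ x : ℂ) * (M.J f : RR N → ℂ) x :=
    M.q_val ⟨b, Nat.lt_succ_of_le hb⟩ (M.J f) x
  rw [M.J_val, h1, h2, M.J_val, map_mul, Complex.conj_ofReal]

theorem j_tA (M : TF N) (u : ℂ) (f : M.F) : ∀ b : ℕ, b ≤ N + 1 →
    M.J ((tA M.p M.q u b).1 f) = (tA M.p M.q (conj u) b).1 (M.J f) ∧
      M.J ((tA M.p M.q u b).2 f) = (tA M.p M.q (conj u) b).2 (M.J f) := by
  intro b
  induction b with
  | zero =>
    intro _
    refine ⟨rfl, ?_⟩
    simp only [tA, LinearMap.zero_apply, j_zero]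
  | succ b ih =>
    intro hb
    obtain ⟨h1, h2⟩ := ih (by omega)
    have hb' : b ≤ N := by omega
    constructor
    · simp only [tA, LinearMap.add_apply, Module.End.mul_apply, LinearMap.sub_apply,
        LinearMap.smul_apply, Module.End.one_apply]
      rw [j_add, j_sub, j_smul, j_p M b hb', h1, h2]
    · simp only [tA, Module.End.mul_apply]
      rw [j_q M b hb', h1]

theorem j_eig (hT : TodaS) (M : TF N) (μ : Fin (N + 1) → ℂ) (f : M.F) (h : Eig N M.p M.q μ f) :
    Eig N M.p M.q (fun k => conj (μ k)) (M.J f) := by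
  refine ⟨∅, fun u _ => ?_⟩
  have h1 := (j_tA M (conj u) f (N + 1) le_rfl).1
  rw [Complex.conj_conj] at h1
  rw [← h1, hT.all N M.F M.p M.q μ f h, j_smul, map_prod]
  simp only [map_sub, Complex.conj_conj]

theorem gs_pos (x : RR N) : 0 < Gs x := Real.exp_pos _

theorem en_eq (w : ℝ) (hw : 0 ≤ w) (z : ℂ) :
    ENNReal.ofReal (w * ‖z‖ ^ 2) = ENNReal.ofReal w * ‖z‖ₑ ^ 2 := by
  rw [ENNReal.ofReal_mul hw, ENNReal.ofReal_pow (norm_nonneg _), ofReal_norm]

theorem key (h f : RR N → ℂ) (w : RR N → ℝ) (hw : ∀ x, 0 ≤ w x) (hi : Integrable h)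
    (he : ∀ x, h x = (w x : ℂ) * (f x * conj (f x))) :
    0 ≤ (∫ x, h x).re ∧
      ENNReal.ofReal (∫ x, h x).re = ∫⁻ x, ENNReal.ofReal (w x) * ‖f x‖ₑ ^ 2 := by
  have h1 : h = fun x => ((w x * ‖f x‖ ^ 2 : ℝ) : ℂ) := by
    funext x
    rw [he, Complex.mul_conj, Complex.normSq_eq_norm_sq]
    push_cast
    ring
  have h2 : Integrable fun x => w x * ‖f x‖ ^ 2 := by
    have := hi.re
    rw [h1] at this
    simpa only [RCLike.re_to_complex, Complex.ofReal_re] using this
  have h3 : ∀ x, 0 ≤ w x * ‖f x‖ ^ 2 := fun x => mul_nonneg (hw x) (sq_nonneg _)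
  rw [h1, integral_complex_ofReal, Complex.ofReal_re]
  refine ⟨integral_nonneg h3, ?_⟩
  rw [ofReal_integral_eq_lintegral_ofReal h2 (Eventually.of_forall h3)]
  exact lintegral_congr fun x => en_eq _ (hw x) _

/-- the exponential test function -/
def th (M : TM N) (s : ℝ) (hs : 1 ≤ s) : M.T :=
  ⟨fun t : ℝ => ((Real.exp (s * t) : ℝ) : ℂ), M.T_exp s hs⟩

theorem th_val (M : TM N) (s : ℝ) (hs : 1 ≤ s) (t : ℝ) :
    (th M s hs : ℝ → ℂ) t = ((Real.exp (s * t) : ℝ) : ℂ) := rfl

theorem th_D (M : TM N) (s : ℝ) (hs : 1 ≤ s) : M.Dv (th M s hs) = (s : ℂ) • th M s hs := by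
  apply Subtype.ext
  rw [M.D_val]
  funext t
  have h : HasDerivAt (fun t : ℝ => Real.exp (s * t)) (Real.exp (s * t) * (s * 1)) t :=
    ((hasDerivAt_id t).const_mul s).exp
  have h2 := h.ofReal_comp.deriv
  change deriv (fun t : ℝ => ((Real.exp (s * t) : ℝ) : ℂ)) t = (s : ℂ) * (Real.exp (s * t) : ℝ)
  rw [h2]
  push_cast
  ring

/-- the scalar pairing at a real exponent -/
def be (M : TM N) (s : ℝ) (hs : 1 ≤ s) : M.F →ₗ[ℂ] M.F →ₗ[ℂ] ℂ :=
  M.B.compr₂ (LinearMap.applyₗ (th M s hs))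

theorem be_eq (M : TM N) (s : ℝ) (hs : 1 ≤ s) (f g : M.F) :
    be M s hs f g = M.B f g (th M s hs) := rfl

theorem be_key (M : TM N) (s : ℝ) (hs : 1 ≤ s) (f g : M.F) (w : RR N → ℝ) (hw : ∀ x, 0 ≤ w x)
    (hg : ∀ x, (g : RR N → ℂ) x = (w x : ℂ) * (f : RR N → ℂ) x) :
    0 ≤ (be M s hs g (M.J f)).re ∧ ENNReal.ofReal (be M s hs g (M.J f)).re =
      ∫⁻ x, ENNReal.ofReal (Real.exp (s * sX x) * Gs x * w x) * ‖(f : RR N → ℂ) x‖ₑ ^ 2 := by
  rw [be_eq, M.B_val]
  refine key _ (f : RR N → ℂ) (fun x => Real.exp (s * sX x) * Gs x * w x)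
    (fun x => mul_nonneg (mul_nonneg (Real.exp_pos _).le (gs_pos x).le) (hw x))
    (M.int g (M.J f) (th M s hs)) fun x => ?_
  rw [th_val, M.J_val, hg]
  push_cast
  ring

theorem be_ks (M : TM N) (s : ℝ) (hs : 1 ≤ s) (f : M.F) :
    0 ≤ (be M s hs f (M.J f)).re ∧
      ENNReal.ofReal (be M s hs f (M.J f)).re = KS s (f : RR N → ℂ) := by
  have h := be_key M s hs f f (fun _ => 1) (fun _ => zero_le_one) (fun x => by simp)
  simpa only [mul_one, KS] using h

theorem be_grn (M : TM N) (s : ℝ) (hs : 1 ≤ s) :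
    Grn N M.p M.q ((s : ℂ) • (1 : Module.End ℂ ℂ)) (be M s hs) where
  symm f g := by rw [be_eq, be_eq, M.grn.symm]
  ibp b hb f g := by
    have h := congrArg (fun L : Module.Dual ℂ M.T => L (th M s hs)) (M.grn.ibp b hb f g)
    simp only [LinearMap.add_apply, LinearMap.neg_apply, LinearMap.dualMap_apply, th_D,
      map_smul] at h
    simp only [be_eq, LinearMap.smul_apply, Module.End.one_apply]
    rw [h]
    split_ifs
    · rfl
    · rfl
  mul b hb f g := by rw [be_eq, be_eq, M.grn.mul b hb]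

/-- the potentials with a natural index -/
def qn (b : ℕ) (x : RR N) : ℝ := if h : b < N + 1 then qf ⟨b, h⟩ x else 0

theorem qf_nonneg (b : Fin (N + 1)) (x : RR N) : 0 ≤ qf b x := by
  unfold qf
  refine Fin.lastCases ?_ (fun i => ?_) b
  · rw [Fin.lastCases_last]
    positivity
  · rw [Fin.lastCases_castSucc]
    positivity

theorem qn_nonneg (b : ℕ) (x : RR N) : 0 ≤ qn b x := by
  unfold qn
  split_ifs
  · exact qf_nonneg _ _
  · exact le_rfl

theorem ql_nonneg (l : List ℕ) (x : RR N) : 0 ≤ (l.map fun b => qn b x).prod := by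
  induction l with
  | nil => simp
  | cons a l ih =>
    rw [List.map_cons, List.prod_cons]
    exact mul_nonneg (qn_nonneg _ _) ih

theorem ql_val (M : TF N) (f : M.F) (x : RR N) : ∀ l : List ℕ, (∀ b ∈ l, b ≤ N) →
    ((l.map M.q).prod f : RR N → ℂ) x =
      (((l.map fun b => qn b x).prod : ℝ) : ℂ) * (f : RR N → ℂ) x := by
  intro l
  induction l with
  | nil => intro _; simp
  | cons a l ih =>
    intro h
    have ha : a < N + 1 := Nat.lt_succ_of_le (h a List.mem_cons_self)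
    have h1 : (M.q a ((l.map M.q).prod f) : RR N → ℂ) x =
        (qf ⟨a, ha⟩ x : ℂ) * ((l.map M.q).prod f : RR N → ℂ) x := M.q_val ⟨a, ha⟩ _ x
    have h2 : qn a x = qf ⟨a, ha⟩ x := dif_pos ha
    rw [List.map_cons, List.prod_cons, Module.End.mul_apply, h1,
      ih fun b hb => h b (List.mem_cons_of_mem _ hb), List.map_cons, List.prod_cons, h2]
    push_cast
    ring

theorem be_her (M : TM N) (s : ℝ) (hs : 1 ≤ s) : Her N M.p M.q (be M s hs) M.J where
  add := j_add M.toTF
  smul := j_smul M.toTF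
  jp := j_p M.toTF
  jq := j_q M.toTF
  herm f g := by
    rw [be_eq, be_eq, M.B_val, M.B_val, ← integral_conj]
    refine integral_congr_ae (Eventually.of_forall fun x => ?_)
    simp only [th_val, M.J_val, map_mul, Complex.conj_ofReal, Complex.conj_conj]
    ring
  pos l hl f :=
    (be_key M s hs f _ _ (fun x => ql_nonneg l x) (fun x => ql_val M.toTF f x l hl)).1

theorem ql_low (x : RR N) : ∀ (k : ℕ) (hk : k < N + 1),
    Real.exp (2 * (x 0 - x ⟨k, hk⟩)) ≤ ((List.range k).map fun b => qn b x).prod := by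
  intro k
  induction k with
  | zero =>
    intro hk
    have : (⟨0, hk⟩ : Fin (N + 1)) = 0 := rfl
    simp [this]
  | succ k ih =>
    intro hk
    have hk1 : k < N := by omega
    have hk2 : k < N + 1 := by omega
    have h2 : qn k x = 4 * π ^ 2 * Real.exp (2 * (x ⟨k, hk2⟩ - x ⟨k + 1, hk⟩)) := by
      have h3 : qn k x = qf (Fin.castSucc ⟨k, hk1⟩) x := dif_pos hk2
      rw [h3]
      unfold qf
      rw [Fin.lastCases_castSucc]
      rfl
    have h4 : (1 : ℝ) ≤ 4 * π ^ 2 := by nlinarith [Real.pi_gt_three]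
    rw [List.range_succ, List.map_append, List.prod_append, List.map_singleton,
      List.prod_singleton, h2]
    have h5 : Real.exp (2 * (x 0 - x ⟨k + 1, hk⟩)) =
        Real.exp (2 * (x 0 - x ⟨k, hk2⟩)) * Real.exp (2 * (x ⟨k, hk2⟩ - x ⟨k + 1, hk⟩)) := by
      rw [← Real.exp_add]
      congr 1
      ring
    rw [h5]
    exact mul_le_mul (ih hk2) (le_mul_of_one_le_left (Real.exp_pos _).le h4) (Real.exp_pos _).le
      (ql_nonneg _ _)

/-- a product of first order operators on the test functions -/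
def od (M : TM N) (z : List ℂ) : Module.End ℂ M.T :=
  (z.map fun c => M.Dv + c • (1 : Module.End ℂ M.T)).prod

theorem od_val (M : TM N) (Θ : M.T) : ∀ z : List ℂ, (od M z Θ : ℝ → ℂ) = DP z (Θ : ℝ → ℂ) := by
  intro z
  induction z with
  | nil => rfl
  | cons c z ih =>
    have h1 : od M (c :: z) Θ = M.Dv (od M z Θ) + c • od M z Θ := by
      simp only [od, List.map_cons, List.prod_cons, Module.End.mul_apply, LinearMap.add_apply,
        LinearMap.smul_apply, Module.End.one_apply]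
    rw [h1, Submodule.coe_add, Submodule.coe_smul, M.D_val, ih]
    rfl

theorem od_comm (M : TM N) (c : ℂ) : ∀ z : List ℂ,
    od M z * (M.Dv + c • (1 : Module.End ℂ M.T)) = (M.Dv + c • (1 : Module.End ℂ M.T)) * od M z := by
  intro z
  induction z with
  | nil => simp [od]
  | cons a z ih =>
    have h1 : od M (a :: z) = (M.Dv + a • (1 : Module.End ℂ M.T)) * od M z := by
      simp only [od, List.map_cons, List.prod_cons]
    have h2 : (M.Dv + a • (1 : Module.End ℂ M.T)) * (M.Dv + c • (1 : Module.End ℂ M.T)) =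
        (M.Dv + c • (1 : Module.End ℂ M.T)) * (M.Dv + a • (1 : Module.End ℂ M.T)) := by
      simp only [add_mul, mul_add, smul_mul_assoc, mul_smul_comm, one_mul, mul_one, smul_add,
        smul_smul, mul_comm a c]
      abel
    rw [h1, mul_assoc, ih, ← mul_assoc, h2, mul_assoc]

theorem od_dual (M : TM N) (β : Module.Dual ℂ M.T) : ∀ (z : List ℂ) (Θ : M.T),
    (z.map fun c => M.Dv.dualMap + c • (1 : Module.End ℂ (Module.Dual ℂ M.T))).prod β Θ =
      β (od M z Θ) := by
  intro z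
  induction z with
  | nil => intro Θ; rfl
  | cons c z ih =>
    intro Θ
    have h1 : od M (c :: z) = (M.Dv + c • (1 : Module.End ℂ M.T)) * od M z := by
      simp only [od, List.map_cons, List.prod_cons]
    rw [h1, ← od_comm, List.map_cons, List.prod_cons]
    simp only [Module.End.mul_apply, LinearMap.add_apply, LinearMap.smul_apply,
      Module.End.one_apply, LinearMap.dualMap_apply, ih, map_add, map_smul]

theorem mp_int (f : RR N → ℂ) (hf : Continuous f) (g : RR N → ℂ) :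
    ∫ x, g x ∂mP f = ∫ x, g x * (Gs x : ℂ) * f x * conj (f x) := by
  have hG : Continuous (Gs : RR N → ℝ) := by
    unfold Gs
    fun_prop
  have hm : Measurable fun x : RR N => ENNReal.ofReal (Gs x) * ‖f x‖ₑ ^ 2 :=
    (ENNReal.measurable_ofReal.comp hG.measurable).mul (hf.measurable.enorm.pow_const 2)
  unfold mP
  rw [integral_withDensity_eq_integral_toReal_smul hm (Eventually.of_forall fun x => by
    rw [← en_eq _ (gs_pos x).le]; exact ENNReal.ofReal_lt_top)]
  refine integral_congr_ae (Eventually.of_forall fun x => ?_)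
  have h0 : 0 ≤ Gs x * ‖f x‖ ^ 2 := mul_nonneg (gs_pos x).le (sq_nonneg _)
  change (ENNReal.ofReal (Gs x) * ‖f x‖ₑ ^ 2).toReal • g x = g x * (Gs x : ℂ) * f x * conj (f x)
  rw [← en_eq _ (gs_pos x).le, ENNReal.toReal_ofReal h0, Complex.real_smul, mul_assoc _ (f x),
    Complex.mul_conj, Complex.normSq_eq_norm_sq]
  push_cast
  ring

end PosL

open PosL in
theorem posS (hT : TodaS) (hG : GrnS) (hRe : ResS) : PosS := by
  refine ⟨fun N M f s hs => ?_, fun N M f μ hE i Θ hΘ hc h0 => ?_,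
    fun N hN M f μ hE s hs u hu => ?_⟩
  · rw [← (be_ks M s hs f).2]
    exact ENNReal.ofReal_ne_top
  · have hs : ContDiff ℝ ∞ fun t => (Θ t : ℂ) := Complex.ofRealCLM.contDiff.comp hΘ
    have hc' : HasCompactSupport fun t => (Θ t : ℂ) :=
      hc.comp_left (g := fun r : ℝ => (r : ℂ)) Complex.ofReal_zero
    let Θ' : M.T := ⟨fun t => (Θ t : ℂ), M.T_cpt _ hs hc'⟩
    have h1 := hG.prod N M.F (Module.Dual ℂ M.T) M.p M.q M.Dv.dualMap M.B M.tod M.grn μ
      (fun k => conj (μ k)) f (M.J f) hE (j_eig hT M.toTF μ f hE) i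
    have h2 := (j_tA M.toTF (μ i) f (N + 1) le_rfl).2
    rw [← h2] at h1
    have h3 := congrArg (fun L : Module.Dual ℂ M.T => L Θ') h1
    simp only [od_dual] at h3
    rw [M.B_val, M.B_val, od_val] at h3
    simp only [M.J_val] at h3
    rw [mp_int _ (M.sm f f.2).continuous]
    have h4 := (key _ ((tA M.p M.q (μ i) (N + 1)).2 f : RR N → ℂ) (fun x => Θ (sX x) * Gs x)
      (fun x => mul_nonneg (h0 _) (gs_pos x).le)
      (M.int ((tA M.p M.q (μ i) (N + 1)).2 f) (M.J ((tA M.p M.q (μ i) (N + 1)).2 f)) Θ')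
      (fun x => by
        rw [M.J_val]
        change (Θ (sX x) : ℂ) * _ * _ * _ = _
        push_cast
        ring)).1
    simp only [M.J_val] at h4
    rw [h3] at h4
    exact h4
  · have h1 := hRe N hN M.F M.p M.q s (be M s hs) M.J M.tod (be_grn M s hs) (be_her M s hs) u _ f
      (hT.all N M.F M.p M.q μ f hE u) hu
    have hl : ∀ b ∈ List.range N, b ≤ N := fun b hb => (List.mem_range.1 hb).le
    have h2 := (be_key M s hs f _ _ (fun x => ql_nonneg (List.range N) x)
      (fun x => ql_val M.toTF f x _ hl)).2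
    obtain ⟨h3, h4⟩ := be_ks M s hs f
    rw [← h4, ← ENNReal.ofReal_mul (sq_nonneg _)]
    refine le_trans ?_ (ENNReal.ofReal_le_ofReal (h1.trans
      (mul_le_mul_of_nonneg_right (by nlinarith [sq_nonneg ‖∏ k, (u - μ k)‖]) h3)))
    rw [h2]
    unfold KS
    refine lintegral_mono fun x => ?_
    have h5 : 0 ≤ Real.exp (s * sX x) * Gs x := mul_nonneg (Real.exp_pos _).le (gs_pos x).le
    have h6 := ql_low x N (Nat.lt_succ_self N)
    have h7 : (⟨N, Nat.lt_succ_self N⟩ : Fin (N + 1)) = Fin.last N := rfl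
    rw [h7, two_mul, Real.exp_add] at h6
    rw [← en_eq _ h5, ← en_eq _ (mul_nonneg h5 (ql_nonneg _ x))]
    refine ENNReal.ofReal_le_ofReal ?_
    rw [norm_mul, Complex.norm_real, Real.norm_of_nonneg (Real.exp_pos _).le, mul_pow, ← mul_assoc,
      sq (Real.exp _)]
    exact mul_le_mul_of_nonneg_right (mul_le_mul_of_nonneg_left h6 h5) (sq_nonneg _)

end SI

end Pool.Agent.Lib.MP_fa98d2_nt.D
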