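import Pool.Agent.Lib.MP_fa98d2_nt.I.Stmts

/-! Density theorem at the real place: the pointwise bound. -/

open MeasureTheory Filter Topology Matrix
open scoped ENNReal Real ContDiff ComplexConjugate InnerProductSpace

noncomputable section

namespace Pool.Agent.Lib.MP_fa98d2_nt.D

namespace SI

open SW

variable {N : ℕ}

/-- the operator on the group that induces a product of coordinate derivatives -/
def pwD (l : List (Fin (N + 1))) (W : G (N + 1) → ℂ) : G (N + 1) → ℂ :=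
  l.foldr (fun b V => Rd (em b b) V + (-(rho N b : ℂ)) • V) W

/-- the square integral over a box -/
def pwB (x0 : RR N) (f : RR N → ℂ) : ℝ≥0∞ :=
  ∫⁻ x in Set.Icc x0 fun i => x0 i + 2, ‖f x‖ₑ ^ 2

lemma pw_sm {W : G (N + 1) → ℂ} (hs : Sm W) : ∀ l, Sm (pwD l W)
  | [] => hs
  | _ :: l => hC.add _ _ _ (hC.rd _ _ _ (pw_sm hs l)) (hC.smul _ _ _ (pw_sm hs l))

lemma pw_lin (V V' : G (N + 1) → ℂ) (c : ℂ) (x : RR N) :
    tW (V + c • V') x = tW V x + c * tW V' x := by
  simp only [tW, Pi.add_apply, Pi.smul_apply, smul_eq_mul]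
  ring

lemma pw_pd (hTw : TwS) {W : G (N + 1) → ℂ} (hs : Sm W) :
    ∀ l : List (Fin (N + 1)), l.foldr pd (tW W) = tW (pwD l W)
  | [] => rfl
  | b :: l => by
    ext x
    change pd b (l.foldr pd (tW W)) x =
      tW (Rd (em b b) (pwD l W) + (-(rho N b : ℂ)) • pwD l W) x
    rw [pw_pd hTw hs l, pw_lin, hTw.diag N _ (pw_sm hs l)]
    ring

lemma pw_rho (b : Fin (N + 1)) : ‖(-(rho N b : ℂ))‖ ≤ N := by
  have h1 : (b.val : ℝ) ≤ N := by exact_mod_cast Nat.lt_succ_iff.1 b.2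
  have h2 : (0 : ℝ) ≤ b.val := Nat.cast_nonneg _
  rw [norm_neg, Complex.norm_real, Real.norm_eq_abs, rho, abs_le]
  constructor <;> linarith

lemma pw_add {f g : RR N → ℂ} (hf : Continuous f) (hg : Continuous g) {c : ℂ} (hc : ‖c‖ ≤ N)
    (x0 : RR N) : pwB x0 (fun x => f x + c * g x) ≤
      2 * pwB x0 f + 2 * (N : ℝ≥0∞) ^ 2 * pwB x0 g := by
  have m1 : Measurable fun x => ‖f x‖ₑ ^ 2 := hf.measurable.enorm.pow_const 2
  have m2 : Measurable fun x => ‖g x‖ₑ ^ 2 := hg.measurable.enorm.pow_const 2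
  unfold pwB
  rw [← lintegral_const_mul _ m1, ← lintegral_const_mul _ m2,
    ← lintegral_add_left (m1.const_mul _)]
  refine lintegral_mono fun x => ?_
  have h1 : ‖f x + c * g x‖ ≤ ‖f x‖ + N * ‖g x‖ := by
    refine (norm_add_le _ _).trans ?_
    rw [norm_mul]
    gcongr
  have h2 : ‖f x + c * g x‖ ^ 2 ≤ 2 * ‖f x‖ ^ 2 + 2 * (N : ℝ) ^ 2 * ‖g x‖ ^ 2 := by
    refine (pow_le_pow_left₀ (norm_nonneg _) h1 2).trans ?_
    nlinarith [sq_nonneg (‖f x‖ - N * ‖g x‖)]
  have h3 := ENNReal.ofReal_le_ofReal h2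
  rw [ENNReal.ofReal_add (by positivity) (by positivity), ENNReal.ofReal_mul (by positivity),
    ENNReal.ofReal_mul (by positivity), ENNReal.ofReal_mul (by positivity),
    ENNReal.ofReal_pow (norm_nonneg _), ENNReal.ofReal_pow (norm_nonneg _),
    ENNReal.ofReal_pow (norm_nonneg _), ENNReal.ofReal_pow (by positivity), ofReal_norm,
    ofReal_norm, ofReal_norm, ENNReal.ofReal_natCast,
    ENNReal.ofReal_ofNat] at h3
  exact h3

lemma pw_der (hTw : TwS) {W : G (N + 1) → ℂ} (hs : Sm W) (x0 : RR N) {T : ℝ} (hT : 1 ≤ T)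
    {B : ℝ≥0∞} (h : ∀ l0 : Wd N, l0.length ≤ N →
      pwB x0 (tW (Rw l0 W)) ≤ ENNReal.ofReal (T ^ (2 * l0.length)) * B) :
    ∀ (l : List (Fin (N + 1))) (l0 : Wd N), l0.length + l.length ≤ N →
      pwB x0 (tW (Rw l0 (pwD l W))) ≤ (2 + 2 * (N : ℝ≥0∞) ^ 2) ^ l.length *
        (ENNReal.ofReal (T ^ (2 * (l0.length + l.length))) * B)
  | [], l0, hl => by simpa [pwD] using h l0 hl
  | b :: l, l0, hl => by
    have hV := pw_sm hs l
    have e : tW (Rw l0 (pwD (b :: l) W)) = fun x => tW (Rw (l0 ++ [(b, b)]) (pwD l W)) x +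
        (-(rho N b : ℂ)) * tW (Rw l0 (pwD l W)) x := by
      ext x
      change tW (Rw l0 (Rd (em b b) (pwD l W) + (-(rho N b : ℂ)) • pwD l W)) x = _
      rw [Class.rw_add hC (hC.rd _ _ _ hV) (hC.smul _ _ _ hV), Class.rw_smul hC, pw_lin,
        CD.Rw_append]
    have e1 : (l0 ++ [(b, b)]).length + l.length = l0.length + (b :: l).length := by
      simp only [List.length_append, List.length_cons, List.length_nil]
      omega
    have h1 := pw_der hTw hs x0 hT h l (l0 ++ [(b, b)]) (e1 ▸ hl)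
    have h2 := pw_der hTw hs x0 hT h l l0 (by simp only [List.length_cons] at hl; omega)
    rw [e1] at h1
    have h3 : ENNReal.ofReal (T ^ (2 * (l0.length + l.length))) ≤
        ENNReal.ofReal (T ^ (2 * (l0.length + (b :: l).length))) :=
      ENNReal.ofReal_le_ofReal (pow_le_pow_right₀ hT (by simp only [List.length_cons]; omega))
    rw [e]
    refine (pw_add (hTw.sm N _ (Class.sm_rw hC hV _)).continuous
      (hTw.sm N _ (Class.sm_rw hC hV _)).continuous (pw_rho b) x0).trans ?_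
    refine (add_le_add (mul_le_mul_right h1 _) (mul_le_mul_right
      (h2.trans (mul_le_mul_right (mul_le_mul_left h3 _) _)) _)).trans_eq ?_
    rw [List.length_cons, pow_succ]
    ring

/-- the pointwise bound for one automorphic function -/
lemma pw_one (hTw : TwS) (hTo : TorS) (hB : BesS) (hSo : SobS) (N : ℕ) :
    ∃ C : ℝ, 0 ≤ C ∧ ∀ T : ℝ, 1 ≤ T → ∀ F : G (N + 1) → ℂ, Sm F → Aut F → OInv F → ∀ S : ℝ,
      0 ≤ S → (∀ l : Wd N, l.length ≤ N →
        N2 (Rw l F) ≤ ENNReal.ofReal (T ^ (2 * l.length)) * ENNReal.ofReal S) →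
      ∀ x : RR N, omg x * ‖tW (W1 F) x‖ ^ 2 ≤ C * T ^ N * S := by
  obtain ⟨Cs, hCs, hS⟩ := hSo N
  obtain ⟨Cb, hCb, hB⟩ := hB N
  choose Ct hCt hTo using hTo.le N
  set K : ℝ≥0∞ := (2 + 2 * (N : ℝ≥0∞) ^ 2) ^ N * ((∑ m ∈ Finset.range (N + 1), Ct m) * Cb) with hK
  have hK' : K ≠ ⊤ := ENNReal.mul_ne_top (ENNReal.pow_ne_top (by finiteness))
    (ENNReal.mul_ne_top (ENNReal.sum_ne_top.2 fun m _ => hCt m) hCb)
  refine ⟨Cs * K.toReal, by positivity, fun T hT F hs ha ho S hS0 hF x0 => ?_⟩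
  obtain ⟨w, w1, w2, w3, w4, w5⟩ := hB x0
  have ho0 : 0 < omg x0 := Finset.prod_pos fun b _ => lt_min one_pos (Real.exp_pos _)
  have o1 : ENNReal.ofReal (omg x0) ≠ 0 := (ENNReal.ofReal_pos.2 ho0).ne'
  have o2 : ENNReal.ofReal (omg x0) ≠ ⊤ := ENNReal.ofReal_ne_top
  have hW1 : Sm (W1 F) := Loc1.sm_w1 hW hs
  set B : ℝ≥0∞ := (∑ m ∈ Finset.range (N + 1), Ct m) * Cb *
    ((ENNReal.ofReal (omg x0))⁻¹ * ENNReal.ofReal S) with hBd
  have h1 : ∀ l0 : Wd N, l0.length ≤ N →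
      pwB x0 (tW (Rw l0 (W1 F))) ≤ ENNReal.ofReal (T ^ (2 * l0.length)) * B := by
    intro l0 hl
    have h2 := hTo l0.length F hs ha ho w w1 w2 w3 ((ENNReal.ofReal (omg x0))⁻¹ *
      (Cb * (ENNReal.ofReal (T ^ (2 * l0.length)) * ENNReal.ofReal S))) (fun l hl' => by
        rw [← ENNReal.mul_le_iff_le_inv o1 o2]
        refine (w5 _ (Class.aut_rw hC hs ha l)).trans (mul_le_mul_right ?_ _)
        rw [← hl']
        exact hF l (hl' ▸ hl)) l0 rfl
    have h3 : pwB x0 (tW (Rw l0 (W1 F))) ≤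
        ∫⁻ x : RR N, w (ex x) * ‖tW (W1 (Rw l0 F)) x‖ₑ ^ 2 := by
      rw [Loc1.w1_Rw hC hW hs]
      refine le_trans (setLIntegral_mono' measurableSet_Icc fun x hx => ?_)
        (setLIntegral_le_lintegral _ _)
      exact le_mul_of_one_le_left' (w4 x hx)
    have h4 : Ct l0.length ≤ ∑ m ∈ Finset.range (N + 1), Ct m :=
      Finset.single_le_sum (f := Ct) (fun _ _ => zero_le)
        (Finset.mem_range.2 (Nat.lt_succ_of_le hl))
    refine (h3.trans h2).trans ((mul_le_mul_left h4 _).trans_eq ?_)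
    rw [hBd]
    ring
  have h5 := hS T hT (tW (W1 F)) (hTw.sm N _ hW1) (hTw.cen N _ (hW.sinv N _ F ha.sinv)) x0
    ((2 + 2 * (N : ℝ≥0∞) ^ 2) ^ N * B) (fun l hl => by
      rw [pw_pd hTw hW1]
      have h6 := pw_der hTw hW1 x0 hT h1 l [] (by simpa using hl)
      rw [List.length_nil, zero_add] at h6
      have h7 : (2 + 2 * (N : ℝ≥0∞) ^ 2) ^ l.length ≤ (2 + 2 * (N : ℝ≥0∞) ^ 2) ^ N :=
        pow_le_pow_right₀ (one_le_two.trans le_self_add) hl
      refine h6.trans ((mul_le_mul_left h7 _).trans_eq ?_)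
      ring)
  have hT0 : 0 < T := one_pos.trans_le hT
  have h8 : ENNReal.ofReal (omg x0) * ‖tW (W1 F) x0‖ₑ ^ 2 ≤
      ENNReal.ofReal (Cs * T ^ N) * K * ENNReal.ofReal S := by
    rw [ENNReal.mul_le_iff_le_inv o1 o2]
    refine h5.trans_eq ?_
    rw [hBd, hK]
    ring
  rw [← ofReal_norm, ← ENNReal.ofReal_pow (norm_nonneg _), ← ENNReal.ofReal_mul ho0.le,
    ← ENNReal.ofReal_toReal hK', ← ENNReal.ofReal_mul (by positivity),
    ← ENNReal.ofReal_mul (by positivity), ENNReal.ofReal_le_ofReal_iff (by positivity)] at h8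
  exact h8.trans_eq (by ring)

lemma pw_rw {ι : Type} [Fintype ι] (w : ι → G (N + 1) → ℂ) (hw : ∀ j, Sm (w j)) (z : ι → ℂ) :
    ∀ l : Wd N, Rw l (∑ j, z j • w j) = ∑ j, z j • Rw l (w j)
  | [] => rfl
  | x :: l => by
    change Rd (em x.1 x.2) (Rw l (∑ j, z j • w j)) = ∑ j, z j • Rd (em x.1 x.2) (Rw l (w j))
    rw [pw_rw w hw z l, Class.rd_sum hC _ _ fun j _ => hC.smul _ _ _ (Class.sm_rw hC (hw j) l)]
    simp only [hC.rd_smul]

lemma pw_fun {ι : Type} [Fintype ι] (w : ι → G (N + 1) → ℂ) (z : ι → ℂ) :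
    ∑ j, z j • w j = fun g => ∑ j, z j * w j g := by
  ext g
  simp only [Finset.sum_apply, Pi.smul_apply, smul_eq_mul]

theorem pwS (hTw : TwS) (hTo : TorS) (hB : BesS) (hSo : SobS) : PwS := by
  intro N a
  obtain ⟨C, hC0, h⟩ := pw_one hTw hTo hB hSo N
  refine ⟨C * a ^ 2 + 1, by positivity, fun T hT ι _ d φ h0 hs hb ho x => ?_⟩
  have hT0 : 0 < T := one_pos.trans_le hT
  have ho0 : 0 < omg x := Finset.prod_pos fun b _ => lt_min one_pos (Real.exp_pos _)
  have hn : ∀ j (w : (d j).V), (N2 (w : G (N + 1) → ℂ)).toReal = (d j).R * ‖(d j).K w‖ ^ 2 :=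
    fun j w => by
      rw [(d j).n2_eq, ENNReal.toReal_ofReal (mul_nonneg (d j).iso.1.le (sq_nonneg _))]
  have hp : ∀ j, 0 < (N2 (φ j : G (N + 1) → ℂ)).toReal := fun j => by
    rw [hn]
    exact mul_pos (d j).iso.1 (pow_pos (norm_pos_iff.2 fun h' => h0 j ((d j).K_inj h')) 2)
  have h1 := Main.dual (fun j => tW ((d j).W (φ j)) x)
    (fun j => (N2 (φ j : G (N + 1) → ℂ)).toReal) hp (C * a ^ 2 * T ^ N / omg x) (by positivity)
    (fun z => by
      have hS : 0 ≤ ∑ j, ‖z j‖ ^ 2 * (N2 (φ j : G (N + 1) → ℂ)).toReal :=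
        Finset.sum_nonneg fun j _ => mul_nonneg (sq_nonneg _) (hp j).le
      have h2 := h T hT (∑ j, z j • (φ j : G (N + 1) → ℂ))
        (Class.sm_sum hC _ fun j _ => hC.smul _ _ _ ((d j).sm _))
        (by rw [pw_fun]; exact Main.aut_sum _ (fun j => (d j).aut _) z)
        (fun o ho' g => by
          rw [pw_fun]
          exact Finset.sum_congr rfl fun j _ => congrArg (z j * ·) (congrFun (hs j o ho') g))
        (a ^ 2 * ∑ j, ‖z j‖ ^ 2 * (N2 (φ j : G (N + 1) → ℂ)).toReal) (by positivity)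
        (fun l hl => by
          rw [pw_rw _ (fun j => (d j).sm _)]
          simp only [← Dat.ew_val]
          rw [pw_fun, Main.n2_sum _
            (fun j => Main.memLp ((d j).cont _) (((d j).inV _).l2 []))
            (fun i j hij => hO.orth _ _ _ _ _ ((d i).aut _) ((d j).aut _) (((d i).inV _).l2 [])
              (((d j).inV _).l2 []) ((d i).inV _).hk ((d j).inV _).hk (ho i j hij)),
            ← ENNReal.ofReal_mul (by positivity)]
          refine ENNReal.ofReal_le_ofReal ?_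
          rw [Finset.mul_sum, Finset.mul_sum]
          refine Finset.sum_le_sum fun j _ => ?_
          have h3 := pow_le_pow_left₀ (norm_nonneg _) (hb j l hl) 2
          have h4 := mul_le_mul_of_nonneg_left h3 (mul_nonneg (sq_nonneg ‖z j‖) (d j).iso.1.le)
          rw [hn, hn, ← mul_assoc]
          exact h4.trans_eq (by ring)) x
      have e : tW (W1 (∑ j, z j • (φ j : G (N + 1) → ℂ))) x =
          ∑ j, z j * tW ((d j).W (φ j)) x := by
        rw [pw_fun, W1, Main.wf_sum hW _ _ _ fun j => (d j).cont _]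
        simp only [tW, Finset.mul_sum]
        exact Finset.sum_congr rfl fun j _ => mul_left_comm _ _ _
      rw [e] at h2
      rw [div_mul_eq_mul_div, le_div_iff₀ ho0, mul_comm]
      exact h2.trans_eq (by ring))
  rw [le_div_iff₀ ho0, mul_comm] at h1
  refine h1.trans ?_
  have : 0 < T ^ N := by positivity
  nlinarith

end SI

end Pool.Agent.Lib.MP_fa98d2_nt.D
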