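import Pool.Agent.Lib.MP_fa98d2_nt.I.Stmts

/-! Density theorem at the real place: the resolvent estimate. -/

open MeasureTheory Filter Topology Matrix
open scoped ENNReal Real ContDiff ComplexConjugate InnerProductSpace

noncomputable section

namespace Pool.Agent.Lib.MP_fa98d2_nt.D

namespace SI

open SW

section res

variable {F : Type} [AddCommGroup F] [Module ℂ F] {N : ℕ} {p q : ℕ → Module.End ℂ F} {s : ℝ}
  {β : F →ₗ[ℂ] F →ₗ[ℂ] ℂ} {J : F → F}

theorem res_comm {r : Module.End ℂ F} : ∀ l : List ℕ, (∀ j ∈ l, r * q j = q j * r) →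
    r * (l.map q).prod = (l.map q).prod * r
  | [], _ => by simp
  | a :: l, h => by
    rw [List.map_cons, List.prod_cons, ← mul_assoc, h a List.mem_cons_self, mul_assoc,
      res_comm l fun j hj => h j (List.mem_cons_of_mem _ hj), mul_assoc]

theorem res_adj (hT : Tod N p q) (hG : Grn N p q ((s : ℂ) • (1 : Module.End ℂ ℂ)) β)
    (hH : Her N p q β J) : ∀ l : List ℕ, (∀ j ∈ l, j ≤ N) → ∀ f g,
      β ((l.map q).prod f) (J g) = β f (J ((l.map q).prod g))
  | [], _, f, g => by simp
  | a :: l, h, f, g => by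
    have ha := h a List.mem_cons_self
    rw [List.map_cons, List.prod_cons, Module.End.mul_apply, hG.mul a ha, ← hH.jq a ha,
      res_adj hT hG hH l fun j hj => h j (List.mem_cons_of_mem _ hj),
      res_comm l fun j _ => hT.qq a j, Module.End.mul_apply]

theorem res_step (hT : Tod N p q) (hG : Grn N p q ((s : ℂ) • (1 : Module.End ℂ ℂ)) β)
    (hH : Her N p q β J) {b : ℕ} (hb : b ≤ N) (l : List ℕ) (hl : ∀ j ∈ l, j ≤ N) (e : ℝ)
    (hp : p b * (l.map q).prod = (l.map q).prod * p b + ((2 * e : ℝ) : ℂ) • (l.map q).prod)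
    {u : ℂ} (hu : u.re = -2 - s / 2) (w v : F) :
    (β ((l.map q).prod (u • w - p b w + v)) (J w)).re ≤
      (e - 2) * (β ((l.map q).prod w) (J w)).re + (β ((l.map q).prod v) (J w)).re := by
  have h1 := hG.ibp b hb ((l.map q).prod w) (J w)
  have h2 : β ((l.map q).prod w) (p b (J w)) = conj (β ((l.map q).prod (p b w)) (J w)) := by
    rw [← hH.jp b hb, hH.herm, res_adj hT hG hH l hl]
  have h3 : p b ((l.map q).prod w) =
      (l.map q).prod (p b w) + ((2 * e : ℝ) : ℂ) • (l.map q).prod w := by
    rw [← Module.End.mul_apply, hp]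
    rfl
  have h4 : (β ((l.map q).prod w) (J w)).im = 0 := by
    rw [← Complex.conj_eq_iff_im, hH.herm, res_adj hT hG hH l hl]
  have h5 : 0 ≤ (if b = N then β (q N ((l.map q).prod w)) (J w) else 0).re := by
    split_ifs
    · exact hH.pos (N :: l) (List.forall_mem_cons.2 ⟨le_rfl, hl⟩) w
    · simp
  rw [h2, h3] at h1
  have h6 := congrArg Complex.re h1
  generalize (if b = N then β (q N ((l.map q).prod w)) (J w) else 0) = m at h5 h6
  simp only [map_add, map_sub, map_smul, LinearMap.add_apply, LinearMap.sub_apply,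
    LinearMap.smul_apply, Module.End.one_apply, smul_eq_mul, Complex.add_re, Complex.sub_re,
    Complex.neg_re, Complex.mul_re, Complex.ofReal_re, Complex.ofReal_im, Complex.conj_re, h4,
    mul_zero, sub_zero, hu] at h6 ⊢
  linarith

end res

theorem resS : ResS := by
  intro N hN F _ _ p q s β J hT hG hH u c f hf hu
  obtain ⟨L, hL⟩ : ∃ L : ℕ → List ℕ, ∀ b, L b = List.range' b (N - b) := ⟨_, fun _ => rfl⟩
  obtain ⟨w, hw⟩ : ∃ w : ℕ → F, ∀ b, w b = (tA p q u b).1 f := ⟨_, fun _ => rfl⟩
  have mem : ∀ b, b ≤ N → ∀ j ∈ L b, b ≤ j ∧ j < N := by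
    intro b hb j hj
    rw [hL, List.mem_range'_1] at hj
    omega
  have le : ∀ b, b ≤ N → ∀ j ∈ L b, j ≤ N := fun b hb j hj => (mem b hb j hj).2.le
  have cons : ∀ b, b < N → L b = b :: L (b + 1) := by
    intro b hb
    rw [hL, hL, show N - b = N - (b + 1) + 1 by omega, List.range'_succ]
  have last : L N = [] := by simp [hL]
  have w0 : w 0 = f := by simp [hw, tA]
  have w1 : w 1 = u • w 0 - p 0 (w 0) + 0 := by simp [hw, tA]
  have w2 : ∀ b, w (b + 2) = u • w (b + 1) - p (b + 1) (w (b + 1)) + q b (w b) := by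
    intro b
    rw [hw, hw, hw, tA]
    simp only [LinearMap.add_apply, Module.End.mul_apply, LinearMap.sub_apply,
      LinearMap.smul_apply, Module.End.one_apply]
    rfl
  have hp : ∀ b, b < N → p b * ((L b).map q).prod =
      ((L b).map q).prod * p b + ((2 * 1 : ℝ) : ℂ) • ((L b).map q).prod := by
    intro b hb
    have h1 := res_comm (r := p b) (q := q) (L (b + 1)) fun j hj => by
      have := mem (b + 1) hb j hj
      rw [hT.pq b j hb.le this.2.le, if_neg (by omega), if_neg (by omega)]
      simp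
    rw [cons b hb, List.map_cons, List.prod_cons, ← mul_assoc, hT.pq b b hb.le hb.le,
      if_pos rfl, if_neg (by omega), add_mul, mul_assoc, h1, mul_assoc, smul_mul_assoc]
    norm_num
  have cross : ∀ b, b < N → (β (((L (b + 1)).map q).prod (q b (w b))) (J (w (b + 1)))).re =
      (β (((L b).map q).prod (w (b + 1))) (J (w b))).re := by
    intro b hb
    rw [← Module.End.mul_apply, ← res_comm (L (b + 1)) fun j _ => hT.qq b j, ← List.prod_cons,
      ← List.map_cons, ← cons b hb, res_adj hT hG hH _ (le b hb.le), ← hH.herm, Complex.conj_re]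
  have inv : ∀ b, b < N → (β (((L b).map q).prod (w (b + 1))) (J (w b))).re ≤
      -(β (((L 0).map q).prod f) (J f)).re := by
    intro b
    induction b with
    | zero =>
      intro hb
      have := res_step hT hG hH hb.le _ (le 0 hb.le) 1 (hp 0 hb) hu (w 0) 0
      rw [← w1, w0] at this
      rw [w0]
      simp only [map_zero, LinearMap.zero_apply, Complex.zero_re] at this
      linarith
    | succ b ih =>
      intro hb
      have h1 := res_step hT hG hH hb.le _ (le _ hb.le) 1 (hp _ hb) hu (w (b + 1)) (q b (w b))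
      rw [← w2, cross b (by omega)] at h1
      have h2 := ih (by omega)
      have h3 := hH.pos _ (le _ hb.le) (w (b + 1))
      linarith
  obtain ⟨M, rfl⟩ : ∃ M, N = M + 1 := ⟨N - 1, by omega⟩
  have h1 := res_step hT hG hH le_rfl (L (M + 1)) (le _ le_rfl) 0 (by simp [last]) hu (w (M + 1))
    (q M (w M))
  rw [← w2, cross M (by omega), last, hw (M + 2), hf] at h1
  have h2 := inv M (by omega)
  have h3 := hH.pos [] (by simp) (w (M + 1))
  have h4 := hH.pos [] (by simp) ((c / 2) • f + w (M + 1))
  have h5 := congrArg Complex.re (hH.herm ((c / 2) • f) (w (M + 1)))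
  have h6 : (β f (J f)).im = 0 := by rw [← Complex.conj_eq_iff_im, hH.herm]
  have h7 : (β ((c / 2) • f) (J ((c / 2) • f))).re = ‖c‖ ^ 2 / 4 * (β f (J f)).re := by
    rw [hH.smul, map_smul, map_smul, LinearMap.smul_apply, smul_eq_mul, smul_eq_mul, ← mul_assoc,
      Complex.conj_mul', norm_div, Complex.norm_ofNat, ← Complex.ofReal_pow, Complex.re_ofReal_mul]
    ring
  have h8 : (β (c • f) (J (w (M + 1)))).re = 2 * (β ((c / 2) • f) (J (w (M + 1)))).re := by
    rw [show c • f = (2 : ℂ) • (c / 2) • f by rw [smul_smul]; congr 1; ring, map_smul,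
      LinearMap.smul_apply, smul_eq_mul]
    simp
  simp only [List.map_nil, List.prod_nil, Module.End.one_apply] at h1 h3 h4
  rw [hH.add, map_add, map_add, LinearMap.add_apply, LinearMap.add_apply, Complex.add_re,
    Complex.add_re, Complex.add_re, h7] at h4
  rw [Complex.conj_re] at h5
  rw [hL 0, Nat.sub_zero, ← List.range_eq_range'] at h2
  linarith

end SI

end Pool.Agent.Lib.MP_fa98d2_nt.D
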