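import Pool.Agent.Lib.MP_fa98d2_nt.I.Stmts

/-! Density theorem at the real place: the Sobolev inequality. -/

open MeasureTheory Filter Topology Matrix
open scoped ENNReal Real ContDiff ComplexConjugate InnerProductSpace

noncomputable section

namespace Pool.Agent.Lib.MP_fa98d2_nt.D

namespace SI

open SW

namespace Sob

theorem one_real {g g' : ℝ → ℂ} (hg : ∀ t, HasDerivAt g (g' t) t) (hg' : Continuous g')
    {T a t : ℝ} (hT : 1 ≤ T) (ht : t ∈ Set.Icc a (a + 2)) :
    ‖g t‖ ^ 2 ≤ 2 * T * (∫ x in Set.Icc a (a + 2), ‖g x‖ ^ 2) +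
      T⁻¹ * ∫ x in Set.Icc a (a + 2), ‖g' x‖ ^ 2 := by
  have hc : Continuous g := continuous_iff_continuousAt.2 fun x => (hg x).continuousAt
  have c1 : Continuous fun x => ‖g x‖ ^ 2 := by fun_prop
  have c2 : Continuous fun x => ‖g' x‖ ^ 2 := by fun_prop
  have c3 : Continuous fun x => 2 * ⟪g x, g' x⟫_ℝ := by fun_prop
  have i1 : IntegrableOn (fun x => ‖g x‖ ^ 2) (Set.Icc a (a + 2)) := c1.integrableOn_Icc
  have i2 : IntegrableOn (fun x => ‖g' x‖ ^ 2) (Set.Icc a (a + 2)) := c2.integrableOn_Icc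
  have i3 : IntegrableOn (fun x => ‖2 * ⟪g x, g' x⟫_ℝ‖) (Set.Icc a (a + 2)) :=
    c3.norm.integrableOn_Icc
  obtain ⟨s, hs, hm⟩ := isCompact_Icc.exists_isMinOn ⟨t, ht⟩ c1.continuousOn
  have h1 : 2 * ‖g s‖ ^ 2 ≤ ∫ x in Set.Icc a (a + 2), ‖g x‖ ^ 2 := by
    have := setIntegral_mono_on (μ := volume) (f := fun _ => ‖g s‖ ^ 2)
      continuous_const.integrableOn_Icc i1 measurableSet_Icc fun x hx => hm hx
    rw [setIntegral_const, Real.volume_real_Icc_of_le (by linarith), smul_eq_mul,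
      add_sub_cancel_left] at this
    exact this
  have h2 : ∫ x in s..t, 2 * ⟪g x, g' x⟫_ℝ = ‖g t‖ ^ 2 - ‖g s‖ ^ 2 :=
    intervalIntegral.integral_eq_sub_of_hasDerivAt (f := fun x => ‖g x‖ ^ 2)
      (fun x _ => (hg x).norm_sq) (c3.intervalIntegrable _ _)
  have h3 : ‖∫ x in s..t, 2 * ⟪g x, g' x⟫_ℝ‖ ≤ ∫ x in Set.Icc a (a + 2), ‖2 * ⟪g x, g' x⟫_ℝ‖ := by
    refine intervalIntegral.norm_integral_le_integral_norm_uIoc.trans
      (setIntegral_mono_set i3 (Eventually.of_forall fun x => norm_nonneg _)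
        (LE.le.eventuallyLE ?_))
    exact Set.uIoc_subset_uIcc.trans (Set.uIcc_subset_Icc hs ht)
  have hT0 : 0 < T := by linarith
  have h4 : ∫ x in Set.Icc a (a + 2), ‖2 * ⟪g x, g' x⟫_ℝ‖ ≤
      ∫ x in Set.Icc a (a + 2), (T * ‖g x‖ ^ 2 + T⁻¹ * ‖g' x‖ ^ 2) := by
    refine setIntegral_mono_on i3 ((i1.const_mul _).add (i2.const_mul _)) measurableSet_Icc
      fun x _ => ?_
    have e1 := norm_inner_le_norm (𝕜 := ℝ) (g x) (g' x)
    have e2 : T * ‖g x‖ ^ 2 + T⁻¹ * ‖g' x‖ ^ 2 - 2 * (‖g x‖ * ‖g' x‖) =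
        T⁻¹ * (T * ‖g x‖ - ‖g' x‖) ^ 2 := by field_simp; ring
    have e3 : 0 ≤ T⁻¹ * (T * ‖g x‖ - ‖g' x‖) ^ 2 := by positivity
    rw [norm_mul, Real.norm_ofNat]
    linarith
  rw [integral_add (i1.const_mul _) (i2.const_mul _), integral_const_mul, integral_const_mul] at h4
  rw [h2] at h3
  have h5 := (le_abs_self _).trans (h3.trans h4)
  have h6 : 0 ≤ ∫ x in Set.Icc a (a + 2), ‖g x‖ ^ 2 := integral_nonneg fun x => by positivity
  nlinarith

theorem lint_eq {g : ℝ → ℂ} (hc : Continuous g) (a b : ℝ) :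
    ENNReal.ofReal (∫ x in Set.Icc a b, ‖g x‖ ^ 2) = ∫⁻ x in Set.Icc a b, ‖g x‖ₑ ^ 2 := by
  have c1 : Continuous fun x => ‖g x‖ ^ 2 := by fun_prop
  rw [ofReal_integral_eq_lintegral_ofReal c1.integrableOn_Icc
    (Eventually.of_forall fun x => by positivity)]
  exact lintegral_congr fun x => by rw [ENNReal.ofReal_pow (norm_nonneg _), ofReal_norm]

theorem one {g g' : ℝ → ℂ} (hg : ∀ t, HasDerivAt g (g' t) t) (hg' : Continuous g')
    {T a t : ℝ} (hT : 1 ≤ T) (ht : t ∈ Set.Icc a (a + 2)) :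
    ‖g t‖ₑ ^ 2 ≤ ENNReal.ofReal (2 * T) * (∫⁻ x in Set.Icc a (a + 2), ‖g x‖ₑ ^ 2) +
      ENNReal.ofReal T⁻¹ * ∫⁻ x in Set.Icc a (a + 2), ‖g' x‖ₑ ^ 2 := by
  have hc : Continuous g := continuous_iff_continuousAt.2 fun x => (hg x).continuousAt
  have hT0 : 0 < T := by linarith
  rw [← lint_eq hc, ← lint_eq hg', ← ENNReal.ofReal_mul (by positivity),
    ← ENNReal.ofReal_mul (by positivity), ← ofReal_norm,
    ← ENNReal.ofReal_pow (norm_nonneg _)]
  exact (ENNReal.ofReal_le_ofReal (one_real hg hg' hT ht)).trans ENNReal.ofReal_add_le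

variable {N : ℕ}

theorem pd_sm {f : RR N → ℂ} (hf : ContDiff ℝ ∞ f) (b : Fin (N + 1)) : ContDiff ℝ ∞ (pd b f) :=
  (hf.fderiv_right (m := ∞) (by simp)).clm_apply contDiff_const

theorem fold_sm {f : RR N → ℂ} (hf : ContDiff ℝ ∞ f) (l : List (Fin (N + 1))) :
    ContDiff ℝ ∞ (l.foldr pd f) := by
  induction l with
  | nil => exact hf
  | cons b l ih => exact pd_sm ih b

theorem meas {f : RR N → ℂ} (hf : ContDiff ℝ ∞ f) : Measurable fun x => ‖f x‖ₑ ^ 2 :=
  hf.continuous.measurable.enorm.pow_const 2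

/-- the box measures -/
abbrev bx (x0 : RR N) (b : Fin (N + 1)) : Measure ℝ := volume.restrict (Set.Icc (x0 b) (x0 b + 2))

theorem step {g : RR N → ℂ} (hg : ContDiff ℝ ∞ g) {T : ℝ} (hT : 1 ≤ T) (x0 x : RR N)
    {s : Finset (Fin (N + 1))} {b : Fin (N + 1)} (hb : b ∉ s)
    (hx : x b ∈ Set.Icc (x0 b) (x0 b + 2)) :
    lmarginal (bx x0) s (fun y => ‖g y‖ₑ ^ 2) x ≤
      ENNReal.ofReal (2 * T) * lmarginal (bx x0) (insert b s) (fun y => ‖g y‖ₑ ^ 2) x +
      ENNReal.ofReal T⁻¹ * lmarginal (bx x0) (insert b s) (fun y => ‖pd b g y‖ₑ ^ 2) x := by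
  have m : ∀ F : RR N → ℝ≥0∞, Measurable F → Measurable fun y : s → ℝ =>
      ∫⁻ t, F (Function.update (Function.updateFinset x s y) b t) ∂bx x0 b := fun F hF =>
    (Measurable.lintegral_prod_right (f := fun (z : RR N) (t : ℝ) => F (Function.update z b t))
      (hF.comp measurable_update')).comp measurable_updateFinset
  rw [lmarginal_insert' _ (meas hg) hb, lmarginal_insert' _ (meas (pd_sm hg b)) hb]
  unfold lmarginal
  rw [← lintegral_const_mul _ (m _ (meas hg)), ← lintegral_const_mul _ (m _ (meas (pd_sm hg b))),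
    ← lintegral_add_left ((m _ (meas hg)).const_mul _)]
  refine lintegral_mono fun y => ?_
  set z := Function.updateFinset x s y with hz
  have h1 : z b = x b := by rw [hz, Function.updateFinset_def]; exact dif_neg hb
  have h2 := one (g := fun t => g (Function.update z b t))
    (g' := fun t => pd b g (Function.update z b t)) (a := x0 b) (t := z b)
    (fun t => ((hg.differentiable (by simp) _).hasFDerivAt.comp_hasDerivAt t
      (hasDerivAt_update z b t)))
    ((pd_sm hg b).continuous.comp (continuous_const.update b continuous_id)) hT (h1 ▸ hx)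
  rw [Function.update_eq_self] at h2
  exact h2

/-- the diagonal line through `x0` -/
def ln (x0 : RR N) (τ : ℝ) : RR N := fun i => x0 i + (τ - x0 (Fin.last N))

theorem meas_ln (x0 : RR N) : Measurable (ln x0) := by
  unfold ln; fun_prop

theorem ind {T : ℝ} (hT : 1 ≤ T) (x0 : RR N) (s : Finset (Fin (N + 1))) :
    ∀ {f : RR N → ℂ}, ContDiff ℝ ∞ f → ∀ Bd : ℝ≥0∞,
    (∀ l : List (Fin (N + 1)), l.length ≤ s.card →
      ∫⁻ τ, lmarginal (bx x0) s (fun y => ‖l.foldr pd f y‖ₑ ^ 2) (ln x0 τ) ∂bx x0 (Fin.last N) ≤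
        ENNReal.ofReal (T ^ (2 * l.length)) * Bd) →
    ∫⁻ τ, ‖f (ln x0 τ)‖ₑ ^ 2 ∂bx x0 (Fin.last N) ≤ ENNReal.ofReal ((3 * T) ^ s.card) * Bd := by
  have hT0 : 0 < T := by linarith
  induction s using Finset.induction_on with
  | empty =>
    intro f _ Bd h
    simpa using h [] le_rfl
  | insert b s hb ih =>
    intro f hf Bd h
    rw [Finset.card_insert_of_notMem hb] at h ⊢
    rw [pow_succ, ENNReal.ofReal_mul (by positivity), mul_assoc]
    refine ih hf _ fun l hl => ?_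
    have hl' := fold_sm hf l
    have m1 : Measurable fun τ =>
        lmarginal (bx x0) (insert b s) (fun y => ‖l.foldr pd f y‖ₑ ^ 2) (ln x0 τ) :=
      ((meas hl').lmarginal (μ := bx x0) (s := insert b s)).comp (meas_ln x0)
    have m2 : Measurable fun τ =>
        lmarginal (bx x0) (insert b s) (fun y => ‖pd b (l.foldr pd f) y‖ₑ ^ 2) (ln x0 τ) :=
      ((meas (pd_sm hl' b)).lmarginal (μ := bx x0) (s := insert b s)).comp (meas_ln x0)
    have h1 := h l (by omega)
    have h2 := h (b :: l) (by simpa using hl)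
    calc _ ≤ ∫⁻ τ, (ENNReal.ofReal (2 * T) *
            lmarginal (bx x0) (insert b s) (fun y => ‖l.foldr pd f y‖ₑ ^ 2) (ln x0 τ) +
          ENNReal.ofReal T⁻¹ *
            lmarginal (bx x0) (insert b s) (fun y => ‖pd b (l.foldr pd f) y‖ₑ ^ 2) (ln x0 τ))
          ∂bx x0 (Fin.last N) := by
          refine setLIntegral_mono' measurableSet_Icc fun τ hτ => step hl' hT x0 _ hb ?_
          unfold ln
          constructor <;> linarith [hτ.1, hτ.2]
      _ ≤ ENNReal.ofReal (2 * T) * (ENNReal.ofReal (T ^ (2 * l.length)) * Bd) +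
          ENNReal.ofReal T⁻¹ * (ENNReal.ofReal (T ^ (2 * (l.length + 1))) * Bd) := by
          rw [lintegral_add_left (m1.const_mul _), lintegral_const_mul _ m1,
            lintegral_const_mul _ m2]
          exact add_le_add (mul_le_mul_right h1 _) (mul_le_mul_right h2 _)
      _ = _ := by
          rw [← mul_assoc, ← mul_assoc, ← mul_assoc, ← add_mul,
            ← ENNReal.ofReal_mul (by positivity), ← ENNReal.ofReal_mul (by positivity),
            ← ENNReal.ofReal_mul (by positivity),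
            ← ENNReal.ofReal_add (by positivity) (by positivity)]
          congr 2
          field_simp
          ring

theorem full (x0 : RR N) {F : RR N → ℝ≥0∞} (hF : Measurable F) :
    ∫⁻ τ, lmarginal (bx x0) (Finset.univ.erase (Fin.last N)) F (ln x0 τ) ∂bx x0 (Fin.last N) =
      ∫⁻ x in Set.Icc x0 fun i => x0 i + 2, F x := by
  have h1 := lmarginal_insert (μ := bx x0) F hF
    (Finset.notMem_erase (Fin.last N) Finset.univ) x0
  rw [Finset.insert_erase (Finset.mem_univ _), lmarginal_univ] at h1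
  rw [← Set.pi_univ_Icc, volume_pi, Measure.restrict_pi_pi]
  refine Eq.trans (lintegral_congr fun τ => lmarginal_congr _ F fun i hi => ?_) h1.symm
  obtain rfl : i = Fin.last N := by simpa using hi
  simp [ln]

end Sob

theorem sobS : SobS := by
  intro N
  refine ⟨3 ^ N, by positivity, fun T hT f hf hinv x0 Bd h => ?_⟩
  have hc : (Finset.univ.erase (Fin.last N)).card = N := by simp
  have h1 := Sob.ind hT x0 (Finset.univ.erase (Fin.last N)) hf Bd fun l hl => by
    rw [Sob.full x0 (Sob.meas (Sob.fold_sm hf l))]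
    exact h l (hl.trans hc.le)
  have h2 : ∀ τ, f (Sob.ln x0 τ) = f x0 := fun τ => hinv _ x0
  simp only [h2] at h1
  rw [hc, mul_pow, setLIntegral_const, Real.volume_Icc, add_sub_cancel_left] at h1
  refine le_trans (le_mul_of_one_le_right' ?_) h1
  simp

end SI

end Pool.Agent.Lib.MP_fa98d2_nt.D
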