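import Pool.Agent.Lib.MP_fa98d2_nt.I.Stmts

/-! Density theorem at the real place: spherical vectors. -/

open MeasureTheory Filter Topology Matrix
open scoped ENNReal Real ContDiff ComplexConjugate InnerProductSpace

noncomputable section

namespace Pool.Agent.Lib.MP_fa98d2_nt.D

namespace SI

open SW

namespace SphL

variable {k : ℕ}

/-! ### A left invariant bump -/

/-- the Gram matrix in coordinates -/
def gr (y : E k) : E k := fun i j => ∑ l, y l i * y l j

lemma gr_co (x : G k) : gr (co x) = co (tr x * x) := by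
  funext i j
  simp [gr, co, Matrix.mul_apply]

lemma contDiff_gr : ContDiff ℝ ∞ (gr (k := k)) := by
  refine contDiff_pi.2 fun i => contDiff_pi.2 fun j => ContDiff.sum fun l _ => ?_
  fun_prop

lemma continuous_P : Continuous fun x : G k => tr x * x := continuous_tr.mul continuous_id

lemma compact_pre {C : Set (G k)} (hC : IsCompact C) : IsCompact {x : G k | tr x * x ∈ C} := by
  rw [isOpenEmbedding_co.isInducing.isCompact_iff]
  have h1 : IsCompact (co '' C) := hC.image continuous_co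
  have e : co '' {x : G k | tr x * x ∈ C} = gr ⁻¹' (co '' C) := by
    ext y
    constructor
    · rintro ⟨x, hx, rfl⟩
      exact ⟨_, hx, (gr_co x).symm⟩
    · rintro ⟨z, hz, hy⟩
      have h2 : (Matrix.of y)ᵀ * Matrix.of y = z.val := by
        ext i j
        have := congrFun (congrFun hy i) j
        simp only [co, gr] at this
        simp [Matrix.mul_apply, this]
      have h3 : (Matrix.of y).det ≠ 0 := by
        intro h0
        apply det_ne z
        rw [← h2, Matrix.det_mul, h0, mul_zero]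
      refine ⟨mkG (Matrix.of y), ?_, val_mkG h3⟩
      have h4 : tr (mkG (Matrix.of y)) * mkG (Matrix.of y) = z := by
        apply Units.ext
        rw [Units.val_mul, val_tr, val_mkG h3, h2]
      show tr (mkG (Matrix.of y)) * mkG (Matrix.of y) ∈ C
      rw [h4]
      exact hz
  rw [e]
  refine Metric.isCompact_of_isClosed_isBounded
    (h1.isClosed.preimage contDiff_gr.continuous) ?_
  obtain ⟨R, hR⟩ := h1.isBounded.exists_norm_le
  refine isBounded_iff_forall_norm_le.2 ⟨|R| + 1, fun y hy => ?_⟩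
  have h0 : 0 ≤ |R| + 1 := by positivity
  refine (pi_norm_le_iff_of_nonneg h0).2 fun l => (pi_norm_le_iff_of_nonneg h0).2 fun i => ?_
  have h5 : ‖gr y i i‖ ≤ R :=
    ((norm_le_pi_norm (gr y i) i).trans (norm_le_pi_norm (gr y) i)).trans (hR _ hy)
  have h6 : y l i * y l i ≤ gr y i i :=
    Finset.single_le_sum (f := fun l => y l i * y l i) (fun l _ => mul_self_nonneg _)
      (Finset.mem_univ l)
  have h7 : gr y i i ≤ |R| := ((le_abs_self _).trans h5).trans (le_abs_self R)
  rw [Real.norm_eq_abs]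
  refine abs_le_of_sq_le_sq' ?_ h0 |> abs_le.2
  nlinarith [abs_nonneg R]

lemma exists_bump {F : G k → ℂ} (hF : Continuous F) (h0 : F ≠ 0)
    (hs : ∀ a, IsO a → rt a F = F) :
    ∃ f, Sm f ∧ HasCompactSupport f ∧ (∀ a, IsO a → ∀ x, f (a * x) = f x) ∧ conv f F ≠ 0 := by
  obtain ⟨g, hg⟩ := Function.ne_iff.1 h0
  have hc : Continuous fun x : G k => (F (g * x) * conj (F g)).re := by fun_prop
  have h1 : ∀ x : G k, tr x * x = 1 → 0 < (F (g * x) * conj (F g)).re := by
    intro x hx
    have e : F (g * x) = F g := congrFun (hs x ((Gelf.isO_iff x).2 hx)) g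
    rw [e, Complex.mul_conj, Complex.ofReal_re]
    exact Complex.normSq_pos.2 hg
  obtain ⟨C, hC1, hC2⟩ := exists_compact_mem_nhds (1 : G k)
  have hK : IsCompact ({x : G k | tr x * x ∈ C} ∩ {x | (F (g * x) * conj (F g)).re ≤ 0}) :=
    (compact_pre hC1).inter_right (isClosed_le hc continuous_const)
  have hK' := (hK.image continuous_P).isClosed.isOpen_compl.mem_nhds (x := 1) (by
    rintro ⟨x, hx, hx'⟩
    exact absurd (h1 x hx') (not_lt.2 hx.2))
  have h2 := Filter.inter_mem hC2 hK'
  rw [isOpenEmbedding_co.isInducing.nhds_eq_comap, Filter.mem_comap] at h2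
  obtain ⟨U, hU, h2⟩ := h2
  obtain ⟨ε, hε, h3⟩ := Metric.mem_nhds_iff.1 hU
  have hk : (0 : ℝ) < 2 * k + 2 := by positivity
  have hδ : 0 < min ε (1 / (2 * k + 2)) := lt_min hε (by positivity)
  obtain ⟨b1, b2, b3, b4, b5⟩ := hL.bump k (min ε (1 / (2 * k + 2))) hδ
    ((le_div_iff₀ hk).1 (min_le_right _ _))
  generalize hδ' : min ε (1 / (2 * (k : ℝ) + 2)) = δ at hδ b1 b2 b3 b4 b5
  have hδε : δ ≤ ε := hδ' ▸ min_le_left _ _
  have s1 : Sm fun x : G k => tf δ (tr x * x) := by
    have h4 : ContDiff ℝ ∞ fun y : E k =>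
        ((bp k (δ⁻¹ • (gr y - co (1 : G k))) : ℝ) : ℂ) :=
      Complex.ofRealCLM.contDiff.comp
        ((bp k).contDiff.comp ((contDiff_gr.sub contDiff_const).const_smul δ⁻¹))
    have h5 := (hC.ofE k _ h4).1
    simp only [gr_co] at h5
    exact h5
  have s2 : HasCompactSupport fun x : G k => tf δ (tr x * x) :=
    HasCompactSupport.intro (compact_pre b2) fun x hx => image_eq_zero_of_notMem_tsupport hx
  refine ⟨_, s1, s2, fun a ha x => ?_, fun h4 => ?_⟩
  · have e : tr (a * x) * (a * x) = tr x * x := by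
      rw [tr_mul, Gelf.tr_of_isO ha]
      group
    simp only [e]
  set f : G k → ℂ := fun x => tf δ (tr x * x) with hf'
  have hf := hC.cont k f s1
  have h5 : Continuous fun x : G k => (f x * F (g * x) * conj (F g)).re := by fun_prop
  have h6 : HasCompactSupport fun x : G k => (f x * F (g * x) * conj (F g)).re :=
    s2.mono fun x hx h => hx (by simp only [h, zero_mul, Complex.zero_re])
  have h7 := h5.integral_pos_of_hasCompactSupport_nonneg_nonzero (μ := mu k) (x := 1) h6
    (fun x => ?_) ?_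
  · have h8 := integral_re ((Class.integrable_conv hf s2 hF g).mul_const (conj (F g)))
    rw [integral_mul_const] at h8
    have h9 : ∫ x, f x * F (g * x) ∂mu k = 0 := congrFun h4 g
    rw [h9, zero_mul, map_zero] at h8
    exact h7.ne' h8
  · by_cases h8 : f x = 0
    · simp [h8]
    obtain ⟨r, h9, -, h10⟩ := b5 (tr x * x)
    have h11 : tr x * x ∈ co ⁻¹' U := h3 (by
      rw [Metric.mem_ball, dist_pi_lt_iff hε]
      intro i
      rw [dist_pi_lt_iff hε]
      intro j
      exact (b3 _ h8 i j).trans_le hδε)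
    have h12 : 0 ≤ (F (g * x) * conj (F g)).re := by
      by_contra h13
      exact (h2 h11).2 ⟨x, ⟨(h2 h11).1, (not_le.1 h13).le⟩, rfl⟩
    have h14 : f x = r := h10
    simp only [Pi.zero_apply]
    rw [h14, mul_assoc, Complex.re_ofReal_mul]
    exact mul_nonneg h9 h12
  · have h14 : f 1 = 1 := by
      show tf δ (tr 1 * 1) = 1
      rw [tr_one, mul_one]
      exact b4 1 fun i j => by simpa using half_pos hδ
    rw [h14, one_mul]
    exact (h1 1 (by rw [tr_one, mul_one])).ne'

lemma inv {N : ℕ} (hN : 1 ≤ N) (α : ℕ → Fin (N + 1) → ℂ) (F : G (N + 1) → ℂ) (hP : Pr1 α)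
    (h : Form α F) : InV α F := by
  obtain ⟨f, f1, f2, f3, f4⟩ := exists_bump h.aut.cont h.ne h.sph
  have h1 := hV.convV _ α F h.aut h.cusp h.hk h.l2 f f1 f2
  have h2 : Form α (conv f F) := ⟨h1.aut, h1.cusp, h1.hk, h1.l2 [], f4, fun a ha => by
    funext g
    have h3 := integral_mul_left_eq_self (μ := mu (N + 1)) (fun y => f y * F (g * y)) a
    simp only [f3 a ha, ← mul_assoc] at h3
    exact h3⟩
  obtain ⟨c, hc⟩ := hMu N hN α (conv f F) F hP h2 h
  rw [hc]
  exact Class.inV_smul hC c h1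

/-! ### The orthogonal Lie algebra -/

lemma cube (a b : Fin k) : (em a b - em b a) * (em a b - em b a) * (em a b - em b a) =
    -(em a b - em b a) := by
  by_cases h : a = b
  · subst h
    simp
  · have h1 : em a b * em a b = 0 := by
      unfold em
      exact Matrix.single_mul_single_of_ne _ _ _ _ (Ne.symm h) _
    have h2 : em b a * em b a = 0 := by
      unfold em
      exact Matrix.single_mul_single_of_ne _ _ _ _ h _
    have h3 : em a b * em b a * em a b = em a b := by
      simp [em]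
    have h4 : em b a * em a b * em b a = em b a := by
      simp [em]
    generalize em a b = x at h1 h2 h3 h4
    generalize em b a = y at h1 h2 h3 h4
    have e : (x - y) * (x - y) * (x - y) = x * x * x - x * x * y - x * y * x + x * (y * y) -
        y * (x * x) + y * x * y + y * y * x - y * y * y := by noncomm_ring
    rw [e, h1, h2, h3, h4]
    simp only [zero_mul, mul_zero]
    abel

lemma rd_skew {F : G k → ℂ} (hF : Sm F) (hs : ∀ a, IsO a → rt a F = F) {A : Mat k}
    (hA : Aᵀ = -A) (h3 : A * A * A = -A) : Rd A F = 0 := by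
  funext g
  let R : ℝ → Mat k := fun t => 1 + Real.sin t • A + (1 - Real.cos t) • (A * A)
  have hR : ∀ t, (R t)ᵀ * R t = 1 := by
    intro t
    have e1 : (R t)ᵀ = 1 - Real.sin t • A + (1 - Real.cos t) • (A * A) := by
      simp only [R, Matrix.transpose_add, Matrix.transpose_smul, Matrix.transpose_mul,
        Matrix.transpose_one, hA, neg_mul_neg, smul_neg, sub_eq_add_neg]
    have h4 : A * A * (A * A) = -(A * A) := by rw [← mul_assoc, h3, neg_mul]
    have h5 : A * (A * A) = -A := by rw [← mul_assoc, h3]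
    have h6 := Real.sin_sq_add_cos_sq t
    rw [e1]
    simp only [R, add_mul, mul_add, sub_mul, one_mul, mul_one, smul_mul_assoc, mul_smul_comm,
      h3, h4, h5]
    generalize A * A = B
    ext i j
    simp only [Matrix.add_apply, Matrix.sub_apply, Matrix.smul_apply, Matrix.neg_apply,
      smul_eq_mul]
    linear_combination (-B i j) * h6
  have hd : ∀ t, (R t).det ≠ 0 := by
    intro t h0
    have := congrArg Matrix.det (hR t)
    rw [Matrix.det_mul, h0, mul_zero, Matrix.det_one] at this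
    exact zero_ne_one this
  have hO : ∀ t, IsO (mkG (R t)) := fun t => (Gelf.isO_iff _).2 (Units.ext (by
    rw [Units.val_mul, val_tr, val_mkG (hd t), hR t, Units.val_one]))
  have h0 : g * mkG (R 0) = g := by simp [R]
  have h1 : HasDerivAt (fun t => co (g * mkG (R t))) (fun i j => (g.val * A) i j) 0 := by
    refine hasDerivAt_pi.2 fun i => hasDerivAt_pi.2 fun j => ?_
    have e : (fun t => co (g * mkG (R t)) i j) = fun t => g.val i j +
        Real.sin t * (g.val * A) i j + (1 - Real.cos t) * (g.val * (A * A)) i j := by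
      funext t
      simp only [co, Units.val_mul, val_mkG (hd t), R, mul_add, mul_one, mul_smul_comm,
        Matrix.add_apply, Matrix.smul_apply, smul_eq_mul]
    rw [e]
    refine ((((Real.hasDerivAt_sin 0).mul_const _).const_add _).fun_add
      (((Real.hasDerivAt_cos 0).const_sub 1).mul_const _)).congr_deriv ?_
    simp
  have h2 := hC.curve k F hF (fun t => g * mkG (R t)) _ 0 h1
  have e2 : (fun t => F (g * mkG (R t))) = fun _ => F g :=
    funext fun t => congrFun (hs _ (hO t)) g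
  have e3 : (g⁻¹).val * Matrix.of (fun i j => (g.val * A) i j) = A := by
    show (g⁻¹).val * (g.val * A) = A
    rw [← mul_assoc, ← Units.val_mul, inv_mul_cancel, Units.val_one, one_mul]
  simp only [h0] at h2
  rw [e2, e3] at h2
  exact h2.unique (hasDerivAt_const _ _)

lemma lie {N : ℕ} (d : Dat N) (φ : d.V) (h : Sph d φ) : LSph d φ := by
  intro a b
  apply Subtype.ext
  rw [d.e_val, d.e_val, ← sub_eq_zero, ← Calc.rd_sub_mat (d.sm φ)]
  refine rd_skew (d.sm φ) h ?_ (cube a b)
  simp [em, Matrix.transpose_sub]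

/-! ### Sobolev bounds -/

section sob

variable {n : ℕ} {M H : Type} [AddCommGroup M] [Module ℂ M] [NormedAddCommGroup H]
  [InnerProductSpace ℂ H] {e : Fin n → Fin n → Module.End ℂ M} {K : M →ₗ[ℂ] H}

lemma comm_le (he : Comm 1 e) {φ : M} {a b : Fin n} (hφ : e a b φ = e b a φ) {m : ℕ} {B : ℝ}
    (hB0 : 0 ≤ B) (hB : ∀ l : List (Fin n × Fin n), l.length = m → ‖K (ew e l φ)‖ ≤ B)
    (s : List (Fin n × Fin n)) : ∀ p : List (Fin n × Fin n), p.length + s.length = m →
      ‖K (ew e p ((e a b - e b a) (ew e s φ)))‖ ≤ 4 * s.length * B := by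
  induction s with
  | nil =>
    intro p _
    have : (e a b - e b a) (ew e [] φ) = 0 := by
      show e a b φ - e b a φ = 0
      rw [hφ, sub_self]
    rw [this]
    simp
  | cons x s ih =>
    intro p hp
    have h1 : ∀ (P : Prop) [Decidable P] (i j : Fin n),
        ‖K (ew e p ((if P then e i j else 0) (ew e s φ)))‖ ≤ B := by
      intro P _ i j
      split_ifs
      · have := hB (p ++ (i, j) :: s) (by simpa using hp)
        rwa [Kappa.ew_append, Kappa.ew_cons] at this
      · simpa using hB0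
    have h2 := ih (p ++ [x]) (by simp at hp ⊢; omega)
    rw [Kappa.ew_append, Kappa.ew_cons, Kappa.ew_nil, mul_one, Module.End.mul_apply] at h2
    have e1 : (e a b - e b a) * e x.1 x.2 = e x.1 x.2 * (e a b - e b a) +
        (((if b = x.1 then e a x.2 else 0) - (if x.2 = a then e x.1 b else 0)) -
          ((if a = x.1 then e b x.2 else 0) - (if x.2 = b then e x.1 a else 0))) := by
      have c1 := he a b x.1 x.2
      have c2 := he b a x.1 x.2
      rw [one_smul] at c1 c2
      rw [← c1, ← c2]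
      noncomm_ring
    have e2 : (e a b - e b a) (ew e (x :: s) φ) = ((e a b - e b a) * e x.1 x.2) (ew e s φ) := rfl
    rw [e2, e1, LinearMap.add_apply, LinearMap.sub_apply _ _ (ew e s φ),
      LinearMap.sub_apply (if b = x.1 then e a x.2 else 0),
      LinearMap.sub_apply (if a = x.1 then e b x.2 else 0), map_add, map_add, map_sub, map_sub,
      map_sub, map_sub, map_sub, map_sub, Module.End.mul_apply]
    have t1 := h1 (b = x.1) a x.2
    have t2 := h1 (x.2 = a) x.1 b
    have t3 := h1 (a = x.1) b x.2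
    have t4 := h1 (x.2 = b) x.1 a
    refine (norm_add_le _ _).trans ((add_le_add h2 ((norm_sub_le _ _).trans (add_le_add
      ((norm_sub_le _ _).trans (add_le_add t1 t2))
      ((norm_sub_le _ _).trans (add_le_add t3 t4))))).trans (le_of_eq ?_))
    rw [List.length_cons]
    push_cast
    ring

lemma cas (hs : ∀ a b f g, ⟪K g, K (e a b f)⟫_ℂ + ⟪K (e a b g), K f⟫_ℂ = 0) {γ : ℂ}
    (hγ : egel e 2 = γ • (1 : Module.End ℂ M)) (v : M) :
    2 * ∑ a, ∑ b, ‖K (e a b v)‖ ^ 2 ≤
      ∑ a, ∑ b, ‖K ((e a b - e b a) v)‖ ^ 2 + 2 * ‖γ‖ * ‖K v‖ ^ 2 := by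
  have h1 : ∑ a, ∑ b, e a b * e b a = γ • (1 : Module.End ℂ M) := by
    rw [← hγ]
    simp [egel, epw]
  have h2 : ∀ a b, ‖K ((e a b - e b a) v)‖ ^ 2 = ‖K (e a b v)‖ ^ 2 + ‖K (e b a v)‖ ^ 2 +
      2 * (⟪K v, K ((e a b * e b a) v)⟫_ℂ).re := by
    intro a b
    have h3 := congrArg Complex.re (hs a b (e b a v) v)
    rw [Complex.add_re, Complex.zero_re] at h3
    rw [LinearMap.sub_apply, map_sub, @norm_sub_sq ℂ, Module.End.mul_apply, RCLike.re_to_complex]
    linarith
  have h4 : ∑ a, ∑ b, (⟪K v, K ((e a b * e b a) v)⟫_ℂ).re = (γ * (‖K v‖ ^ 2 : ℝ)).re := by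
    have h5 : ⟪K v, K ((∑ a, ∑ b, e a b * e b a) v)⟫_ℂ = γ * (‖K v‖ ^ 2 : ℝ) := by
      rw [h1, LinearMap.smul_apply, Module.End.one_apply, map_smul, inner_smul_right,
        inner_self_eq_norm_sq_to_K]
      simp
    rw [← h5]
    simp only [LinearMap.sum_apply, map_sum, inner_sum, Complex.re_sum]
  have h6 : -(‖γ‖ * ‖K v‖ ^ 2) ≤ (γ * (‖K v‖ ^ 2 : ℝ)).re := by
    rw [Complex.re_mul_ofReal, ← neg_mul]
    exact mul_le_mul_of_nonneg_right (neg_le_of_abs_le (Complex.abs_re_le_norm γ)) (by positivity)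
  have h7 : ∑ a, ∑ b, ‖K (e b a v)‖ ^ 2 = ∑ a, ∑ b, ‖K (e a b v)‖ ^ 2 := Finset.sum_comm
  simp only [h2, Finset.sum_add_distrib, ← Finset.mul_sum]
  rw [h4, h7]
  linarith

end sob

lemma sob {N : ℕ} (hN : 1 ≤ N) (J : ℕ) (C0 : ℝ) : ∃ C : ℝ, 0 < C ∧ ∀ T : ℝ, 1 ≤ T → ∀ d : Dat N,
    Gam (N + 1) C0 T d.γ → ∀ φ : d.V, LSph d φ → d.Sb T (C * ‖d.K φ‖) J φ := by
  induction J with
  | zero =>
    refine ⟨1, one_pos, fun T _ d _ φ _ l hl => ?_⟩
    obtain rfl := List.length_eq_zero_iff.1 (Nat.le_zero.1 hl)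
    simp
  | succ J ih =>
    obtain ⟨C, hC0, h⟩ := ih
    obtain ⟨c, hc⟩ : ∃ c : ℝ, c = 4 * (N + 1) * J + (|C0| + 1) := ⟨_, rfl⟩
    have hc1 : 1 ≤ c := by
      have : (0 : ℝ) ≤ 4 * (N + 1) * J + |C0| := by positivity
      linarith
    refine ⟨C * c, by positivity, fun T hT d hG φ hφ l hl => ?_⟩
    have hS := h T hT d hG φ hφ
    have hT0 : 0 < T := by linarith
    rcases Nat.lt_or_ge l.length (J + 1) with h1 | h1
    · refine (hS l (by omega)).trans ?_
      have h2 : C * ‖d.K φ‖ ≤ C * c * ‖d.K φ‖ :=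
        mul_le_mul_of_nonneg_right (le_mul_of_one_le_right hC0.le hc1) (norm_nonneg _)
      exact mul_le_mul_of_nonneg_right h2 (by positivity)
    obtain _ | ⟨x, s⟩ := l
    · simp at h1
    have hs : s.length = J := by
      rw [List.length_cons] at hl h1
      omega
    obtain ⟨B, hB⟩ : ∃ B : ℝ, B = C * ‖d.K φ‖ * T ^ J := ⟨_, rfl⟩
    have hB0 : 0 ≤ B := by rw [hB]; positivity
    have hB1 : ∀ l : Wd N, l.length = J → ‖d.K (ew d.e l φ)‖ ≤ B := fun l hl => by
      have := hS l hl.le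
      rwa [hl, ← hB] at this
    have h2 : ∀ a b, ‖d.K ((d.e a b - d.e b a) (ew d.e s φ))‖ ^ 2 ≤ (4 * J * B) ^ 2 := by
      intro a b
      have := comm_le d.e_comm (hφ a b) hB0 hB1 s [] (by simpa using hs)
      rw [hs] at this
      exact pow_le_pow_left₀ (norm_nonneg _) this 2
    have h3 := cas (K := d.K) (fun a b f g => kir.skew N d a b f g) (d.egel_eq 2) (ew d.e s φ)
    have h4 : ∑ a, ∑ b, ‖d.K ((d.e a b - d.e b a) (ew d.e s φ))‖ ^ 2 ≤
        (4 * (N + 1) * J * B) ^ 2 := by
      refine (Finset.sum_le_sum fun a _ => Finset.sum_le_sum fun b _ => h2 a b).trans (le_of_eq ?_)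
      simp only [Finset.sum_const, Finset.card_univ, Fintype.card_fin, nsmul_eq_mul]
      push_cast
      ring
    have h5 : ‖d.K (d.e x.1 x.2 (ew d.e s φ))‖ ^ 2 ≤
        ∑ a, ∑ b, ‖d.K (d.e a b (ew d.e s φ))‖ ^ 2 :=
      (Finset.single_le_sum (f := fun b => ‖d.K (d.e x.1 b (ew d.e s φ))‖ ^ 2)
        (fun _ _ => by positivity) (Finset.mem_univ x.2)).trans
      (Finset.single_le_sum (f := fun a => ∑ b, ‖d.K (d.e a b (ew d.e s φ))‖ ^ 2)
        (fun _ _ => by positivity) (Finset.mem_univ x.1))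
    have h6 : ‖d.γ 2‖ * ‖d.K (ew d.e s φ)‖ ^ 2 ≤ |C0| * T ^ 2 * B ^ 2 :=
      mul_le_mul ((hG 2 (by omega)).trans
        (mul_le_mul_of_nonneg_right (le_abs_self C0) (by positivity)))
        (pow_le_pow_left₀ (norm_nonneg _) (hB1 s hs) 2) (by positivity) (by positivity)
    have h7 : ‖d.K (d.e x.1 x.2 (ew d.e s φ))‖ ^ 2 ≤ (c * T * B) ^ 2 := by
      obtain ⟨u, hu⟩ : ∃ u : ℝ, u = 4 * (N + 1) * J := ⟨_, rfl⟩
      have hu0 : 0 ≤ u := by rw [hu]; positivity
      rw [← hu] at h4 hc
      have a0 := abs_nonneg C0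
      have h8 : u ^ 2 + |C0| * T ^ 2 ≤ (c * T) ^ 2 := by
        have h9 : u ^ 2 ≤ u ^ 2 * T ^ 2 := le_mul_of_one_le_right (by positivity) (one_le_pow₀ hT)
        have h10 : u ^ 2 + |C0| ≤ c ^ 2 := by rw [hc]; nlinarith
        have h11 := mul_le_mul_of_nonneg_right h10 (sq_nonneg T)
        nlinarith
      have h12 := mul_le_mul_of_nonneg_right h8 (sq_nonneg B)
      nlinarith [sq_nonneg (u * B)]
    have h13 := (pow_le_pow_iff_left₀ (norm_nonneg _) (by positivity) two_ne_zero).1 h7
    refine le_trans h13 (le_of_eq ?_)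
    rw [hB, List.length_cons, hs]
    ring

end SphL

theorem sphS : SphS := by
  exact ⟨fun _ hN α F hP h => SphL.inv hN α F hP h, fun _ d φ h => SphL.lie d φ h,
    fun _ hN J C0 => SphL.sob hN J C0⟩

end SI

end Pool.Agent.Lib.MP_fa98d2_nt.D
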