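import Pool.Agent.Lib.MP_fa98d2_nt.I.Stmts

/-! Density theorem at the real place: the mass off the good region. -/

open MeasureTheory Filter Topology Matrix
open scoped ENNReal Real ContDiff ComplexConjugate InnerProductSpace

noncomputable section

namespace Pool.Agent.Lib.MP_fa98d2_nt.D

namespace SI

open SW

namespace Tail

variable {N : ℕ}

/-- the weight of a word in the simple roots -/
def twt (l : List (Fin N)) (x : RR N) : ℝ := (l.map fun b => x b.castSucc - x b.succ).sum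

/-- the word in the generators -/
def wd (l : List (Fin N)) : Wd N := l.map fun b => (b.castSucc, b.succ)

/-- the weighted integrand -/
def FF (s : ℝ) (j : ℕ) (l : List (Fin N)) (f : RR N → ℂ) (x : RR N) : ℝ :=
  Real.exp (s * sX x) * Gs x * Real.exp (2 * (j * x (Fin.last N) + twt l x)) * ‖f x‖ ^ 2

theorem twt_append (l l' : List (Fin N)) (x : RR N) : twt (l ++ l') x = twt l x + twt l' x := by
  simp [twt]

theorem twt_cont (l : List (Fin N)) : Continuous (twt l) := by
  induction l with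
  | nil => exact continuous_const
  | cons b l ih =>
    have e : twt (b :: l) = fun x => x b.castSucc - x b.succ + twt l x := by
      funext x
      simp [twt]
    rw [e]
    fun_prop

theorem Gs_pos (x : RR N) : 0 < Gs x := Real.exp_pos _

theorem FF_meas (s : ℝ) (j : ℕ) (l : List (Fin N)) {f : RR N → ℂ} (hf : Continuous f) :
    Measurable fun x => ENNReal.ofReal (FF s j l f x) := by
  have h1 := twt_cont l
  have : Continuous (FF s j l f) := by
    unfold FF sX Gs
    fun_prop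
  exact this.measurable.ennreal_ofReal

theorem FF_nonneg (s : ℝ) (j : ℕ) (l : List (Fin N)) (f : RR N → ℂ) (x : RR N) :
    0 ≤ FF s j l f x := by
  have := Gs_pos x
  unfold FF
  positivity

theorem exists_one (b : Fin (N + 1)) :
    ∃ l : List (Fin N), ∀ x : RR N, x b = x (Fin.last N) + twt l x := by
  induction b using Fin.reverseInduction with
  | last => exact ⟨[], fun x => by simp [twt]⟩
  | cast b ih =>
    obtain ⟨l, hl⟩ := ih
    refine ⟨b :: l, fun x => ?_⟩
    have e : twt (b :: l) x = x b.castSucc - x b.succ + twt l x := by simp [twt]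
    rw [e]
    linarith [hl x]

theorem exists_all (N : ℕ) :
    ∃ l : List (Fin N), ∀ x : RR N, sX x = ((N + 1 : ℕ) : ℝ) * x (Fin.last N) + twt l x := by
  have key : ∀ s : Finset (Fin (N + 1)), ∃ l : List (Fin N), ∀ x : RR N,
      ∑ i ∈ s, x i = (s.card : ℝ) * x (Fin.last N) + twt l x := by
    intro s
    induction s using Finset.induction_on with
    | empty => exact ⟨[], fun x => by simp [twt]⟩
    | insert b s hb ih =>
      obtain ⟨l, hl⟩ := ih
      obtain ⟨l', hl'⟩ := exists_one b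
      refine ⟨l ++ l', fun x => ?_⟩
      rw [Finset.sum_insert hb, Finset.card_insert_of_notMem hb, twt_append, hl x]
      push_cast
      linarith [hl' x]
  simpa [sX] using key Finset.univ

theorem word (hTw : TwS) (d : Dat N) (φ : d.V) (x : RR N) (l : List (Fin N)) :
    Real.exp (twt l x) * ‖tW (d.W φ) x‖ ≤ ‖tW (d.W (ew d.e (wd l) φ)) x‖ := by
  induction l with
  | nil => simp [twt, wd, ew]
  | cons b l ih =>
    have e : ew d.e (wd (b :: l)) φ = d.e b.castSucc b.succ (ew d.e (wd l) φ) := by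
      simp [wd, ew]
    have e2 : twt (b :: l) x = x b.castSucc - x b.succ + twt l x := by simp [twt]
    rw [e, d.W_e, hTw.off N _ (d.W_sm _) (d.W_eqv _) _ _ Fin.castSucc_lt_succ, if_pos (by simp),
      norm_mul, e2, Real.exp_add, mul_assoc]
    refine mul_le_mul ?_ ih (by positivity) (norm_nonneg _)
    rw [norm_mul, norm_mul, norm_mul, Complex.norm_I, Complex.norm_real, Complex.norm_real,
      Real.norm_of_nonneg Real.pi_pos.le, Real.norm_of_nonneg (Real.exp_pos _).le]
    have h2 : ‖(2 : ℂ)‖ = 2 := by simp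
    rw [h2]
    exact le_mul_of_one_le_left (Real.exp_pos _).le (by linarith [Real.pi_gt_three])

theorem key (hS : SphS) (hTw : TwS) (hM : MomS) (hN : 1 ≤ N) (C0 : ℝ) (j : ℕ) (l : List (Fin N)) :
    ∃ C : ℝ, 0 < C ∧ ∀ T : ℝ, 1 ≤ T → ∀ d : Dat N, Gam (N + 1) C0 T d.γ → ∀ φ : d.V, Sph d φ →
      ∫⁻ x, ENNReal.ofReal (FF 1 j l (tW (d.W φ)) x) ≤
        ENNReal.ofReal (C * (T ^ l.length) ^ 2 * ‖d.K φ‖ ^ 2) := by
  obtain ⟨C1, h1, H1⟩ := hS.sob N hN l.length C0
  obtain ⟨C2, h2, H2⟩ := hM.mom N l.length j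
  refine ⟨C2 * C1 ^ 2, by positivity, fun T hT d hG φ hφ => ?_⟩
  have h3 := H2 d φ hφ (C1 * ‖d.K φ‖ * T ^ l.length) (fun l' hl' => by
    have := H1 T hT d hG φ (hS.lie N d φ hφ) l' hl'.le
    rwa [hl'] at this) (wd l) (by simp [wd])
  refine le_trans (lintegral_mono fun x => ?_) (h3.trans (le_of_eq ?_))
  · have hg := Gs_pos x
    rw [← ofReal_norm, ← ENNReal.ofReal_pow (norm_nonneg _),
      ← ENNReal.ofReal_mul (by positivity)]
    refine ENNReal.ofReal_le_ofReal ?_
    unfold FF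
    rw [mul_assoc]
    refine mul_le_mul_of_nonneg_left ?_ (by positivity)
    rw [norm_mul, Complex.norm_real, Real.norm_of_nonneg (Real.exp_pos _).le, two_mul,
      Real.exp_add, ← pow_two, ← mul_pow, Real.exp_add, mul_assoc]
    gcongr
    exact word hTw d φ x l
  · congr 1
    ring

theorem key2 (hS : SphS) (hTw : TwS) (hM : MomS) (hN : 1 ≤ N) (C0 : ℝ) : ∃ D : ℕ,
    ∀ (j : ℕ) (l : List (Fin N)), ∃ C : ℝ, 0 < C ∧ ∀ T : ℝ, 1 ≤ T → ∀ d : Dat N,
      Gam (N + 1) C0 T d.γ → ∀ φ : d.V, Sph d φ → ∀ s : ℝ, 1 ≤ s → s ≤ 2 →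
      ∫⁻ x, ENNReal.ofReal (FF s j l (tW (d.W φ)) x) ≤
        ENNReal.ofReal (C * (T ^ l.length * T ^ D) ^ 2 * ‖d.K φ‖ ^ 2) := by
  obtain ⟨l0, hl0⟩ := exists_all N
  refine ⟨l0.length, fun j l => ?_⟩
  obtain ⟨C1, h1, H1⟩ := key hS hTw hM hN C0 j l
  obtain ⟨C2, h2, H2⟩ := key hS hTw hM hN C0 (j + (N + 1)) (l ++ l0)
  refine ⟨C1 + C2, by positivity, fun T hT d hG φ hφ s s1 s2 => ?_⟩
  have hc : Continuous (tW (d.W φ)) := (hTw.sm N _ (d.W_sm φ)).continuous
  have hp : ∀ x, FF s j l (tW (d.W φ)) x ≤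
      FF 1 j l (tW (d.W φ)) x + FF 1 (j + (N + 1)) (l ++ l0) (tW (d.W φ)) x := by
    intro x
    have hg := Gs_pos x
    have e1 : Real.exp (2 * (((j + (N + 1) : ℕ) : ℝ) * x (Fin.last N) + twt (l ++ l0) x)) =
        Real.exp (2 * sX x) * Real.exp (2 * (j * x (Fin.last N) + twt l x)) := by
      rw [← Real.exp_add, hl0 x, twt_append]
      congr 1
      push_cast
      ring
    have e2 : Real.exp (s * sX x) ≤
        Real.exp (1 * sX x) + Real.exp (1 * sX x) * Real.exp (2 * sX x) := by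
      rw [← Real.exp_add]
      rcases le_total (sX x) 0 with h | h
      · exact le_add_of_le_of_nonneg (Real.exp_le_exp.2 (by nlinarith)) (Real.exp_pos _).le
      · exact le_add_of_nonneg_of_le (Real.exp_pos _).le (Real.exp_le_exp.2 (by nlinarith))
    unfold FF
    rw [e1]
    calc _ ≤ (Real.exp (1 * sX x) + Real.exp (1 * sX x) * Real.exp (2 * sX x)) * Gs x *
          Real.exp (2 * (j * x (Fin.last N) + twt l x)) * ‖tW (d.W φ) x‖ ^ 2 := by gcongr
      _ = _ := by ring
  have hT1 : 1 ≤ T ^ l0.length := one_le_pow₀ hT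
  calc _ ≤ ∫⁻ x, (ENNReal.ofReal (FF 1 j l (tW (d.W φ)) x) +
        ENNReal.ofReal (FF 1 (j + (N + 1)) (l ++ l0) (tW (d.W φ)) x)) :=
        lintegral_mono fun x => (ENNReal.ofReal_le_ofReal (hp x)).trans ENNReal.ofReal_add_le
    _ ≤ _ := by
        rw [lintegral_add_left (FF_meas _ _ _ hc)]
        refine (add_le_add (H1 T hT d hG φ hφ) (H2 T hT d hG φ hφ)).trans ?_
        rw [← ENNReal.ofReal_add (by positivity) (by positivity)]
        refine ENNReal.ofReal_le_ofReal ?_
        rw [List.length_append, pow_add, add_mul, add_mul]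
        refine add_le_add ?_ le_rfl
        gcongr
        exact le_mul_of_one_le_right (by positivity) hT1

end Tail

open Tail in
theorem tailS (hS : SphS) (hTw : TwS) (hM : MomS) (hGeo : GeoS) : TailS := by
  intro N hN C0 e1 A he
  obtain ⟨D, hD⟩ := key2 hS hTw hM hN C0
  obtain ⟨M, hMA⟩ := exists_nat_ge ((A + 2 * D) / (2 * e1))
  rw [div_le_iff₀ (by positivity)] at hMA
  let jj : Option (Fin N) → ℕ := fun i => i.elim M fun _ => 0
  let ll : Option (Fin N) → List (Fin N) := fun i => i.elim [] fun b => List.replicate M b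
  choose C hC H using fun i => hD (jj i) (ll i)
  refine ⟨∑ i, C i, Finset.sum_pos (fun i _ => hC i) Finset.univ_nonempty,
    fun T hT d hG φ hφ s s1 s2 => ?_⟩
  have hT0 : 0 < T := by linarith
  have hZ : 0 < T ^ e1 := Real.rpow_pos_of_pos hT0 _
  have hc : Continuous (tW (d.W φ)) := (hTw.sm N _ (d.W_sm φ)).continuous
  set c : Option (Fin N) → ℝ := fun i => ((T ^ (ll i).length * (T ^ e1) ^ M) ^ 2)⁻¹ with hcd
  have hc0 : ∀ i, 0 < c i := fun i => by positivity
  have hbad : ∀ x ∈ (Good N T (T ^ e1))ᶜ, ∃ i,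
      1 ≤ c i * Real.exp (2 * (jj i * x (Fin.last N) + twt (ll i) x)) := by
    intro x hx
    simp only [Good, Set.mem_compl_iff, Set.mem_ofPred_eq, not_and_or, not_forall, not_le] at hx
    rcases hx with ⟨b, hb⟩ | hb
    · refine ⟨some b, ?_⟩
      have e : Real.exp (2 * (jj (some b) * x (Fin.last N) + twt (ll (some b)) x)) =
          (Real.exp (x b.castSucc - x b.succ) ^ M) ^ 2 := by
        rw [← Real.exp_nat_mul, ← Real.exp_nat_mul]
        simp [jj, ll, twt]
      have e2 : c (some b) = (((T * T ^ e1) ^ M) ^ 2)⁻¹ := by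
        simp [hcd, ll, mul_pow]
      rw [e, e2, ← div_eq_inv_mul, one_le_div (by positivity)]
      gcongr
    · refine ⟨none, ?_⟩
      have e : Real.exp (2 * (jj none * x (Fin.last N) + twt (ll none) x)) =
          (Real.exp (x (Fin.last N)) ^ M) ^ 2 := by
        rw [← Real.exp_nat_mul, ← Real.exp_nat_mul]
        simp [jj, ll, twt]
      have e2 : c none = (((T ^ e1) ^ M) ^ 2)⁻¹ := by
        simp [hcd, ll]
      rw [e, e2, ← div_eq_inv_mul, one_le_div (by positivity)]
      gcongr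
  have hp : ∀ x ∈ (Good N T (T ^ e1))ᶜ,
      ENNReal.ofReal (Real.exp (s * sX x) * Gs x) * ‖tW (d.W φ) x‖ₑ ^ 2 ≤
      ∑ i, ENNReal.ofReal (c i) * ENNReal.ofReal (FF s (jj i) (ll i) (tW (d.W φ)) x) := by
    intro x hx
    obtain ⟨i, hi⟩ := hbad x hx
    have hg := Gs_pos x
    refine le_trans ?_ (Finset.single_le_sum (f := fun i => ENNReal.ofReal (c i) *
      ENNReal.ofReal (FF s (jj i) (ll i) (tW (d.W φ)) x)) (fun _ _ => zero_le) (Finset.mem_univ i))
    rw [← ofReal_norm, ← ENNReal.ofReal_pow (norm_nonneg _),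
      ← ENNReal.ofReal_mul (by positivity), ← ENNReal.ofReal_mul (hc0 i).le]
    refine ENNReal.ofReal_le_ofReal ?_
    calc _ = Real.exp (s * sX x) * Gs x * 1 * ‖tW (d.W φ) x‖ ^ 2 := by ring
      _ ≤ Real.exp (s * sX x) * Gs x *
          (c i * Real.exp (2 * (jj i * x (Fin.last N) + twt (ll i) x))) * ‖tW (d.W φ) x‖ ^ 2 := by
        gcongr
      _ = _ := by unfold FF; ring
  have hfin : ((T ^ D) ^ 2 : ℝ) * (((T ^ e1) ^ M) ^ 2)⁻¹ ≤ T ^ (-A) := by
    rw [← pow_mul, ← pow_mul, ← Real.rpow_natCast T, ← Real.rpow_natCast (T ^ e1),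
      ← Real.rpow_mul hT0.le, ← Real.rpow_neg hT0.le, ← Real.rpow_add hT0]
    refine Real.rpow_le_rpow_of_exponent_le hT ?_
    push_cast
    nlinarith
  refine (setLIntegral_mono' (hGeo.meas N _ _).compl hp).trans
    ((setLIntegral_le_lintegral _ _).trans ?_)
  rw [lintegral_finsetSum _ fun i _ => (FF_meas _ _ _ hc).const_mul _, Finset.sum_mul,
    Finset.sum_mul, ENNReal.ofReal_sum_of_nonneg fun i _ => by have := hC i; positivity]
  refine Finset.sum_le_sum fun i _ => ?_
  rw [lintegral_const_mul _ (FF_meas _ _ _ hc)]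
  refine (mul_le_mul_right (H i T hT d hG φ hφ s s1 s2) _).trans ?_
  rw [← ENNReal.ofReal_mul (hc0 i).le]
  refine ENNReal.ofReal_le_ofReal ?_
  have := hC i
  calc _ = C i * ((T ^ D) ^ 2 * (((T ^ e1) ^ M) ^ 2)⁻¹) * ‖d.K φ‖ ^ 2 := by
        simp only [hcd]
        field_simp
    _ ≤ _ := by gcongr

end SI

end Pool.Agent.Lib.MP_fa98d2_nt.D
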