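import Pool.Agent.Lib.MP_fa98d2_nt.I.Stmts

/-! Density theorem at the real place: the exchange relations of the Toda chain. -/

open MeasureTheory Filter Topology Matrix
open scoped ENNReal Real ContDiff ComplexConjugate InnerProductSpace

noncomputable section

namespace Pool.Agent.Lib.MP_fa98d2_nt.D

namespace SI

open SW

namespace Toda

section ring

variable {R : Type} [Ring R] [Algebra ℂ R]

/-- the exchange relations -/
structure Ex (a c : ℂ → R) : Prop where
  aa : ∀ u v, a u * a v = a v * a u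
  ac : ∀ u v, (u - v) • (a u * c v - c v * a u) = (2 : ℂ) • (c u * a v - c v * a u)
  cc : ∀ u v, c u * c v = c v * c u

theorem Ex.mir {a c : ℂ → R} (h : Ex a c) (u v : ℂ) :
    a u * c v - c v * a u = a v * c u - c u * a v := by
  rcases eq_or_ne u v with rfl | huv
  · rfl
  · refine smul_right_injective R (sub_ne_zero.2 huv) ?_
    have h1 := h.ac u v
    have h2 := h.ac v u
    change (u - v) • _ = (u - v) • _
    linear_combination (norm := module) h1 + h2

theorem Ex.step {a c : ℂ → R} (h : Ex a c) {p q : R} (hpa : ∀ u, a u * p = p * a u)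
    (hpc : ∀ u, c u * p = p * c u + (2 : ℂ) • c u) (hqa : ∀ u, a u * q = q * a u)
    (hqc : ∀ u, c u * q = q * c u) (hpq : p * q = q * p + (2 : ℂ) • q) :
    Ex (fun u => (u • 1 - p) * a u + c u) fun u => q * a u := by
  have e1 : ∀ u x, a u * (p * x) = p * (a u * x) := fun u x => by
    rw [← mul_assoc, hpa, mul_assoc]
  have e2 : ∀ u x, c u * (p * x) = p * (c u * x) + (2 : ℂ) • (c u * x) := fun u x => by
    rw [← mul_assoc, hpc, add_mul, mul_assoc, smul_mul_assoc]
  have e3 : ∀ u x, a u * (q * x) = q * (a u * x) := fun u x => by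
    rw [← mul_assoc, hqa, mul_assoc]
  have e4 : ∀ u x, c u * (q * x) = q * (c u * x) := fun u x => by
    rw [← mul_assoc, hqc, mul_assoc]
  have e5 : ∀ x, p * (q * x) = q * (p * x) + (2 : ℂ) • (q * x) := fun x => by
    rw [← mul_assoc, hpq, add_mul, mul_assoc, smul_mul_assoc]
  refine ⟨fun u v => ?_, fun u v => ?_, fun u v => ?_⟩
  · have h1 := h.ac u v
    have h2 := h.mir u v
    have h3 := congrArg (fun x => p * x) h2
    simp only [mul_sub] at h3
    simp only [mul_add, add_mul, sub_mul, mul_sub, smul_mul_assoc, mul_smul_comm, mul_assoc,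
      one_mul, e1, e2, h.aa v u, h.cc v u]
    linear_combination (norm := module) h1 + v • h2 - h3
  · have h1 := congrArg (fun x => q * x) (h.ac v u)
    have h2 := congrArg (fun x => q * x) (h.mir u v)
    simp only [mul_sub, mul_smul_comm] at h1 h2
    simp only [mul_add, add_mul, sub_mul, mul_sub, smul_mul_assoc, mul_smul_comm, mul_assoc,
      one_mul, e1, e3, e4, e5, h.aa v u]
    linear_combination (norm := module) h1 - (2 : ℂ) • h2
  · simp only [mul_assoc, e3, h.aa v u]

end ring

variable {F : Type} [AddCommGroup F] [Module ℂ F] {p q : ℕ → Module.End ℂ F} {N : ℕ}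

theorem comm_both {x : Module.End ℂ F} (u : ℂ) : ∀ b : ℕ, (∀ a < b, Commute (p a) x) →
    (∀ a < b, Commute (q a) x) → Commute (tA p q u b).1 x ∧ Commute (tA p q u b).2 x
  | 0, _, _ => ⟨Commute.one_left x, Commute.zero_left x⟩
  | b + 1, hp, hq => by
    obtain ⟨h1, h2⟩ := comm_both u b (fun a ha => hp a (by omega)) fun a ha => hq a (by omega)
    exact ⟨((((Commute.one_left x).smul_left u).sub_left (hp b (by omega))).mul_left h1).add_left
      h2, (hq b (by omega)).mul_left h1⟩

theorem comm_far (h : Tod N p q) {a b : ℕ} (ha : a ≤ N) (hb : b ≤ N) (h1 : a ≠ b)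
    (h2 : a ≠ b + 1) : p a * q b = q b * p a := by
  rw [h.pq a b ha hb, if_neg h1, if_neg h2, sub_zero, zero_smul, add_zero]

theorem comm_p (h : Tod N p q) (u : ℂ) : ∀ b : ℕ, b ≤ N →
    (tA p q u b).1 * p b = p b * (tA p q u b).1 ∧
      (tA p q u b).2 * p b = p b * (tA p q u b).2 + (2 : ℂ) • (tA p q u b).2
  | 0, _ => by simp [tA]
  | b + 1, hb => by
    obtain ⟨h1, h2⟩ := comm_both (p := p) (q := q) (x := p (b + 1)) u b (fun a _ => h.pp _ _)
      fun a ha => (comm_far h hb (by omega) (by omega) (by omega)).symm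
    refine ⟨((((Commute.one_left _).smul_left u).sub_left (h.pp _ _)).mul_left h1).add_left h2, ?_⟩
    have h3 := h.pq (b + 1) b hb (by omega)
    rw [if_neg (by omega), if_pos rfl] at h3
    change q b * (tA p q u b).1 * p (b + 1) =
      p (b + 1) * (q b * (tA p q u b).1) + (2 : ℂ) • (q b * (tA p q u b).1)
    rw [mul_assoc, h1.eq, ← mul_assoc, ← mul_assoc, h3, add_mul, smul_mul_assoc]
    module

theorem ex (h : Tod N p q) : ∀ b : ℕ, b ≤ N + 1 →
    Ex (fun u => (tA p q u b).1) fun u => (tA p q u b).2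
  | 0, _ => ⟨fun _ _ => rfl, fun _ _ => by simp [tA], fun _ _ => rfl⟩
  | b + 1, hb => by
    have hb' : b ≤ N := by omega
    have hq : ∀ u, Commute (tA p q u b).1 (q b) ∧ Commute (tA p q u b).2 (q b) := fun u =>
      comm_both u b (fun a ha => comm_far h (by omega) hb' (by omega) (by omega))
        fun a _ => h.qq _ _
    have h3 := h.pq b b hb' hb'
    rw [if_pos rfl, if_neg (by omega), sub_zero] at h3
    exact (ex h b (by omega)).step (fun u => (comm_p h u b hb').1) (fun u => (comm_p h u b hb').2)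
      (fun u => (hq u).1) (fun u => (hq u).2) h3

theorem poly (p q : ℕ → Module.End ℂ F) (f : F) : ∀ (b : ℕ) (l : Module.Dual ℂ F),
    ∃ P Q : Polynomial ℂ, ∀ u, l ((tA p q u b).1 f) = P.eval u ∧ l ((tA p q u b).2 f) = Q.eval u
  | 0, l => ⟨Polynomial.C (l f), 0, fun u => by simp [tA]⟩
  | b + 1, l => by
    obtain ⟨P, Q, h1⟩ := poly p q f b l
    obtain ⟨P', _, h2⟩ := poly p q f b (l.comp (p b))
    obtain ⟨P'', _, h3⟩ := poly p q f b (l.comp (q b))
    refine ⟨Polynomial.X * P - P' + Q, P'', fun u => ⟨?_, (h3 u).1⟩⟩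
    have h4 := (h2 u).1
    rw [LinearMap.comp_apply] at h4
    simp only [tA, LinearMap.add_apply, Module.End.mul_apply, LinearMap.sub_apply,
      LinearMap.smul_apply, Module.End.one_apply, map_add, map_sub, map_smul, smul_eq_mul,
      Polynomial.eval_add, Polynomial.eval_sub, Polynomial.eval_mul, Polynomial.eval_X,
      (h1 u).1, (h1 u).2, h4]

theorem all (p q : ℕ → Module.End ℂ F) (μ : Fin (N + 1) → ℂ) (f : F) (h : Eig N p q μ f) (u : ℂ) :
    (tA p q u (N + 1)).1 f = (∏ k, (u - μ k)) • f := by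
  obtain ⟨s, hs⟩ := h
  rw [← sub_eq_zero, ← Module.forall_dual_apply_eq_zero_iff ℂ]
  intro l
  obtain ⟨P, _, hP⟩ := poly p q f (N + 1) l
  have h1 : P = (∏ k, (Polynomial.X - Polynomial.C (μ k))) * Polynomial.C (l f) := by
    refine Polynomial.eq_of_infinite_eval_eq _ _ (Set.Infinite.mono (s := (s : Set ℂ)ᶜ)
      (fun v hv => ?_) s.finite_toSet.infinite_compl)
    change P.eval v = _
    rw [← (hP v).1, hs v hv]
    simp [Polynomial.eval_prod]
  rw [map_sub, (hP u).1, h1]
  simp [Polynomial.eval_prod]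

theorem shift (h : Tod N p q) (μ : Fin (N + 1) → ℂ) (f : F) (hf : Eig N p q μ f) (i : Fin (N + 1)) :
    Eig N p q (fun k => μ k + if k = i then 2 else 0) ((tA p q (μ i) (N + 1)).2 f) := by
  refine ⟨{μ i}, fun u hu => ?_⟩
  have hu' : u - μ i ≠ 0 := sub_ne_zero.2 (by simpa using hu)
  have h1 := LinearMap.congr_fun ((ex h (N + 1) le_rfl).ac u (μ i)) f
  have h2 : (tA p q (μ i) (N + 1)).1 f = 0 := by
    rw [all p q μ f hf, Finset.prod_eq_zero (Finset.mem_univ i) (sub_self _), zero_smul]
  simp only [LinearMap.smul_apply, LinearMap.sub_apply, Module.End.mul_apply, h2, map_zero,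
    all p q μ f hf u, map_smul] at h1
  have h3 : ∏ k, (u - μ k) = (u - μ i) * ∏ k ∈ Finset.univ.erase i, (u - μ k) :=
    (Finset.mul_prod_erase _ (fun k => u - μ k) (Finset.mem_univ i)).symm
  have h4 : ∏ k, (u - (μ k + if k = i then 2 else 0)) =
      (u - μ i - 2) * ∏ k ∈ Finset.univ.erase i, (u - μ k) := by
    rw [← Finset.mul_prod_erase _ (fun k => u - (μ k + if k = i then 2 else 0))
      (Finset.mem_univ i), if_pos rfl, sub_add_eq_sub_sub]
    refine congrArg _ (Finset.prod_congr rfl fun k hk => ?_)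
    rw [if_neg (Finset.ne_of_mem_erase hk), add_zero]
  refine smul_right_injective F hu' ?_
  change (u - μ i) • _ = (u - μ i) • _
  rw [h3] at h1
  rw [h4]
  linear_combination (norm := module) h1

end Toda

theorem todaS : TodaS :=
  ⟨fun _ _ _ _ p q μ f h u => Toda.all p q μ f h u, fun _ _ _ _ _ _ h μ f hf i =>
    Toda.shift h μ f hf i⟩

end SI

end Pool.Agent.Lib.MP_fa98d2_nt.D
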