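import Pool.Agent.Lib.MP_fa98d2_nt.I.Stmts

/-! Density theorem at the real place: integrals over the torus. -/

open MeasureTheory Filter Topology Matrix
open scoped ENNReal Real ContDiff ComplexConjugate InnerProductSpace

noncomputable section

namespace Pool.Agent.Lib.MP_fa98d2_nt.D

namespace SI

open SW

namespace Tor

variable {k : ℕ}

/-- sum of the squares of all derivatives of a given order -/
def Hm : ℕ → (G k → ℂ) → G k → ℝ≥0∞
  | 0, W, g => ‖W g‖ₑ ^ 2
  | m + 1, W, g => ∑ x : Fin k × Fin k, Hm m (Rd (em x.1 x.2) W) g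

lemma mix_real {ι : Type} [Fintype ι] [DecidableEq ι] (M : ι → ι → ℝ)
    (hM : ∀ j j', ∑ i, M i j * M i j' = if j = j' then 1 else 0) (x : ι → ℝ) :
    ∑ i, (∑ j, M i j * x j) * (∑ j, M i j * x j) = ∑ j, x j * x j := by
  have h1 : ∀ i, (∑ j, M i j * x j) * (∑ j, M i j * x j) =
      ∑ j, ∑ j', M i j * M i j' * (x j * x j') := fun i => by
    rw [Finset.sum_mul_sum]
    exact Finset.sum_congr rfl fun j _ => Finset.sum_congr rfl fun j' _ => by ring
  rw [Finset.sum_congr rfl fun i _ => h1 i, Finset.sum_comm]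
  refine Finset.sum_congr rfl fun j _ => ?_
  rw [Finset.sum_comm]
  have h2 : ∀ j', ∑ i, M i j * M i j' * (x j * x j') = if j = j' then x j * x j' else 0 :=
    fun j' => by
      rw [← Finset.sum_mul, hM]
      split_ifs <;> simp
  rw [Finset.sum_congr rfl fun j' _ => h2 j', Finset.sum_ite_eq]
  simp

lemma en_sq (z : ℂ) : ‖z‖ₑ ^ 2 = ENNReal.ofReal (z.re * z.re + z.im * z.im) := by
  rw [← ofReal_norm, ← ENNReal.ofReal_pow (norm_nonneg _), Complex.sq_norm,
    Complex.normSq_apply]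

lemma mix_cx {ι : Type} [Fintype ι] [DecidableEq ι] (M : ι → ι → ℝ)
    (hM : ∀ j j', ∑ i, M i j * M i j' = if j = j' then 1 else 0) (z : ι → ℂ) :
    ∑ i, ‖∑ j, (M i j : ℂ) * z j‖ₑ ^ 2 = ∑ j, ‖z j‖ₑ ^ 2 := by
  have hn : ∀ w : ℂ, 0 ≤ w.re * w.re + w.im * w.im := fun w =>
    add_nonneg (mul_self_nonneg _) (mul_self_nonneg _)
  simp only [en_sq]
  rw [← ENNReal.ofReal_sum_of_nonneg fun i _ => hn _, ← ENNReal.ofReal_sum_of_nonneg fun i _ => hn _,
    Finset.sum_add_distrib, Finset.sum_add_distrib, ← mix_real M hM fun j => (z j).re,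
    ← mix_real M hM fun j => (z j).im]
  simp only [Complex.re_sum, Complex.im_sum, Complex.re_ofReal_mul, Complex.im_ofReal_mul]

lemma mix {ι : Type} [Fintype ι] [DecidableEq ι] (M : ι → ι → ℝ)
    (hM : ∀ j j', ∑ i, M i j * M i j' = if j = j' then 1 else 0) (g : G k) :
    ∀ (m : ℕ) (W : ι → G k → ℂ), (∀ j, Sm (W j)) →
      ∑ i, Hm m (∑ j, (M i j : ℂ) • W j) g = ∑ j, Hm m (W j) g
  | 0, W, _ => by
    have := mix_cx M hM fun j => W j g
    simpa only [Hm, Finset.sum_apply, Pi.smul_apply, smul_eq_mul] using this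
  | m + 1, W, hW => by
    simp only [Hm]
    rw [Finset.sum_comm, Finset.sum_comm (s := Finset.univ) (t := Finset.univ)
      (f := fun j (x : Fin k × Fin k) => Hm m (Rd (em x.1 x.2) (W j)) g)]
    refine Finset.sum_congr rfl fun x _ => ?_
    rw [← mix M hM g m (fun j => Rd (em x.1 x.2) (W j)) fun j => hC.rd _ _ _ (hW j)]
    refine Finset.sum_congr rfl fun i _ => ?_
    rw [Calc.rd_sum _ fun j _ => hC.smul _ _ _ (hW j)]
    simp only [hC.rd_smul]

lemma conj_em (a : G k) (ha : IsO a) (x y : Fin k × Fin k) :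
    ((a⁻¹).val * em x.1 x.2 * a.val) y.1 y.2 = a.val x.1 y.1 * a.val x.2 y.2 := by
  rw [← Gelf.tr_of_isO ha, val_tr, em, Matrix.mul_assoc, Matrix.mul_apply,
    Finset.sum_eq_single x.1]
  · rw [Matrix.single_mul_apply_same, one_mul, Matrix.transpose_apply]
  · intro b _ hb
    rw [Matrix.single_mul_apply_of_ne _ _ _ _ _ hb, mul_zero]
  · intro h
    exact absurd (Finset.mem_univ _) h

lemma col_orth (a : G k) (ha : IsO a) (j j' : Fin k) :
    ∑ i, a.val i j * a.val i j' = if j = j' then 1 else 0 := by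
  have h : (tr a * a).val j j' = (1 : G k).val j j' := by rw [(Gelf.isO_iff a).1 ha]
  rw [Units.val_mul, val_tr, Units.val_one, Matrix.mul_apply, Matrix.one_apply] at h
  simpa only [Matrix.transpose_apply] using h

lemma pair_orth (a : G k) (ha : IsO a) (y y' : Fin k × Fin k) :
    ∑ x : Fin k × Fin k, (a.val x.1 y.1 * a.val x.2 y.2) * (a.val x.1 y'.1 * a.val x.2 y'.2) =
      if y = y' then 1 else 0 := by
  have h : ∑ x : Fin k × Fin k,
      (a.val x.1 y.1 * a.val x.2 y.2) * (a.val x.1 y'.1 * a.val x.2 y'.2) =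
      (∑ i, a.val i y.1 * a.val i y'.1) * ∑ i, a.val i y.2 * a.val i y'.2 := by
    rw [Finset.sum_mul_sum, Fintype.sum_prod_type]
    exact Finset.sum_congr rfl fun i _ => Finset.sum_congr rfl fun j _ => by ring
  rw [h, col_orth a ha, col_orth a ha]
  by_cases h1 : y.1 = y'.1 <;> by_cases h2 : y.2 = y'.2 <;> simp [h1, h2, Prod.ext_iff]

lemma Hm_rt (a : G k) (ha : IsO a) (g : G k) :
    ∀ (m : ℕ) (W : G k → ℂ), Sm W → Hm m (rt a W) g = Hm m W (g * a)
  | 0, _, _ => rfl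
  | m + 1, W, hW => by
    simp only [Hm]
    rw [← mix (fun x y : Fin k × Fin k => a.val x.1 y.1 * a.val x.2 y.2) (pair_orth a ha) (g * a) m
      (fun y => Rd (em y.1 y.2) W) fun y => hC.rd _ _ _ hW]
    refine Finset.sum_congr rfl fun x _ => ?_
    rw [hC.rd_rt, Hm_rt a ha g m _ (hC.rd _ _ _ hW), hC.rd_lin _ _ _ hW, Fintype.sum_prod_type]
    congr 1
    exact Finset.sum_congr rfl fun b _ => Finset.sum_congr rfl fun c _ => by
      rw [← conj_em a ha x (b, c)]

lemma Hm_meas : ∀ (m : ℕ) (W : G k → ℂ), Sm W → Measurable (Hm m W)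
  | 0, W, hW => (hC.cont _ _ hW).measurable.enorm.pow_const 2
  | m + 1, _, hW => Finset.measurable_sum _ fun _ _ => Hm_meas m _ (hC.rd _ _ _ hW)

lemma Hm_uinv {v : Fin k → ℝ} : ∀ (m : ℕ) (W : G (k + 1) → ℂ), Eqv v W → UInv (Hm m W)
  | 0, W, hW => fun u hu g => by
    simp only [Hm, ← ofReal_norm, CD.eqv_norm hW hu g]
  | m + 1, _, hW => fun u hu g =>
    Finset.sum_congr rfl fun _ _ => Hm_uinv m _ (CD.eqv_rd hW _) u hu g

lemma le_Hm (g : G k) (l : List (Fin k × Fin k)) :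
    ∀ W : G k → ℂ, ‖Rw l W g‖ₑ ^ 2 ≤ Hm l.length W g := by
  induction l using List.reverseRecOn with
  | nil => exact fun _ => le_rfl
  | append_singleton l x ih =>
    intro W
    rw [CD.Rw_append, List.length_append, List.length_singleton]
    exact (ih _).trans (Finset.single_le_sum
      (f := fun x : Fin k × Fin k => Hm l.length (Rd (em x.1 x.2) W) g)
      (fun _ _ => zero_le) (Finset.mem_univ x))

lemma II_Hm {w : G k → ℝ≥0∞} (hw : Measurable w) (Bd : ℝ≥0∞) :
    ∀ (m : ℕ) (W : G k → ℂ), Sm W →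
      (∀ l : List (Fin k × Fin k), l.length = m → II k (fun g => w g * ‖Rw l W g‖ₑ ^ 2) ≤ Bd) →
      II k (fun g => w g * Hm m W g) ≤ ((k * k : ℕ) : ℝ≥0∞) ^ m * Bd
  | 0, W, _, h => by
    rw [pow_zero, one_mul]
    exact h [] rfl
  | m + 1, W, hW, h => by
    have h1 : II k (fun g => w g * Hm (m + 1) W g) =
        ∑ x : Fin k × Fin k, II k (fun g => w g * Hm m (Rd (em x.1 x.2) W) g) := by
      simp only [II, Hm, Finset.mul_sum]
      exact lintegral_finsetSum _ fun x _ =>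
        (hw.mul (Hm_meas m _ (hC.rd _ _ _ hW))).comp (measurable_sg k)
    have h2 : ∀ x : Fin k × Fin k, II k (fun g => w g * Hm m (Rd (em x.1 x.2) W) g) ≤
        ((k * k : ℕ) : ℝ≥0∞) ^ m * Bd := fun x =>
      II_Hm hw Bd m _ (hC.rd _ _ _ hW) fun l hl => by
        rw [← CD.Rw_append]
        exact h _ (by rw [List.length_append, hl, List.length_singleton])
    rw [h1]
    refine (Finset.sum_le_sum fun x _ => h2 x).trans (le_of_eq ?_)
    rw [Finset.sum_const, Finset.card_univ, Fintype.card_prod, Fintype.card_fin, nsmul_eq_mul,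
      pow_succ]
    ring

lemma W1_eqv {N : ℕ} {F : G (N + 1) → ℂ} (hF : Aut F) : Eqv (zv fun _ => 1) (W1 F) :=
  hW.eqv N _ F hF.cont fun γ _ g => hF.zinv γ g

lemma W1_rt {N : ℕ} {F : G (N + 1) → ℂ} (hO : OInv F) {a : G (N + 1)} (ha : IsO a) :
    rt a (W1 F) = W1 F := by
  have h : rt a F = F := funext fun g => hO a ha g
  rw [W1, ← Wf_rt, h]

end Tor

open Tor

theorem torS (hIw : IwaS) (hTw : TwS) : TorS := by
  refine ⟨fun N m => ?_, fun N => ?_⟩
  · obtain ⟨c, hc0, hct, hc⟩ := hIw (N + 1)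
    refine ⟨c⁻¹ * (((N + 1) * (N + 1) : ℕ) : ℝ≥0∞) ^ m,
      ENNReal.mul_ne_top (ENNReal.inv_ne_top.2 hc0) (ENNReal.pow_ne_top (ENNReal.natCast_ne_top _)),
      fun F hs hA hO w hw hu ho Bd hB l hl => ?_⟩
    have hsW : Sm (W1 F) := (hW.sm N _ F hs).1
    have hR : ∀ l : Wd N, Rw l (W1 F) = W1 (Rw l F) := fun l => (CD.Rw_Wf hC hW _ hs l).2
    have h1 := II_Hm hw Bd m (W1 F) hsW fun l hl => by rw [hR]; exact hB l hl
    have h2 := hc (fun g => w g * Hm m (W1 F) g) (hw.mul (Hm_meas m _ hsW))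
      (fun u hu' g => by
        change w (u * g) * Hm m (W1 F) (u * g) = w g * Hm m (W1 F) g
        rw [hu u hu', Hm_uinv m _ (W1_eqv hA) u hu'])
      (fun a ha g => by
        change w (g * a) * Hm m (W1 F) (g * a) = w g * Hm m (W1 F) g
        rw [ho a ha, ← Hm_rt a ha g m _ hsW, W1_rt hO ha])
    have h3 : ∫⁻ x : RR N, w (ex x) * ‖tW (W1 (Rw l F)) x‖ₑ ^ 2 ≤
        ∫⁻ x : Fin (N + 1) → ℝ, ENNReal.ofReal (dl fun i => Real.exp (x i))⁻¹ *
          (w (ex x) * Hm m (W1 F) (ex x)) := by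
      refine lintegral_mono fun x => ?_
      rw [hTw.nrm, ← hR, mul_left_comm, ← hl]
      exact mul_le_mul_right (mul_le_mul_right (le_Hm _ l _) _) _
    refine h3.trans ?_
    rw [h2] at h1
    rw [mul_assoc]
    exact (ENNReal.mul_le_iff_le_inv hc0 hct).1 h1
  · obtain ⟨c, -, hct, hc⟩ := hIw (N + 1)
    refine ⟨c, hct, fun F hA hO w hw hu ho => le_of_eq ?_⟩
    have hcW : Continuous (W1 F) := hW.cont N _ F hA.cont
    rw [hc (fun g => w g * ‖W1 F g‖ₑ ^ 2) (hw.mul (hcW.measurable.enorm.pow_const 2))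
      (fun u hu' g => by
        change w (u * g) * Hm 0 (W1 F) (u * g) = w g * Hm 0 (W1 F) g
        rw [hu u hu', Hm_uinv 0 _ (W1_eqv hA) u hu'])
      (fun a ha g => by
        change w (g * a) * ‖rt a (W1 F) g‖ₑ ^ 2 = w g * ‖W1 F g‖ₑ ^ 2
        rw [ho a ha, W1_rt hO ha])]
    congr 1
    refine lintegral_congr fun x => ?_
    rw [hTw.nrm, mul_left_comm]

end SI

end Pool.Agent.Lib.MP_fa98d2_nt.D
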