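import Pool.Agent.Lib.MP_fa98d2_nt.I.Stmts

/-! Density theorem at the real place: restriction to the torus. -/

open MeasureTheory Filter Topology Matrix
open scoped ENNReal Real ContDiff ComplexConjugate InnerProductSpace

noncomputable section

namespace Pool.Agent.Lib.MP_fa98d2_nt.D

namespace SI

open SW

namespace Tw

variable {k N : ℕ}

lemma val_ex (x : Fin k → ℝ) : (ex x).val = Matrix.diagonal fun i => Real.exp (x i) :=
  val_dg fun i => (Real.exp_pos _).ne'

lemma val_ex_inv (x : Fin k → ℝ) : ((ex x)⁻¹).val = Matrix.diagonal fun i => (Real.exp (x i))⁻¹ := by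
  rw [ex, dg_inv fun i => (Real.exp_pos _).ne']
  exact val_dg fun _ => inv_ne_zero (Real.exp_pos _).ne'

lemma sm_ex {W : G k → ℂ} (hs : Sm W) : ContDiff ℝ ∞ fun x : Fin k → ℝ => W (ex x) := by
  have h1 : ContDiff ℝ ∞ fun x : Fin k → ℝ =>
      (fun i j => Matrix.diagonal (fun i => Real.exp (x i)) i j : E k) := by
    refine contDiff_pi.2 fun i => contDiff_pi.2 fun j => ?_
    by_cases h : i = j
    · subst h
      simp only [Matrix.diagonal_apply_eq]
      exact Real.contDiff_exp.comp (contDiff_apply ℝ ℝ i)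
    · simp only [Matrix.diagonal_apply_ne _ h]
      exact contDiff_const
  have h2 := hs.comp_contDiff h1 fun x => by
    change (Matrix.diagonal fun i => Real.exp (x i)).det ≠ 0
    rw [Matrix.det_diagonal]
    exact Finset.prod_ne_zero_iff.2 fun i _ => (Real.exp_pos _).ne'
  exact h2

lemma sm_pre : ContDiff ℝ ∞ fun x : RR N => ((Real.exp (-∑ i, rho N i * x i) : ℝ) : ℂ) := by
  refine Complex.ofRealCLM.contDiff.comp (Real.contDiff_exp.comp (ContDiff.neg ?_))
  exact ContDiff.sum fun i _ => contDiff_const.mul (contDiff_apply ℝ ℝ i)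

lemma sm (W : G (N + 1) → ℂ) (hs : Sm W) : ContDiff ℝ ∞ (tW W) := sm_pre.mul (sm_ex hs)

lemma line {f : RR N → ℂ} (hf : ContDiff ℝ ∞ f) (b : Fin (N + 1)) (x : RR N) :
    HasDerivAt (fun t : ℝ => f (x + t • (Pi.single b 1 : RR N))) (pd b f x) 0 := by
  have h1 : HasDerivAt (fun t : ℝ => x + t • (Pi.single b 1 : RR N)) (Pi.single b 1) 0 := by
    simpa using ((hasDerivAt_id (0 : ℝ)).smul_const (Pi.single b 1 : RR N)).const_add x
  have h2 : HasFDerivAt f (fderiv ℝ f x) (x + (0 : ℝ) • (Pi.single b 1 : RR N)) := by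
    rw [zero_smul, add_zero]
    exact (hf.differentiable (by simp) x).hasFDerivAt
  exact h2.comp_hasDerivAt 0 h1

lemma der_ex {W : G (N + 1) → ℂ} (hs : Sm W) (b : Fin (N + 1)) (x : RR N) :
    HasDerivAt (fun t : ℝ => W (ex (x + t • (Pi.single b 1 : RR N)))) (Rd (em b b) W (ex x)) 0 := by
  have h1 : HasDerivAt (fun t : ℝ => co (ex (x + t • (Pi.single b 1 : RR N))))
      (fun i j => if i = b ∧ j = b then Real.exp (x b) else 0) 0 := by
    refine hasDerivAt_pi.2 fun i => hasDerivAt_pi.2 fun j => ?_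
    simp only [co, val_ex]
    by_cases h : i = j
    · subst h
      simp only [Matrix.diagonal_apply_eq, and_self]
      by_cases hb : i = b
      · subst hb
        simp only [Pi.add_apply, Pi.smul_apply, Pi.single_eq_same, smul_eq_mul, mul_one, if_true]
        simpa using ((hasDerivAt_id (0 : ℝ)).const_add (x i)).exp
      · simp only [Pi.add_apply, Pi.smul_apply, Pi.single_eq_of_ne hb, smul_zero, add_zero,
          if_neg hb]
        exact hasDerivAt_const _ _
    · simp only [Matrix.diagonal_apply_ne _ h]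
      rw [if_neg fun h' : i = b ∧ j = b => h (h'.1.trans h'.2.symm)]
      exact hasDerivAt_const _ _
  have h2 := hC.curve _ W hs (fun t : ℝ => ex (x + t • (Pi.single b 1 : RR N))) _ 0 h1
  simp only [zero_smul, add_zero] at h2
  have h3 : ((ex x)⁻¹).val * Matrix.of (fun i j => if i = b ∧ j = b then Real.exp (x b) else 0) =
      em b b := by
    ext i j
    rw [val_ex_inv, Matrix.diagonal_mul, Matrix.of_apply, em, Matrix.single_apply]
    by_cases h : i = b ∧ j = b
    · obtain ⟨rfl, rfl⟩ := h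
      simp
    · rw [if_neg h, if_neg fun h' : b = i ∧ b = j => h ⟨h'.1.symm, h'.2.symm⟩, mul_zero]
  rwa [h3] at h2

lemma diag (W : G (N + 1) → ℂ) (hs : Sm W) (b : Fin (N + 1)) (x : RR N) :
    tW (Rd (em b b) W) x = pd b (tW W) x + (rho N b : ℂ) * tW W x := by
  have h1 : HasDerivAt (fun t : ℝ => -∑ i, rho N i * (x + t • (Pi.single b 1 : RR N)) i)
      (-rho N b) 0 := by
    have e : (fun t : ℝ => -∑ i, rho N i * (x + t • (Pi.single b 1 : RR N)) i) =
        fun t : ℝ => -∑ i, rho N i * x i + t * (-rho N b) := by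
      funext t
      simp only [Pi.add_apply, Pi.smul_apply, smul_eq_mul, mul_add, Finset.sum_add_distrib]
      rw [Finset.sum_eq_single b (f := fun i => rho N i * (t * (Pi.single b 1 : RR N) i))]
      · simp only [Pi.single_eq_same]; ring
      · intro i _ hi; simp [Pi.single_eq_of_ne hi]
      · intro h; exact (h (Finset.mem_univ _)).elim
    rw [e]
    simpa using ((hasDerivAt_id (0 : ℝ)).mul_const (-rho N b)).const_add (-∑ i, rho N i * x i)
  have h2 := (h1.exp.ofReal_comp).mul (der_ex hs b x)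
  have h3 := (line (sm W hs) b x).unique h2
  simp only [zero_smul, add_zero] at h3
  rw [h3, tW, tW]
  push_cast
  ring

lemma off (W : G (N + 1) → ℂ) (hs : Sm W) (he : Eqv (fun _ => 1) W) (i j : Fin (N + 1))
    (hij : i < j) (x : RR N) : tW (Rd (em i j) W) x = (if j.val = i.val + 1 then
      2 * π * Complex.I * ((Real.exp (x i - x j) : ℝ) : ℂ) else 0) * tW W x := by
  have h1 := hW.ldU N _ W he i j hij (ex x)
  have h2 : ((ex x)⁻¹).val * em i j * (ex x).val = Real.exp (x j - x i) • em i j := by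
    ext a c
    rw [val_ex_inv, val_ex, Matrix.mul_diagonal, Matrix.diagonal_mul, Matrix.smul_apply, em,
      Matrix.single_apply]
    split_ifs with h
    · obtain ⟨rfl, rfl⟩ := h
      rw [Real.exp_sub, smul_eq_mul]; ring
    · simp
  have h3 : Rd (Real.exp (x j - x i) • em i j) W (ex x) =
      ((Real.exp (x j - x i) : ℝ) : ℂ) * Rd (em i j) W (ex x) := by
    rw [hC.rd_lin _ _ W hs]
    simp only [Finset.sum_apply, Pi.smul_apply, smul_eq_mul]
    rw [Finset.sum_eq_single i, Finset.sum_eq_single j]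
    · simp [em]
    · intro c _ hc
      simp [em, hc.symm]
    · intro h; exact (h (Finset.mem_univ _)).elim
    · intro a _ ha
      exact Finset.sum_eq_zero fun c _ => by simp [em, ha.symm]
    · intro h; exact (h (Finset.mem_univ _)).elim
  rw [hC.ld_rd, h2, h3] at h1
  have h4 : (∑ l : Fin N, if i = l.castSucc ∧ j = l.succ then
      2 * π * Complex.I * (((fun _ => 1 : Fin N → ℝ) l : ℝ) : ℂ) else 0) =
      if j.val = i.val + 1 then 2 * π * Complex.I else 0 := by
    split_ifs with h
    · have hi : i.val < N := by have := j.2; omega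
      rw [Finset.sum_eq_single ⟨i.val, hi⟩]
      · rw [if_pos ⟨Fin.ext rfl, Fin.ext h⟩]; simp
      · intro l _ hl
        rw [if_neg]
        rintro ⟨h5, -⟩
        exact hl (Fin.ext (congrArg Fin.val h5).symm)
      · intro h; exact (h (Finset.mem_univ _)).elim
    · refine Finset.sum_eq_zero fun l _ => if_neg ?_
      rintro ⟨rfl, rfl⟩
      exact h rfl
  rw [h4] at h1
  have h5 : ((Real.exp (x i - x j) : ℝ) : ℂ) * ((Real.exp (x j - x i) : ℝ) : ℂ) = 1 := by
    rw [← Complex.ofReal_mul, ← Real.exp_add]; simp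
  have h6 : Rd (em i j) W (ex x) = ((Real.exp (x i - x j) : ℝ) : ℂ) *
      ((if j.val = i.val + 1 then 2 * π * Complex.I else 0) * W (ex x)) := by
    rw [← h1, ← mul_assoc, h5, one_mul]
  rw [tW, tW, h6]
  split_ifs <;> ring

lemma sum_rho : ∑ i, rho N i = 0 := by
  have h : ∑ i : Fin (N + 1), (i.val : ℝ) * 2 = (N + 1) * N := by
    rw [Fin.sum_univ_eq_sum_range (fun i => (i : ℝ) * 2), ← Finset.sum_mul]
    have h0 := congrArg (Nat.cast : ℕ → ℝ) (Finset.sum_range_id_mul_two (N + 1))
    rw [Nat.add_sub_cancel] at h0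
    push_cast at h0
    exact h0
  have e : ∀ i : Fin (N + 1), rho N i = (N : ℝ) / 2 - (i.val : ℝ) * 2 / 2 := fun i => by
    rw [rho]; ring
  simp only [e, Finset.sum_sub_distrib, ← Finset.sum_div, h, Finset.sum_const, Finset.card_univ,
    Fintype.card_fin, nsmul_eq_mul]
  push_cast
  ring

lemma cen (W : G (N + 1) → ℂ) (hs : SInv W) (t : ℝ) (x : RR N) :
    tW W (fun i => x i + t) = tW W x := by
  have h1 : ex (fun i => x i + t) = sc (Real.exp t) * ex x := by
    rw [ex, ex, sc, dg_mul (fun _ => (Real.exp_pos _).ne') fun _ => (Real.exp_pos _).ne']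
    congr 1
    funext i
    rw [Real.exp_add, mul_comm]
  have h2 : ∑ i, rho N i * (x i + t) = ∑ i, rho N i * x i := by
    simp only [mul_add, Finset.sum_add_distrib, ← Finset.sum_mul, sum_rho, zero_mul, add_zero]
  rw [tW, tW, h1, hs _ (Real.exp_pos _).ne', h2]

lemma sum_pairs (x : RR N) : ∑ i, ∑ j ∈ Finset.Ioi i, (x i - x j) = 2 * ∑ i, rho N i * x i := by
  have h1 : ∑ i, ∑ j ∈ Finset.Ioi i, x j = ∑ j : Fin (N + 1), (j.val : ℝ) * x j := by
    rw [Finset.sum_comm' (t' := Finset.univ) (s' := fun j => Finset.Iio j) (by simp)]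
    refine Finset.sum_congr rfl fun j _ => ?_
    rw [Finset.sum_const, Fin.card_Iio, nsmul_eq_mul]
  simp only [Finset.sum_sub_distrib, h1, Finset.sum_const, Fin.card_Ioi, nsmul_eq_mul,
    Finset.mul_sum]
  rw [← Finset.sum_sub_distrib]
  refine Finset.sum_congr rfl fun i _ => ?_
  have hi : i.val ≤ N := Nat.lt_succ_iff.1 i.2
  rw [Nat.add_sub_cancel, Nat.cast_sub hi, rho]
  ring

lemma dl_ex (x : RR N) : (dl fun i => Real.exp (x i)) = Real.exp (2 * ∑ i, rho N i * x i) := by
  rw [← sum_pairs, Real.exp_sum, dl]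
  refine Finset.prod_congr rfl fun i _ => ?_
  rw [Real.exp_sum]
  exact Finset.prod_congr rfl fun j _ => (Real.exp_sub _ _).symm

lemma nrm (W : G (N + 1) → ℂ) (x : RR N) :
    ‖tW W x‖ₑ ^ 2 = ENNReal.ofReal (dl fun i => Real.exp (x i))⁻¹ * ‖W (ex x)‖ₑ ^ 2 := by
  rw [tW, enorm_mul, mul_pow, dl_ex, ← ofReal_norm, Complex.norm_real,
    Real.norm_of_nonneg (Real.exp_pos _).le, ← ENNReal.ofReal_pow (Real.exp_pos _).le,
    ← Real.exp_neg, ← Real.exp_nat_mul]
  congr 3
  push_cast
  ring

end Tw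

theorem twS : TwS where
  sm _ := Tw.sm
  diag _ := Tw.diag
  off _ := Tw.off
  cen _ := Tw.cen
  nrm _ := Tw.nrm
  det N x := by
    rw [ex, dt_dg fun _ => (Real.exp_pos _).ne', sX, Real.exp_sum,
      abs_of_pos (Finset.prod_pos fun _ _ => Real.exp_pos _)]
  row N x := by
    funext j
    rw [lr, Tw.val_ex, Matrix.diagonal_apply, Pi.single_apply]
    by_cases h : j = Fin.last N
    · simp [h]
    · rw [if_neg h, if_neg (Ne.symm h)]

end SI

end Pool.Agent.Lib.MP_fa98d2_nt.D
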