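import Pool.Agent.Lib.MP_fa98d2_nt.I.PP
import Pool.Agent.Lib.MP_fa98d2_nt.I.Alg
import Pool.Agent.Lib.MP_fa98d2_nt.I.Sph
import Pool.Agent.Lib.MP_fa98d2_nt.I.Toda
import Pool.Agent.Lib.MP_fa98d2_nt.I.Grn
import Pool.Agent.Lib.MP_fa98d2_nt.I.Res
import Pool.Agent.Lib.MP_fa98d2_nt.I.ClsA
import Pool.Agent.Lib.MP_fa98d2_nt.I.ClsB
import Pool.Agent.Lib.MP_fa98d2_nt.I.Pos
import Pool.Agent.Lib.MP_fa98d2_nt.I.Gen
import Pool.Agent.Lib.MP_fa98d2_nt.I.One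
import Pool.Agent.Lib.MP_fa98d2_nt.I.Geo
import Pool.Agent.Lib.MP_fa98d2_nt.I.Loc
import Pool.Agent.Lib.MP_fa98d2_nt.I.Sob
import Pool.Agent.Lib.MP_fa98d2_nt.I.Tw
import Pool.Agent.Lib.MP_fa98d2_nt.I.Link
import Pool.Agent.Lib.MP_fa98d2_nt.I.Ia
import Pool.Agent.Lib.MP_fa98d2_nt.I.Iwa
import Pool.Agent.Lib.MP_fa98d2_nt.I.Tor
import Pool.Agent.Lib.MP_fa98d2_nt.I.Mom
import Pool.Agent.Lib.MP_fa98d2_nt.I.Tail
import Pool.Agent.Lib.MP_fa98d2_nt.I.Rs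
import Pool.Agent.Lib.MP_fa98d2_nt.I.Bes
import Pool.Agent.Lib.MP_fa98d2_nt.I.Pw
import Pool.Agent.Lib.MP_fa98d2_nt.I.Main
import Pool.Agent.Lib.MP_fa98d2_nt.I.Fin

/-! Density theorem at the real place: assembly. -/

namespace Pool.Agent.Lib.MP_fa98d2_nt.D

namespace SI

theorem torAll : TorS := torS (iwaS iaS) twS

theorem momAll : MomS := momS twS torAll

theorem finAll : FinS :=
  finI ppS sphS (mainI algS sphS clsAS clsBS geoS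
    (locS todaS (posS todaS (grnS todaS) resS) (oneS genS) geoS) twS (linkS algS twS) momAll
    (tailS sphS twS momAll geoS) (rsS twS torAll) (pwS twS torAll (besS iaS) sobS))

end SI

end Pool.Agent.Lib.MP_fa98d2_nt.D
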