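import Pool.Agent.Lib.MP_fa98d2_nt.D.Defs

/- The distance from temperedness at the real place. -/

noncomputable section

namespace Pool.Agent.Lib.MP_fa98d2_nt.D

/-- `θ_∞ = max_i |Re μ_i|` -/
def thetaInf {n : ℕ} (μ : Fin n → ℂ) : ℝ := ⨆ i, |(μ i).re|

end Pool.Agent.Lib.MP_fa98d2_nt.D
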