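import Pool.Agent.Lib.MP_fa98d2_nt.I.Stmts

/-! Density theorem at the real place: the one-dimensional estimates. -/

open MeasureTheory Filter Topology Matrix
open scoped ENNReal Real ContDiff ComplexConjugate InnerProductSpace

noncomputable section

namespace Pool.Agent.Lib.MP_fa98d2_nt.D

namespace SI

open SW

namespace OneL

variable {N : ℕ}

theorem abs_le_theta (μ : Fin (N + 1) → ℂ) (k : Fin (N + 1)) : |(μ k).re| ≤ thetaInf μ :=
  le_ciSup (f := fun i => |(μ i).re|) (Set.finite_range _).bddAbove k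

theorem theta_nonneg (μ : Fin (N + 1) → ℂ) : 0 ≤ thetaInf μ :=
  (abs_nonneg _).trans (abs_le_theta μ 0)

theorem zs_prod {M : Type} [CommMonoid M] (μ μ' : Fin (N + 1) → ℂ) (i : Fin (N + 1))
    (g : ℂ → M) : ((zs μ μ' i).map g).prod =
      ∏ k, (g (μ i + μ' k + if k = i then 2 else 0) * g (μ' i + μ k)) := by
  rw [zs, List.map_append, List.prod_append, List.map_ofFn, List.map_ofFn, List.prod_ofFn,
    List.prod_ofFn, Finset.prod_mul_distrib]
  rfl

theorem zs_len (μ μ' : Fin (N + 1) → ℂ) (i : Fin (N + 1)) : (zs μ μ' i).length = 2 * (N + 1) := by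
  simp [zs]; ring

theorem zs_re {μ : Fin (N + 1) → ℂ} {i : Fin (N + 1)} (hi : (μ i).re = -thetaInf μ) :
    ∀ c ∈ zs μ (fun k => conj (μ k)) i, -(2 * thetaInf μ) ≤ c.re := by
  intro c hc
  simp only [zs, List.mem_append, List.mem_ofFn] at hc
  rcases hc with ⟨k, rfl⟩ | ⟨k, rfl⟩
  · have := (abs_le.1 (abs_le_theta μ k)).1
    split_ifs <;> simp [hi] <;> linarith
  · have := (abs_le.1 (abs_le_theta μ k)).1
    simp [hi]; linarith

theorem zs_zero {μ : Fin (N + 1) → ℂ} {i : Fin (N + 1)} (hi : (μ i).re = -thetaInf μ) :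
    ((zs μ (fun k => conj (μ k)) i).map fun c => ((2 * thetaInf μ : ℝ) : ℂ) + c).prod = 0 := by
  rw [zs_prod]
  refine Finset.prod_eq_zero (Finset.mem_univ i) (mul_eq_zero_of_right _ ?_)
  apply Complex.ext <;> simp [hi]
  ring

theorem zs_real {μ : Fin (N + 1) → ℂ} {i : Fin (N + 1)} (hi : (μ i).re = -thetaInf μ) {s : ℝ}
    (hs : 2 * thetaInf μ ≤ s) :
    ((zs μ (fun k => conj (μ k)) i).map fun c => (s : ℂ) + c).prod =
      ((((zs μ (fun k => conj (μ k)) i).map fun c => ‖(s : ℂ) + c‖).prod : ℝ) : ℂ) := by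
  rw [zs_prod, zs_prod, Complex.ofReal_prod]
  refine Finset.prod_congr rfl fun k _ => ?_
  by_cases hk : k = i
  · subst hk
    have e1 : (s : ℂ) + (μ k + conj (μ k) + if k = k then 2 else 0) =
        ((s - 2 * thetaInf μ + 2 : ℝ) : ℂ) := by
      apply Complex.ext <;> simp [hi]
      ring
    have e2 : (s : ℂ) + (conj (μ k) + μ k) = ((s - 2 * thetaInf μ : ℝ) : ℂ) := by
      apply Complex.ext <;> simp [hi]
      ring
    rw [e1, e2, Complex.norm_real, Complex.norm_real, Real.norm_of_nonneg (by linarith),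
      Real.norm_of_nonneg (by linarith), Complex.ofReal_mul]
  · rw [if_neg hk, add_zero]
    have e2 : (s : ℂ) + (conj (μ i) + μ k) = conj ((s : ℂ) + (μ i + conj (μ k))) := by simp
    rw [e2, Complex.norm_conj, Complex.mul_conj, Complex.normSq_eq_norm_sq, sq]

theorem ell_le {η s s0 : ℝ} (hη : 0 < η) (hs : |s - s0| ≤ 2) :
    ∀ z : List ℂ, (∀ c ∈ z, η ≤ ‖(s0 : ℂ) + c‖) →
      0 < (z.map fun c => ‖(s0 : ℂ) + c‖).prod ∧ 0 ≤ ell z s ∧
      ell z s ≤ (1 + 3 / η) ^ z.length * (z.map fun c => ‖(s0 : ℂ) + c‖).prod := by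
  intro z
  induction z with
  | nil => intro _; simp [ell]
  | cons c z ih =>
    intro h
    obtain ⟨h1, h2, h3⟩ := ih fun d hd => h d (List.mem_cons_of_mem _ hd)
    have hc := h c List.mem_cons_self
    have e : ell (c :: z) s = (1 + ‖(s : ℂ) + c‖) * ell z s := by simp [ell]
    have h4 : ‖(s : ℂ) + c‖ ≤ 2 + ‖(s0 : ℂ) + c‖ := by
      have : (s : ℂ) + c = ((s - s0 : ℝ) : ℂ) + ((s0 : ℂ) + c) := by push_cast; ring
      rw [this]
      refine (norm_add_le _ _).trans ?_
      rw [Complex.norm_real, Real.norm_eq_abs]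
      linarith
    have h5 : 3 ≤ 3 / η * ‖(s0 : ℂ) + c‖ := by
      rw [div_mul_eq_mul_div, le_div_iff₀ hη]; linarith
    have h6 : 1 + ‖(s : ℂ) + c‖ ≤ (1 + 3 / η) * ‖(s0 : ℂ) + c‖ := by linarith
    rw [e, List.map_cons, List.prod_cons, List.length_cons, pow_succ]
    refine ⟨mul_pos (lt_of_lt_of_le hη hc) h1, by positivity, ?_⟩
    calc _ ≤ ((1 + 3 / η) * ‖(s0 : ℂ) + c‖) *
          ((1 + 3 / η) ^ z.length * (z.map fun c => ‖(s0 : ℂ) + c‖).prod) :=
          mul_le_mul h6 h3 h2 (by positivity)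
      _ = _ := by ring

/-- the comparison after division by the value of the symbol -/
theorem core (hGe : GenS) (N : ℕ) {η : ℝ} (hη : 0 < η) : ∃ τ Λ : ℝ, 0 < τ ∧ 0 < Λ ∧
    ∀ (Ω : Type) [MeasurableSpace Ω] (m : Measure Ω) (Xf : Ω → ℝ), Measurable Xf →
    ∀ (μ : Fin (N + 1) → ℂ) (i : Fin (N + 1)), (μ i).re = -thetaInf μ →
    Pos m Xf (zs μ (fun k => conj (μ k)) i) → ∀ s0 X0 X1 : ℝ, 2 * thetaInf μ + η ≤ s0 →
    s0 ≤ 2 * thetaInf μ + 2 → X0 + 1 ≤ X1 → Integrable (fun o => Real.exp (s0 * Xf o)) m →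
    ∫ o in {o | Xf o ≤ X0 + 1}, Real.exp (s0 * Xf o) ∂m ≤ τ * ∫ o, Real.exp (s0 * Xf o) ∂m →
    ∫ o in {o | X1 ≤ Xf o}, Real.exp (s0 * Xf o) ∂m ≤ τ * ∫ o, Real.exp (s0 * Xf o) ∂m →
    Real.exp ((2 * thetaInf μ - s0) * (X1 + 1)) * ∫ o, Real.exp (s0 * Xf o) ∂m ≤
      Λ * (Real.exp (2 * thetaInf μ * X0) * m.real {o | X0 - 1 ≤ Xf o ∧ Xf o ≤ X0}) := by
  obtain ⟨H, hH, hG⟩ := hGe (2 * (N + 1))
  set Γ : ℝ := (1 + 3 / η) ^ (2 * (N + 1)) with hΓ
  have hΓ0 : 0 < Γ := by positivity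
  refine ⟨1 / (2 * (2 + 5 * (H * Γ))), 2 * (H * Γ), by positivity, by positivity, ?_⟩
  intro Ω _ m Xf hX μ i hi hP s0 X0 X1 h1 h2 h3 hI hlo hhi
  have hθ := theta_nonneg μ
  have key := hG Ω m Xf hX _ (zs_len _ _ _) hP (2 * thetaInf μ) s0 X0 X1 (by linarith)
    (by linarith) h3 (zs_zero hi) hI
  have hn : ∀ c ∈ zs μ (fun k => conj (μ k)) i, η ≤ ‖(s0 : ℂ) + c‖ := by
    intro c hc
    have a1 := zs_re hi c hc
    have a2 := Complex.re_le_norm ((s0 : ℂ) + c)
    simp only [Complex.add_re, Complex.ofReal_re] at a2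
    linarith
  obtain ⟨p0, -, l0⟩ := ell_le (s := s0) (s0 := s0) hη (by simp) _ hn
  obtain ⟨-, -, l1⟩ := ell_le (s := 2 * thetaInf μ) (s0 := s0) hη
    (abs_le.2 ⟨by linarith, by linarith⟩) _ hn
  rw [zs_len, ← hΓ] at l0 l1
  rw [zs_real hi (by linarith), Complex.ofReal_re, Complex.norm_real,
    Real.norm_of_nonneg p0.le] at key
  set Pn := ((zs μ (fun k => conj (μ k)) i).map fun c => ‖(s0 : ℂ) + c‖).prod
  set lam := Real.exp ((2 * thetaInf μ - s0) * (X1 + 1))
  set K := ∫ o, Real.exp (s0 * Xf o) ∂m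
  set Kl := ∫ o in {o | Xf o ≤ X0 + 1}, Real.exp (s0 * Xf o) ∂m
  set Kh := ∫ o in {o | X1 ≤ Xf o}, Real.exp (s0 * Xf o) ∂m
  set A := Real.exp (2 * thetaInf μ * X0) * m.real {o | X0 - 1 ≤ Xf o ∧ Xf o ≤ X0}
  have hlam : 0 < lam := Real.exp_pos _
  have hKl : 0 ≤ Kl := integral_nonneg fun _ => (Real.exp_pos _).le
  have hKh : 0 ≤ Kh := integral_nonneg fun _ => (Real.exp_pos _).le
  have hA : 0 ≤ A := mul_nonneg (Real.exp_pos _).le measureReal_nonneg
  set τ : ℝ := 1 / (2 * (2 + 5 * (H * Γ))) with hτ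
  have hτ1 : (2 + 5 * (H * Γ)) * τ = 1 / 2 := by rw [hτ]; field_simp
  set w : ℝ := H * Γ with hw
  have hw0 : 0 < w := by positivity
  have b0 : H * ell (zs μ (fun k => conj (μ k)) i) s0 ≤ w * Pn := by
    rw [hw, mul_assoc]; exact mul_le_mul_of_nonneg_left l0 hH.le
  have b1 : H * ell (zs μ (fun k => conj (μ k)) i) (2 * thetaInf μ) ≤ w * Pn := by
    rw [hw, mul_assoc]; exact mul_le_mul_of_nonneg_left l1 hH.le
  have c1 : lam * (Pn * K - (Pn + 2 * (w * Pn)) * (Kl + Kh)) ≤ w * Pn * (A + lam * Kh) := by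
    refine le_trans (mul_le_mul_of_nonneg_left ?_ hlam.le)
      (key.trans (mul_le_mul_of_nonneg_right b1 (by positivity)))
    have : (Pn + 2 * H * ell (zs μ (fun k => conj (μ k)) i) s0) * (Kl + Kh) ≤
        (Pn + 2 * (w * Pn)) * (Kl + Kh) :=
      mul_le_mul_of_nonneg_right (by linarith) (by positivity)
    linarith
  have c2 : lam * (K - (1 + 2 * w) * (Kl + Kh)) ≤ w * (A + lam * Kh) := by
    refine le_of_mul_le_mul_left ?_ p0
    calc _ = lam * (Pn * K - (Pn + 2 * (w * Pn)) * (Kl + Kh)) := by ring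
      _ ≤ _ := c1
      _ = _ := by ring
  have c3 : (1 + 2 * w) * (Kl + Kh) + w * Kh ≤ K / 2 := by
    have d1 : (1 + 2 * w) * (Kl + Kh) ≤ (1 + 2 * w) * (τ * K + τ * K) :=
      mul_le_mul_of_nonneg_left (add_le_add hlo hhi) (by positivity)
    have d2 : w * Kh ≤ w * (τ * K) := mul_le_mul_of_nonneg_left hhi hw0.le
    calc _ ≤ (1 + 2 * w) * (τ * K + τ * K) + w * (τ * K) := add_le_add d1 d2
      _ = (2 + 5 * w) * τ * K := by ring
      _ = K / 2 := by rw [hτ1]; ring
  have c4 := mul_le_mul_of_nonneg_left c3 hlam.le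
  nlinarith

theorem integ {Ω : Type} [MeasurableSpace Ω] {m : Measure Ω} {Xf : Ω → ℝ} (hX : Measurable Xf)
    {s : ℝ} (h : ∫⁻ o, ENNReal.ofReal (Real.exp (s * Xf o)) ∂m ≠ ⊤) :
    Integrable (fun o => Real.exp (s * Xf o)) m :=
  (lintegral_ofReal_ne_top_iff_integrable (by fun_prop)
    (Eventually.of_forall fun _ => (Real.exp_pos _).le)).1 h

/-- a set integral against a full integral -/
theorem set_le {Ω : Type} [MeasurableSpace Ω] {m : Measure Ω} {f g : Ω → ℝ} {S : Set Ω}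
    (hS : MeasurableSet S) (hf : Integrable f m) (hg : Integrable g m) (h0 : ∀ o, 0 ≤ g o)
    (h : ∀ o ∈ S, f o ≤ g o) : ∫ o in S, f o ∂m ≤ ∫ o, g o ∂m :=
  (setIntegral_mono_on hf.integrableOn hg.integrableOn hS h).trans
    (setIntegral_le_integral hg (Eventually.of_forall h0))

theorem real_le {Ω : Type} [MeasurableSpace Ω] {m : Measure Ω} {g : Ω → ℝ} {S : Set Ω} {a : ℝ}
    (hS : MeasurableSet S) (hg : Integrable g m) (h0 : ∀ o, 0 ≤ g o)
    (h : ∀ o ∈ S, a ≤ g o) : a * m.real S ≤ ∫ o, g o ∂m := by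
  by_cases ht : m S = ⊤
  · rw [Measure.real, ht, ENNReal.toReal_top, mul_zero]
    exact integral_nonneg h0
  · exact (setIntegral_ge_of_const_le_real hS ht h hg.integrableOn).trans
      (setIntegral_le_integral hg (Eventually.of_forall h0))

theorem small {a ε : ℝ} (C : ℝ) (ha : 0 < a) (hε : 0 < ε) :
    ∀ᶠ t in atBot, C * Real.exp (a * t) < ε := by
  have h1 : Tendsto (fun t : ℝ => C * Real.exp (a * t)) atBot (𝓝 (C * 0)) :=
    (Real.tendsto_exp_atBot.comp (tendsto_id.const_mul_atBot ha)).const_mul C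
  rw [mul_zero] at h1
  exact h1.eventually (gt_mem_nhds hε)

end OneL

open OneL in
theorem oneS (hGe : GenS) : OneS := by
  refine ⟨?_, ?_⟩
  · intro N Ω _ m Xf hX μ i hi hP hfin hm
    by_contra hθ
    push Not at hθ
    obtain ⟨τ, Λ, hτ, hΛ, hc⟩ := core hGe N (η := 1) one_pos
    set θ := thetaInf μ with hθd
    have I0 := integ hX (hfin (2 * θ + 1) (by linarith))
    have I1 := integ hX (hfin 1 le_rfl)
    have I2 := integ hX (hfin (2 * θ + 2) (by linarith))
    set K := ∫ o, Real.exp ((2 * θ + 1) * Xf o) ∂m with hK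
    set K1 := ∫ o, Real.exp (1 * Xf o) ∂m with hK1
    set K2 := ∫ o, Real.exp ((2 * θ + 2) * Xf o) ∂m with hK2
    have hK0 : 0 < K := by
      rw [hK, integral_pos_iff_support_of_nonneg (fun _ => (Real.exp_pos _).le) I0]
      have : (Function.support fun o => Real.exp ((2 * θ + 1) * Xf o)) = Set.univ :=
        Set.eq_univ_of_forall fun o => (Real.exp_pos _).ne'
      rw [this]
      exact Measure.measure_univ_pos.2 hm
    obtain ⟨t, ht1, ht2⟩ :=
      ((small K2 one_pos (mul_pos hτ hK0)).and (eventually_le_atBot (-1 : ℝ))).exists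
    set lam := Real.exp ((2 * θ - (2 * θ + 1)) * (-t + 1)) with hlam
    have hlam0 : 0 < lam := Real.exp_pos _
    obtain ⟨X0, ⟨hx1, hx2⟩, hx3⟩ :=
      (((small (Real.exp (2 * θ) * K1) (a := 2 * θ) (by linarith) (mul_pos hτ hK0)).and
        (small (Λ * (Real.exp 1 * K1)) (a := 2 * θ - 1) (by linarith) (mul_pos hlam0 hK0))).and
        (eventually_le_atBot (0 : ℝ))).exists
    have hlo : ∫ o in {o | Xf o ≤ X0 + 1}, Real.exp ((2 * θ + 1) * Xf o) ∂m ≤ τ * K := by
      refine le_trans (set_le (g := fun o => Real.exp (2 * θ * (X0 + 1)) * Real.exp (1 * Xf o))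
        (measurableSet_le hX measurable_const) I0 (I1.const_mul _) (fun _ => by positivity)
        fun o ho => ?_) ?_
      · rw [← Real.exp_add]
        have ho' : Xf o ≤ X0 + 1 := ho
        exact Real.exp_le_exp.2 (by nlinarith)
      · rw [integral_const_mul, mul_add, mul_one, Real.exp_add]
        linarith
    have hhi : ∫ o in {o | -t ≤ Xf o}, Real.exp ((2 * θ + 1) * Xf o) ∂m ≤ τ * K := by
      refine le_trans (set_le (g := fun o => Real.exp (1 * t) * Real.exp ((2 * θ + 2) * Xf o))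
        (measurableSet_le measurable_const hX) I0 (I2.const_mul _) (fun _ => by positivity)
        fun o ho => ?_) ?_
      · rw [← Real.exp_add]
        have ho' : -t ≤ Xf o := ho
        exact Real.exp_le_exp.2 (by nlinarith)
      · rw [integral_const_mul]
        linarith
    have h1 := hc Ω m Xf hX μ i hi hP (2 * θ + 1) X0 (-t) le_rfl (by linarith) (by linarith) I0
      hlo hhi
    have h2 : Real.exp (X0 - 1) * m.real {o | X0 - 1 ≤ Xf o ∧ Xf o ≤ X0} ≤ K1 :=
      real_le ((measurableSet_le measurable_const hX).inter (measurableSet_le hX measurable_const))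
        I1 (fun _ => (Real.exp_pos _).le) fun o ho => Real.exp_le_exp.2 (by linarith [ho.1])
    have h3 : Real.exp (2 * θ * X0) =
        Real.exp 1 * Real.exp ((2 * θ - 1) * X0) * Real.exp (X0 - 1) := by
      rw [← Real.exp_add, ← Real.exp_add]; congr 1; ring
    have h4 : Real.exp (2 * θ * X0) * m.real {o | X0 - 1 ≤ Xf o ∧ Xf o ≤ X0} ≤
        Real.exp 1 * Real.exp ((2 * θ - 1) * X0) * K1 := by
      rw [h3, mul_assoc]
      exact mul_le_mul_of_nonneg_left h2 (by positivity)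
    have h5 := mul_le_mul_of_nonneg_left h4 hΛ.le
    have h6 : Λ * (Real.exp 1 * Real.exp ((2 * θ - 1) * X0) * K1) =
        Λ * (Real.exp 1 * K1) * Real.exp ((2 * θ - 1) * X0) := by ring
    linarith
  · intro N η hη hη1
    obtain ⟨τ, Λ, hτ, hΛ, hc⟩ := core hGe N hη
    refine ⟨τ, min (τ * Real.exp (-1)) (Real.exp (-3) / Λ), hτ, by positivity, ?_⟩
    intro Ω _ m Xf hX μ i hi hθ hP hfin X0 X1 hX0 hX1 htail
    have hθ0 := theta_nonneg μ
    set θ := thetaInf μ with hθd
    have I0 := integ hX hfin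
    set K := ∫ o, Real.exp ((1 + η) * Xf o) ∂m with hK
    have hK0 : 0 ≤ K := integral_nonneg fun _ => (Real.exp_pos _).le
    have eK : ∫⁻ o, ENNReal.ofReal (Real.exp ((1 + η) * Xf o)) ∂m = ENNReal.ofReal K :=
      (ofReal_integral_eq_lintegral_ofReal I0
        (Eventually.of_forall fun _ => (Real.exp_pos _).le)).symm
    have g0 : ∀ o, 0 ≤ Real.exp (η * Xf o) * min 1 (Real.exp (Xf o - X0)) := fun o => by
      positivity
    have Ig : Integrable (fun o => Real.exp (η * Xf o) * min 1 (Real.exp (Xf o - X0))) m := by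
      refine I0.mono' (by fun_prop) (Eventually.of_forall fun o => ?_)
      rw [Real.norm_of_nonneg (g0 o)]
      calc _ ≤ Real.exp (η * Xf o) * Real.exp (Xf o - X0) :=
            mul_le_mul_of_nonneg_left (min_le_right _ _) (Real.exp_pos _).le
        _ ≤ _ := by rw [← Real.exp_add]; exact Real.exp_le_exp.2 (by linarith)
    rw [eK, ← ofReal_integral_eq_lintegral_ofReal Ig (Eventually.of_forall g0),
      ← ENNReal.ofReal_mul (by positivity)]
    refine ENNReal.ofReal_le_ofReal ?_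
    rw [eK, ← ofReal_integral_eq_lintegral_ofReal I0.integrableOn
      (Eventually.of_forall fun _ => (Real.exp_pos _).le), ← ENNReal.ofReal_mul hτ.le,
      ENNReal.ofReal_le_ofReal_iff (by positivity)] at htail
    set R := ∫ o, Real.exp (η * Xf o) * min 1 (Real.exp (Xf o - X0)) ∂m with hR
    set e := Real.exp (-2 * θ * X0 + (2 * θ - 1 - η) * X1) with he
    have he0 : 0 < e := Real.exp_pos _
    by_cases hlo : ∫ o in {o | Xf o ≤ X0 + 1}, Real.exp ((1 + η) * Xf o) ∂m ≤ τ * K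
    · have h1 := hc Ω m Xf hX μ i hi hP (1 + η) X0 X1 (by linarith) (by linarith) hX1 I0 hlo htail
      have h2 : Real.exp (-1) * m.real {o | X0 - 1 ≤ Xf o ∧ Xf o ≤ X0} ≤ R := by
        refine real_le ((measurableSet_le measurable_const hX).inter
          (measurableSet_le hX measurable_const)) Ig g0 fun o ho => ?_
        have a1 : 1 ≤ Real.exp (η * Xf o) :=
          Real.one_le_exp (mul_nonneg hη.le (by linarith [ho.1]))
        have a2 : Real.exp (-1) ≤ min 1 (Real.exp (Xf o - X0)) :=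
          le_min (Real.exp_le_one_iff.2 (by norm_num)) (Real.exp_le_exp.2 (by linarith [ho.1]))
        calc Real.exp (-1) = 1 * Real.exp (-1) := (one_mul _).symm
          _ ≤ _ := mul_le_mul a1 a2 (Real.exp_pos _).le (Real.exp_pos _).le
      set ms := m.real {o | X0 - 1 ≤ Xf o ∧ Xf o ≤ X0} with hms
      have h3 : Real.exp (-3) * e * Real.exp (2 * θ * X0) ≤
          Real.exp (-1) * Real.exp ((2 * θ - (1 + η)) * (X1 + 1)) := by
        rw [he, ← Real.exp_add, ← Real.exp_add, ← Real.exp_add]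
        exact Real.exp_le_exp.2 (by nlinarith)
      have h4 : Real.exp (-3) * e * K ≤ Λ * R := by
        refine le_of_mul_le_mul_left ?_ (Real.exp_pos (2 * θ * X0))
        calc _ = Real.exp (-3) * e * Real.exp (2 * θ * X0) * K := by ring
          _ ≤ Real.exp (-1) * Real.exp ((2 * θ - (1 + η)) * (X1 + 1)) * K :=
              mul_le_mul_of_nonneg_right h3 hK0
          _ = Real.exp (-1) * (Real.exp ((2 * θ - (1 + η)) * (X1 + 1)) * K) := by ring
          _ ≤ Real.exp (-1) * (Λ * (Real.exp (2 * θ * X0) * ms)) :=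
              mul_le_mul_of_nonneg_left h1 (Real.exp_pos _).le
          _ = Real.exp (2 * θ * X0) * (Λ * (Real.exp (-1) * ms)) := by ring
          _ ≤ _ := mul_le_mul_of_nonneg_left (mul_le_mul_of_nonneg_left h2 hΛ.le)
              (Real.exp_pos _).le
      calc _ ≤ Real.exp (-3) / Λ * e * K :=
            mul_le_mul_of_nonneg_right (mul_le_mul_of_nonneg_right (min_le_right _ _) he0.le) hK0
        _ = Real.exp (-3) * e * K / Λ := by ring
        _ ≤ R := by rw [div_le_iff₀ hΛ]; linarith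
    · push Not at hlo
      have h1 : ∫ o in {o | Xf o ≤ X0 + 1}, Real.exp (-X0 - 1) * Real.exp ((1 + η) * Xf o) ∂m ≤
          R := by
        refine set_le (measurableSet_le hX measurable_const) (I0.const_mul _) Ig g0 fun o ho => ?_
        have ho' : Xf o ≤ X0 + 1 := ho
        rw [mul_min_of_nonneg _ _ (Real.exp_pos _).le, mul_one, ← Real.exp_add, ← Real.exp_add]
        exact le_min (Real.exp_le_exp.2 (by linarith)) (Real.exp_le_exp.2 (by linarith))
      rw [integral_const_mul] at h1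
      have h2 : Real.exp (-1) * e ≤ Real.exp (-X0 - 1) := by
        rw [he, ← Real.exp_add]
        have a1 : 0 ≤ (1 + η - 2 * θ) * (X1 - X0) := mul_nonneg (by linarith) (by linarith)
        have a2 : 0 ≤ η * X0 := mul_nonneg hη.le (by linarith)
        exact Real.exp_le_exp.2 (by nlinarith)
      calc _ ≤ τ * Real.exp (-1) * e * K :=
            mul_le_mul_of_nonneg_right (mul_le_mul_of_nonneg_right (min_le_left _ _) he0.le) hK0
        _ = Real.exp (-1) * e * (τ * K) := by ring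
        _ ≤ Real.exp (-X0 - 1) * (τ * K) := mul_le_mul_of_nonneg_right h2 (by positivity)
        _ ≤ _ := (mul_le_mul_of_nonneg_left hlo.le (Real.exp_pos _).le).trans h1

end SI

end Pool.Agent.Lib.MP_fa98d2_nt.D
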