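import Pool.Agent.Lib.MP_fa98d2_nt.I.Stmts

/-! Density theorem at the real place: the central character. -/

open MeasureTheory Filter Topology Matrix
open scoped ENNReal Real ContDiff ComplexConjugate InnerProductSpace

noncomputable section

namespace Pool.Agent.Lib.MP_fa98d2_nt.D

namespace SI

open SW

namespace PP

variable {n : ℕ}

/-- the lower triangular matrix of the recurrence -/
def mat (α : Fin n → ℂ) : Matrix (Fin n) (Fin n) ℂ :=
  Matrix.of fun i l => if l = i then α i else if l.val < i.val then -1 else 0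

theorem mat_mulVec (α c : Fin n → ℂ) (i : Fin n) :
    (mat α *ᵥ c) i = α i * c i - ∑ l ∈ Finset.univ.filter (fun l : Fin n => l.val < i.val), c l := by
  have h : ∀ l, mat α i l * c l
      = (if l = i then α i * c i else 0) - (if l.val < i.val then c l else 0) := by
    intro l
    simp only [mat, Matrix.of_apply]
    by_cases h1 : l = i
    · subst h1; simp
    · by_cases h2 : l.val < i.val <;> simp [h1, h2]
  rw [Matrix.mulVec, dotProduct]
  simp only [h, Finset.sum_sub_distrib, Finset.sum_ite_eq', Finset.mem_univ, if_true,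
    Finset.sum_filter]

theorem mat_charpoly (α : Fin n → ℂ) :
    (mat α).charpoly = ∏ i, (Polynomial.X - Polynomial.C (α i)) := by
  rw [← Matrix.charpoly_transpose, Matrix.charpoly_of_isUpperTriangular _ (by
    intro i j hij
    have h1 : j < i := hij
    have h2 : ¬ i.val < j.val := not_lt.2 (le_of_lt h1)
    rw [Matrix.transpose_apply, mat, Matrix.of_apply, if_neg h1.ne', if_neg h2])]
  simp [mat]

theorem card_lt (i : Fin n) :
    (Finset.univ.filter fun l : Fin n => l.val < i.val).card = i.val := by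
  rw [← Fin.card_Iio i]
  congr 1
  ext l
  simp

theorem filt_succ {m : ℕ} (h : m < n) : (Finset.univ.filter fun l : Fin n => l.val < m + 1)
    = insert ⟨m, h⟩ (Finset.univ.filter fun l : Fin n => l.val < m) := by
  ext l
  simp only [Finset.mem_filter, Finset.mem_univ, true_and, Finset.mem_insert, Fin.ext_iff]
  omega

theorem low {M : Type} [AddCommGroup M] [Module ℂ M] {e : Fin n → Fin n → Module.End ℂ M}
    (he : Comm 1 e) (L : M →ₗ[ℂ] ℂ) (h0 : ∀ i j, i < j → L ∘ₗ e i j = 0) (ν : Fin n → ℂ)
    (h1 : ∀ i, L ∘ₗ e i i = ν i • L) (k : ℕ) :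
    (∀ i j, i < j → L ∘ₗ epw e k i j = 0) ∧ ∀ i, L ∘ₗ epw e k i i
      = (mat (fun i => ν i + (i.val : ℂ)) ^ k *ᵥ fun _ => (1 : ℂ)) i • L := by
  have hm : ∀ a b : Module.End ℂ M, L ∘ₗ (a * b) = (L ∘ₗ a) ∘ₗ b := fun _ _ => rfl
  have hs : ∀ f : Fin n → Module.End ℂ M, L ∘ₗ (∑ l, f l) = ∑ l, L ∘ₗ f l := fun f => by
    ext x; simp
  induction k with
  | zero =>
    refine ⟨fun i j hij => ?_, fun i => ?_⟩
    · simp [epw, hij.ne]
    · ext x; simp [epw]
  | succ k ih =>
    obtain ⟨a, b⟩ := ih
    have hc : ∀ i l j : Fin n, e i l * epw e k l j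
        = epw e k l j * e i l + (epw e k i j - if j = i then epw e k l l else 0) := by
      intro i l j
      have := Calc.comm_epw he i l k l j
      rw [if_pos rfl, sub_eq_iff_eq_add'] at this
      exact this
    refine ⟨fun i j hij => ?_, fun i => ?_⟩
    · rw [epw, hs]
      refine Finset.sum_eq_zero fun l _ => ?_
      rcases lt_trichotomy l i with h | h | h
      · rw [hc, if_neg hij.ne', sub_zero, LinearMap.comp_add, hm, a l j (h.trans hij), a i j hij]
        simp
      · rw [h, hm, h1, LinearMap.smul_comp, a i j hij, smul_zero]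
      · rw [hm, h0 i l h, LinearMap.zero_comp]
    · set c := mat (fun i => ν i + (i.val : ℂ)) ^ k *ᵥ fun _ => (1 : ℂ) with hcdef
      have ht : ∀ l, L ∘ₗ (e i l * epw e k l i) = ((if l = i then ν i * c i else 0)
          + ((if l.val < i.val then c i else 0) - if l.val < i.val then c l else 0)) • L := by
        intro l
        rcases lt_trichotomy l i with h | h | h
        · have h' : l.val < i.val := h
          rw [hc, if_pos rfl, LinearMap.comp_add, LinearMap.comp_sub, hm, a l i h, b, b,
            if_neg h.ne, if_pos h', if_pos h', LinearMap.zero_comp, zero_add, zero_add, sub_smul]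
        · rw [h, hm, h1, LinearMap.smul_comp, b, smul_smul]
          simp
        · have h' : ¬ l.val < i.val := not_lt.2 (le_of_lt h)
          rw [hm, h0 i l h, LinearMap.zero_comp, if_neg h.ne', if_neg h', if_neg h']
          simp
      rw [epw, hs, pow_succ', ← Matrix.mulVec_mulVec, ← hcdef, mat_mulVec]
      simp only [ht]
      rw [← Finset.sum_smul, Finset.sum_add_distrib, Finset.sum_sub_distrib, ← Finset.sum_filter,
        ← Finset.sum_filter, ← Finset.sum_filter, Finset.sum_const (c i), card_lt,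
        Finset.filter_eq', if_pos (Finset.mem_univ _), Finset.sum_singleton, nsmul_eq_mul]
      congr 1
      ring

open Bridge NearA in
theorem gel_val (m : ℕ) (μ : Fin n → ℂ) (P : Mat n → ℂ) (hP : IsPower μ P) :
    gelfand m P 1 = ∑ i, (mat (fun i => μ i + ((n : ℂ) - 1) / 2) ^ m *ᵥ fun _ => (1 : ℂ)) i := by
  set ν : Fin n → ℂ := fun i => μ i + rh n i with hν
  obtain ⟨e, hcomm, he, -, hg⟩ := hC.mod n (indV hC ν) (fun w hw => hw.1)
    fun a b => rd_mem hC ν _
  let L : indV hC ν →ₗ[ℂ] ℂ := (LinearMap.proj (1 : G n)).comp (indV hC ν).subtype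
  have hL : ∀ w : indV hC ν, L w = (w : G n → ℂ) 1 := fun _ => rfl
  have hLz := (low hcomm L
    (fun i j hij => LinearMap.ext fun w => by
      rw [LinearMap.comp_apply, hL, he, rd_one hC ν hij.le w.2, deriv_off ν hij.ne]
      simp) ν
    (fun i => LinearMap.ext fun w => by
      rw [LinearMap.comp_apply, hL, he, rd_one hC ν le_rfl w.2, deriv_diag]
      rfl) m).2
  have hα : (fun i : Fin n => ν i + (i.val : ℂ)) = fun i => μ i + ((n : ℂ) - 1) / 2 := by
    funext i
    simp only [hν, rh]
    ring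
  rw [hα] at hLz
  have hPV : (fun g : G n => P g.val) ∈ indV hC ν :=
    ⟨sm_of hP.smooth, fun b hb g => hP.left _ _ (det_ne b) (det_ne g) hb⟩
  have h2 : L ∘ₗ egel e m
      = (∑ i, (mat (fun i => μ i + ((n : ℂ) - 1) / 2) ^ m *ᵥ fun _ => (1 : ℂ)) i) • L := by
    rw [Finset.sum_smul, ← Finset.sum_congr rfl fun i _ => hLz i]
    ext x
    simp [egel]
  have h1 := LinearMap.congr_fun h2 ⟨_, hPV⟩
  rw [LinearMap.comp_apply, hL, hg, LinearMap.smul_apply, hL] at h1
  simpa only [gel_eq, Units.val_one, hP.one, smul_eq_mul, mul_one] using h1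

theorem tau_eq (A : Matrix (Fin n) (Fin n) ℂ) {γ : ℕ → ℂ}
    (h : ∀ m, γ m = ∑ i, (A ^ m *ᵥ fun _ => (1 : ℂ)) i) (f : Polynomial ℂ) :
    tau γ f = ∑ i, (Polynomial.aeval A f *ᵥ fun _ => (1 : ℂ)) i := by
  induction f using Polynomial.induction_on' with
  | add p q hp hq =>
    rw [tau, Polynomial.sum_add_index _ _ _ (by simp) (fun _ _ _ => add_mul _ _ _), map_add,
      Matrix.add_mulVec]
    simp only [Pi.add_apply, Finset.sum_add_distrib]
    rw [← hp, ← hq]
    rfl
  | monomial k c =>
    rw [tau, Polynomial.sum_monomial_index _ _ (by simp), h, Polynomial.aeval_monomial,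
      ← Algebra.smul_def, Matrix.smul_mulVec, Finset.mul_sum]
    rfl

theorem tele (α c : Fin n → ℂ) (u A : ℂ)
    (h : ∀ i, (u - α i) * c i
      = A - ∑ l ∈ Finset.univ.filter (fun l : Fin n => l.val < i.val), c l) (m : ℕ) (hm : m ≤ n) :
    (A - ∑ l ∈ Finset.univ.filter (fun l : Fin n => l.val < m), c l)
        * ∏ l ∈ Finset.univ.filter (fun l : Fin n => l.val < m), (u - α l)
      = A * ∏ l ∈ Finset.univ.filter (fun l : Fin n => l.val < m), (u - 1 - α l) := by
  induction m with
  | zero => simp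
  | succ m ih =>
    have hm' : m < n := hm
    have h1 := ih hm'.le
    have h2 := h ⟨m, hm'⟩
    have h3 : (⟨m, hm'⟩ : Fin n) ∉ Finset.univ.filter fun l : Fin n => l.val < m := by simp
    rw [filt_succ hm', Finset.sum_insert h3, Finset.prod_insert h3, Finset.prod_insert h3]
    dsimp only at h2
    linear_combination (u - 1 - α ⟨m, hm'⟩) * h1
      - (∏ l ∈ Finset.univ.filter (fun l : Fin n => l.val < m), (u - α l)) * h2

theorem ppf {γ : ℕ → ℂ} {μ : Fin n → ℂ}
    (h : ∀ m, γ m = ∑ i, (mat (fun i => μ i + ((n : ℂ) - 1) / 2) ^ m *ᵥ fun _ => (1 : ℂ)) i) :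
    PPf γ μ := by
  set α : Fin n → ℂ := fun i => μ i + ((n : ℂ) - 1) / 2 with hα
  have hA : Polynomial.aeval (mat α) (AA μ) = 0 := by
    have := Matrix.aeval_self_charpoly (mat α)
    rwa [mat_charpoly] at this
  have hev : ∀ v : ℂ, (AA μ).eval v = ∏ l, (v - α l) := fun v => by
    simp [AA, Polynomial.eval_prod, hα]
  refine ⟨fun g => ?_, fun u hu => ?_⟩
  · rw [tau_eq _ h, map_mul, hA]
    simp
  · rw [tau_eq _ h]
    set c := Polynomial.aeval (mat α) (QQ μ u) *ᵥ fun _ => (1 : ℂ) with hc
    have h1 := Polynomial.modByMonic_add_div (AA μ) (Polynomial.X - Polynomial.C u)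
    rw [Polynomial.modByMonic_X_sub_C_eq_C_eval] at h1
    have h2 := congrArg (fun f => Polynomial.aeval (mat α) f *ᵥ fun _ => (1 : ℂ)) h1
    have h3 : ∀ i, (u - α i) * c i = (AA μ).eval u
        - ∑ l ∈ Finset.univ.filter (fun l : Fin n => l.val < i.val), c l := by
      intro i
      have h4 := congrFun h2 i
      simp only [hA, map_add, map_mul, map_sub, Polynomial.aeval_C, Polynomial.aeval_X,
        Algebra.algebraMap_eq_smul_one, Matrix.add_mulVec, ← Matrix.mulVec_mulVec,
        Matrix.sub_mulVec, Matrix.smul_mulVec, Matrix.one_mulVec, Matrix.zero_mulVec,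
        Pi.add_apply, Pi.sub_apply, Pi.smul_apply, smul_eq_mul, mul_one, Pi.zero_apply] at h4
      change _ + ((mat α *ᵥ c) i - u * c i) = 0 at h4
      rw [mat_mulVec] at h4
      linear_combination -h4
    have h5 := tele α c u _ h3 n le_rfl
    have h6 : (Finset.univ.filter fun l : Fin n => l.val < n) = Finset.univ :=
      Finset.filter_true_of_mem fun l _ => l.2
    rw [h6, ← hev, ← hev] at h5
    apply mul_right_cancel₀ hu
    linear_combination -h5

end PP

theorem ppS : PPS := by
  intro n φ μ α h γ hγ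
  obtain ⟨P, hP, e⟩ := NearA.cen_val h hγ
  exact PP.ppf fun m => (e m).trans (PP.gel_val m μ P hP)

end SI

end Pool.Agent.Lib.MP_fa98d2_nt.D
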