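import Pool.Agent.Lib.MP_fa98d2_nt.I.Stmts

/-! Density theorem at the real place: the normalisation. -/

open MeasureTheory Filter Topology Matrix
open scoped ENNReal Real ContDiff ComplexConjugate InnerProductSpace

noncomputable section

namespace Pool.Agent.Lib.MP_fa98d2_nt.D

namespace SI

open SW

namespace Rs

variable {N : ℕ}

lemma isO_sw (i : Fin (N + 1)) : IsO (sw i) := by
  have h1 : (Equiv.swap i (Fin.last N)).permMatrix ℝ *
      ((Equiv.swap i (Fin.last N)).permMatrix ℝ)ᵀ = 1 := by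
    rw [Matrix.transpose_permMatrix, ← Matrix.permMatrix_mul, inv_mul_cancel,
      Matrix.permMatrix_one]
  have h : ((Equiv.swap i (Fin.last N)).permMatrix ℝ).det ≠ 0 := by
    intro h0
    have h2 := congrArg Matrix.det h1
    rw [Matrix.det_mul, h0, zero_mul, Matrix.det_one] at h2
    exact zero_ne_one h2
  rw [IsO, sw, val_mkG h, Matrix.mem_orthogonalGroup_iff]
  exact h1

lemma dt_isO {k : ℕ} {a : G k} (ha : IsO a) : dt a = 1 := by
  have h1 := congrArg Matrix.det ((Matrix.mem_orthogonalGroup_iff _ _).1 ha)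
  rw [Matrix.det_mul, Matrix.det_transpose, Matrix.det_one] at h1
  have h2 : |a.val.det| ^ 2 = 1 := by rw [sq_abs, sq, h1]
  exact (pow_eq_one_iff_of_nonneg (abs_nonneg _) two_ne_zero).1 h2

lemma dot_isO {k : ℕ} {a : G k} (ha : IsO a) (r : Fin k → ℝ) :
    (r ᵥ* a.val) ⬝ᵥ (r ᵥ* a.val) = r ⬝ᵥ r := by
  rw [← Matrix.dotProduct_mulVec, Matrix.mulVec_vecMul,
    (Matrix.mem_orthogonalGroup_iff _ _).1 ha, Matrix.one_mulVec]

/-- the Gaussian weight -/
def gw (s : ℝ) (g : G (N + 1)) : ℝ≥0∞ :=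
  ENNReal.ofReal (dt g ^ s) * ENNReal.ofReal (Real.exp (-π * (lr g ⬝ᵥ lr g)))

lemma gw_meas (s : ℝ) : Measurable (gw (N := N) s) := by
  have h : Continuous fun g : G (N + 1) => Real.exp (-π * (lr g ⬝ᵥ lr g)) :=
    Real.continuous_exp.comp (continuous_const.mul (continuous_lr.dotProduct continuous_lr))
  exact (measurable_dt.pow_const s).ennreal_ofReal.mul h.measurable.ennreal_ofReal

lemma gw_u (s : ℝ) : UInv (gw (N := N) s) := by
  intro u hu g
  rw [gw, gw, dt_mul, hu.dt, one_mul, hu.lr_mul]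

lemma gw_o (s : ℝ) : OInv (gw (N := N) s) := by
  intro a ha g
  rw [gw, gw, dt_mul, dt_isO ha, mul_one, lr_mul, dot_isO ha]

lemma gw_ex (hTw : TwS) (s : ℝ) (x : RR N) :
    gw s (ex x) = ENNReal.ofReal (Real.exp (s * sX x) * Gs x) := by
  rw [gw, hTw.det, hTw.row, ← Real.exp_mul, mul_comm (sX x) s,
    ENNReal.ofReal_mul (Real.exp_pos _).le, Gs, single_dotProduct, Pi.single_eq_same,
    ← Real.exp_add, two_mul]

lemma cone_le_gauss (r : Fin (N + 1) → ℝ) : cone (Fin.last N) r ≤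
    ENNReal.ofReal (Real.exp (π * (4 * (N + 1)))) * ENNReal.ofReal (Real.exp (-π * (r ⬝ᵥ r))) := by
  unfold cone
  split_ifs with h
  · rw [← ENNReal.ofReal_mul (Real.exp_pos _).le, ← Real.exp_add, ENNReal.one_le_ofReal,
      Real.one_le_exp_iff]
    have h1 : r ⬝ᵥ r ≤ 4 * (N + 1) := by
      calc r ⬝ᵥ r = ∑ j, r j * r j := rfl
        _ ≤ ∑ _j : Fin (N + 1), (4 : ℝ) := by
            refine Finset.sum_le_sum fun j _ => ?_
            have h2 := abs_le.1 ((h.2.2 j).trans h.2.1)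
            nlinarith [h2.1, h2.2]
        _ = 4 * (N + 1) := by
            rw [Finset.sum_const, Finset.card_univ, Fintype.card_fin, nsmul_eq_mul]
            push_cast
            ring
    nlinarith [Real.pi_pos]
  · exact zero_le

lemma iv_le (hTw : TwS) (hTo : TorS) (N : ℕ) : ∃ C : ℝ≥0∞, C ≠ ⊤ ∧ ∀ F : G (N + 1) → ℂ, Aut F →
    OInv F → ∀ s : ℝ, Iv s (cone (Fin.last N)) (W1 F) ≤ C * KS s (tW (W1 F)) := by
  obtain ⟨C, hC, H⟩ := hTo.ge N
  refine ⟨ENNReal.ofReal (Real.exp (π * (4 * (N + 1)))) * C,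
    ENNReal.mul_ne_top ENNReal.ofReal_ne_top hC, fun F hF hO s => ?_⟩
  have h1 := H F hF hO (gw s) (gw_meas s) (gw_u s) (gw_o s)
  simp only [gw_ex hTw] at h1
  rw [mul_assoc]
  refine le_trans ?_ (mul_le_mul_right h1 _)
  unfold Iv II
  rw [← lintegral_const_mul' _ _ ENNReal.ofReal_ne_top]
  refine lintegral_mono fun x => ?_
  simp only [gw]
  rw [← mul_assoc, mul_left_comm]
  exact mul_le_mul_left (mul_le_mul_right (cone_le_gauss _) _) _

open RB in
/-- the Dirichlet series and the constant -/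
lemma ds_bound (N : ℕ) (hN : 1 ≤ N) (C0 η ε : ℝ) (hη : 0 < η) (hη1 : η ≤ 1) (hε : 0 < ε) :
    ∃ C B : ℝ, 0 < C ∧ ∀ T : ℝ, 1 ≤ T → ∀ d : Dat N, Pr1 d.α → Gam (N + 1) C0 T d.γ →
      ∀ φ : d.V, φ ≠ 0 → 1 ≤ C * T ^ B * d.R ∧ ∃ S : ℕ → (Fin (N + 1) → ℕ) → ℂ,
        (∀ p : ℕ, p.Prime → IsSch (d.α p) (S p)) ∧
          DS (cf S) (1 + η) ≤ ENNReal.ofReal (C * T ^ ε) := by
  obtain ⟨c, C1, CM, -, -, -, HL⟩ := hLoc N C0
  obtain ⟨CR, hCR, HR⟩ := hRB N hN CM 1 one_pos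
  obtain ⟨M, K, hK, HJ⟩ := jj_bound lat hR hD hN
  set m : ℕ := 2 * M + (N + 1) with hm
  have hm0 : (0 : ℝ) < m + 1 := by positivity
  obtain ⟨CE, hCE, HE⟩ := euler N (2 * (N + 1) ^ 2)
    (((N + 1).factorial * ((N : ℕ) + 1) ^ ((N + 1) ^ 2) : ℝ) ^ 2) η (ε / (m + 1)) hη (by positivity)
  have hKM : K * ENNReal.ofReal (CM M) ≠ ⊤ := ENNReal.mul_ne_top hK ENNReal.ofReal_ne_top
  obtain ⟨A, hA, hA2, hA3⟩ : ∃ A : ℝ, 1 ≤ A ∧ K * ENNReal.ofReal (CM M) ≤ ENNReal.ofReal A ∧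
      CM 0 ≤ A := by
    have a2 : 0 ≤ (K * ENNReal.ofReal (CM M)).toReal := ENNReal.toReal_nonneg
    have a3 := abs_nonneg (CM 0)
    have a4 := le_abs_self (CM 0)
    refine ⟨1 + (K * ENNReal.ofReal (CM M)).toReal + |CM 0|, by linarith, ?_, by linarith⟩
    rw [ENNReal.le_ofReal_iff_toReal_le hKM (by linarith)]
    linarith
  have hA0 : 0 < A := by linarith
  set X0 : ℝ := 1 + 2 / η * (A ^ 2 * CR) with hX0
  have hX1 : 1 ≤ X0 := le_add_of_nonneg_right (by positivity)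
  have hXe : 0 < CE * X0 ^ (ε / (m + 1)) := by positivity
  refine ⟨A ^ 2 + CE * X0 ^ (ε / (m + 1)), m, by positivity, ?_⟩
  intro T hT d hα hγ φ hφ
  have hT0 : 0 < T := by linarith
  have hR0 := d.iso.1
  have hφ' : (φ : G (N + 1) → ℂ) ≠ 0 := fun h => hφ (Subtype.ext h)
  obtain ⟨Λ, b, -, -, -, HN⟩ := HL T hT
  obtain ⟨-, w, hw⟩ := HN d.α d.γ d.R hγ d.iso ⟨φ, hφ', d.inV φ, d.cen φ⟩
  obtain ⟨hRle, hal⟩ := HR T hT d.α d.R hα d.iso ⟨w, hw⟩
  rw [Real.rpow_one] at hRle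
  obtain ⟨h0, hw, hsob, hkk⟩ := hw
  obtain ⟨S, hS0, hSp⟩ := exists_S schur hα
  have hY : K * Sob M w ≤ ENNReal.ofReal (A * T ^ (2 * M)) * N2 w := by
    refine (mul_le_mul_right (hsob M) _).trans ?_
    rw [← mul_assoc, ENNReal.ofReal_mul' (by positivity), ENNReal.ofReal_mul' (by positivity),
      ← mul_assoc]
    exact mul_le_mul_left (mul_le_mul_left hA2 _) _
  have H1 : ∀ s, 1 < s → s ≤ 3 →
      ENNReal.ofReal (s - 1) * DS (cf S) s ≤ ENNReal.ofReal (A ^ 2 * T ^ m * d.R) := by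
    intro s hs hs3
    refine (ds_le hQ hR hSh hN hSp d.iso hw h0 hs ENNReal.ofReal_ne_top
      ((HJ ball2 ball_meas ball_le ball_zero s hs hs3 w hw.sm hw.aut hw.cusp).trans hY)
      (hkk s hs.le hs3)).trans ?_
    rw [← ENNReal.ofReal_mul hR0.le, ← ENNReal.ofReal_mul (by positivity)]
    refine ENNReal.ofReal_le_ofReal ?_
    calc A * T ^ (2 * M) * (d.R * (CM 0 * T ^ (N + 1)))
        ≤ A * T ^ (2 * M) * (d.R * (A * T ^ (N + 1))) := by gcongr
      _ = A ^ 2 * T ^ m * d.R := by rw [hm]; ring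
  refine ⟨?_, S, hSp, ?_⟩
  · have h1 := H1 2 (by norm_num) (by norm_num)
    rw [show (2 : ℝ) - 1 = 1 by norm_num, ENNReal.ofReal_one, one_mul] at h1
    have h2 := ENNReal.one_le_ofReal.1 ((one_le_DS S 2).trans h1)
    rw [Real.rpow_natCast]
    refine h2.trans ?_
    gcongr
    exact le_add_of_nonneg_right hXe.le
  · obtain ⟨-, H4⟩ := HE (af S) (fun p => by simp [af, lam_zero, hS0]) (fun p k => sq_nonneg _)
      fun p hp k => af_le S hp (hSp p hp) (hal p hp) k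
    simp only [← DS_eq] at H4
    have hP : 1 ≤ T ^ (m + 1) := one_le_pow₀ hT
    have s2 : DS (cf S) (1 + η / 2) ≤ ENNReal.ofReal (X0 * T ^ (m + 1)) := by
      have h1 := H1 (1 + η / 2) (by linarith) (by linarith)
      rw [add_sub_cancel_left] at h1
      rw [← ENNReal.mul_le_mul_iff_right (ENNReal.ofReal_pos.2 (half_pos hη)).ne'
        ENNReal.ofReal_ne_top, ← ENNReal.ofReal_mul (half_pos hη).le]
      refine h1.trans (ENNReal.ofReal_le_ofReal ?_)
      calc A ^ 2 * T ^ m * d.R ≤ A ^ 2 * T ^ m * (CR * T) :=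
            mul_le_mul_of_nonneg_left hRle (by positivity)
        _ = η / 2 * ((2 / η * (A ^ 2 * CR)) * T ^ (m + 1)) := by field_simp; ring
        _ ≤ η / 2 * (X0 * T ^ (m + 1)) := by
            refine mul_le_mul_of_nonneg_left (mul_le_mul_of_nonneg_right ?_ (by positivity))
              (half_pos hη).le
            rw [hX0]
            linarith
    refine (H4 _ (one_le_mul_of_one_le_of_one_le hX1 hP) s2).trans (ENNReal.ofReal_le_ofReal ?_)
    have e1 : (T ^ (m + 1)) ^ (ε / (m + 1)) = T ^ ε := by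
      rw [← Real.rpow_natCast, ← Real.rpow_mul hT0.le]
      congr 1
      push_cast
      field_simp
    rw [Real.mul_rpow (by positivity) (by positivity), e1, ← mul_assoc]
    exact mul_le_mul_of_nonneg_right (le_add_of_nonneg_left (by positivity)) (by positivity)

end Rs

open RB in
theorem rsS (hTw : TwS) (hTo : TorS) : RsS := by
  intro N hN C0 η ε hη hη1 hε
  obtain ⟨C, B, hC, H⟩ := Rs.ds_bound N hN C0 η ε hη hη1 hε
  obtain ⟨CI, hCI, HI⟩ := Rs.iv_le hTw hTo N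
  have hκ := kap_pos N
  set A : ℝ := 1 + 4 * ((N + 1 : ℕ) : ℝ) * CI.toReal / kap N with hA
  have hA1 : 1 ≤ A := le_add_of_nonneg_right (by positivity)
  refine ⟨A * C, B, by positivity, ?_⟩
  intro T hT d hα hγ φ hφ hs
  have hT0 : 0 < T := by linarith
  obtain ⟨h1, S, hS, h2⟩ := H T hT d hα hγ φ hφ
  have hR0 := d.iso.1
  refine ⟨h1.trans ?_, ?_⟩
  · gcongr
    exact le_mul_of_one_le_left hC.le hA1
  have hO : OInv (φ : G (N + 1) → ℂ) := fun a ha g => congrFun (hs a ha) g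
  have h3 := HI _ (d.aut φ) hO (1 + η)
  have h4 : ∀ i, JJ (1 + η) (cone i) (φ : G (N + 1) → ℂ) ≤
      2 * (ENNReal.ofReal (C * T ^ ε) * (CI * KS (1 + η) (tW (d.W φ)))) := by
    intro i
    rw [hR.swp N _ i _ (d.aut φ), hs _ (Rs.isO_sw i),
      jj_eq hR hSh hS _ (hR.conem N (Fin.last N)) (d.inV φ)]
    exact mul_le_mul' (hR.zeta N _ hN (by linarith)).2 (mul_le_mul' h2 h3)
  have h5 := (mink_bound lat hR (s := 1 + η) (by linarith) (d.aut φ)).trans
    (mul_le_mul_right (Finset.sum_le_sum fun i _ => h4 i) 2)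
  rw [Finset.sum_const, Finset.card_univ, Fintype.card_fin, nsmul_eq_mul] at h5
  rw [← ENNReal.mul_le_mul_iff_right (ENNReal.ofReal_pos.2 hκ).ne' ENNReal.ofReal_ne_top]
  refine h5.trans ?_
  have h6 : (4 : ℝ≥0∞) * ((N + 1 : ℕ) : ℝ≥0∞) * CI ≤ ENNReal.ofReal (kap N) * ENNReal.ofReal A := by
    rw [← ENNReal.ofReal_mul hκ.le]
    have h7 : 4 * ((N + 1 : ℕ) : ℝ) * CI.toReal ≤ kap N * A := by
      rw [hA, mul_add, mul_div_cancel₀ _ hκ.ne']
      linarith
    refine le_trans (le_of_eq ?_) (ENNReal.ofReal_le_ofReal h7)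
    rw [ENNReal.ofReal_mul (by positivity), ENNReal.ofReal_mul (by norm_num),
      ENNReal.ofReal_natCast, ENNReal.ofReal_ofNat, ENNReal.ofReal_toReal hCI]
  calc 2 * (((N + 1 : ℕ) : ℝ≥0∞) *
        (2 * (ENNReal.ofReal (C * T ^ ε) * (CI * KS (1 + η) (tW (d.W φ))))))
      = (4 * ((N + 1 : ℕ) : ℝ≥0∞) * CI) *
        (ENNReal.ofReal (C * T ^ ε) * KS (1 + η) (tW (d.W φ))) := by ring
    _ ≤ ENNReal.ofReal (kap N) * ENNReal.ofReal A *
        (ENNReal.ofReal (C * T ^ ε) * KS (1 + η) (tW (d.W φ))) := mul_le_mul_left h6 _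
    _ = _ := by
        rw [mul_assoc A, ENNReal.ofReal_mul (p := A) (by linarith)]
        ring

end SI

end Pool.Agent.Lib.MP_fa98d2_nt.D
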