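import Pool.Agent.Lib.MP_fa98d2_nt.W.Kir
import Pool.Agent.Lib.MP_fa98d2_nt.W.Near
import Pool.Agent.Lib.MP_fa98d2_nt.I.Defs

/-!
Density theorem at the real place for cusp forms on PGL(n): definitions and statements of the
modules. Paper proof: `fa98_inf_PROOF.md` in the team store.
-/

open MeasureTheory Filter Topology Matrix
open scoped ENNReal Real ContDiff ComplexConjugate InnerProductSpace

noncomputable section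

namespace Pool.Agent.Lib.MP_fa98d2_nt.D

namespace SI

open SW

variable {N : ℕ}

/-! ### The matrix of generators on a spherical vector -/

/-- the trace functional of a central character -/
def tau (γ : ℕ → ℂ) (f : Polynomial ℂ) : ℂ := f.sum fun k c => c * γ k

/-- the characteristic polynomial -/
def AA {n : ℕ} (μ : Fin n → ℂ) : Polynomial ℂ :=
  ∏ i, (Polynomial.X - Polynomial.C (μ i + ((n : ℂ) - 1) / 2))

/-- its difference quotient at `u` -/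
def QQ {n : ℕ} (μ : Fin n → ℂ) (u : ℂ) : Polynomial ℂ := AA μ /ₘ (Polynomial.X - Polynomial.C u)

structure PPf {n : ℕ} (γ : ℕ → ℂ) (μ : Fin n → ℂ) : Prop where
  ann : ∀ g, tau γ (AA μ * g) = 0
  val : ∀ u, (AA μ).eval u ≠ 0 → tau γ (QQ μ u) = (AA μ).eval u - (AA μ).eval (u - 1)

def PPS : Prop :=
  ∀ (n : ℕ) (φ : Mat n → ℂ) (μ : Fin n → ℂ) (α : ℕ → Fin n → ℂ), SphCusp φ μ α →
    ∀ γ : ℕ → ℂ, Cen γ (fun g : G n => φ g.val) → PPf γ μ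

/-- entries of a polynomial in the matrix of generators -/
def Pf {n : ℕ} {M : Type} [AddCommGroup M] [Module ℂ M] (e : Fin n → Fin n → Module.End ℂ M)
    (f : Polynomial ℂ) (i j : Fin n) : Module.End ℂ M := f.sum fun k c => c • epw e k i j

/-- spherical vector -/
def Sph (d : Dat N) (φ : d.V) : Prop := ∀ a, IsO a → rt a (φ : G (N + 1) → ℂ) = φ

/-- killed by the orthogonal Lie algebra -/
def LSph (d : Dat N) (φ : d.V) : Prop := ∀ a b, d.e a b φ = d.e b a φ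

structure AlgS : Prop where
  ch : ∀ (N : ℕ) (d : Dat N) (φ : d.V) (μ : Fin (N + 1) → ℂ), LSph d φ → PPf d.γ μ →
    ∀ i j, Pf d.e (AA μ) i j φ = 0
  par : ∀ (N : ℕ) (d : Dat N) (φ : d.V) (μ : Fin (N + 1) → ℂ), φ ≠ 0 → LSph d φ → PPf d.γ μ →
    0 < thetaInf μ → ∃ i k, (μ i).re = -thetaInf μ ∧ μ k = -conj (μ i)
  col : ∀ (N : ℕ) (d : Dat N) (φ : d.V), LSph d φ → ∀ (f : Polynomial ℂ) (b : Fin (N + 1)),
    Pf d.e (Polynomial.X * f) b (Fin.last N) φ =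
      (∑ l, (if b ≤ l then d.e b l else d.e l b) (Pf d.e f l (Fin.last N) φ)) +
        (b.val : ℂ) • Pf d.e f b (Fin.last N) φ -
        if b = Fin.last N then tau d.γ f • φ - Pf d.e f (Fin.last N) (Fin.last N) φ else 0

structure SphS : Prop where
  inv : ∀ N : ℕ, 1 ≤ N → ∀ (α : ℕ → Fin (N + 1) → ℂ) (F : G (N + 1) → ℂ), Pr1 α → Form α F →
    InV α F
  lie : ∀ (N : ℕ) (d : Dat N) (φ : d.V), Sph d φ → LSph d φ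
  sob : ∀ N : ℕ, 1 ≤ N → ∀ (J : ℕ) (C0 : ℝ), ∃ C : ℝ, 0 < C ∧ ∀ T : ℝ, 1 ≤ T → ∀ d : Dat N,
    Gam (N + 1) C0 T d.γ → ∀ φ : d.V, LSph d φ → d.Sb T (C * ‖d.K φ‖) J φ

/-! ### The Toda chain, algebraically -/

section toda
variable {F Z : Type} [AddCommGroup F] [Module ℂ F] [AddCommGroup Z] [Module ℂ Z]

structure Tod (N : ℕ) (p q : ℕ → Module.End ℂ F) : Prop where
  pp : ∀ a b, p a * p b = p b * p a
  qq : ∀ a b, q a * q b = q b * q a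
  pq : ∀ a b, a ≤ N → b ≤ N → p a * q b = q b * p a +
    ((if a = b then 2 else 0) - (if a = b + 1 then 2 else 0) : ℂ) • q b

/-- the first column of the monodromy matrix -/
def tA (p q : ℕ → Module.End ℂ F) (u : ℂ) : ℕ → Module.End ℂ F × Module.End ℂ F
  | 0 => (1, 0)
  | b + 1 => ((u • 1 - p b) * (tA p q u b).1 + (tA p q u b).2, q b * (tA p q u b).1)

/-- joint eigenvector of the Toda Hamiltonians -/
def Eig (N : ℕ) (p q : ℕ → Module.End ℂ F) (μ : Fin (N + 1) → ℂ) (f : F) : Prop :=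
  ∃ s : Finset ℂ, ∀ u ∉ s, (tA p q u (N + 1)).1 f = (∏ k, (u - μ k)) • f

/-- a pairing with integration by parts -/
structure Grn (N : ℕ) (p q : ℕ → Module.End ℂ F) (S : Module.End ℂ Z)
    (B : F →ₗ[ℂ] F →ₗ[ℂ] Z) : Prop where
  symm : ∀ f g, B f g = B g f
  ibp : ∀ b, b ≤ N → ∀ f g, B (p b f) g + B f (p b g) =
    -S (B f g) + if b = N then B (q N f) g else 0
  mul : ∀ b, b ≤ N → ∀ f g, B (q b f) g = B f (q b g)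

/-- a complex conjugation that makes a pairing positive -/
structure Her (N : ℕ) (p q : ℕ → Module.End ℂ F) (β : F →ₗ[ℂ] F →ₗ[ℂ] ℂ) (J : F → F) : Prop where
  add : ∀ f g, J (f + g) = J f + J g
  smul : ∀ (c : ℂ) f, J (c • f) = conj c • J f
  jp : ∀ b, b ≤ N → ∀ f, J (p b f) = p b (J f)
  jq : ∀ b, b ≤ N → ∀ f, J (q b f) = q b (J f)
  herm : ∀ f g, conj (β f (J g)) = β g (J f)
  pos : ∀ l : List ℕ, (∀ b ∈ l, b ≤ N) → ∀ f, 0 ≤ (β ((l.map q).prod f) (J f)).re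

end toda

/-- the shifts in the recurrence for the pairing of two eigenfunctions -/
def zs (μ μ' : Fin (N + 1) → ℂ) (i : Fin (N + 1)) : List ℂ :=
  (List.ofFn fun k => μ i + μ' k + if k = i then 2 else 0) ++ List.ofFn fun k => μ' i + μ k

structure TodaS : Prop where
  all : ∀ (N : ℕ) (F : Type) [AddCommGroup F] [Module ℂ F] (p q : ℕ → Module.End ℂ F)
    (μ : Fin (N + 1) → ℂ) (f : F), Eig N p q μ f →
    ∀ u, (tA p q u (N + 1)).1 f = (∏ k, (u - μ k)) • f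
  shift : ∀ (N : ℕ) (F : Type) [AddCommGroup F] [Module ℂ F] (p q : ℕ → Module.End ℂ F),
    Tod N p q → ∀ (μ : Fin (N + 1) → ℂ) (f : F), Eig N p q μ f → ∀ i,
    Eig N p q (fun k => μ k + if k = i then 2 else 0) ((tA p q (μ i) (N + 1)).2 f)

structure GrnS : Prop where
  one : ∀ (N : ℕ) (F Z : Type) [AddCommGroup F] [Module ℂ F] [AddCommGroup Z] [Module ℂ Z]
    (p q : ℕ → Module.End ℂ F) (S : Module.End ℂ Z) (B : F →ₗ[ℂ] F →ₗ[ℂ] Z),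
    Tod N p q → Grn N p q S B → ∀ (μ' : Fin (N + 1) → ℂ) (g : F), Eig N p q μ' g →
    ∀ (u : ℂ) (f : F), B ((tA p q u (N + 1)).1 f) g + B ((tA p q u (N + 1)).2 f) g =
      (List.ofFn fun k => S + (u + μ' k) • (1 : Module.End ℂ Z)).prod (B f g)
  prod : ∀ (N : ℕ) (F Z : Type) [AddCommGroup F] [Module ℂ F] [AddCommGroup Z] [Module ℂ Z]
    (p q : ℕ → Module.End ℂ F) (S : Module.End ℂ Z) (B : F →ₗ[ℂ] F →ₗ[ℂ] Z),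
    Tod N p q → Grn N p q S B → ∀ (μ μ' : Fin (N + 1) → ℂ) (f g : F), Eig N p q μ f →
    Eig N p q μ' g → ∀ i, B ((tA p q (μ i) (N + 1)).2 f) ((tA p q (μ' i) (N + 1)).2 g) =
      ((zs μ μ' i).map fun z => S + z • (1 : Module.End ℂ Z)).prod (B f g)

def ResS : Prop :=
  ∀ N : ℕ, 1 ≤ N → ∀ (F : Type) [AddCommGroup F] [Module ℂ F] (p q : ℕ → Module.End ℂ F) (s : ℝ)
    (β : F →ₗ[ℂ] F →ₗ[ℂ] ℂ) (J : F → F), Tod N p q →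
    Grn N p q ((s : ℂ) • (1 : Module.End ℂ ℂ)) β → Her N p q β J → ∀ (u c : ℂ) (f : F),
    (tA p q u (N + 1)).1 f = c • f → u.re = -2 - s / 2 →
    (β (((List.range N).map q).prod f) (J f)).re ≤ ‖c‖ ^ 2 / 4 * (β f (J f)).re

/-! ### Functions on the torus -/

/-- logarithmic coordinates on the torus -/
abbrev RR (N : ℕ) : Type := Fin (N + 1) → ℝ

/-- logarithm of the determinant -/
def sX (x : RR N) : ℝ := ∑ i, x i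

/-- the Gaussian of the last row -/
def Gs (x : RR N) : ℝ := Real.exp (-π * Real.exp (2 * x (Fin.last N)))

/-- derivative in a coordinate direction -/
def pd (b : Fin (N + 1)) (f : RR N → ℂ) (x : RR N) : ℂ := fderiv ℝ f x (Pi.single b 1)

/-- the potentials -/
def qf (b : Fin (N + 1)) (x : RR N) : ℝ :=
  Fin.lastCases (2 * π * Real.exp (2 * x (Fin.last N)))
    (fun i : Fin N => 4 * π ^ 2 * Real.exp (2 * (x i.castSucc - x i.succ))) b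

/-- weighted square norm -/
def KS (s : ℝ) (f : RR N → ℂ) : ℝ≥0∞ :=
  ∫⁻ x, ENNReal.ofReal (Real.exp (s * sX x) * Gs x) * ‖f x‖ₑ ^ 2

/-- a space of functions on the torus on which the Toda operators act -/
structure TF (N : ℕ) where
  F : Submodule ℂ (RR N → ℂ)
  p : ℕ → Module.End ℂ F
  q : ℕ → Module.End ℂ F
  J : F → F
  sm : ∀ f ∈ F, ContDiff ℝ ∞ f
  fin1 : ∀ f ∈ F, KS 1 f ≠ ⊤
  p_val : ∀ (b : Fin (N + 1)) (f : F), (p b f : RR N → ℂ) = pd b f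
  q_val : ∀ (b : Fin (N + 1)) (f : F) (x : RR N),
    (q b f : RR N → ℂ) x = (qf b x : ℂ) * (f : RR N → ℂ) x
  J_val : ∀ (f : F) (x : RR N), (J f : RR N → ℂ) x = conj ((f : RR N → ℂ) x)
  tod : Tod N p q
  mem : ∀ S : Submodule ℂ (RR N → ℂ), (∀ f ∈ S, ContDiff ℝ ∞ f ∧ KS 1 f ≠ ⊤ ∧
    (∀ b, pd b f ∈ S) ∧ ∀ b, (fun x => (qf b x : ℂ) * f x) ∈ S) → S ≤ F

/-- the same with the pairing against functions of the determinant -/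
structure TM (N : ℕ) extends TF N where
  T : Submodule ℂ (ℝ → ℂ)
  Dv : Module.End ℂ T
  B : F →ₗ[ℂ] F →ₗ[ℂ] Module.Dual ℂ T
  D_val : ∀ Θ : T, (Dv Θ : ℝ → ℂ) = deriv (Θ : ℝ → ℂ)
  T_cpt : ∀ Θ : ℝ → ℂ, ContDiff ℝ ∞ Θ → HasCompactSupport Θ → Θ ∈ T
  T_exp : ∀ s : ℝ, 1 ≤ s → (fun t : ℝ => ((Real.exp (s * t) : ℝ) : ℂ)) ∈ T
  int : ∀ (f g : F) (Θ : T), Integrable fun x : RR N =>
    (Θ : ℝ → ℂ) (sX x) * (Gs x : ℂ) * (f : RR N → ℂ) x * (g : RR N → ℂ) x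
  B_val : ∀ (f g : F) (Θ : T), B f g Θ =
    ∫ x : RR N, (Θ : ℝ → ℂ) (sX x) * (Gs x : ℂ) * (f : RR N → ℂ) x * (g : RR N → ℂ) x
  grn : Grn N p q Dv.dualMap B

def ClsAS : Prop := ∀ N : ℕ, Nonempty (TF N)

def ClsBS : Prop := ∀ N : ℕ, TF N → Nonempty (TM N)

/-- a product of first order operators -/
def DP (z : List ℂ) (Θ : ℝ → ℂ) : ℝ → ℂ := z.foldr (fun c f => deriv f + c • f) Θ

/-- the measure of a function on the torus -/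
def mP (f : RR N → ℂ) : Measure (RR N) :=
  volume.withDensity fun x => ENNReal.ofReal (Gs x) * ‖f x‖ₑ ^ 2

/-- positivity of a differential operator applied to a measure -/
def Pos {Ω : Type} [MeasurableSpace Ω] (m : Measure Ω) (Xf : Ω → ℝ) (z : List ℂ) : Prop :=
  ∀ Θ : ℝ → ℝ, ContDiff ℝ ∞ Θ → HasCompactSupport Θ → (∀ t, 0 ≤ Θ t) →
    0 ≤ (∫ o, DP z (fun t => (Θ t : ℂ)) (Xf o) ∂m).re

structure PosS : Prop where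
  fin : ∀ (N : ℕ) (M : TM N) (f : M.F) (s : ℝ), 1 ≤ s → KS s (f : RR N → ℂ) ≠ ⊤
  pos : ∀ (N : ℕ) (M : TM N) (f : M.F) (μ : Fin (N + 1) → ℂ), Eig N M.p M.q μ f →
    ∀ i, Pos (mP (f : RR N → ℂ)) sX (zs μ (fun k => conj (μ k)) i)
  res : ∀ N : ℕ, 1 ≤ N → ∀ (M : TM N) (f : M.F) (μ : Fin (N + 1) → ℂ), Eig N M.p M.q μ f →
    ∀ s : ℝ, 1 ≤ s → ∀ u : ℂ, u.re = -2 - s / 2 →
    KS s (fun x => ((Real.exp (x 0 - x (Fin.last N)) : ℝ) : ℂ) * (f : RR N → ℂ) x) ≤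
      ENNReal.ofReal (‖∏ k, (u - μ k)‖ ^ 2) * KS s (f : RR N → ℂ)

/-- the size of a product of first order operators -/
def ell (z : List ℂ) (s : ℝ) : ℝ := (z.map fun c => 1 + ‖(s : ℂ) + c‖).prod

/-- the comparison of two cut off exponentials -/
def GenS : Prop :=
  ∀ L : ℕ, ∃ H : ℝ, 0 < H ∧ ∀ (Ω : Type) [MeasurableSpace Ω] (m : Measure Ω) (Xf : Ω → ℝ),
    Measurable Xf → ∀ z : List ℂ, z.length = L → Pos m Xf z → ∀ s1 s0 X0 X1 : ℝ, 0 ≤ s1 →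
    s1 ≤ s0 → X0 + 1 ≤ X1 → (z.map fun c => (s1 : ℂ) + c).prod = 0 →
    Integrable (fun o => Real.exp (s0 * Xf o)) m →
    Real.exp ((s1 - s0) * (X1 + 1)) *
        ((z.map fun c => (s0 : ℂ) + c).prod.re * (∫ o, Real.exp (s0 * Xf o) ∂m) -
          (‖(z.map fun c => (s0 : ℂ) + c).prod‖ + 2 * H * ell z s0) *
            ((∫ o in {o | Xf o ≤ X0 + 1}, Real.exp (s0 * Xf o) ∂m) +
              ∫ o in {o | X1 ≤ Xf o}, Real.exp (s0 * Xf o) ∂m)) ≤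
      H * ell z s1 * (Real.exp (s1 * X0) * m.real {o | X0 - 1 ≤ Xf o ∧ Xf o ≤ X0} +
        Real.exp ((s1 - s0) * (X1 + 1)) * ∫ o in {o | X1 ≤ Xf o}, Real.exp (s0 * Xf o) ∂m)

structure OneS : Prop where
  half : ∀ (N : ℕ) (Ω : Type) [MeasurableSpace Ω] (m : Measure Ω) (Xf : Ω → ℝ), Measurable Xf →
    ∀ (μ : Fin (N + 1) → ℂ) (i : Fin (N + 1)), (μ i).re = -thetaInf μ →
    Pos m Xf (zs μ (fun k => conj (μ k)) i) →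
    (∀ s : ℝ, 1 ≤ s → ∫⁻ o, ENNReal.ofReal (Real.exp (s * Xf o)) ∂m ≠ ⊤) → m ≠ 0 →
    thetaInf μ ≤ 1 / 2
  low : ∀ (N : ℕ) (η : ℝ), 0 < η → η ≤ 1 → ∃ τ c : ℝ, 0 < τ ∧ 0 < c ∧
    ∀ (Ω : Type) [MeasurableSpace Ω] (m : Measure Ω) (Xf : Ω → ℝ), Measurable Xf →
    ∀ (μ : Fin (N + 1) → ℂ) (i : Fin (N + 1)), (μ i).re = -thetaInf μ → thetaInf μ ≤ 1 / 2 →
    Pos m Xf (zs μ (fun k => conj (μ k)) i) →
    ∫⁻ o, ENNReal.ofReal (Real.exp ((1 + η) * Xf o)) ∂m ≠ ⊤ →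
    ∀ X0 X1 : ℝ, 1 ≤ X0 → X0 + 1 ≤ X1 →
    ∫⁻ o in {o | X1 ≤ Xf o}, ENNReal.ofReal (Real.exp ((1 + η) * Xf o)) ∂m ≤
      ENNReal.ofReal τ * ∫⁻ o, ENNReal.ofReal (Real.exp ((1 + η) * Xf o)) ∂m →
    ENNReal.ofReal (c * Real.exp (-2 * thetaInf μ * X0 + (2 * thetaInf μ - 1 - η) * X1)) *
        ∫⁻ o, ENNReal.ofReal (Real.exp ((1 + η) * Xf o)) ∂m ≤
      ∫⁻ o, ENNReal.ofReal (Real.exp (η * Xf o) * min 1 (Real.exp (Xf o - X0))) ∂m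

/-- the region that carries the mass -/
def Good (N : ℕ) (T Z : ℝ) : Set (RR N) :=
  {x | (∀ b : Fin N, Real.exp (x b.castSucc - x b.succ) ≤ T * Z) ∧ Real.exp (x (Fin.last N)) ≤ Z}

/-- the reciprocal of the lattice point count -/
def omg (x : RR N) : ℝ := ∏ b, min 1 (Real.exp (x b - x (Fin.last N)))

/-- the mass seen by the Bessel inequality -/
def MM (η T Z : ℝ) (f : RR N → ℂ) : ℝ≥0∞ :=
  ∫⁻ x in Good N T Z, ENNReal.ofReal (Real.exp (η * sX x) * omg x) * ‖f x‖ₑ ^ 2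

/-- the mass off the good region -/
def KB (s T Z : ℝ) (f : RR N → ℂ) : ℝ≥0∞ :=
  ∫⁻ x in (Good N T Z)ᶜ, ENNReal.ofReal (Real.exp (s * sX x) * Gs x) * ‖f x‖ₑ ^ 2

/-- elementary geometry of the good region -/
structure GeoS : Prop where
  meas : ∀ (N : ℕ) (T Z : ℝ), MeasurableSet (Good N T Z)
  low : ∀ (N : ℕ) (T Z : ℝ), 1 ≤ T → 1 ≤ Z → ∀ x ∈ Good N T Z,
    min 1 (Real.exp (sX x) / T ^ N.choose 2) ≤ Z ^ (DD N + 1) * omg x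
  top : ∀ N : ℕ, 1 ≤ N → ∀ T Z : ℝ, 1 ≤ T → 1 ≤ Z → ∀ x ∈ Good N T Z,
    Real.exp (sX x) ≤ Real.exp (x 0 - x (Fin.last N)) * T ^ N.choose 2 * Z ^ (DD N + 1)
  vol : ∀ (N : ℕ) (η : ℝ), 0 < η → ∃ C : ℝ, 0 < C ∧ ∀ T Z : ℝ, 1 ≤ T → 1 ≤ Z →
    ∫⁻ x in Good N T Z, ENNReal.ofReal (Real.exp (η * sX x)) ≤
      ENNReal.ofReal (C * (T * Z) ^ ((DD N + N + 1 : ℝ) * η))

def LocS : Prop :=
  ∀ N : ℕ, 1 ≤ N → ∃ κ : ℝ, 0 < κ ∧ ∀ η e1 : ℝ, 0 < η → η ≤ 1 → 0 < e1 → e1 ≤ 1 →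
    ∃ A c T0 : ℝ, 0 < c ∧ 1 ≤ T0 ∧ ∀ T : ℝ, T0 ≤ T → ∀ (M : TM N) (f : M.F)
      (μ : Fin (N + 1) → ℂ), Eig N M.p M.q μ f → (∀ l, ‖μ l‖ ≤ T) → 0 < thetaInf μ →
      ∀ i k, (μ i).re = -thetaInf μ → μ k = -conj (μ i) →
      KB (1 + η) T (T ^ e1) (f : RR N → ℂ) ≤
        ENNReal.ofReal (T ^ (-A)) * KS (1 + η) (f : RR N → ℂ) →
      ENNReal.ofReal (c * T ^ (2 * ((N : ℝ) - 1) * thetaInf μ - (DD N - 1) - κ * (η + e1))) *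
        KS (1 + η) (f : RR N → ℂ) ≤ MM η T (T ^ e1) (f : RR N → ℂ)

/-- Sobolev inequality at scale `1 / T` for functions that are constant along the centre -/
def SobS : Prop :=
  ∀ N : ℕ, ∃ C : ℝ, 0 < C ∧ ∀ T : ℝ, 1 ≤ T → ∀ f : RR N → ℂ, ContDiff ℝ ∞ f →
    (∀ (t : ℝ) (x : RR N), f (fun i => x i + t) = f x) → ∀ (x0 : RR N) (Bd : ℝ≥0∞),
    (∀ l : List (Fin (N + 1)), l.length ≤ N →
      ∫⁻ x in Set.Icc x0 fun i => x0 i + 2, ‖l.foldr pd f x‖ₑ ^ 2 ≤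
        ENNReal.ofReal (T ^ (2 * l.length)) * Bd) →
    ‖f x0‖ₑ ^ 2 ≤ ENNReal.ofReal (C * T ^ N) * Bd

/-! ### From the group to the torus -/

/-- half the sum of the positive roots -/
def rho (N : ℕ) (i : Fin (N + 1)) : ℝ := ((N : ℝ) - 2 * i.val) / 2

/-- the torus element with given logarithmic coordinates -/
def ex {k : ℕ} (x : Fin k → ℝ) : G k := dg fun i => Real.exp (x i)

/-- normalised restriction to the torus -/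
def tW (W : G (N + 1) → ℂ) (x : RR N) : ℂ :=
  ((Real.exp (-∑ i, rho N i * x i) : ℝ) : ℂ) * W (ex x)

/-- invariant under the orthogonal group on the right -/
def OInv {k : ℕ} {β : Type} (H : G k → β) : Prop := ∀ a, IsO a → ∀ g, H (g * a) = H g

structure TwS : Prop where
  sm : ∀ (N : ℕ) (W : G (N + 1) → ℂ), Sm W → ContDiff ℝ ∞ (tW W)
  diag : ∀ (N : ℕ) (W : G (N + 1) → ℂ), Sm W → ∀ (b : Fin (N + 1)) (x : RR N),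
    tW (Rd (em b b) W) x = pd b (tW W) x + (rho N b : ℂ) * tW W x
  off : ∀ (N : ℕ) (W : G (N + 1) → ℂ), Sm W → Eqv (fun _ => 1) W → ∀ i j : Fin (N + 1), i < j →
    ∀ x : RR N, tW (Rd (em i j) W) x = (if j.val = i.val + 1 then
      2 * π * Complex.I * ((Real.exp (x i - x j) : ℝ) : ℂ) else 0) * tW W x
  cen : ∀ (N : ℕ) (W : G (N + 1) → ℂ), SInv W → ∀ (t : ℝ) (x : RR N),
    tW W (fun i => x i + t) = tW W x
  nrm : ∀ (N : ℕ) (W : G (N + 1) → ℂ) (x : RR N),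
    ‖tW W x‖ₑ ^ 2 = ENNReal.ofReal (dl fun i => Real.exp (x i))⁻¹ * ‖W (ex x)‖ₑ ^ 2
  det : ∀ (N : ℕ) (x : RR N), dt (ex x) = Real.exp (sX x)
  row : ∀ (N : ℕ) (x : RR N), lr (ex x) = Pi.single (Fin.last N) (Real.exp (x (Fin.last N)))

def LinkS : Prop :=
  ∀ (N : ℕ) (M : TM N) (d : Dat N) (φ : d.V) (μ : Fin (N + 1) → ℂ), LSph d φ → PPf d.γ μ →
    ∀ h : tW (d.W φ) ∈ M.F, Eig N M.p M.q μ ⟨tW (d.W φ), h⟩

open Classical in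
/-- Iwasawa coordinates and a lattice point count -/
structure IaS : Prop where
  dec : ∀ (k : ℕ) (g : G k), ∃ (u o : G k) (a : Fin k → ℝ), IsU u ∧ IsO o ∧ (∀ i, 0 < a i) ∧
    g = u * dg a * o
  ia : ∀ k : ℕ, ∃ ia : G k → Fin k → ℝ, Measurable ia ∧ ∀ (u o : G k) (a : Fin k → ℝ), IsU u →
    IsO o → (∀ i, 0 < a i) → ia (u * dg a * o) = a
  cnt : ∀ (k : ℕ) (u : G k), IsU u → ∀ R : Fin k → ℝ, (∀ i, 0 ≤ R i) →
    ∑' ξ : Fin k → ℤ, (if ∀ i, |(zv ξ ᵥ* u.val) i| ≤ R i then (1 : ℝ≥0∞) else 0) ≤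
      ENNReal.ofReal (∏ i, (1 + 2 * R i))

def IwaS : Prop :=
  ∀ k : ℕ, ∃ c : ℝ≥0∞, c ≠ 0 ∧ c ≠ ⊤ ∧ ∀ H : G k → ℝ≥0∞, Measurable H → UInv H → OInv H →
    II k H = c * ∫⁻ x : Fin k → ℝ, ENNReal.ofReal (dl fun i => Real.exp (x i))⁻¹ * H (ex x)

structure TorS : Prop where
  le : ∀ N m : ℕ, ∃ C : ℝ≥0∞, C ≠ ⊤ ∧ ∀ F : G (N + 1) → ℂ, Sm F → Aut F → OInv F →
    ∀ w : G (N + 1) → ℝ≥0∞, Measurable w → UInv w → OInv w → ∀ Bd : ℝ≥0∞,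
    (∀ l : Wd N, l.length = m → II (N + 1) (fun g => w g * ‖W1 (Rw l F) g‖ₑ ^ 2) ≤ Bd) →
    ∀ l : Wd N, l.length = m → ∫⁻ x : RR N, w (ex x) * ‖tW (W1 (Rw l F)) x‖ₑ ^ 2 ≤ C * Bd
  ge : ∀ N : ℕ, ∃ C : ℝ≥0∞, C ≠ ⊤ ∧ ∀ F : G (N + 1) → ℂ, Aut F → OInv F →
    ∀ w : G (N + 1) → ℝ≥0∞, Measurable w → UInv w → OInv w →
    II (N + 1) (fun g => w g * ‖W1 F g‖ₑ ^ 2) ≤ C * ∫⁻ x : RR N, w (ex x) * ‖tW (W1 F) x‖ₑ ^ 2

structure MomS : Prop where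
  mom : ∀ N m j : ℕ, ∃ C : ℝ, 0 < C ∧ ∀ (d : Dat N) (φ : d.V), Sph d φ → ∀ a : ℝ,
    (∀ l : Wd N, l.length = m → ‖d.K (ew d.e l φ)‖ ≤ a) → ∀ l : Wd N, l.length = m →
    KS 1 (fun x => ((Real.exp (j * x (Fin.last N)) : ℝ) : ℂ) * tW (d.W (ew d.e l φ)) x) ≤
      ENNReal.ofReal (C * a ^ 2)
  mem : ∀ (N : ℕ) (M : TM N) (d : Dat N) (φ : d.V), Sph d φ → tW (d.W φ) ∈ M.F

def TailS : Prop :=
  ∀ N : ℕ, 1 ≤ N → ∀ C0 e1 A : ℝ, 0 < e1 → ∃ C : ℝ, 0 < C ∧ ∀ T : ℝ, 1 ≤ T → ∀ d : Dat N,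
    Gam (N + 1) C0 T d.γ → ∀ φ : d.V, Sph d φ → ∀ s : ℝ, 1 ≤ s → s ≤ 2 →
    KB s T (T ^ e1) (tW (d.W φ)) ≤ ENNReal.ofReal (C * T ^ (-A) * ‖d.K φ‖ ^ 2)

def RsS : Prop :=
  ∀ N : ℕ, 1 ≤ N → ∀ C0 η ε : ℝ, 0 < η → η ≤ 1 → 0 < ε → ∃ C B : ℝ, 0 < C ∧ ∀ T : ℝ, 1 ≤ T →
    ∀ d : Dat N, Pr1 d.α → Gam (N + 1) C0 T d.γ → ∀ φ : d.V, φ ≠ 0 → Sph d φ →
    1 ≤ C * T ^ B * d.R ∧
      N2 (φ : G (N + 1) → ℂ) ≤ ENNReal.ofReal (C * T ^ ε) * KS (1 + η) (tW (d.W φ))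

def BesS : Prop :=
  ∀ N : ℕ, ∃ C : ℝ≥0∞, C ≠ ⊤ ∧ ∀ x0 : RR N, ∃ w : G (N + 1) → ℝ≥0∞, Measurable w ∧ UInv w ∧
    OInv w ∧ (∀ x ∈ Set.Icc x0 fun i => x0 i + 2, 1 ≤ w (ex x)) ∧ ∀ F : G (N + 1) → ℂ, Aut F →
      ENNReal.ofReal (omg x0) * II (N + 1) (fun g => w g * ‖W1 F g‖ₑ ^ 2) ≤ C * N2 F

def PwS : Prop :=
  ∀ (N : ℕ) (a : ℝ), ∃ C : ℝ, 0 < C ∧ ∀ T : ℝ, 1 ≤ T → ∀ (ι : Type) [Fintype ι] (d : ι → Dat N)
    (φ : ∀ j, (d j).V), (∀ j, φ j ≠ 0) → (∀ j, Sph (d j) (φ j)) →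
    (∀ j, (d j).Sb T (a * ‖(d j).K (φ j)‖) N (φ j)) →
    (∀ i j, i ≠ j → ∃ q : ℕ, q.Prime ∧ ∃ r, r ≤ N + 1 ∧ esy ((d i).α q) r ≠ esy ((d j).α q) r) →
    ∀ x : RR N, omg x * ∑ j, ‖tW ((d j).W (φ j)) x‖ ^ 2 /
      (N2 (φ j : G (N + 1) → ℂ)).toReal ≤ C * T ^ N

/-- the estimate in terms of the data of the library -/
def MainS : Prop :=
  ∀ N : ℕ, 1 ≤ N → ∀ C0 ε : ℝ, 0 < ε → ∃ C T0 : ℝ, 1 ≤ T0 ∧ ∀ T : ℝ, T0 ≤ T →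
    ∀ (ι : Type) [Fintype ι] (d : ι → Dat N) (φ : ∀ j, (d j).V) (μ : ι → Fin (N + 1) → ℂ),
    (∀ j, φ j ≠ 0) → (∀ j, Sph (d j) (φ j)) → (∀ j, Pr1 (d j).α) →
    (∀ j, Gam (N + 1) C0 T (d j).γ) → (∀ j, PPf (d j).γ (μ j)) → (∀ j l, ‖μ j l‖ ≤ T) →
    (∀ j, 0 < thetaInf (μ j)) →
    (∀ i j, i ≠ j → ∃ q : ℕ, q.Prime ∧ ∃ r, r ≤ N + 1 ∧ esy ((d i).α q) r ≠ esy ((d j).α q) r) →
    ∑ j, T ^ (2 * ((N : ℝ) - 1) * thetaInf (μ j)) ≤ C * T ^ ((DD N : ℝ) + N - 1 + ε)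

/-- the final statement -/
def FinS : Prop :=
  ∀ n : ℕ, 2 ≤ n → ∀ ε : ℝ, 0 < ε → ∃ C : ℝ, ∀ T : ℝ, 1 ≤ T →
    ∀ (ι : Type) [Fintype ι] (φ : ι → Mat n → ℂ) (μ : ι → Fin n → ℂ) (α : ι → ℕ → Fin n → ℂ),
      (∀ j, SphCusp (φ j) (μ j) (α j)) →
      (∀ i j, i ≠ j → ¬ ∃ c : ℂ, ∀ g : Mat n, g.det ≠ 0 → φ j g = c * φ i g) →
      (∀ j l, ‖μ j l‖ ≤ T) → (∀ j, 0 < thetaInf (μ j)) →
      ∑ j, T ^ (2 * ((n : ℝ) - 2) * thetaInf (μ j)) ≤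
        C * T ^ (((n : ℝ) - 1) * (n + 2) / 2 - 1 + ε)

end SI

end Pool.Agent.Lib.MP_fa98d2_nt.D
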